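import Pool.Agent.Work.MP_e10cd8_co.Up.Step

-- merged part: Pool.Agent.Work.MP_e10cd8_co.Far.Defs
section
/-! Definitions for the upper bound in the whole range `m ≤ n ^ (1 - δ)`. -/

namespace Pool.Agent.Work.MP_e10cd8_co.Far
open Finset Real Pool.Agent.Work.MP_e10cd8_co.Up

variable {V X ι J : Type} [Fintype V] [Fintype X] [Fintype ι] [Fintype J]

/-- bilinear contractions -/
def UU (V X : Type) [Fintype V] [Fintype X] : Set (V → X → ℝ) :=
  {U | ∀ (y : V → ℝ) (z : X → ℝ),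
    ∑ v, ∑ x, y v * U v x * z x ≤ (∑ v, y v ^ 2 + ∑ x, z x ^ 2) / 2}

/-- the nuclear norm -/
noncomputable def nuc (Z : V → X → ℝ) : ℝ :=
  sSup ((fun U : V → X → ℝ => ∑ v, ∑ x, U v x * Z v x) '' UU V X)

/-- the doubly centred kernel -/
def cen (p : V → ℝ) (p' : X → ℝ) (M : V → X → ℝ) (v : V) (x : X) : ℝ :=
  M v x - ∑ y, p' y * M v y - ∑ u, p u * M u x + ∑ u, ∑ y, p u * p' y * M u y

/-- the weighted nuclear norm of the centred kernel -/
noncomputable def Nf (p : V → ℝ) (p' : X → ℝ) (M : V → X → ℝ) : ℝ :=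
  nuc fun v x => √(p v) * √(p' x) * cen p p' M v x

/-- first marginal -/
def mA (P : V × X → ℝ) (v : V) : ℝ := ∑ x, P (v, x)

/-- second marginal -/
def mB (P : V × X → ℝ) (x : X) : ℝ := ∑ v, P (v, x)

/-- `h ^ 2 / 2` up to `1`, then `h - 1 / 2` -/
noncomputable def psi (h : ℝ) : ℝ := min h 1 * h - min h 1 ^ 2 / 2

/-- the tilted second moment -/
noncomputable def ee (p : V → ℝ) (p' : X → ℝ) (h : V → ℝ) (h' : X → ℝ) (M : V → X → ℝ) : ℝ :=
  ∑ v, ∑ x, p v * exp (-h v) * (p' x * exp (-h' x)) * M v x ^ 2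

/-- negative entropy -/
noncomputable def HH (p : V → ℝ) : ℝ := ∑ v, p v * log (p v)

/-- mutual information -/
noncomputable def II (P : V × X → ℝ) : ℝ := HH P - HH (mA P) - HH (mB P)

/-- relative entropy -/
noncomputable def KL (p ω : V → ℝ) : ℝ := HH p - ∑ v, p v * log (ω v)

/-- the bracket -/
noncomputable def br (M : V → X → ℝ) (P : V × X → ℝ) (h : V → ℝ) (h' : X → ℝ) : ℝ :=
  log (ee (mA P) (mB P) h h' M) + II P + ∑ v, mA P v * h v + ∑ x, mB P x * h' x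

/-- the potential -/
noncomputable def Psi (ω : V → ℝ) (ω' : X → ℝ) (M : V → X → ℝ) (Θ w γ ζ κ : ℝ)
    (P : V × X → ℝ) (h : V → ℝ) (h' : X → ℝ) : ℝ :=
  Nf (mA P) (mB P) M / Θ + w * br M P h h' + γ * II P +
    ζ * (∑ v, mA P v * psi (h v) + ∑ x, mB P x * psi (h' x)) +
    κ * (KL (mA P) ω + KL (mB P) ω')

/-- the states -/
def Dom (E : Finset (V × X)) (lo hi : ℝ) (P : V × X → ℝ) (h : V → ℝ) (h' : X → ℝ) : Prop :=
  Pb P ∧ (∀ z, z ∉ E → P z = 0) ∧ (∀ v, lo ≤ h v ∧ h v ≤ hi) ∧ ∀ x, lo ≤ h' x ∧ h' x ≤ hi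

/-- a state of least potential -/
def IsMn (ω : V → ℝ) (ω' : X → ℝ) (M : V → X → ℝ) (Θ w γ ζ κ : ℝ) (E : Finset (V × X))
    (lo hi : ℝ) (P : V × X → ℝ) (h : V → ℝ) (h' : X → ℝ) : Prop :=
  Dom E lo hi P h h' ∧ ∀ P1 h1 h1', Dom E lo hi P1 h1 h1' →
    Psi ω ω' M Θ w γ ζ κ P h h' ≤ Psi ω ω' M Θ w γ ζ κ P1 h1 h1'

/-- centred orthogonal features -/
def Sd [DecidableEq ι] (p : V → ℝ) (μ : ι → ℝ) (a : V → ι → ℝ) : Prop :=
  (∀ i, 0 ≤ μ i) ∧ (∀ i j, ∑ v, p v * (a v i * a v j) = if i = j then μ i else 0) ∧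
    ∀ i, ∑ v, p v * a v i = 0

/-- a factorisation on the supports, up to a row term and a column term -/
def Fac (p : V → ℝ) (p' : X → ℝ) (M : V → X → ℝ) (a : V → ι → ℝ) (b : X → ι → ℝ)
    (r : V → ℝ) (r' : X → ℝ) : Prop :=
  ∀ v x, 0 < p v → 0 < p' x → M v x = ∑ i, a v i * b x i + r v + r' x

/-- tilted covariance -/
def al (p : V → ℝ) (a : V → ι → ℝ) (g : V → ℝ) (i j : ι) : ℝ := ∑ v, p v * g v * (a v i * a v j)

/-- the square of the weighted matrix norm -/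
noncomputable def Yn (μ : ι → ℝ) (Z : ι → ι → ℝ) : ℝ := ∑ i, ∑ j, Z i j ^ 2 / (μ i + μ j)

/-- tilts move the covariance little -/
def YB (p : V → ℝ) (μ : ι → ℝ) (a : V → ι → ℝ) (q : ℝ) : Prop :=
  ∀ g : V → ℝ, ∑ v, p v * g v = 0 → Yn μ (al p a g) ≤ q * ∑ v, p v * g v ^ 2

/-- row energy of the centred kernel -/
def et (μ : ι → ℝ) (a : V → ι → ℝ) (v : V) : ℝ := ∑ k, μ k * a v k ^ 2

/-- the second-order term of the penalty -/
noncomputable def zt (p h G t : V → ℝ) (η : ℝ) : ℝ :=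
  ∑ v, p v * (min (h v) 1 * (G v - t v) ^ 2 / 2 - η * min (h v) 1 * G v + (G v - t v - η) ^ 2 / 2)

/-- the second-order condition -/
def Mast (P : V × X → ℝ) (h : V → ℝ) (h' : X → ℝ) (M : V → X → ℝ) (μ : ι → ℝ) (a : V → ι → ℝ)
    (b : X → ι → ℝ) (Θ w γ ζ κ : ℝ) : Prop :=
  ∀ (Gt : V × X → ℝ) (G' t' : V → ℝ) (G t : X → ℝ) (η η' : ℝ) (S : ι → ι → ℝ),
    (∀ i j, S i j = S j i) → ∑ z, P z * Gt z = 0 →
    (∀ v, mA P v * G' v = ∑ x, P (v, x) * Gt (v, x)) →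
    (∀ x, mB P x * G x = ∑ v, P (v, x) * Gt (v, x)) →
    0 ≤ (∑ i, ∑ j, (S i j * (al (mA P) a G' i j - al (mB P) b G i j) + (μ i + μ j) * S i j ^ 2)) / Θ +
      w * ((∑ v, ∑ x, mA P v * exp (-h v) * t' v * (mB P x * exp (-h' x) * t x) * M v x ^ 2) /
          ee (mA P) (mB P) h h' M + (∑ z, P z * Gt z ^ 2) / 2 +
        ∑ v, mA P v * (t' v ^ 2 / 2 - G' v * t' v) + ∑ x, mB P x * (t x ^ 2 / 2 - G x * t x)) +
      γ / 2 * (∑ z, P z * Gt z ^ 2 - ∑ v, mA P v * G' v ^ 2 - ∑ x, mB P x * G x ^ 2) +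
      ζ * (zt (mA P) h G' t' η + zt (mB P) h' G t η') +
      κ / 2 * (∑ v, mA P v * G' v ^ 2 + ∑ x, mB P x * G x ^ 2)

/-- upper symmetric second derivative at `0` is at most `2 c` -/
def U2 (f : ℝ → ℝ) (c : ℝ) : Prop :=
  ∀ θ : ℝ, 0 < θ → ∀ᶠ ε in nhdsWithin (0 : ℝ) (Set.Ioi 0),
    f ε + f (-ε) - 2 * f 0 ≤ (2 * c + θ) * ε ^ 2

/-- symmetric second derivative at `0` equal to `2 c` -/
def T2 (f : ℝ → ℝ) (c : ℝ) : Prop := U2 f c ∧ U2 (fun ε => -f ε) (-c)

/-- no dense pair up to depth `Λ` -/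
def Reg (ω : V → ℝ) (ω' : X → ℝ) (E : Finset (V × X)) (Λ η : ℝ) : Prop :=
  ∀ (f : V → ℝ) (g : X → ℝ), Le (exp Λ) ω f → Le (exp Λ) ω' g → ∑ v, f v ≤ 1 → ∑ x, g x ≤ 1 →
    ∑ z ∈ E, f z.1 * g z.2 ≤ η

/-- the kernel between different parts -/
def Wo [DecidableEq J] (W : V → V → ℝ) (o o' : J × V) : ℝ := if o.1 = o'.1 then 0 else W o.2 o'.2

/-- weights with equal parts, vanishing off `Z` -/
def KK (J : Type) [Fintype J] (Z : Finset V) : Set (J × V → ℝ) :=
  {ω | (∀ o, 0 ≤ ω o) ∧ (∀ j, ∑ x, ω (j, x) = 1 / Fintype.card J) ∧ ∀ o, o.2 ∉ Z → ω o = 0}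

/-- a minimiser of the free energy -/
def KMin [DecidableEq J] (W : V → V → ℝ) (β : ℝ) (Z : Finset V) (ω : J × V → ℝ) : Prop :=
  ω ∈ KK J Z ∧ ∀ μ ∈ KK J Z, free_F (Wo W) β ω ≤ free_F (Wo W) β μ

/-- mean zero on every part -/
def Zs (ω g : J × V → ℝ) : Prop := ∀ j, ∑ x, ω (j, x) * g (j, x) = 0

/-- degree into the other parts -/
def fo [DecidableEq J] (W : V → V → ℝ) (ω : J × V → ℝ) (o : J × V) : ℝ := ∑ o', ω o' * Wo W o o'

/-- mean degree of a part -/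
def fb [DecidableEq J] (W : V → V → ℝ) (ω : J × V → ℝ) (j : J) : ℝ :=
  Fintype.card J * ∑ x, ω (j, x) * fo W ω (j, x)

/-- mean gradient on a part -/
noncomputable def cj [DecidableEq J] (W : V → V → ℝ) (β : ℝ) (ω : J × V → ℝ) (j : J) : ℝ :=
  Fintype.card J * ∑ x, ω (j, x) * free_l (Wo W) β ω (j, x)

/-- density of the neighbourhood of `v` in a part -/
def dj (W : V → V → ℝ) (ω : J × V → ℝ) (v : V) (j : J) : ℝ :=
  Fintype.card J * ∑ x, ω (j, x) * W v x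

/-- the residual of `v` -/
noncomputable def Rv (W : V → V → ℝ) (ω : J × V → ℝ) (v : V) (o : J × V) : ℝ :=
  (W v o.2 - dj W ω v o.1) / (1 - dj W ω v o.1)

/-- the second-order cost of the move `ω g` -/
def cost [DecidableEq J] (W : V → V → ℝ) (β : ℝ) (ω g : J × V → ℝ) : ℝ :=
  ∑ o, ω o * g o ^ 2 + β * Q (Wo W) (fun o => ω o * g o) fun o => ω o * g o

theorem mA_pb {P : V × X → ℝ} (h : Pb P) : Pb (mA P) :=
  ⟨fun _ => sum_nonneg fun _ _ => h.1 _, by rw [← h.2, Fintype.sum_prod_type]; rfl⟩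

theorem mB_pb {P : V × X → ℝ} (h : Pb P) : Pb (mB P) :=
  ⟨fun _ => sum_nonneg fun _ _ => h.1 _, by rw [← h.2, Fintype.sum_prod_type_right]; rfl⟩

theorem le_mA {P : V × X → ℝ} (h : Pb P) (z : V × X) : P z ≤ mA P z.1 :=
  single_le_sum (f := fun x => P (z.1, x)) (fun _ _ => h.1 _) (mem_univ z.2)

theorem le_mB {P : V × X → ℝ} (h : Pb P) (z : V × X) : P z ≤ mB P z.2 :=
  single_le_sum (f := fun v => P (v, z.2)) (fun _ _ => h.1 _) (mem_univ z.1)

theorem sum_mA (P : V × X → ℝ) (f : V → ℝ) : ∑ v, mA P v * f v = ∑ z, P z * f z.1 := by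
  simp only [mA, sum_mul, Fintype.sum_prod_type]

theorem sum_mB (P : V × X → ℝ) (f : X → ℝ) : ∑ x, mB P x * f x = ∑ z, P z * f z.2 := by
  simp only [mB, sum_mul, Fintype.sum_prod_type_right]

theorem psi_nonneg (h : ℝ) : 0 ≤ psi h := by
  unfold psi
  rcases le_total h 1 with k | k
  · rw [min_eq_left k]; nlinarith [sq_nonneg h]
  · rw [min_eq_right k]; linarith

theorem le_psi (h : ℝ) : h ≤ psi h + 1 / 2 := by
  unfold psi
  rcases le_total h 1 with k | k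
  · rw [min_eq_left k]; nlinarith [sq_nonneg (h - 1)]
  · rw [min_eq_right k]; linarith

theorem psi_le {h : ℝ} (h0 : 0 ≤ h) : psi h ≤ h := by
  unfold psi
  rcases le_total h 1 with k | k
  · rw [min_eq_left k]; nlinarith
  · rw [min_eq_right k]; linarith

theorem psi_add (h d : ℝ) : psi (h + d) ≤ psi h + min h 1 * d + d ^ 2 / 2 := by
  unfold psi
  rcases le_total h 1 with k | k <;> rcases le_total (h + d) 1 with k' | k'
  · rw [min_eq_left k, min_eq_left k']; nlinarith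
  · rw [min_eq_left k, min_eq_right k']; nlinarith [sq_nonneg (h + d - 1)]
  · rw [min_eq_right k, min_eq_left k']; nlinarith
  · rw [min_eq_right k, min_eq_right k']; nlinarith [sq_nonneg d]

theorem Wo_symm [DecidableEq J] {W : V → V → ℝ} (hW : Gr W) (o o' : J × V) :
    Wo W o o' = Wo W o' o := by
  unfold Wo
  by_cases e : o.1 = o'.1
  · rw [if_pos e, if_pos e.symm]
  · rw [if_neg e, if_neg (Ne.symm e), hW.2.1]

theorem Wo_nonneg [DecidableEq J] {W : V → V → ℝ} (hW : Gr W) (o o' : J × V) : 0 ≤ Wo W o o' := by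
  unfold Wo
  split_ifs
  · exact le_rfl
  · exact hW.nonneg _ _

theorem Wo_le [DecidableEq J] {W : V → V → ℝ} (hW : Gr W) (o o' : J × V) :
    Wo W o o' ≤ W o.2 o'.2 := by
  unfold Wo
  split_ifs
  · exact hW.nonneg _ _
  · exact le_rfl

theorem KK_pb {Z : Finset V} {ω : J × V → ℝ} (h : ω ∈ KK J Z) (hJ : 0 < Fintype.card J) :
    Pb ω := by
  have k : (Fintype.card J : ℝ) ≠ 0 := by exact_mod_cast hJ.ne'
  refine ⟨h.1, ?_⟩
  rw [Fintype.sum_prod_type, sum_congr rfl fun j _ => h.2.1 j, sum_const, card_univ, nsmul_eq_mul,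
    mul_one_div_cancel k]

end Pool.Agent.Work.MP_e10cd8_co.Far
end

-- merged part: Pool.Agent.Work.MP_e10cd8_co.Far.Lin
section
/-! Spectral theorem in coordinates and Bessel's inequality. -/

namespace Pool.Agent.Work.MP_e10cd8_co.Far
open Finset Real Pool.Agent.Work.MP_e10cd8_co.Up

variable {V X ι J : Type} [Fintype V] [Fintype X] [Fintype ι] [Fintype J]
  [DecidableEq V] [DecidableEq X] [DecidableEq ι] [DecidableEq J]

/-- Spectral theorem in coordinates.  Use `Matrix.IsHermitian.eigenvectorBasis` (or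
`eigenvectorUnitary`, whose rows and columns are orthonormal) for the matrix `Matrix.of T`. -/
theorem spec (T : V → V → ℝ) (hT : ∀ x y, T x y = T y x) :
    ∃ (lam : V → ℝ) (φ : V → V → ℝ), (∀ i j, ∑ o, φ i o * φ j o = if i = j then 1 else 0) ∧
      (∀ o o', ∑ i, φ i o * φ i o' = if o = o' then 1 else 0) ∧
      ∀ i o, ∑ o', T o o' * φ i o' = lam i * φ i o := by
  have hH : (Matrix.of T).IsHermitian := by
    ext i j
    simp [Matrix.conjTranspose_apply, hT j i]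
  refine ⟨hH.eigenvalues, fun i o => (hH.eigenvectorUnitary : Matrix V V ℝ) o i, ?_, ?_, ?_⟩
  · intro i j
    have h0 : star (hH.eigenvectorUnitary : Matrix V V ℝ) *
        (hH.eigenvectorUnitary : Matrix V V ℝ) = 1 :=
      Matrix.mem_unitaryGroup_iff'.1 hH.eigenvectorUnitary.2
    have h1 := congrFun (congrFun h0 i) j
    rw [Matrix.mul_apply, Matrix.one_apply] at h1
    rw [← h1]
    refine Finset.sum_congr rfl fun o _ => ?_
    simp [Matrix.star_apply]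
  · intro o o'
    have h0 : (hH.eigenvectorUnitary : Matrix V V ℝ) *
        star (hH.eigenvectorUnitary : Matrix V V ℝ) = 1 :=
      Matrix.mem_unitaryGroup_iff.1 hH.eigenvectorUnitary.2
    have h1 := congrFun (congrFun h0 o) o'
    rw [Matrix.mul_apply, Matrix.one_apply] at h1
    rw [← h1]
    refine Finset.sum_congr rfl fun i _ => ?_
    simp [Matrix.star_apply]
  · intro i o
    have h1 := congrFun (hH.mulVec_eigenvectorBasis i) o
    simp only [Matrix.mulVec, dotProduct, Matrix.of_apply, Pi.smul_apply, smul_eq_mul] at h1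
    simpa [Matrix.IsHermitian.eigenvectorUnitary_apply] using h1

/-- A feature of weighted norm zero vanishes on the support. -/
theorem orth_zero {p f : V → ℝ} (hp : ∀ v, 0 ≤ p v) (h : ∑ v, p v * (f v * f v) = 0) (v : V) :
    p v * f v = 0 := by
  have h1 := (Finset.sum_eq_zero_iff_of_nonneg
    (fun u _ => mul_nonneg (hp u) (mul_self_nonneg (f u)))).1 h v (Finset.mem_univ v)
  rcases mul_eq_zero.1 h1 with h2 | h2
  · rw [h2, zero_mul]
  · rw [mul_self_eq_zero.1 h2, mul_zero]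

/-- Parseval, stated early. -/
theorem lin_pars {p : V → ℝ} {μ : ι → ℝ} {a : V → ι → ℝ}
    (ha : ∀ i j, ∑ v, p v * (a v i * a v j) = if i = j then μ i else 0) (c : ι → ℝ) :
    ∑ v, p v * (∑ i, c i * a v i) ^ 2 = ∑ i, μ i * c i ^ 2 := by
  have h1 : ∀ v, p v * (∑ i, c i * a v i) ^ 2 =
      ∑ i, ∑ j, c i * c j * (p v * (a v i * a v j)) := by
    intro v
    rw [sq, Finset.sum_mul_sum, Finset.mul_sum]
    refine Finset.sum_congr rfl fun i _ => ?_
    rw [Finset.mul_sum]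
    refine Finset.sum_congr rfl fun j _ => ?_
    ring
  simp only [h1]
  rw [Finset.sum_comm]
  refine Finset.sum_congr rfl fun i _ => ?_
  rw [Finset.sum_comm]
  have h2 : ∀ j, ∑ v, c i * c j * (p v * (a v i * a v j)) =
      if i = j then μ i * c i ^ 2 else 0 := by
    intro j
    rw [← Finset.mul_sum, ha i j]
    split_ifs with hij
    · subst hij
      ring
    · ring
  simp only [h2]
  simp

/-- Bessel: expand `0 ≤ ∑ p (φ - ∑ c_i a_i) ^ 2` with `c_i = ⟨φ, a_i⟩ / μ_i` (zero if `μ_i = 0`). -/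
theorem bessel {p : V → ℝ} (hp : ∀ v, 0 ≤ p v) {μ : ι → ℝ} {a : V → ι → ℝ}
    (ha : ∀ i j, ∑ v, p v * (a v i * a v j) = if i = j then μ i else 0) (φ : V → ℝ) :
    ∑ i, (∑ v, p v * φ v * a v i) ^ 2 / μ i ≤ ∑ v, p v * φ v ^ 2 := by
  set d : ι → ℝ := fun i => ∑ v, p v * φ v * a v i with hd
  have h0 : 0 ≤ ∑ v, p v * (φ v - ∑ i, d i / μ i * a v i) ^ 2 :=
    Finset.sum_nonneg fun v _ => mul_nonneg (hp v) (sq_nonneg _)
  have h1 : ∀ v, p v * (φ v - ∑ i, d i / μ i * a v i) ^ 2 =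
      p v * φ v ^ 2 - 2 * ∑ i, d i / μ i * (p v * φ v * a v i) +
        p v * (∑ i, d i / μ i * a v i) ^ 2 := by
    intro v
    have h2 : ∑ i, d i / μ i * (p v * φ v * a v i) = p v * φ v * ∑ i, d i / μ i * a v i := by
      rw [Finset.mul_sum]
      refine Finset.sum_congr rfl fun i _ => ?_
      ring
    rw [h2]
    ring
  simp only [h1] at h0
  rw [Finset.sum_add_distrib, Finset.sum_sub_distrib, lin_pars ha, ← Finset.mul_sum,
    Finset.sum_comm] at h0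
  have h3 : ∑ i, ∑ v, d i / μ i * (p v * φ v * a v i) = ∑ i, d i ^ 2 / μ i := by
    refine Finset.sum_congr rfl fun i _ => ?_
    rw [← Finset.mul_sum]
    show d i / μ i * d i = _
    ring
  have h4 : ∑ i, μ i * (d i / μ i) ^ 2 = ∑ i, d i ^ 2 / μ i := by
    refine Finset.sum_congr rfl fun i _ => ?_
    by_cases hμ : μ i = 0
    · simp [hμ]
    · field_simp
  rw [h3, h4] at h0
  show ∑ i, d i ^ 2 / μ i ≤ _
  linarith

/-- Bessel with a bound on the weights: each term is `μ_i` times the term of `bessel`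
(if `μ_i = 0` use `orth_zero`). -/
theorem bessel_y {p : V → ℝ} (hp : ∀ v, 0 ≤ p v) {μ : ι → ℝ} {a : V → ι → ℝ}
    (ha : ∀ i j, ∑ v, p v * (a v i * a v j) = if i = j then μ i else 0) {y : ℝ} (y0 : 0 ≤ y)
    (hy : ∀ i, μ i ≤ y) (φ : V → ℝ) :
    ∑ i, (∑ v, p v * φ v * a v i) ^ 2 ≤ y * ∑ v, p v * φ v ^ 2 := by
  have hμ : ∀ i, 0 ≤ μ i := by
    intro i
    have h1 := ha i i
    rw [if_pos rfl] at h1
    rw [← h1]
    exact Finset.sum_nonneg fun v _ => mul_nonneg (hp v) (mul_self_nonneg _)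
  have h1 : ∀ i, (∑ v, p v * φ v * a v i) ^ 2 ≤ y * ((∑ v, p v * φ v * a v i) ^ 2 / μ i) := by
    intro i
    rcases (hμ i).eq_or_lt with h0 | h0
    · have h2 := ha i i
      rw [if_pos rfl, ← h0] at h2
      have h3 : ∑ v, p v * φ v * a v i = 0 := by
        refine Finset.sum_eq_zero fun v _ => ?_
        have h4 := orth_zero (f := fun u => a u i) hp h2 v
        calc p v * φ v * a v i = φ v * (p v * a v i) := by ring
          _ = 0 := by rw [h4, mul_zero]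
      rw [h3]
      simp
    · calc (∑ v, p v * φ v * a v i) ^ 2 = μ i * ((∑ v, p v * φ v * a v i) ^ 2 / μ i) := by
            field_simp
        _ ≤ y * ((∑ v, p v * φ v * a v i) ^ 2 / μ i) :=
            mul_le_mul_of_nonneg_right (hy i) (div_nonneg (sq_nonneg _) h0.le)
  calc ∑ i, (∑ v, p v * φ v * a v i) ^ 2
      ≤ ∑ i, y * ((∑ v, p v * φ v * a v i) ^ 2 / μ i) := Finset.sum_le_sum fun i _ => h1 i
    _ = y * ∑ i, (∑ v, p v * φ v * a v i) ^ 2 / μ i := by rw [Finset.mul_sum]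
    _ ≤ y * ∑ v, p v * φ v ^ 2 := mul_le_mul_of_nonneg_left (bessel hp ha φ) y0

/-- Parseval for the features: the mean square of `∑ c_i a_i`. -/
theorem pars {p : V → ℝ} {μ : ι → ℝ} {a : V → ι → ℝ}
    (ha : ∀ i j, ∑ v, p v * (a v i * a v j) = if i = j then μ i else 0) (c : ι → ℝ) :
    ∑ v, p v * (∑ i, c i * a v i) ^ 2 = ∑ i, μ i * c i ^ 2 := by
  exact lin_pars ha c

/-- The mean row energy. -/
theorem sum_et {p : V → ℝ} {μ : ι → ℝ} {a : V → ι → ℝ} (h : Sd p μ a) :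
    ∑ v, p v * et μ a v = ∑ k, μ k ^ 2 := by
  have h1 : ∀ v, p v * et μ a v = ∑ k, μ k * (p v * (a v k * a v k)) := by
    intro v
    unfold et
    rw [Finset.mul_sum]
    refine Finset.sum_congr rfl fun k _ => ?_
    ring
  simp only [h1]
  rw [Finset.sum_comm]
  refine Finset.sum_congr rfl fun k _ => ?_
  rw [← Finset.mul_sum, h.2.1 k k, if_pos rfl]
  ring

end Pool.Agent.Work.MP_e10cd8_co.Far
end

-- merged part: Pool.Agent.Work.MP_e10cd8_co.Far.Priv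
section
/-! Moves on one side. -/

namespace Pool.Agent.Work.MP_e10cd8_co.Far
open Finset Real Pool.Agent.Work.MP_e10cd8_co.Up

variable {V X ι J : Type} [Fintype V] [Fintype X] [Fintype ι] [Fintype J]
  [DecidableEq V] [DecidableEq X] [DecidableEq ι] [DecidableEq J]

/-- Transposition: use `Gt ∘ Prod.swap` and `-S`; `mA (P ∘ swap) = mB P` holds by `rfl`. -/
theorem Mast.swap {P : V × X → ℝ} {h : V → ℝ} {h' : X → ℝ} {M : V → X → ℝ} {μ : ι → ℝ}
    {a : V → ι → ℝ} {b : X → ι → ℝ} {Θ w γ ζ κ : ℝ} (H : Mast P h h' M μ a b Θ w γ ζ κ) :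
    Mast (fun z : X × V => P z.swap) h' h (fun x v => M v x) μ b a Θ w γ ζ κ := by
  intro Gt G' t' G t η η' S hS h0 h1 h2
  have k := H (fun z => Gt z.swap) G t G' t' η' η (fun i j => -S i j)
    (fun i j => by rw [hS i j])
    ((Fintype.sum_equiv (Equiv.prodComm V X) _ _ fun _ => rfl).trans h0) h2 h1
  have e1 : ∑ z : V × X, P z * Gt z.swap ^ 2 = ∑ z : X × V, P z.swap * Gt z ^ 2 :=
    Fintype.sum_equiv (Equiv.prodComm V X) _ _ fun _ => rfl
  have e2 : ∑ v, ∑ x, mA P v * exp (-h v) * t v * (mB P x * exp (-h' x) * t' x) * M v x ^ 2 =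
      ∑ x, ∑ v, mB P x * exp (-h' x) * t' x * (mA P v * exp (-h v) * t v) * M v x ^ 2 := by
    rw [sum_comm]
    exact sum_congr rfl fun x _ => sum_congr rfl fun v _ => by ring
  have e3 : ee (mA P) (mB P) h h' M = ee (mB P) (mA P) h' h fun x v => M v x := by
    unfold ee
    rw [sum_comm]
    exact sum_congr rfl fun x _ => sum_congr rfl fun v _ => by ring
  have e4 : ∑ i, ∑ j, (-S i j * (al (mA P) a G i j - al (mB P) b G' i j) +
      (μ i + μ j) * (-S i j) ^ 2) =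
      ∑ i, ∑ j, (S i j * (al (mB P) b G' i j - al (mA P) a G i j) + (μ i + μ j) * S i j ^ 2) :=
    sum_congr rfl fun i _ => sum_congr rfl fun j _ => by ring
  rw [e1, e2, e3, e4] at k
  have eA : mA (fun z : X × V => P z.swap) = mB P := rfl
  have eB : mB (fun z : X × V => P z.swap) = mA P := rfl
  rw [eA, eB]
  refine k.trans (le_of_eq ?_)
  ring

/-- Jensen for the conditional mean (`Up.titu` or Cauchy-Schwarz in each row). -/
theorem cond_sq {P : V × X → ℝ} (hP : Pb P) {g : X → ℝ} {gb : V → ℝ}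
    (hg : ∀ v, mA P v * gb v = ∑ x, P (v, x) * g x) :
    ∑ v, mA P v * gb v ^ 2 ≤ ∑ x, mB P x * g x ^ 2 := by
  rw [sum_mB P fun x => g x ^ 2, Fintype.sum_prod_type]
  refine sum_le_sum fun v _ => ?_
  have h0 : 0 ≤ ∑ x, P (v, x) * (g x - gb v) ^ 2 :=
    sum_nonneg fun x _ => mul_nonneg (hP.1 _) (sq_nonneg _)
  have e : ∑ x, P (v, x) * (g x - gb v) ^ 2 = ∑ x, P (v, x) * g x ^ 2 -
      2 * gb v * ∑ x, P (v, x) * g x + mA P v * gb v ^ 2 := by
    rw [mA, mul_sum, sum_mul, ← sum_sub_distrib, ← sum_add_distrib]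
    exact sum_congr rfl fun x _ => by ring
  rw [e, ← hg v] at h0
  linarith

/-- The conditional mean exists: `(∑ x, P (v, x) * g x) / mA P v`. -/
theorem cond_ex {P : V × X → ℝ} (hP : Pb P) (g : X → ℝ) :
    ∃ gb : V → ℝ, (∀ v, mA P v * gb v = ∑ x, P (v, x) * g x) ∧
      ∑ v, mA P v * gb v = ∑ x, mB P x * g x := by
  have k : ∀ v, mA P v * ((∑ x, P (v, x) * g x) / mA P v) = ∑ x, P (v, x) * g x := fun v => by
    by_cases e : mA P v = 0
    · rw [e, zero_mul]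
      refine (sum_eq_zero fun x _ => ?_).symm
      rw [le_antisymm ((le_mA hP (v, x)).trans e.le) (hP.1 _), zero_mul]
    · exact mul_div_cancel₀ _ e
  refine ⟨_, k, ?_⟩
  rw [sum_congr rfl fun v _ => k v, sum_mB, Fintype.sum_prod_type]

/-- `Mast` with `Gt z = g z.2`, `G' = gb`, `t' = 0`, `G = t = g`, `η = 0`; `min h 1 ≤ 1`. -/
theorem priv0 {P : V × X → ℝ} (hP : Pb P) {h : V → ℝ} {h' : X → ℝ} {M : V → X → ℝ} {μ : ι → ℝ}
    {a : V → ι → ℝ} {b : X → ι → ℝ} {Θ w γ ζ κ : ℝ} (H : Mast P h h' M μ a b Θ w γ ζ κ)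
    (ζ0 : 0 ≤ ζ) (κ0 : 0 ≤ κ) {g : X → ℝ} {gb : V → ℝ} (g0 : ∑ x, mB P x * g x = 0)
    (hg : ∀ v, mA P v * gb v = ∑ x, P (v, x) * g x) {S : ι → ι → ℝ} (hS : ∀ i j, S i j = S j i)
    (η : ℝ) :
    0 ≤ (∑ i, ∑ j, (S i j * (al (mA P) a gb i j - al (mB P) b g i j) +
        (μ i + μ j) * S i j ^ 2)) / Θ - (γ / 2 - ζ) * ∑ v, mA P v * gb v ^ 2 +
      ζ * (η ^ 2 / 2 - η * ∑ x, mB P x * (min (h' x) 1 * g x)) + κ * ∑ x, mB P x * g x ^ 2 := by
  have k := H (fun z => g z.2) gb (fun _ => 0) g g 0 η S hS ((sum_mB P g).symm.trans g0) hg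
    fun x => sum_mul _ _ _
  have e1 : ∑ z : V × X, P z * g z.2 ^ 2 = ∑ x, mB P x * g x ^ 2 :=
    (sum_mB P fun x => g x ^ 2).symm
  have e2 : ∑ x, mB P x * (g x ^ 2 / 2 - g x * g x) = -(∑ x, mB P x * g x ^ 2) / 2 := by
    rw [← sum_neg_distrib, sum_div]
    exact sum_congr rfl fun x _ => by ring
  have e3 : zt (mA P) h gb (fun _ => 0) 0 ≤ ∑ v, mA P v * gb v ^ 2 :=
    sum_le_sum fun v _ => mul_le_mul_of_nonneg_left
      (by nlinarith [mul_le_mul_of_nonneg_right (min_le_right (h v) 1) (sq_nonneg (gb v))])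
      ((mA_pb hP).1 v)
  have e4 : zt (mB P) h' g g η = η ^ 2 / 2 - η * ∑ x, mB P x * (min (h' x) 1 * g x) := by
    have e5 : η ^ 2 / 2 = ∑ x, mB P x * (η ^ 2 / 2) := by rw [← sum_mul, (mB_pb hP).2, one_mul]
    rw [e5, mul_sum, ← sum_sub_distrib]
    exact sum_congr rfl fun x _ => by ring
  have e6 := cond_sq hP hg
  simp only [mul_zero, zero_mul, sum_const_zero, zero_div, ne_eq, OfNat.ofNat_ne_zero,
    not_false_eq_true, zero_pow, sub_zero, zero_add, add_zero] at k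
  rw [e1, e2, e4] at k
  nlinarith [mul_le_mul_of_nonneg_left e3 ζ0, mul_le_mul_of_nonneg_left e6 κ0]

theorem priv_one {P : V × X → ℝ} (hP : Pb P) {h : V → ℝ} {h' : X → ℝ} {M : V → X → ℝ}
    {μ : ι → ℝ} {a : V → ι → ℝ} {b : X → ι → ℝ} {Θ w γ ζ κ : ℝ}
    (H : Mast P h h' M μ a b Θ w γ ζ κ) (ζ0 : 0 < ζ) (κ0 : 0 ≤ κ) (hγ : 2 * ζ ≤ γ)
    (h2 : ∑ x, mB P x * min (h' x) 1 = 0) : ∑ x, mB P x * min (h' x) 1 ^ 2 ≤ 2 * κ / ζ := by
  obtain ⟨gb, hg, -⟩ := cond_ex hP fun x => min (h' x) 1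
  have k := priv0 hP H ζ0.le κ0 h2 hg (S := fun _ _ => 0) (fun _ _ => rfl)
    (∑ x, mB P x * min (h' x) 1 ^ 2)
  have e : ∑ x, mB P x * (min (h' x) 1 * min (h' x) 1) = ∑ x, mB P x * min (h' x) 1 ^ 2 :=
    sum_congr rfl fun x _ => by ring
  have hB : 0 ≤ ∑ v, mA P v * gb v ^ 2 :=
    sum_nonneg fun v _ => mul_nonneg ((mA_pb hP).1 v) (sq_nonneg _)
  simp only [mul_zero, zero_mul, sum_const_zero, zero_div, ne_eq, OfNat.ofNat_ne_zero,
    not_false_eq_true, zero_pow, add_zero] at k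
  rw [e] at k
  generalize ∑ x, mB P x * min (h' x) 1 ^ 2 = A at *
  have h3 : 0 ≤ (γ / 2 - ζ) * ∑ v, mA P v * gb v ^ 2 := mul_nonneg (by linarith) hB
  rw [le_div_iff₀ ζ0]
  by_contra hc
  have h4 : 2 * κ < A * ζ := not_le.1 hc
  have h5 : 0 < A := (mul_pos_iff_of_pos_right ζ0).1 (by linarith)
  nlinarith [mul_lt_mul_of_pos_left h4 h5]

/-- `priv0` with `g = min h' 1`, `η = ∑ p' g ^ 2`, `S = 0`; the other side by `Mast.swap`. -/
theorem pure {P : V × X → ℝ} (hP : Pb P) {h : V → ℝ} {h' : X → ℝ} {M : V → X → ℝ} {μ : ι → ℝ}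
    {a : V → ι → ℝ} {b : X → ι → ℝ} {Θ w γ ζ κ : ℝ} (H : Mast P h h' M μ a b Θ w γ ζ κ)
    (ζ0 : 0 < ζ) (κ0 : 0 ≤ κ) (hγ : 2 * ζ ≤ γ) (h1 : ∑ v, mA P v * min (h v) 1 = 0)
    (h2 : ∑ x, mB P x * min (h' x) 1 = 0) :
    ∑ v, mA P v * min (h v) 1 ^ 2 ≤ 2 * κ / ζ ∧ ∑ x, mB P x * min (h' x) 1 ^ 2 ≤ 2 * κ / ζ := by
  exact ⟨priv_one (P := fun z : X × V => P z.swap) ⟨fun z => hP.1 _,
    (Fintype.sum_equiv (Equiv.prodComm X V) _ _ fun _ => rfl).trans hP.2⟩ H.swap ζ0 κ0 hγ h1,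
    priv_one hP H ζ0 κ0 hγ h2⟩

end Pool.Agent.Work.MP_e10cd8_co.Far
end

-- merged part: Pool.Agent.Work.MP_e10cd8_co.Far.Yb
section
/-! Tilts move the covariances little. -/

namespace Pool.Agent.Work.MP_e10cd8_co.Far
open Finset Real Pool.Agent.Work.MP_e10cd8_co.Up

variable {V X ι J : Type} [Fintype V] [Fintype X] [Fintype ι] [Fintype J]
  [DecidableEq V] [DecidableEq X] [DecidableEq ι] [DecidableEq J]

theorem Yn_add {μ : ι → ℝ} (hμ : ∀ i, 0 ≤ μ i) (Z Z' : ι → ι → ℝ) :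
    Yn μ (fun i j => Z i j + Z' i j) ≤ 2 * Yn μ Z + 2 * Yn μ Z' := by
  unfold Yn
  rw [mul_sum, mul_sum, ← sum_add_distrib]
  refine sum_le_sum fun i _ => ?_
  rw [mul_sum, mul_sum, ← sum_add_distrib]
  refine sum_le_sum fun j _ => ?_
  rw [← mul_div_assoc, ← mul_div_assoc, ← add_div]
  refine div_le_div_of_nonneg_right ?_ (add_nonneg (hμ i) (hμ j))
  nlinarith [sq_nonneg (Z i j - Z' i j)]

/-- `priv0` with `S = 0`, `η = 0` gives `∑ p gb ^ 2 ≤ ∑ p' g ^ 2 / 4`; with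
`S i j = -(al - al) i j / (2 (μ i + μ j))` it gives `Yn (al gb - al g) ≤ 4 κ Θ ∑ p' g ^ 2`;
`Yn_add`. -/
theorem yb_step {P : V × X → ℝ} (hP : Pb P) {h : V → ℝ} {h' : X → ℝ} {M : V → X → ℝ} {μ : ι → ℝ}
    {a : V → ι → ℝ} {b : X → ι → ℝ} {Θ w γ ζ κ q : ℝ} (H : Mast P h h' M μ a b Θ w γ ζ κ)
    (hμ : ∀ i, 0 ≤ μ i) (Θ0 : 0 < Θ) (ζ0 : 0 < ζ) (κ0 : 0 ≤ κ) (hγ : 8 * ζ ≤ γ)
    (hκ : 32 * κ ≤ 3 * γ) (q0 : 0 ≤ q) (hq : YB (mA P) μ a q) :
    YB (mB P) μ b (8 * κ * Θ + q / 2) := by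
  intro g g0
  obtain ⟨gb, hg, hm⟩ := cond_ex hP g
  have A0 : 0 ≤ ∑ v, mA P v * gb v ^ 2 :=
    sum_nonneg fun v _ => mul_nonneg ((mA_pb hP).1 v) (sq_nonneg _)
  have B0 : 0 ≤ ∑ x, mB P x * g x ^ 2 :=
    sum_nonneg fun x _ => mul_nonneg ((mB_pb hP).1 x) (sq_nonneg _)
  have k1 := priv0 hP H ζ0.le κ0 g0 hg (S := fun _ _ => 0) (fun _ _ => rfl) 0
  have sy : ∀ i j, al (mB P) b g i j - al (mA P) a gb i j =
      al (mB P) b g j i - al (mA P) a gb j i := fun i j => by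
    simp only [al, mul_comm (b _ i), mul_comm (a _ i)]
  have k2 := priv0 hP H ζ0.le κ0 g0 hg
    (S := fun i j => (al (mB P) b g i j - al (mA P) a gb i j) / (2 * (μ i + μ j)))
    (fun i j => by rw [sy i j, add_comm (μ i)]) 0
  have e2 : ∑ i, ∑ j, ((al (mB P) b g i j - al (mA P) a gb i j) / (2 * (μ i + μ j)) *
      (al (mA P) a gb i j - al (mB P) b g i j) +
      (μ i + μ j) * ((al (mB P) b g i j - al (mA P) a gb i j) / (2 * (μ i + μ j))) ^ 2) =
      -(1 / 4) * Yn μ fun i j => al (mB P) b g i j - al (mA P) a gb i j := by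
    unfold Yn
    rw [mul_sum]
    refine sum_congr rfl fun i _ => ?_
    rw [mul_sum]
    refine sum_congr rfl fun j _ => ?_
    by_cases e : μ i + μ j = 0
    · simp [e]
    · field_simp
      ring
  rw [e2] at k2
  have k3 := hq gb (hm.trans g0)
  have k4 := Yn_add hμ (al (mA P) a gb) fun i j => al (mB P) b g i j - al (mA P) a gb i j
  simp only [add_sub_cancel] at k4
  simp only [zero_mul, mul_zero, add_zero, sum_const_zero, zero_div, ne_eq, OfNat.ofNat_ne_zero,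
    not_false_eq_true, zero_pow, sub_zero, zero_sub] at k1 k2
  generalize (Yn μ fun i j => al (mB P) b g i j - al (mA P) a gb i j) = D at k2 k4
  generalize ∑ v, mA P v * gb v ^ 2 = A at *
  generalize ∑ x, mB P x * g x ^ 2 = B at *
  have γ0 : 0 < γ := by linarith
  have k5 : A ≤ B / 4 := by
    refine le_of_mul_le_mul_left ?_ γ0
    nlinarith [mul_nonneg (sub_nonneg.2 hγ) A0, mul_nonneg (sub_nonneg.2 hκ) B0]
  have k6 : D ≤ 4 * κ * Θ * B := by
    have k7 : 0 ≤ -(1 / 4) * D / Θ + κ * B := by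
      nlinarith [mul_nonneg (show 0 ≤ γ / 2 - ζ by linarith) A0]
    have k8 := mul_nonneg k7 Θ0.le
    rw [add_mul, div_mul_cancel₀ _ Θ0.ne'] at k8
    linarith
  have k9 := mul_le_mul_of_nonneg_left k5 q0
  show Yn μ (fun i j => al (mB P) b g i j) ≤ _
  linarith

/-- Some bound holds (Cauchy-Schwarz: `al ^ 2 ≤ ∑ p g ^ 2 * ∑ p (a_i a_j) ^ 2`). -/
theorem yb_ex {p : V → ℝ} (hp : ∀ v, 0 ≤ p v) {μ : ι → ℝ} (hμ : ∀ i, 0 ≤ μ i) (a : V → ι → ℝ) :
    ∃ q, 0 ≤ q ∧ YB p μ a q := by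
  refine ⟨∑ i, ∑ j, (∑ v, p v * (a v i * a v j) ^ 2) / (μ i + μ j),
    sum_nonneg fun i _ => sum_nonneg fun j _ => div_nonneg
      (sum_nonneg fun v _ => mul_nonneg (hp v) (sq_nonneg _)) (add_nonneg (hμ i) (hμ j)),
    fun g _ => ?_⟩
  unfold Yn
  rw [sum_mul]
  refine sum_le_sum fun i _ => ?_
  rw [sum_mul]
  refine sum_le_sum fun j _ => ?_
  rw [div_mul_eq_mul_div]
  refine div_le_div_of_nonneg_right ?_ (add_nonneg (hμ i) (hμ j))
  refine sum_sq_le_sum_mul_sum_of_sq_le_mul _ (fun v _ => mul_nonneg (hp v) (sq_nonneg _))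
    (fun v _ => mul_nonneg (hp v) (sq_nonneg _)) fun v _ => le_of_eq (by ring)

theorem yb_mono {p : V → ℝ} (hp : ∀ v, 0 ≤ p v) {μ : ι → ℝ} {a : V → ι → ℝ} {q r : ℝ}
    (h : YB p μ a q) (hqr : q ≤ r) : YB p μ a r := fun g g0 =>
  (h g g0).trans (mul_le_mul_of_nonneg_right hqr
    (sum_nonneg fun v _ => mul_nonneg (hp v) (sq_nonneg _)))

theorem yb_lim {p : V → ℝ} {μ : ι → ℝ} {a : V → ι → ℝ} {q r : ℝ}
    (h : ∀ n : ℕ, YB p μ a (q + r * (1 / 2) ^ n)) : YB p μ a q := fun g g0 => by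
  have t := (((tendsto_pow_atTop_nhds_zero_of_lt_one (r := (1 / 2 : ℝ)) (by norm_num)
    (by norm_num)).const_mul r).const_add q).mul_const (∑ v, p v * g v ^ 2)
  rw [mul_zero, add_zero] at t
  exact ge_of_tendsto' t fun n => h n g g0

/-- Iterate `yb_step` and its transpose (`Mast.swap`): both sides hold with
`16 κ Θ + q0 / 2 ^ n` for every `n`; let `n → ∞`. -/
theorem yb {P : V × X → ℝ} (hP : Pb P) {h : V → ℝ} {h' : X → ℝ} {M : V → X → ℝ} {μ : ι → ℝ}
    {a : V → ι → ℝ} {b : X → ι → ℝ} {Θ w γ ζ κ : ℝ} (H : Mast P h h' M μ a b Θ w γ ζ κ)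
    (hμ : ∀ i, 0 ≤ μ i) (Θ0 : 0 < Θ) (ζ0 : 0 < ζ) (κ0 : 0 ≤ κ) (hγ : 8 * ζ ≤ γ)
    (hκ : 32 * κ ≤ 3 * γ) : YB (mA P) μ a (16 * κ * Θ) ∧ YB (mB P) μ b (16 * κ * Θ) := by
  obtain ⟨q1, h1, k1⟩ := yb_ex (mA_pb hP).1 hμ a
  obtain ⟨q2, h2, k2⟩ := yb_ex (mB_pb hP).1 hμ b
  have hP' : Pb fun z : X × V => P z.swap :=
    ⟨fun _ => hP.1 _, by rw [← hP.2]; exact (Equiv.prodComm X V).sum_comp P⟩
  have c0 : 0 ≤ κ * Θ := mul_nonneg κ0 Θ0.le
  have st : ∀ n : ℕ, YB (mA P) μ a (16 * κ * Θ + (q1 + q2) * (1 / 2) ^ n) ∧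
      YB (mB P) μ b (16 * κ * Θ + (q1 + q2) * (1 / 2) ^ n) := by
    intro n
    induction n with
    | zero => exact ⟨yb_mono (mA_pb hP).1 k1 (by linarith [pow_zero (1 / 2 : ℝ)]),
        yb_mono (mB_pb hP).1 k2 (by linarith [pow_zero (1 / 2 : ℝ)])⟩
    | succ n ih =>
      have q0 : 0 ≤ 16 * κ * Θ + (q1 + q2) * (1 / 2) ^ n := by
        have : 0 ≤ (q1 + q2) * (1 / 2 : ℝ) ^ n := by positivity
        linarith
      have e : 16 * κ * Θ + (q1 + q2) * (1 / 2) ^ (n + 1) =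
          8 * κ * Θ + (16 * κ * Θ + (q1 + q2) * (1 / 2) ^ n) / 2 := by ring
      rw [e]
      exact ⟨yb_step hP' H.swap hμ Θ0 ζ0 κ0 hγ hκ q0 ih.2, yb_step hP H hμ Θ0 ζ0 κ0 hγ hκ q0 ih.1⟩
  exact ⟨yb_lim fun n => (st n).1, yb_lim fun n => (st n).2⟩

end Pool.Agent.Work.MP_e10cd8_co.Far
end

-- merged part: Pool.Agent.Work.MP_e10cd8_co.Far.Tail
section
/-! Tails and third moments of the features. -/

namespace Pool.Agent.Work.MP_e10cd8_co.Far
open Finset Real Pool.Agent.Work.MP_e10cd8_co.Up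

variable {V X ι J : Type} [Fintype V] [Fintype X] [Fintype ι] [Fintype J]
  [DecidableEq V] [DecidableEq X] [DecidableEq ι] [DecidableEq J]

theorem tail_pt {m y θ : ℝ} (m0 : 0 ≤ m) (hm : m ≤ y) (θ0 : 0 < θ) (Z : ℝ) :
    m * Z ≤ θ * m ^ 2 + y / (2 * θ) * (Z ^ 2 / (m + m)) := by
  rcases m0.eq_or_lt with rfl | m1
  · simp
  · have h1 : m / (2 * θ) * (Z ^ 2 / (m + m)) ≤ y / (2 * θ) * (Z ^ 2 / (m + m)) :=
      mul_le_mul_of_nonneg_right (div_le_div_of_nonneg_right hm (by positivity)) (by positivity)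
    have h2 : θ * m ^ 2 + m / (2 * θ) * (Z ^ 2 / (m + m)) - m * Z =
        (2 * θ * m - Z) ^ 2 / (4 * θ) := by
      field_simp
      ring
    have h3 : 0 ≤ (2 * θ * m - Z) ^ 2 / (4 * θ) := by positivity
    linarith only [h1, h2, h3]

theorem tail_ind (S : Finset V) (f : V → ℝ) :
    ∑ v, (if v ∈ S then (1 : ℝ) else 0) * f v = ∑ v ∈ S, f v := by
  simp only [ite_mul, one_mul, zero_mul, sum_ite_mem, univ_inter]

theorem tail_et (S : Finset V) (p : V → ℝ) (μ : ι → ℝ) (a : V → ι → ℝ) :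
    ∑ v ∈ S, p v * et μ a v = ∑ k, μ k * ∑ v ∈ S, p v * a v k ^ 2 := by
  simp only [et, mul_sum]
  rw [sum_comm]
  exact sum_congr rfl fun k _ => sum_congr rfl fun v _ => mul_left_comm _ _ _

theorem tail_rot (F : ι → ι → ι → ℝ) : ∑ i, ∑ j, ∑ k, F i j k = ∑ j, ∑ k, ∑ i, F i j k :=
  sum_comm.trans (sum_congr rfl fun _ _ => sum_comm)

theorem tail_three {x y z : ℝ} (hx : 0 < x) (hy : 0 < y) (hz : 0 < z) (c : ℝ) :
    c ^ 2 ≤ z * (c ^ 2 / (x + y)) + x * (c ^ 2 / (y + z)) + y * (c ^ 2 / (z + x)) := by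
  have k : ∀ s t : ℝ, 0 < s → 0 < t → s + t = x + y + z →
      s * (c ^ 2 / (x + y + z)) ≤ s * (c ^ 2 / t) := fun s t hs ht e =>
    mul_le_mul_of_nonneg_left (div_le_div_of_nonneg_left (sq_nonneg c) ht
      (by linarith only [hs, e])) hs.le
  have k1 := k z (x + y) hz (by positivity) (by ring)
  have k2 := k x (y + z) hx (by positivity) (by ring)
  have k3 := k y (z + x) hy (by positivity) (by ring)
  have k4 : (x + y + z) * (c ^ 2 / (x + y + z)) = c ^ 2 := mul_div_cancel₀ _ (by positivity)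
  linarith only [k1, k2, k3, k4]

/-- `g = 1_{Tᶜ} - τ`, `τ = p Tᶜ`, is centred with `∑ p g ^ 2 ≤ σ`; `Z = al p a g`,
`∑_{Tᶜ} p a_k ^ 2 = Z k k + τ μ k`; `μ Z ≤ θ μ ^ 2 + Z ^ 2 / (4 θ)`,
`Z k k ^ 2 ≤ 2 y Z k k ^ 2 / (μ k + μ k)` (if `μ k = 0` then `μ Z = 0`). -/
theorem tail {p : V → ℝ} (hp : Pb p) {μ : ι → ℝ} {a : V → ι → ℝ} (ha : Sd p μ a) {q σ y θ : ℝ}
    (q0 : 0 ≤ q) (hq : YB p μ a q) {T : Finset V} (hT : ∑ v ∈ Tᶜ, p v ≤ σ) (y0 : 0 ≤ y)
    (hy : ∀ k, μ k ≤ y) (θ0 : 0 < θ) :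
    ∑ v ∈ Tᶜ, p v * et μ a v ≤ (σ + θ) * ∑ k, μ k ^ 2 + y * q * σ / (2 * θ) := by
  set τ := ∑ v ∈ Tᶜ, p v with hτ
  let g : V → ℝ := fun v => (if v ∈ Tᶜ then (1 : ℝ) else 0) - τ
  have g1 : ∀ f : V → ℝ, ∑ v, p v * g v * f v = ∑ v ∈ Tᶜ, p v * f v - τ * ∑ v, p v * f v :=
    fun f => by
      rw [← tail_ind Tᶜ, mul_sum, ← sum_sub_distrib]
      exact sum_congr rfl fun v _ => by ring
  have g2 : ∑ v, p v * g v = 0 := by
    have := g1 fun _ => 1
    simp only [mul_one, hp.2] at this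
    rw [this, sub_self]
  have g3 : ∑ v, p v * g v ^ 2 ≤ σ := by
    have e : ∑ v, p v * g v ^ 2 = ∑ v, ((if v ∈ Tᶜ then (1 : ℝ) else 0) * p v - τ * (p v * g v) -
        τ * ((if v ∈ Tᶜ then (1 : ℝ) else 0) * p v)) := sum_congr rfl fun v _ => by
      simp only [g]
      split_ifs <;> ring
    rw [e, sum_sub_distrib, sum_sub_distrib, ← mul_sum, ← mul_sum, g2, tail_ind, ← hτ]
    linarith only [hT, mul_self_nonneg τ]
  have h1 : ∑ k, al p a g k k ^ 2 / (μ k + μ k) ≤ q * σ :=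
    (sum_le_sum fun k _ => single_le_sum (f := fun j => al p a g k j ^ 2 / (μ k + μ j))
      (fun j _ => div_nonneg (sq_nonneg _) (add_nonneg (ha.1 k) (ha.1 j))) (mem_univ k)).trans
      ((hq g g2).trans (mul_le_mul_of_nonneg_left g3 q0))
  have h2 : ∑ k, μ k * ∑ v ∈ Tᶜ, p v * a v k ^ 2 ≤
      ∑ k, ((σ + θ) * μ k ^ 2 + y / (2 * θ) * (al p a g k k ^ 2 / (μ k + μ k))) :=
    sum_le_sum fun k _ => by
      have e := g1 fun v => a v k * a v k
      rw [ha.2.1, if_pos rfl] at e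
      have e2 : ∑ v ∈ Tᶜ, p v * a v k ^ 2 = al p a g k k + τ * μ k := by
        simp only [sq, al]
        rw [e, sub_add_cancel]
      rw [e2]
      linarith only [tail_pt (ha.1 k) (hy k) θ0 (al p a g k k),
        mul_le_mul_of_nonneg_right hT (sq_nonneg (μ k))]
  rw [sum_add_distrib, ← mul_sum, ← mul_sum] at h2
  have h3 := mul_le_mul_of_nonneg_left h1 (by positivity : 0 ≤ y / (2 * θ))
  have h4 : y * q * σ / (2 * θ) = y / (2 * θ) * (q * σ) := by ring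
  rw [tail_et, h4]
  linarith only [h2, h3]

/-- `c i j k = ∑_T p a_i a_j a_k` is symmetric and vanishes if some `μ` does (`orth_zero`); the
largest of `μ i, μ j, μ k` over the sum of the other two is `≥ 1 / 2`, so
`∑ c ^ 2 ≤ 6 ∑ k, μ k * Yn (al (a_k 1_T))`.  With `m k = ∑_T p a_k = -∑_{Tᶜ} p a_k`:
`al (a_k 1_T) = al (a_k 1_T - m k) + m k diag μ`, `Yn_add`, `Yn diag = ∑ μ / 2`,
`m k ^ 2 ≤ σ ∑_{Tᶜ} p a_k ^ 2`. -/
theorem third {p : V → ℝ} (hp : Pb p) {μ : ι → ℝ} {a : V → ι → ℝ} (ha : Sd p μ a) {q σ : ℝ}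
    (q0 : 0 ≤ q) (hq : YB p μ a q) {T : Finset V} (hT : ∑ v ∈ Tᶜ, p v ≤ σ) :
    ∑ i, ∑ j, ∑ k, (∑ v ∈ T, p v * (a v i * a v j * a v k)) ^ 2 ≤
      6 * (2 * q * ∑ k, μ k ^ 2 + (∑ k, μ k) * σ * ∑ v ∈ Tᶜ, p v * et μ a v) := by
  let c : ι → ι → ι → ℝ := fun i j k => ∑ v ∈ T, p v * (a v i * a v j * a v k)
  have c1 : ∀ i j k, c j k i = c i j k := fun i j k => sum_congr rfl fun v _ => by ring
  have c2 : ∀ i j k, μ k = 0 → c i j k = 0 := fun i j k h => sum_eq_zero fun v _ => by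
    have e := orth_zero (f := fun v => a v k) hp.1 ((ha.2.1 k k).trans ((if_pos rfl).trans h)) v
    rw [mul_left_comm, e, mul_zero]
  let F : ι → ι → ι → ℝ := fun i j k => μ k * (c i j k ^ 2 / (μ i + μ j))
  have F0 : ∀ i j k, 0 ≤ F i j k := fun i j k =>
    mul_nonneg (ha.1 k) (div_nonneg (sq_nonneg _) (add_nonneg (ha.1 i) (ha.1 j)))
  have h1 : ∀ i j k, c i j k ^ 2 ≤ F i j k + F j k i + F k i j := fun i j k => by
    by_cases h : c i j k = 0
    · rw [h, zero_pow two_ne_zero]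
      exact add_nonneg (add_nonneg (F0 _ _ _) (F0 _ _ _)) (F0 _ _ _)
    · simp only [F, c1 i j k, ← c1 k i j]
      exact tail_three ((ha.1 i).lt_of_ne' fun e => h ((c1 i j k).symm.trans (c2 _ _ _ e)))
        ((ha.1 j).lt_of_ne' fun e => h ((c1 k i j).trans (c2 _ _ _ e)))
        ((ha.1 k).lt_of_ne' fun e => h (c2 _ _ _ e)) _
  have h2 : ∑ i, ∑ j, ∑ k, c i j k ^ 2 ≤ 3 * ∑ k, ∑ i, ∑ j, F i j k := by
    refine (sum_le_sum fun i _ => sum_le_sum fun j _ => sum_le_sum fun k _ => h1 i j k).trans ?_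
    simp only [sum_add_distrib]
    rw [← tail_rot fun k i j => F i j k, ← tail_rot F, tail_rot fun i j k => F j k i]
    linarith only
  have h3 : ∀ k, ∑ i, ∑ j, F i j k ≤
      2 * q * μ k ^ 2 + (∑ k, μ k) * σ * (μ k * ∑ v ∈ Tᶜ, p v * a v k ^ 2) := fun k => by
    set m := ∑ v ∈ T, p v * a v k with hm
    let g : V → ℝ := fun v => (if v ∈ T then (1 : ℝ) else 0) * a v k - m
    have g1 : ∀ f : V → ℝ,
        ∑ v, p v * g v * f v = ∑ v ∈ T, p v * (f v * a v k) - m * ∑ v, p v * f v := fun f => by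
      rw [← tail_ind T, mul_sum, ← sum_sub_distrib]
      exact sum_congr rfl fun v _ => by ring
    have g2 : ∑ v, p v * g v = 0 := by
      have := g1 fun _ => 1
      simp only [mul_one, one_mul, hp.2] at this
      rw [this, sub_self]
    have g3 : ∑ v, p v * g v ^ 2 ≤ μ k := by
      have e : ∑ v, p v * g v ^ 2 ≤ ∑ v, (p v * (a v k * a v k) - m * (p v * g v) -
          m * ((if v ∈ T then (1 : ℝ) else 0) * (p v * a v k))) := sum_le_sum fun v _ => by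
        have := mul_nonneg (hp.1 v) (mul_self_nonneg (a v k))
        simp only [g]
        split_ifs <;> linarith only [this]
      rw [sum_sub_distrib, sum_sub_distrib, ← mul_sum, ← mul_sum, g2, tail_ind, ← hm, ha.2.1,
        if_pos rfl] at e
      linarith only [e, mul_self_nonneg m]
    have e1 : ∑ i, ∑ j, F i j k =
        μ k * Yn μ fun i j => al p a g i j + m * if i = j then μ i else 0 := by
      simp only [F, Yn, mul_sum]
      refine sum_congr rfl fun i _ => sum_congr rfl fun j _ => ?_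
      rw [al, g1, ha.2.1, sub_add_cancel]
    have e2 : (Yn μ fun i j => m * if i = j then μ i else 0) = m ^ 2 * (∑ i, μ i) / 2 := by
      rw [Yn, mul_sum, sum_div]
      refine sum_congr rfl fun i _ => ?_
      rw [sum_eq_single i (fun j _ hj => by simp [hj.symm]) (by simp), if_pos rfl]
      rcases (ha.1 i).eq_or_lt with e | e
      · simp [← e]
      · field_simp
        ring
    have e3 : m ^ 2 ≤ σ * ∑ v ∈ Tᶜ, p v * a v k ^ 2 := by
      have b := sum_add_sum_compl T fun v => p v * a v k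
      rw [ha.2.2, ← hm] at b
      rw [eq_neg_of_add_eq_zero_left b, neg_sq]
      refine (sum_sq_le_sum_mul_sum_of_sq_le_mul _ (fun v _ => hp.1 v)
        (fun v _ => mul_nonneg (hp.1 v) (sq_nonneg (a v k))) fun v _ => le_of_eq (by ring)).trans ?_
      exact mul_le_mul_of_nonneg_right hT
        (sum_nonneg fun v _ => mul_nonneg (hp.1 v) (sq_nonneg _))
    have e4 := Yn_add ha.1 (al p a g) fun i j => m * if i = j then μ i else 0
    have e5 := (hq g g2).trans (mul_le_mul_of_nonneg_left g3 q0)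
    have e6 := mul_le_mul_of_nonneg_right e3 (sum_nonneg (s := univ) fun i _ => ha.1 i)
    rw [e2] at e4
    have e7 : (Yn μ fun i j => al p a g i j + m * if i = j then μ i else 0) ≤
        2 * q * μ k + (∑ k, μ k) * σ * ∑ v ∈ Tᶜ, p v * a v k ^ 2 := by
      linarith only [e4, e5, e6]
    rw [e1]
    linarith only [mul_le_mul_of_nonneg_left e7 (ha.1 k)]
  have h4 := sum_le_sum fun k (_ : k ∈ univ) => h3 k
  rw [sum_add_distrib, ← mul_sum, ← mul_sum, ← tail_et] at h4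
  have h5 : 0 ≤ ∑ k, ∑ i, ∑ j, F i j k :=
    sum_nonneg fun k _ => sum_nonneg fun i _ => sum_nonneg fun j _ => F0 i j k
  linarith only [h2, h4, h5]

theorem tail_sw (T : Finset V) (T' : Finset X) (G : V → X → ι → ℝ) :
    ∑ v ∈ T, ∑ x ∈ T', ∑ i, G v x i = ∑ i, ∑ v ∈ T, ∑ x ∈ T', G v x i :=
  (sum_congr rfl fun _ _ => sum_comm).trans sum_comm

/-- Expand the cube; `s t ≤ (s ^ 2 + t ^ 2) / 2`. -/
theorem cube (p : V → ℝ) (p' : X → ℝ) (a : V → ι → ℝ) (b : X → ι → ℝ) (T : Finset V)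
    (T' : Finset X) : ∑ v ∈ T, ∑ x ∈ T', p v * p' x * (∑ i, a v i * b x i) ^ 3 ≤
      (∑ i, ∑ j, ∑ k, (∑ v ∈ T, p v * (a v i * a v j * a v k)) ^ 2 +
        ∑ i, ∑ j, ∑ k, (∑ x ∈ T', p' x * (b x i * b x j * b x k)) ^ 2) / 2 := by
  have e : ∀ v x, p v * p' x * (∑ i, a v i * b x i) ^ 3 = ∑ i, ∑ j, ∑ k,
      p v * (a v i * a v j * a v k) * (p' x * (b x i * b x j * b x k)) := fun v x => by
    simp only [pow_three, mul_sum, sum_mul]
    exact sum_congr rfl fun i _ => sum_congr rfl fun j _ => sum_congr rfl fun k _ => by ring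
  simp only [e]
  rw [tail_sw, ← sum_add_distrib, sum_div]
  refine sum_le_sum fun i _ => ?_
  rw [tail_sw, ← sum_add_distrib, sum_div]
  refine sum_le_sum fun j _ => ?_
  rw [tail_sw, ← sum_add_distrib, sum_div]
  refine sum_le_sum fun k _ => ?_
  rw [← sum_mul_sum]
  linarith only [two_mul_le_add_sq (∑ v ∈ T, p v * (a v i * a v j * a v k))
    (∑ x ∈ T', p' x * (b x i * b x j * b x k))]

theorem tail_one {p : V → ℝ} (hp : Pb p) {μ : ι → ℝ} {a : V → ι → ℝ} (ha : Sd p μ a)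
    {q σ z L : ℝ} (q0 : 0 ≤ q) (q1 : q ≤ 16 / 10 ^ 8) (h1 : YB p μ a q) {T : Finset V}
    (hT : ∑ v ∈ Tᶜ, p v ≤ σ) (z0 : 0 < z) (z1 : z ≤ 1)
    (hY : ∑ k, μ k ^ 2 ≤ 4000 * z ^ 2) (L1 : 1 ≤ L) (hN : (∑ k, μ k) * σ ≤ L)
    (hσ : σ * L ^ 2 ≤ z / 10 ^ 14) :
    ∑ i, ∑ j, ∑ k, (∑ v ∈ T, p v * (a v i * a v j * a v k)) ^ 2 ≤ z ^ 2 / 100 := by
  have L0 : 0 < L := one_pos.trans_le L1
  have σ0 : 0 ≤ σ := (sum_nonneg fun v _ => hp.1 v).trans hT
  have Y0 : 0 ≤ ∑ k, μ k ^ 2 := sum_nonneg fun k _ => sq_nonneg _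
  have hy : ∀ k, μ k ≤ 64 * z := fun k => by
    have b := single_le_sum (f := fun k => μ k ^ 2) (fun k _ => sq_nonneg _) (mem_univ k)
    exact le_of_sq_le_sq (by linarith only [b, hY, sq_nonneg z]) (by positivity)
  have k1 := tail hp ha q0 h1 hT (by positivity) hy (θ := 1 / (10 ^ 8 * L)) (by positivity)
  have k2 := third hp ha q0 h1 hT
  have E0 : 0 ≤ ∑ v ∈ Tᶜ, p v * et μ a v := sum_nonneg fun v _ => mul_nonneg (hp.1 v)
    (sum_nonneg fun k _ => mul_nonneg (ha.1 k) (sq_nonneg _))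
  have k3 := (mul_le_mul_of_nonneg_right hN E0).trans (mul_le_mul_of_nonneg_left k1 L0.le)
  have k4 : L * ((σ + 1 / (10 ^ 8 * L)) * ∑ k, μ k ^ 2 + 64 * z * q * σ / (2 * (1 / (10 ^ 8 * L)))) =
      σ * L * ∑ k, μ k ^ 2 + (∑ k, μ k ^ 2) / 10 ^ 8 + 32 * 10 ^ 8 * z * (q * (σ * L ^ 2)) := by
    field_simp
    ring
  have k5 : σ * L ≤ 1 / 10 ^ 14 := by
    have b := le_mul_of_one_le_right (mul_nonneg σ0 L0.le) L1
    linarith only [b, hσ, z1]
  have k6 := mul_le_mul_of_nonneg_right k5 Y0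
  have k7 := mul_le_mul_of_nonneg_left (mul_le_mul q1 hσ (by positivity) (by positivity)) z0.le
  have k8 := mul_le_mul_of_nonneg_right q1 Y0
  linarith only [k2, k3, k4, k6, k7, k8, hY, sq_nonneg z]

/-- `cube`, `third` (twice), `tail` with `θ = 1 / (10 ^ 8 L)`, `y = 64 z`
(`μ k ^ 2 ≤ ∑ μ ^ 2 ≤ (64 z) ^ 2`). -/
theorem m3b {p : V → ℝ} {p' : X → ℝ} (hp : Pb p) (hp' : Pb p') {μ : ι → ℝ} {a : V → ι → ℝ}
    {b : X → ι → ℝ} (ha : Sd p μ a) (hb : Sd p' μ b) {q σ z L : ℝ} (q0 : 0 ≤ q)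
    (q1 : q ≤ 16 / 10 ^ 8) (h1 : YB p μ a q) (h2 : YB p' μ b q) {T : Finset V} {T' : Finset X}
    (hT : ∑ v ∈ Tᶜ, p v ≤ σ) (hT' : ∑ x ∈ T'ᶜ, p' x ≤ σ) (z0 : 0 < z) (z1 : z ≤ 1)
    (hY : ∑ k, μ k ^ 2 ≤ 4000 * z ^ 2) (L1 : 1 ≤ L) (hN : (∑ k, μ k) * σ ≤ L)
    (hσ : σ * L ^ 2 ≤ z / 10 ^ 14) :
    ∑ v ∈ T, ∑ x ∈ T', p v * p' x * (∑ i, a v i * b x i) ^ 3 ≤ z ^ 2 / 100 := by
  linarith only [cube p p' a b T T', tail_one hp ha q0 q1 h1 hT z0 z1 hY L1 hN hσ,
    tail_one hp' hb q0 q1 h2 hT' z0 z1 hY L1 hN hσ]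

end Pool.Agent.Work.MP_e10cd8_co.Far
end

-- merged part: Pool.Agent.Work.MP_e10cd8_co.Far.Rho
section
/-! The row and column terms are small. -/

namespace Pool.Agent.Work.MP_e10cd8_co.Far
open Finset Real Pool.Agent.Work.MP_e10cd8_co.Up

variable {V X ι J : Type} [Fintype V] [Fintype X] [Fintype ι] [Fintype J]
  [DecidableEq V] [DecidableEq X] [DecidableEq ι] [DecidableEq J]

theorem rho_cs {p : V → ℝ} (hp : ∀ v, 0 ≤ p v) (S : Finset V) (f : V → ℝ) :
    (∑ v ∈ S, p v * f v) ^ 2 ≤ (∑ v ∈ S, p v) * ∑ v ∈ S, p v * f v ^ 2 :=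
  sum_sq_le_sum_mul_sum_of_sq_le_mul S (fun v _ => hp v)
    (fun v _ => mul_nonneg (hp v) (sq_nonneg _)) fun v _ => le_of_eq (by ring)

theorem rho_sub {f : V → ℝ} (hf : ∀ v, 0 ≤ f v) (S : Finset V) : ∑ v ∈ S, f v ≤ ∑ v, f v :=
  sum_le_sum_of_subset_of_nonneg (subset_univ _) fun v _ _ => hf v

theorem rho_et {μ : ι → ℝ} (hμ : ∀ i, 0 ≤ μ i) (a : V → ι → ℝ) (v : V) : 0 ≤ et μ a v :=
  sum_nonneg fun k _ => mul_nonneg (hμ k) (sq_nonneg _)

theorem rho_row {p : X → ℝ} (hp : Pb p) {μ : ι → ℝ} {b : X → ι → ℝ} (hb : Sd p μ b) {m r : X → ℝ}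
    {c : ι → ℝ} {s : ℝ} (hF : ∀ x, 0 < p x → m x = ∑ i, c i * b x i + s + r x) {T : Finset X}
    {σ K : ℝ} (σ1 : σ ≤ 1 / 2) (K0 : 0 ≤ K) (hT : ∑ x ∈ Tᶜ, p x ≤ σ)
    (k : ∑ x ∈ T, p x * m x ^ 2 ≤ K) :
    (s + (∑ x ∈ T, p x * r x) / ∑ x ∈ T, p x) ^ 2 ≤ 4 * K + 8 * σ * ∑ i, μ i * c i ^ 2 := by
  have t0 := sum_add_sum_compl T p
  rw [hp.2] at t0
  have t1 : 0 ≤ ∑ x ∈ Tᶜ, p x := sum_nonneg fun x _ => hp.1 x
  have e0 : 0 ≤ ∑ i, μ i * c i ^ 2 := sum_nonneg fun k _ => mul_nonneg (hb.1 k) (sq_nonneg _)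
  have a1 : ∑ x, p x * ∑ i, c i * b x i = 0 := by
    simp only [mul_sum]
    rw [sum_comm]
    refine sum_eq_zero fun i _ => ?_
    rw [sum_congr rfl fun x _ => mul_left_comm (p x) (c i) (b x i), ← mul_sum, hb.2.2, mul_zero]
  rw [← sum_add_sum_compl T] at a1
  have a2 : ∑ x ∈ T, p x * m x = ∑ x ∈ T, p x * ∑ i, c i * b x i + (∑ x ∈ T, p x) * s +
      ∑ x ∈ T, p x * r x := by
    rw [sum_mul, ← sum_add_distrib, ← sum_add_distrib]
    refine sum_congr rfl fun x _ => ?_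
    rcases (hp.1 x).eq_or_lt with e | e
    · rw [← e]; ring
    · rw [hF x e]; ring
  have a3 := rho_cs hp.1 T m
  have a4 := rho_cs hp.1 Tᶜ fun x => ∑ i, c i * b x i
  have a5 := rho_sub (fun x => mul_nonneg (hp.1 x) (sq_nonneg (∑ i, c i * b x i))) Tᶜ
  rw [pars hb.2.1] at a5
  have a6 : 0 ≤ ∑ x ∈ Tᶜ, p x * (∑ i, c i * b x i) ^ 2 :=
    sum_nonneg fun x _ => mul_nonneg (hp.1 x) (sq_nonneg _)
  generalize ∑ i, μ i * c i ^ 2 = E at *
  generalize ∑ x ∈ Tᶜ, p x * (∑ i, c i * b x i) ^ 2 = E' at *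
  generalize ∑ x ∈ Tᶜ, p x * ∑ i, c i * b x i = B at *
  generalize ∑ x ∈ T, p x * ∑ i, c i * b x i = B' at *
  generalize ∑ x ∈ T, p x * m x ^ 2 = K' at *
  generalize ∑ x ∈ T, p x * m x = A at *
  generalize ∑ x ∈ T, p x * r x = R at *
  generalize ∑ x ∈ Tᶜ, p x = τ' at *
  generalize ∑ x ∈ T, p x = τ at *
  have τ1 : 1 / 2 ≤ τ := by linarith
  have τ0 : 0 < τ := by linarith
  have b1 : s + R / τ = (A + B) / τ := by
    field_simp
    linarith
  have b2 : A ^ 2 ≤ τ * K := a3.trans (mul_le_mul_of_nonneg_left k τ0.le)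
  have b3 : B ^ 2 ≤ σ * E := a4.trans (mul_le_mul hT a5 a6 (t1.trans hT))
  have b4 : 0 ≤ σ * E := mul_nonneg (t1.trans hT) e0
  rw [b1, div_pow, div_le_iff₀ (pow_pos τ0 2)]
  have b5 : 0 ≤ K * (τ * (τ - 1 / 2)) := by positivity
  have b6 : 0 ≤ σ * E * (τ ^ 2 - 1 / 4) := mul_nonneg b4 (by nlinarith)
  nlinarith [sq_nonneg (A - B)]

/-- `τ = p T ≥ 1 / 2`, `τ'`; `ρ v = r v + ∑_{T'} p' r' / τ'`, `ρ' x = r' x + ∑_T p r / τ`,
`ρ0 = ∑_T p ρ / τ`, `r v + r' x = ρ v + ρ' x - ρ0`.  On the support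
`τ' ρ v = ∑_{T'} p' M + ∑_{T'ᶜ} p' ⟨a, b⟩` (`b` is centred), so by Cauchy-Schwarz and `pars`
`ρ v ^ 2 ≤ 4 K + 8 σ et v` for `v ∈ T`; `ρ0 ^ 2 ≤ 4 K + 16 σ Y` (`sum_et`). -/
theorem rho {p : V → ℝ} {p' : X → ℝ} (hp : Pb p) (hp' : Pb p') {M : V → X → ℝ} {μ : ι → ℝ}
    {a : V → ι → ℝ} {b : X → ι → ℝ} {r : V → ℝ} {r' : X → ℝ} (ha : Sd p μ a) (hb : Sd p' μ b)
    (hF : Fac p p' M a b r r') {T : Finset V} {T' : Finset X} {σ K : ℝ} (σ1 : σ ≤ 1 / 2)
    (K0 : 0 ≤ K) (hT : ∑ v ∈ Tᶜ, p v ≤ σ) (hT' : ∑ x ∈ T'ᶜ, p' x ≤ σ)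
    (k1 : ∀ v ∈ T, 0 < p v → ∑ x ∈ T', p' x * M v x ^ 2 ≤ K)
    (k2 : ∀ x ∈ T', 0 < p' x → ∑ v ∈ T, p v * M v x ^ 2 ≤ K) :
    ∀ v ∈ T, ∀ x ∈ T', 0 < p v → 0 < p' x →
      (r v + r' x) ^ 2 ≤ 36 * K + 24 * σ * (et μ a v + et μ b x) + 48 * σ * ∑ k, μ k ^ 2 := by
  have h1 : ∀ v ∈ T, 0 < p v →
      (r v + (∑ x ∈ T', p' x * r' x) / ∑ x ∈ T', p' x) ^ 2 ≤ 4 * K + 8 * σ * et μ a v :=
    fun v hv h0 => rho_row hp' hb (fun x hx => hF v x h0 hx) σ1 K0 hT' (k1 v hv h0)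
  have h2 : ∀ x ∈ T', 0 < p' x →
      (r' x + (∑ v ∈ T, p v * r v) / ∑ v ∈ T, p v) ^ 2 ≤ 4 * K + 8 * σ * et μ b x :=
    fun x hx h0 => rho_row (m := fun v => M v x) hp ha (fun v hv => by
      rw [hF v x hv h0, sum_congr rfl fun i _ => mul_comm (a v i) (b x i)]
      ring) σ1 K0 hT (k2 x hx h0)
  generalize (∑ x ∈ T', p' x * r' x) / ∑ x ∈ T', p' x = R' at h1
  have t0 := sum_add_sum_compl T p
  rw [hp.2] at t0
  have σ0 : 0 ≤ σ := (sum_nonneg fun v _ => hp.1 v).trans hT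
  have a1 := rho_cs hp.1 T fun v => r v + R'
  have a2 : ∑ v ∈ T, p v * (r v + R') ^ 2 ≤ ∑ v ∈ T, (p v * (4 * K) + 8 * σ * (p v * et μ a v)) := by
    refine sum_le_sum fun v hv => ?_
    rcases (hp.1 v).eq_or_lt with e | e
    · rw [← e]; simp
    · have := mul_le_mul_of_nonneg_left (h1 v hv e) e.le
      linarith
  have a3 := rho_sub (fun v => mul_nonneg (hp.1 v) (rho_et ha.1 a v)) T
  rw [sum_et ha] at a3
  rw [sum_add_distrib, ← sum_mul, ← mul_sum] at a2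
  have a4 : ∑ v ∈ T, p v * (r v + R') = ∑ v ∈ T, p v * r v + (∑ v ∈ T, p v) * R' := by
    simp only [mul_add, sum_add_distrib, sum_mul]
  rw [a4] at a1
  have Y0 : 0 ≤ ∑ k, μ k ^ 2 := sum_nonneg fun k _ => sq_nonneg _
  have a5 := mul_le_mul_of_nonneg_left a3 σ0
  generalize ∑ k, μ k ^ 2 = Y at *
  generalize ∑ v ∈ T, p v * et μ a v = E at *
  generalize ∑ v ∈ T, p v * (r v + R') ^ 2 = Q at *
  generalize ∑ v ∈ T, p v * r v = R at *
  generalize ∑ v ∈ T, p v = τ at *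
  have τ1 : 1 / 2 ≤ τ := by linarith
  have τ0 : 0 < τ := by linarith
  have b1 : (R / τ + R') ^ 2 ≤ 4 * K + 16 * σ * Y := by
    have c1 : R / τ + R' = (R + τ * R') / τ := by field_simp
    rw [c1, div_pow, div_le_iff₀ (pow_pos τ0 2)]
    have c2 : Q ≤ τ * (4 * K) + 8 * (σ * Y) := by linarith
    have c3 := mul_le_mul_of_nonneg_left c2 τ0.le
    have c4 : 0 ≤ σ * Y * (τ * (τ - 1 / 2)) := by positivity
    nlinarith
  intro v hv x hx h0 h0'
  have c1 := h1 v hv h0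
  have c2 := h2 x hx h0'
  have c3 : r v + r' x = (r v + R') + (r' x + R / τ) - (R / τ + R') := by ring
  rw [c3]
  generalize r v + R' = A at *
  generalize r' x + R / τ = B at *
  generalize R / τ + R' = C at *
  nlinarith [sq_nonneg (A - B), sq_nonneg (A + C), sq_nonneg (B + C)]

/-- `Y = ∑ p p' ⟨a, b⟩ ^ 2` (`pars`, `sum_et`) is at most the sum over `T × T'` plus the two tails;
on `T × T'`, `⟨a, b⟩ ^ 2 ≤ 2 M ^ 2 + 2 (r + r') ^ 2` gives `74 K + 192 σ Y` (`rho`); `tail` with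
`θ = 1 / 8`, `y = √Y`, and `8 y σ ≤ Y / 4 + 64 σ ^ 2`. -/
theorem ybound {p : V → ℝ} {p' : X → ℝ} (hp : Pb p) (hp' : Pb p') {M : V → X → ℝ} {μ : ι → ℝ}
    {a : V → ι → ℝ} {b : X → ι → ℝ} {r : V → ℝ} {r' : X → ℝ} (ha : Sd p μ a) (hb : Sd p' μ b)
    (hF : Fac p p' M a b r r') {T : Finset V} {T' : Finset X} {σ e q : ℝ} (σ1 : σ ≤ 1 / 1000)
    (hT : ∑ v ∈ Tᶜ, p v ≤ σ) (hT' : ∑ x ∈ T'ᶜ, p' x ≤ σ) (he : 64 * σ ^ 2 ≤ e)
    (k1 : ∀ v ∈ T, 0 < p v → ∑ x ∈ T', p' x * M v x ^ 2 ≤ 15 * e)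
    (k2 : ∀ x ∈ T', 0 < p' x → ∑ v ∈ T, p v * M v x ^ 2 ≤ 15 * e) (q0 : 0 ≤ q) (q1 : q ≤ 1)
    (h1 : YB p μ a q) (h2 : YB p' μ b q) : ∑ k, μ k ^ 2 ≤ 4000 * e := by
  have σ0 : 0 ≤ σ := (sum_nonneg fun v _ => hp.1 v).trans hT
  have e0 : 0 ≤ e := le_trans (by positivity) he
  have Y0 : 0 ≤ ∑ k, μ k ^ 2 := sum_nonneg fun k _ => sq_nonneg _
  have hy : ∀ k, μ k ≤ √(∑ k, μ k ^ 2) := fun k =>
    le_sqrt_of_sq_le (single_le_sum (f := fun k => μ k ^ 2) (fun _ _ => sq_nonneg _) (mem_univ k))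
  have t1 := tail hp ha q0 h1 hT (sqrt_nonneg _) hy (θ := 1 / 8) (by norm_num)
  have t2 := tail hp' hb q0 h2 hT' (sqrt_nonneg _) hy (θ := 1 / 8) (by norm_num)
  have hr := rho hp hp' ha hb hF (σ1.trans (by norm_num)) (by positivity) hT hT' k1 k2
  have s1 := rho_sub (fun v => mul_nonneg (hp.1 v) (rho_et ha.1 a v)) T
  have s2 := rho_sub (fun x => mul_nonneg (hp'.1 x) (rho_et hb.1 b x)) T'
  have s3 := rho_sub hp.1 T
  have s4 := rho_sub hp'.1 T'
  have s5 := sum_add_sum_compl T fun v => p v * et μ a v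
  rw [sum_et ha] at s1 s5
  rw [sum_et hb] at s2
  rw [hp.2] at s3
  rw [hp'.2] at s4
  have sy := sq_sqrt Y0
  have y0 := sqrt_nonneg (∑ k, μ k ^ 2)
  generalize √(∑ k, μ k ^ 2) = y at *
  generalize ∑ k, μ k ^ 2 = Y at *
  have row : ∀ v ∈ T, p v * ∑ x ∈ T', p' x * (∑ i, a v i * b x i) ^ 2 ≤
      p v * (1110 * e + 144 * σ * Y) + 48 * σ * (p v * et μ a v) := by
    intro v hv
    rcases (hp.1 v).eq_or_lt with h0 | h0
    · rw [← h0]; simp
    have E0 := rho_et ha.1 a v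
    have c1 : ∑ x ∈ T', p' x * (∑ i, a v i * b x i) ^ 2 ≤ ∑ x ∈ T', (2 * (p' x * M v x ^ 2) +
        p' x * (1080 * e + 48 * σ * et μ a v + 96 * σ * Y) + 48 * σ * (p' x * et μ b x)) := by
      refine sum_le_sum fun x hx => ?_
      rcases (hp'.1 x).eq_or_lt with h0' | h0'
      · rw [← h0']; simp
      have d1 := hr v hv x hx h0 h0'
      have d2 : (∑ i, a v i * b x i) ^ 2 ≤ 2 * M v x ^ 2 + 2 * (r v + r' x) ^ 2 := by
        have d3 : ∑ i, a v i * b x i = M v x - (r v + r' x) := by rw [hF v x h0 h0']; ring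
        rw [d3]
        nlinarith [sq_nonneg (M v x + (r v + r' x))]
      have d4 : (∑ i, a v i * b x i) ^ 2 ≤ 2 * M v x ^ 2 +
          (1080 * e + 48 * σ * et μ a v + 96 * σ * Y) + 48 * σ * et μ b x := by linarith
      have := mul_le_mul_of_nonneg_left d4 h0'.le
      linarith
    rw [sum_add_distrib, sum_add_distrib, ← mul_sum, ← mul_sum, ← sum_mul] at c1
    have c2 := mul_le_mul_of_nonneg_right s4
      (show 0 ≤ 1080 * e + 48 * σ * et μ a v + 96 * σ * Y by positivity)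
    have c3 := mul_le_mul_of_nonneg_left s2 σ0
    have c4 := k1 v hv h0
    have c5 : ∑ x ∈ T', p' x * (∑ i, a v i * b x i) ^ 2 ≤
        1110 * e + 144 * σ * Y + 48 * σ * et μ a v := by linarith
    have := mul_le_mul_of_nonneg_left c5 h0.le
    linarith
  have m1 := sum_le_sum row
  rw [sum_add_distrib, ← mul_sum, ← sum_mul] at m1
  have m2 : ∑ v ∈ T, p v * et μ a v = ∑ v ∈ T, p v * ∑ x ∈ T', p' x * (∑ i, a v i * b x i) ^ 2 +
      ∑ v ∈ T, p v * ∑ x ∈ T'ᶜ, p' x * (∑ i, a v i * b x i) ^ 2 := by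
    rw [← sum_add_distrib]
    refine sum_congr rfl fun v _ => ?_
    rw [← mul_add, sum_add_sum_compl, pars hb.2.1]
    rfl
  have m3 : ∑ v ∈ T, p v * ∑ x ∈ T'ᶜ, p' x * (∑ i, a v i * b x i) ^ 2 ≤
      ∑ x ∈ T'ᶜ, p' x * et μ b x := by
    refine (rho_sub (fun v => mul_nonneg (hp.1 v)
      (sum_nonneg fun x _ => mul_nonneg (hp'.1 x) (sq_nonneg _))) T).trans_eq ?_
    simp only [mul_sum]
    rw [sum_comm]
    refine sum_congr rfl fun x _ => ?_
    unfold et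
    rw [← pars ha.2.1, mul_sum]
    refine sum_congr rfl fun v _ => ?_
    rw [sum_congr rfl fun i _ => mul_comm (a v i) (b x i)]
    ring
  have m4 := mul_le_mul_of_nonneg_right s3 (show 0 ≤ 1110 * e + 144 * σ * Y by positivity)
  have m5 := mul_le_mul_of_nonneg_left s1 σ0
  have m6 : y * q * σ / (2 * (1 / 8)) ≤ 4 * (y * σ) := by
    have := mul_le_mul_of_nonneg_left q1 (mul_nonneg y0 σ0)
    rw [div_le_iff₀ (by norm_num)]
    linarith
  have m7 : 8 * (y * σ) ≤ Y / 4 + 64 * σ ^ 2 := by nlinarith [sq_nonneg (y - 16 * σ)]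
  have m8 := mul_le_mul_of_nonneg_right σ1 Y0
  linarith

end Pool.Agent.Work.MP_e10cd8_co.Far
end

-- merged part: Pool.Agent.Work.MP_e10cd8_co.Far.Shared
section
/-! The move on both sides. -/

namespace Pool.Agent.Work.MP_e10cd8_co.Far
open Finset Real Pool.Agent.Work.MP_e10cd8_co.Up

variable {V X ι J : Type} [Fintype V] [Fintype X] [Fintype ι] [Fintype J]
  [DecidableEq V] [DecidableEq X] [DecidableEq ι] [DecidableEq J]

omit [DecidableEq V] in
theorem shared_side {p t gb : V → ℝ} (h : V → ℝ) (hp : Pb p) {m e : ℝ} (hm : ∑ v, p v * t v = m)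
    (g0 : ∑ v, p v * gb v = 0) (he : ∑ v, p v * (gb v * t v) = e) :
    ∑ v, p v * (t v ^ 2 / 2 - (t v - m + gb v) * t v) = -(∑ v, p v * t v ^ 2) / 2 + m ^ 2 - e ∧
    ∑ v, p v * (t v - m + gb v) ^ 2 = ∑ v, p v * t v ^ 2 - m ^ 2 + 2 * e + ∑ v, p v * gb v ^ 2 ∧
    zt p h (fun v => t v - m + gb v) t 0 ≤ ∑ v, p v * gb v ^ 2 + m ^ 2 ∧
    ∑ v, p v * (t v - m + gb v) ^ 2 ≤
      2 * (∑ v, p v * t v ^ 2 - m ^ 2) + 2 * ∑ v, p v * gb v ^ 2 := by
  have key : ∀ a1 a2 a3 a4 a5 a6 : ℝ, ∑ v, p v * (a1 * t v ^ 2 + a2 * t v + a3 * (gb v * t v) +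
      a4 * gb v + a5 * gb v ^ 2 + a6) =
      a1 * ∑ v, p v * t v ^ 2 + a2 * m + a3 * e + a5 * ∑ v, p v * gb v ^ 2 + a6 := by
    intro a1 a2 a3 a4 a5 a6
    have k : ∀ v, p v * (a1 * t v ^ 2 + a2 * t v + a3 * (gb v * t v) + a4 * gb v +
        a5 * gb v ^ 2 + a6) = a1 * (p v * t v ^ 2) + a2 * (p v * t v) +
        a3 * (p v * (gb v * t v)) + a4 * (p v * gb v) + a5 * (p v * gb v ^ 2) + a6 * p v :=
      fun v => by ring
    simp only [k, sum_add_distrib, ← mul_sum, hm, g0, he, hp.2]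
    ring
  refine ⟨?_, ?_, ?_, ?_⟩
  · exact (sum_congr rfl fun v _ => by ring).trans ((key (-1 / 2) m (-1) 0 0 0).trans (by ring))
  · exact (sum_congr rfl fun v _ => by ring).trans
      ((key 1 (-2 * m) 2 (-2 * m) 1 (m ^ 2)).trans (by ring))
  · refine le_trans (sum_le_sum fun v _ => mul_le_mul_of_nonneg_left ?_ (hp.1 v))
      ((key 0 0 0 (-2 * m) 1 (m ^ 2)).trans (by ring)).le
    have := mul_le_mul_of_nonneg_right (min_le_right (h v) 1) (sq_nonneg (t v - m + gb v - t v))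
    nlinarith
  · refine le_trans (sum_le_sum fun v _ => mul_le_mul_of_nonneg_left ?_ (hp.1 v))
      ((key 2 (-4 * m) 0 0 2 (2 * m ^ 2)).trans (by ring)).le
    nlinarith [sq_nonneg (t v - m - gb v)]

omit [DecidableEq V] in
theorem shared_var {p t : V → ℝ} (hp : Pb p) {m : ℝ} (hm : ∑ v, p v * t v = m) :
    ∑ v, p v * (t v - m) = 0 ∧ ∑ v, p v * (t v - m) ^ 2 = ∑ v, p v * t v ^ 2 - m ^ 2 := by
  have k : ∀ v, p v * (t v - m) ^ 2 = p v * t v ^ 2 - 2 * m * (p v * t v) + m ^ 2 * p v :=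
    fun v => by ring
  constructor
  · simp only [mul_sub, sum_sub_distrib, ← sum_mul, hm, hp.2]
    ring
  · simp only [k, sum_add_distrib, sum_sub_distrib, ← mul_sum, hm, hp.2]
    ring

/-- `Mast` with `Gt z = (t' z.1 - m') + (t z.2 - n)`, `G' = (t' - m') + gb`, `G = (t - n) + gb'`
(`gb`, `gb'` the conditional means of `t - n`, `t' - m'`: `cond_ex` and its transpose), `S = 0`,
`η = η' = 0`.  With `c = ∑ P t' t`: the `w` bracket is `E - c + (m' + n) ^ 2 / 2`, the `γ` bracket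
is `-2 (c - m' n) - |gb| ^ 2 - |gb'| ^ 2`, `zt ≤ |gb| ^ 2 + m' ^ 2` (`gb` is centred), and
`|G'| ^ 2 ≤ 2 |t'| ^ 2 + 2 |t| ^ 2` (`cond_sq`). -/
theorem shared {P : V × X → ℝ} (hP : Pb P) {h : V → ℝ} {h' : X → ℝ} {M : V → X → ℝ} {μ : ι → ℝ}
    {a : V → ι → ℝ} {b : X → ι → ℝ} {Θ w γ ζ κ : ℝ} (H : Mast P h h' M μ a b Θ w γ ζ κ)
    (ζ0 : 0 ≤ ζ) (κ0 : 0 ≤ κ) (hγ : 2 * ζ ≤ γ) (t' : V → ℝ) (t : X → ℝ) :
    0 ≤ w * ((∑ v, ∑ x, mA P v * exp (-h v) * t' v * (mB P x * exp (-h' x) * t x) * M v x ^ 2) /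
          ee (mA P) (mB P) h h' M - ∑ z, P z * (t' z.1 * t z.2) +
        (∑ v, mA P v * t' v + ∑ x, mB P x * t x) ^ 2 / 2) +
      γ * ((∑ v, mA P v * t' v) * ∑ x, mB P x * t x - ∑ z, P z * (t' z.1 * t z.2)) +
      ζ * ((∑ v, mA P v * t' v) ^ 2 + (∑ x, mB P x * t x) ^ 2) +
      2 * κ * (∑ v, mA P v * t' v ^ 2 + ∑ x, mB P x * t x ^ 2) := by
  have hP' : Pb fun z : X × V => P z.swap :=
    ⟨fun _ => hP.1 _, by rw [← hP.2]; exact (Equiv.prodComm X V).sum_comp P⟩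
  have pA := mA_pb hP
  have pB := mB_pb hP
  obtain ⟨m, hm⟩ : ∃ m, ∑ v, mA P v * t' v = m := ⟨_, rfl⟩
  obtain ⟨n, hn⟩ : ∃ n, ∑ x, mB P x * t x = n := ⟨_, rfl⟩
  obtain ⟨c, hc⟩ : ∃ c, ∑ z, P z * (t' z.1 * t z.2) = c := ⟨_, rfl⟩
  obtain ⟨u0, u2⟩ := shared_var pA hm
  obtain ⟨y0, y2⟩ := shared_var pB hn
  obtain ⟨gb, g1, g2⟩ := cond_ex hP fun x => t x - n
  obtain ⟨gb', g1', g2'⟩ := cond_ex hP' fun v => t' v - m
  have j1 := cond_sq hP g1
  have j2 : ∑ x, mB P x * gb' x ^ 2 ≤ ∑ v, mA P v * (t' v - m) ^ 2 := cond_sq hP' g1'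
  replace g1' : ∀ x, mB P x * gb' x = ∑ v, P (v, x) * (t' v - m) := g1'
  replace g2' : ∑ x, mB P x * gb' x = 0 := g2'.trans u0
  replace g2 := g2.trans y0
  have hm' := hm
  have hn' := hn
  rw [sum_mA] at hm'
  rw [sum_mB] at hn'
  have e1 : ∑ v, mA P v * (gb v * t' v) = c - m * n := by
    have k : ∀ z : V × X, P z * (t z.2 - n) * t' z.1 =
        P z * (t' z.1 * t z.2) - P z * t' z.1 * n := fun z => by ring
    simp only [← mul_assoc, g1, sum_mul]
    rw [← Fintype.sum_prod_type' (f := fun v x => P (v, x) * (t x - n) * t' v)]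
    simp only [k, sum_sub_distrib, ← sum_mul, hc, hm']
  have e2 : ∑ x, mB P x * (gb' x * t x) = c - m * n := by
    have k : ∀ z : V × X, P z * (t' z.1 - m) * t z.2 =
        P z * (t' z.1 * t z.2) - m * (P z * t z.2) := fun z => by ring
    simp only [← mul_assoc, g1', sum_mul]
    rw [← Fintype.sum_prod_type_right' (f := fun v x => P (v, x) * (t' v - m) * t x)]
    simp only [k, sum_sub_distrib, ← mul_sum, hc, hn']
  have e3 : ∑ z, P z * (t' z.1 - m + (t z.2 - n)) ^ 2 =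
      ∑ v, mA P v * t' v ^ 2 - m ^ 2 + (∑ x, mB P x * t x ^ 2 - n ^ 2) + 2 * (c - m * n) := by
    have k : ∀ z : V × X, P z * (t' z.1 - m + (t z.2 - n)) ^ 2 =
        P z * (t' z.1 - m) ^ 2 + P z * (t z.2 - n) ^ 2 + 2 * (P z * (t' z.1 * t z.2)) -
        2 * n * (P z * t' z.1) - 2 * m * (P z * t z.2) + 2 * m * n * P z := fun z => by ring
    rw [← u2, ← y2, sum_mA P fun v => (t' v - m) ^ 2, sum_mB P fun x => (t x - n) ^ 2]
    simp only [k, sum_add_distrib, sum_sub_distrib, ← mul_sum, hc, hm', hn', hP.2]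
    ring
  obtain ⟨a1, a2, a3, a4⟩ := shared_side h pA hm g2 e1
  obtain ⟨b1, b2, b3, b4⟩ := shared_side h' pB hn g2' e2
  have K := H (fun z => t' z.1 - m + (t z.2 - n)) (fun v => t' v - m + gb v) t'
    (fun x => t x - n + gb' x) t 0 0 (fun _ _ => 0) (fun _ _ => rfl)
    (by
      rw [sum_mA P fun v => t' v - m] at u0
      rw [sum_mB P fun x => t x - n] at y0
      simp only [mul_add, sum_add_distrib, u0, y0, add_zero])
    (fun v => by simp only [mul_add, sum_add_distrib, g1, ← sum_mul]; rfl)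
    (fun x => by simp only [mul_add, sum_add_distrib, g1', ← sum_mul]; exact add_comm _ _)
  simp only [zero_mul, ne_eq, OfNat.ofNat_ne_zero, not_false_eq_true, zero_pow, mul_zero,
    add_zero, sum_const_zero, zero_div, zero_add] at K
  have f1 := mul_le_mul_of_nonneg_left (add_le_add a3 b3) ζ0
  have f2 := mul_le_mul_of_nonneg_left (add_le_add a4 b4) κ0
  have f3 := mul_le_mul_of_nonneg_left (add_le_add j1 j2) κ0
  have s1 : 0 ≤ ∑ v, mA P v * gb v ^ 2 := sum_nonneg fun v _ => mul_nonneg (pA.1 v) (sq_nonneg _)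
  have s2 : 0 ≤ ∑ x, mB P x * gb' x ^ 2 := sum_nonneg fun v _ => mul_nonneg (pB.1 v) (sq_nonneg _)
  have f4 := mul_le_mul_of_nonneg_right hγ (add_nonneg s1 s2)
  have f5 := mul_nonneg κ0 (add_nonneg (sq_nonneg m) (sq_nonneg n))
  rw [u2, y2] at f3
  rw [e3, a1, b1] at K
  rw [a2, b2] at K f2
  rw [hm, hn, hc]
  linarith

end Pool.Agent.Work.MP_e10cd8_co.Far
end

-- merged part: Pool.Agent.Work.MP_e10cd8_co.Far.Gibbs
section
/-! Gibbs inequalities. -/

namespace Pool.Agent.Work.MP_e10cd8_co.Far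
open Finset Real Pool.Agent.Work.MP_e10cd8_co.Up

variable {V X ι J : Type} [Fintype V] [Fintype X] [Fintype ι] [Fintype J]
  [DecidableEq V] [DecidableEq X] [DecidableEq ι] [DecidableEq J]

/-- Gibbs: `log (ρ / P) ≤ ρ / P - 1` where `P > 0`. -/
theorem gibbs {P ρ : V → ℝ} (hP : Pb P) (h0 : ∀ v, 0 ≤ ρ v) (h1 : ∀ v, P v ≠ 0 → 0 < ρ v)
    (hs : ∑ v, ρ v ≤ 1) : 0 ≤ KL P ρ := by
  have h : ∑ v, (P v * log (ρ v) - P v * log (P v)) ≤ ∑ v, (ρ v - P v) := by
    refine sum_le_sum fun v _ => ?_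
    rcases eq_or_ne (P v) 0 with e | e
    · simpa [e] using h0 v
    · have k := (hP.1 v).lt_of_ne' e
      have k2 := mul_le_mul_of_nonneg_left (log_le_sub_one_of_pos (div_pos (h1 v e) k)) k.le
      rwa [log_div (h1 v e).ne' e, mul_sub, mul_sub, mul_div_cancel₀ _ e, mul_one] at k2
  rw [sum_sub_distrib, sum_sub_distrib, hP.2] at h
  unfold KL HH
  linarith

/-- `gibbs` for `ρ / (2 f)` on `S` and `ρ / 2` off `S`. -/
theorem gibbs_set {P ρ : V → ℝ} (hP : Pb P) (h0 : ∀ v, 0 ≤ ρ v) (h1 : ∀ v, P v ≠ 0 → 0 < ρ v)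
    (hs : ∑ v, ρ v ≤ 1) (S : Finset V) {f : ℝ} (hf : 0 < f) (hS : ∑ v ∈ S, ρ v ≤ f) :
    -(∑ v ∈ S, P v) * log f - log 2 ≤ KL P ρ := by
  have c0 : ∀ v, 0 < if v ∈ S then (2 * f)⁻¹ else (2 : ℝ)⁻¹ := fun v => by
    split_ifs <;> positivity
  have h2 : ∑ v, ρ v * (if v ∈ S then (2 * f)⁻¹ else (2 : ℝ)⁻¹) ≤ 1 := by
    have k : ∀ v, ρ v * (if v ∈ S then (2 * f)⁻¹ else (2 : ℝ)⁻¹) ≤
        (if v ∈ S then ρ v * (2 * f)⁻¹ else 0) + ρ v * 2⁻¹ := fun v => by
      have := h0 v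
      split_ifs
      · exact le_add_of_nonneg_right (by positivity)
      · rw [zero_add]
    refine (sum_le_sum fun v _ => k v).trans ?_
    rw [sum_add_distrib, sum_ite_mem, univ_inter, ← sum_mul, ← sum_mul]
    have k2 : (∑ v ∈ S, ρ v) * (2 * f)⁻¹ ≤ 2⁻¹ :=
      (mul_le_mul_of_nonneg_right hS (by positivity)).trans (le_of_eq (by field_simp))
    linarith
  have h := gibbs hP (fun v => mul_nonneg (h0 v) (c0 v).le) (fun v e => mul_pos (h1 v e) (c0 v)) h2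
  have e : ∀ v, P v * log (ρ v * if v ∈ S then (2 * f)⁻¹ else (2 : ℝ)⁻¹) =
      P v * log (ρ v) - (if v ∈ S then P v * log f else 0) - P v * log 2 := fun v => by
    rcases eq_or_ne (P v) 0 with e | e
    · simp [e]
    · rw [log_mul (h1 v e).ne' (c0 v).ne']
      split_ifs
      · rw [log_inv, log_mul two_ne_zero hf.ne']
        ring
      · rw [log_inv]
        ring
  unfold KL at h ⊢
  simp only [e, sum_sub_distrib, sum_ite_mem, univ_inter, ← sum_mul, hP.2] at h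
  linarith

theorem gibbs_A {P : V × X → ℝ} (hP : Pb P) {z : V × X} (e : P z ≠ 0) : 0 < mA P z.1 :=
  ((hP.1 z).lt_of_ne' e).trans_le (le_mA hP z)

theorem gibbs_B {P : V × X → ℝ} (hP : Pb P) {z : V × X} (e : P z ≠ 0) : 0 < mB P z.2 :=
  ((hP.1 z).lt_of_ne' e).trans_le (le_mB hP z)

/-- `log (p p') = log p + log p'` where `P ≠ 0` (`le_mA`, `le_mB`); `sum_mA`, `sum_mB`. -/
theorem II_eq {P : V × X → ℝ} (hP : Pb P) : II P = KL P fun z => mA P z.1 * mB P z.2 := by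
  have e : ∀ z, P z * log (mA P z.1 * mB P z.2) =
      P z * log (mA P z.1) + P z * log (mB P z.2) := fun z => by
    rcases eq_or_ne (P z) 0 with e | e
    · simp [e]
    · rw [log_mul (gibbs_A hP e).ne' (gibbs_B hP e).ne', mul_add]
  simp only [II, KL, HH, e, sum_add_distrib, sum_mA, sum_mB, sub_sub]

/-- `II_eq`, `gibbs`. -/
theorem II_nonneg {P : V × X → ℝ} (hP : Pb P) : 0 ≤ II P := by
  rw [II_eq hP]
  refine gibbs hP (fun z => mul_nonneg ((mA_pb hP).1 _) ((mB_pb hP).1 _))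
    (fun z e => mul_pos (gibbs_A hP e) (gibbs_B hP e)) (le_of_eq ?_)
  simp only [Fintype.sum_prod_type, ← mul_sum, (mB_pb hP).2, mul_one, (mA_pb hP).2]

/-- One term with `P z > 0` is positive. -/
theorem ee_pos {P : V × X → ℝ} (hP : Pb P) {M : V → X → ℝ} (hM : ∀ z, P z ≠ 0 → 1 ≤ M z.1 z.2)
    (h : V → ℝ) (h' : X → ℝ) : 0 < ee (mA P) (mB P) h h' M := by
  obtain ⟨z, -, e⟩ := exists_ne_zero_of_sum_ne_zero (hP.2.trans_ne one_ne_zero)
  have a := (mA_pb hP).1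
  have b := (mB_pb hP).1
  rw [ee, ← Fintype.sum_prod_type']
  refine sum_pos' (fun y _ => ?_) ⟨z, mem_univ _, ?_⟩
  · have := a y.1
    have := b y.2
    positivity
  · have := gibbs_A hP e
    have := gibbs_B hP e
    have := one_pos.trans_le (hM z e)
    positivity

/-- `gibbs` with `ρ z = A B / e` where `P z ≠ 0` and `0` elsewhere. -/
theorem br_nonneg {P : V × X → ℝ} (hP : Pb P) {M : V → X → ℝ}
    (hM : ∀ z, P z ≠ 0 → 1 ≤ M z.1 z.2) (h : V → ℝ) (h' : X → ℝ) : 0 ≤ br M P h h' := by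
  have e0 := ee_pos hP hM h h'
  have c0 : ∀ z : V × X, 0 ≤ mA P z.1 * exp (-h z.1) * (mB P z.2 * exp (-h' z.2)) := fun z => by
    have := (mA_pb hP).1 z.1
    have := (mB_pb hP).1 z.2
    positivity
  have k := gibbs (ρ := fun z => if P z = 0 then 0 else
      mA P z.1 * exp (-h z.1) * (mB P z.2 * exp (-h' z.2)) / ee (mA P) (mB P) h h' M) hP
    (fun z => ite_nonneg le_rfl (div_nonneg (c0 z) e0.le)) (fun z e => ?_) ?_
  · have e : ∀ z, P z * log (if P z = 0 then 0 else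
        mA P z.1 * exp (-h z.1) * (mB P z.2 * exp (-h' z.2)) / ee (mA P) (mB P) h h' M) =
        P z * log (mA P z.1 * mB P z.2) - P z * h z.1 - P z * h' z.2 -
          P z * log (ee (mA P) (mB P) h h' M) := fun z => by
      rcases eq_or_ne (P z) 0 with e | e
      · simp [e]
      · have a := (gibbs_A hP e).ne'
        have b := (gibbs_B hP e).ne'
        rw [if_neg e, mul_mul_mul_comm, ← exp_add, log_div (by positivity) e0.ne',
          log_mul (mul_ne_zero a b) (exp_pos _).ne', log_exp]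
        ring
    rw [br, II_eq hP, sum_mA, sum_mB]
    unfold KL at k ⊢
    simp only [e, sum_sub_distrib, ← sum_mul, hP.2] at k
    linarith
  · have := gibbs_A hP e
    have := gibbs_B hP e
    rw [if_neg e]
    positivity
  · rw [← div_self e0.ne']
    nth_rw 2 [ee]
    rw [← Fintype.sum_prod_type', sum_div]
    refine sum_le_sum fun z _ => ?_
    split_ifs with e
    · exact div_nonneg (mul_nonneg (c0 z) (sq_nonneg _)) e0.le
    · exact div_le_div_of_nonneg_right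
        (le_mul_of_one_le_right (c0 z) (one_le_pow₀ (hM z e))) e0.le

end Pool.Agent.Work.MP_e10cd8_co.Far
end

-- merged part: Pool.Agent.Work.MP_e10cd8_co.Far.Fin6
section
/-! The final contradiction. -/

namespace Pool.Agent.Work.MP_e10cd8_co.Far
open Finset Real Pool.Agent.Work.MP_e10cd8_co.Up

variable {V X ι J : Type} [Fintype V] [Fintype X] [Fintype ι] [Fintype J]
  [DecidableEq V] [DecidableEq X] [DecidableEq ι] [DecidableEq J]

theorem fin6_exp : exp 2 ≤ 7.4 := by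
  have h1 := Real.exp_one_lt_d9
  have h2 : exp 2 = exp 1 * exp 1 := by rw [← exp_add]; norm_num
  have h3 := exp_pos 1
  nlinarith

/-- one side: means and second moments -/
theorem fin6_side {p : V → ℝ} (hp : Pb p) {μ : ι → ℝ} {a : V → ι → ℝ} (ha : Sd p μ a)
    {φ : V → ℝ} (hφ : ∀ v, φ v ^ 2 ≤ 7.4) {y : ℝ} (y0 : 0 ≤ y) (hy : ∀ i, μ i ≤ y) :
    ∑ k, (∑ v, p v * (φ v * a v k)) ^ 2 ≤ y * 7.4 ∧
      ∑ k, ∑ v, p v * (φ v * a v k) ^ 2 ≤ 7.4 * ∑ k, μ k := by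
  constructor
  · have h1 := bessel_y hp.1 ha.2.1 y0 hy φ
    have h2 : ∑ v, p v * φ v ^ 2 ≤ 7.4 := by
      calc ∑ v, p v * φ v ^ 2 ≤ ∑ v, p v * 7.4 :=
            sum_le_sum fun v _ => mul_le_mul_of_nonneg_left (hφ v) (hp.1 v)
        _ = 7.4 := by rw [← sum_mul, hp.2, one_mul]
    simp only [← mul_assoc]
    exact h1.trans (mul_le_mul_of_nonneg_left h2 y0)
  · rw [mul_sum]
    refine sum_le_sum fun k _ => ?_
    have h1 := ha.2.1 k k
    rw [if_pos rfl] at h1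
    rw [← h1, mul_sum]
    refine sum_le_sum fun v _ => ?_
    have h2 := mul_le_mul_of_nonneg_left (hφ v)
      (mul_nonneg (hp.1 v) (mul_self_nonneg (a v k)))
    calc p v * (φ v * a v k) ^ 2 = p v * (a v k * a v k) * φ v ^ 2 := by ring
      _ ≤ p v * (a v k * a v k) * 7.4 := h2
      _ = _ := by ring

omit [Fintype V] in
theorem fin6_phi {h : V → ℝ} {T : Finset V} (t1 : ∀ v ∈ T, |h v| ≤ 1) (v : V) :
    (if v ∈ T then exp (h v) else 0) ^ 2 ≤ 7.4 := by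
  split_ifs with e
  · refine le_trans ?_ fin6_exp
    rw [sq, ← exp_add]
    exact exp_le_exp.2 (by linarith [(abs_le.1 (t1 v e)).2])
  · norm_num

theorem fin6_cube {M N ρ δ : ℝ} (e : M = N + ρ) (hρ : |ρ| ≤ δ) :
    M ^ 2 * N ≤ N ^ 3 + δ / 2 * M ^ 2 + 3 * δ / 2 * N ^ 2 := by
  have h1 : M ^ 2 * N - N ^ 3 = ρ * (N * M + N ^ 2) := by rw [e]; ring
  have h2 : |N * M + N ^ 2| ≤ M ^ 2 / 2 + 3 * N ^ 2 / 2 :=
    abs_le.2 ⟨by nlinarith [sq_nonneg (M + N), sq_nonneg N], by nlinarith [sq_nonneg (M - N)]⟩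
  have h3 : ρ * (N * M + N ^ 2) ≤ δ * (M ^ 2 / 2 + 3 * N ^ 2 / 2) :=
    (le_abs_self _).trans (by
      rw [abs_mul]; exact mul_le_mul hρ h2 (abs_nonneg _) ((abs_nonneg _).trans hρ))
  linarith

/-- Sum `shared` over `k` with `t' v = φ v * a v k`, `φ v = if v ∈ T then exp (h v) else 0`, and
`t x = φ' x * b x k`.  `N = ⟨a, b⟩ = M - (r + r')` on the supports.
`∑ k, ∑ P t' t = ∑ P φ φ' N ≥ exp (-2) (1 - 640 z) P (T × T') ≥ 1 / 8` (`P (T × T') ≥ 0.998`,
`exp 2 ≤ 7.4`); the first sums add up to `∑_{T × T'} p p' M ^ 2 N / z ^ 2 ≤ 1 / 100 + 4 10 ^ 6 z`, by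
`M ^ 2 N ≤ N ^ 3 + 640 z (M ^ 2 / 2 + 3 N ^ 2 / 2)` and `∑ p p' N ^ 2 = ∑ μ ^ 2` (`pars`, `sum_et`);
squares of means add up to at most `64 z * 7.4` on each side (`bessel_y`);
`∑ k, ∑ p t' ^ 2 ≤ 7.4 ∑ μ ≤ 60 Θ`. -/
theorem fin6 {P : V × X → ℝ} (hP : Pb P) {M : V → X → ℝ} (hM : ∀ z, P z ≠ 0 → 1 ≤ M z.1 z.2)
    {h : V → ℝ} {h' : X → ℝ} {μ : ι → ℝ} {a : V → ι → ℝ} {b : X → ι → ℝ} {r : V → ℝ} {r' : X → ℝ}
    (ha : Sd (mA P) μ a) (hb : Sd (mB P) μ b) (hF : Fac (mA P) (mB P) M a b r r')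
    {Θ w γ ζ κ z : ℝ} (H : Mast P h h' M μ a b Θ w γ ζ κ) (w0 : 0 < w) (ζ0 : 0 ≤ ζ) (κ0 : 0 ≤ κ)
    (hγ : 2 * ζ ≤ γ) (hκ : κ * Θ ≤ w / 10 ^ 8) (hN : ∑ k, μ k ≤ 8 * Θ) (z0 : 0 < z)
    (z1 : z ≤ 1 / 10 ^ 9) (he : ee (mA P) (mB P) h h' M = z ^ 2) (hY : ∑ k, μ k ^ 2 ≤ 4000 * z ^ 2)
    {T : Finset V} {T' : Finset X} (t1 : ∀ v ∈ T, |h v| ≤ 1) (t2 : ∀ x ∈ T', |h' x| ≤ 1)
    (hT : ∑ v ∈ Tᶜ, mA P v ≤ 1 / 1000) (hT' : ∑ x ∈ T'ᶜ, mB P x ≤ 1 / 1000)
    (hr : ∀ v ∈ T, ∀ x ∈ T', 0 < mA P v → 0 < mB P x → |r v + r' x| ≤ 640 * z)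
    (hK : ∑ v ∈ T, ∑ x ∈ T', mA P v * mB P x * M v x ^ 2 ≤ 15 * z ^ 2)
    (h3 : ∑ v ∈ T, ∑ x ∈ T', mA P v * mB P x * (∑ i, a v i * b x i) ^ 3 ≤ z ^ 2 / 100) :
    False := by
  have pA := mA_pb hP
  have pB := mB_pb hP
  have hy : ∀ i, μ i ≤ 64 * z := fun i => by
    have h1 := single_le_sum (f := fun k => μ k ^ 2) (fun k _ => sq_nonneg _) (mem_univ i)
    exact abs_le_of_sq_le_sq' (by nlinarith [sq_nonneg z]) (by positivity) |>.2
  obtain ⟨φ, hφ⟩ : ∃ φ : V → ℝ, φ = fun v => if v ∈ T then exp (h v) else 0 := ⟨_, rfl⟩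
  obtain ⟨φ', hφ'⟩ : ∃ φ' : X → ℝ, φ' = fun x => if x ∈ T' then exp (h' x) else 0 := ⟨_, rfl⟩
  obtain ⟨a1, a2⟩ := fin6_side pA ha (φ := φ) (fun v => by rw [hφ]; exact fin6_phi t1 v)
    (by positivity) hy
  obtain ⟨b1, b2⟩ := fin6_side pB hb (φ := φ') (fun v => by rw [hφ']; exact fin6_phi t2 v)
    (by positivity) hy
  have hc : 1 / 8 ≤ ∑ k, ∑ q, P q * (φ q.1 * a q.1 k * (φ' q.2 * b q.2 k)) := by
    rw [sum_comm]
    have h1 : ∀ q : V × X, P q * (0.13 * (1 - (if q.1 ∈ Tᶜ then 1 else 0) -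
        (if q.2 ∈ T'ᶜ then 1 else 0))) ≤ ∑ k, P q * (φ q.1 * a q.1 k * (φ' q.2 * b q.2 k)) := by
      intro q
      have e : ∑ k, P q * (φ q.1 * a q.1 k * (φ' q.2 * b q.2 k)) =
          P q * (φ q.1 * φ' q.2 * ∑ k, a q.1 k * b q.2 k) := by
        rw [mul_sum, mul_sum]
        exact sum_congr rfl fun k _ => by ring
      rw [e]
      rcases eq_or_ne (P q) 0 with e0 | e0
      · rw [e0, zero_mul, zero_mul]
      refine mul_le_mul_of_nonneg_left ?_ (hP.1 q)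
      by_cases e1 : q.1 ∈ T <;> by_cases e2 : q.2 ∈ T'
      · have h2 := hF _ _ (gibbs_A hP e0) (gibbs_B hP e0)
        have h3 := (abs_le.1 (hr _ e1 _ e2 (gibbs_A hP e0) (gibbs_B hP e0))).2
        have h4 := hM q e0
        have h5 : 0.999 ≤ ∑ k, a q.1 k * b q.2 k := by linarith
        have h6 : exp (-2) ≤ exp (h q.1) * exp (h' q.2) := by
          rw [← exp_add]
          exact exp_le_exp.2 (by linarith [(abs_le.1 (t1 _ e1)).1, (abs_le.1 (t2 _ e2)).1])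
        have h7 : exp (-2) * exp 2 = 1 := by rw [← exp_add]; norm_num
        have h8 : 0.135 ≤ exp (-2) := by nlinarith [fin6_exp, exp_pos (-2)]
        simp only [hφ, hφ', mem_compl, e1, e2, not_true, if_true, if_false]
        nlinarith
      · simp only [hφ, hφ', mem_compl, e1, e2, not_true, not_false_iff, if_true, if_false]
        norm_num
      · simp only [hφ, hφ', mem_compl, e1, e2, not_true, not_false_iff, if_true, if_false]
        norm_num
      · simp only [hφ, hφ', mem_compl, e1, e2, not_false_iff, if_true, if_false]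
        norm_num
    refine le_trans ?_ (sum_le_sum fun q _ => h1 q)
    have h2 : ∑ q, P q * (if q.1 ∈ Tᶜ then 1 else 0) = ∑ v ∈ Tᶜ, mA P v := by
      rw [← sum_mA P fun v => if v ∈ Tᶜ then 1 else 0]
      simp only [mul_ite, mul_one, mul_zero, sum_ite_mem, univ_inter]
    have h3 : ∑ q, P q * (if q.2 ∈ T'ᶜ then 1 else 0) = ∑ x ∈ T'ᶜ, mB P x := by
      rw [← sum_mB P fun x => if x ∈ T'ᶜ then 1 else 0]
      simp only [mul_ite, mul_one, mul_zero, sum_ite_mem, univ_inter]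
    have h4 : ∀ q : V × X, P q * (0.13 * (1 - (if q.1 ∈ Tᶜ then 1 else 0) -
        (if q.2 ∈ T'ᶜ then 1 else 0))) = 0.13 * (P q - P q * (if q.1 ∈ Tᶜ then 1 else 0) -
        P q * (if q.2 ∈ T'ᶜ then 1 else 0)) := fun q => by ring
    rw [sum_congr rfl fun q _ => h4 q, ← mul_sum, sum_sub_distrib, sum_sub_distrib, h2, h3, hP.2]
    linarith
  have hN2 : ∑ v ∈ T, ∑ x ∈ T', mA P v * mB P x * (∑ i, a v i * b x i) ^ 2 ≤ 4000 * z ^ 2 := by
    have h1 : ∀ v x, 0 ≤ mA P v * mB P x * (∑ i, a v i * b x i) ^ 2 := fun v x =>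
      mul_nonneg (mul_nonneg (pA.1 v) (pB.1 x)) (sq_nonneg _)
    calc _ ≤ ∑ v ∈ T, ∑ x, mA P v * mB P x * (∑ i, a v i * b x i) ^ 2 :=
          sum_le_sum fun v _ => sum_le_sum_of_subset_of_nonneg (subset_univ _) fun x _ _ => h1 v x
      _ ≤ ∑ v, ∑ x, mA P v * mB P x * (∑ i, a v i * b x i) ^ 2 :=
          sum_le_sum_of_subset_of_nonneg (subset_univ _) fun v _ _ => sum_nonneg fun x _ => h1 v x
      _ = ∑ v, mA P v * et μ a v := sum_congr rfl fun v _ => by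
          rw [et, ← pars hb.2.1 (a v), mul_sum]
          exact sum_congr rfl fun x _ => by ring
      _ ≤ _ := (sum_et ha).le.trans hY
  have hE : ∑ k, ∑ v, ∑ x, mA P v * exp (-h v) * (φ v * a v k) *
      (mB P x * exp (-h' x) * (φ' x * b x k)) * M v x ^ 2 ≤ z ^ 2 * (1 / 50) := by
    have h1 : ∀ v x, ∑ k, mA P v * exp (-h v) * (φ v * a v k) *
        (mB P x * exp (-h' x) * (φ' x * b x k)) * M v x ^ 2 = if v ∈ T then if x ∈ T' then
          mA P v * mB P x * (M v x ^ 2 * ∑ i, a v i * b x i) else 0 else 0 := by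
      intro v x
      have e1 : exp (-h v) * exp (h v) = 1 := by rw [← exp_add]; simp
      have e2 : exp (-h' x) * exp (h' x) = 1 := by rw [← exp_add]; simp
      simp only [hφ, hφ']
      split_ifs
      · rw [mul_sum, mul_sum]
        refine sum_congr rfl fun k _ => ?_
        calc _ = exp (-h v) * exp (h v) * (exp (-h' x) * exp (h' x)) *
              (mA P v * mB P x * (M v x ^ 2 * (a v k * b x k))) := by ring
          _ = _ := by rw [e1, e2, one_mul, one_mul]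
      · simp
      · simp
      · simp
    have h2 : ∑ k, ∑ v, ∑ x, mA P v * exp (-h v) * (φ v * a v k) *
        (mB P x * exp (-h' x) * (φ' x * b x k)) * M v x ^ 2 =
        ∑ v ∈ T, ∑ x ∈ T', mA P v * mB P x * (M v x ^ 2 * ∑ i, a v i * b x i) := by
      rw [sum_comm]
      rw [sum_congr rfl fun v _ => sum_comm]
      simp only [h1, sum_ite_irrel, sum_const_zero, sum_ite_mem, univ_inter]
    have h4 : ∀ v ∈ T, ∀ x ∈ T', mA P v * mB P x * (M v x ^ 2 * ∑ i, a v i * b x i) ≤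
        mA P v * mB P x * (∑ i, a v i * b x i) ^ 3 +
          640 * z / 2 * (mA P v * mB P x * M v x ^ 2) +
          3 * (640 * z) / 2 * (mA P v * mB P x * (∑ i, a v i * b x i) ^ 2) := by
      intro v hv x hx
      rcases (pA.1 v).eq_or_lt with e1 | e1
      · rw [← e1]; simp
      rcases (pB.1 x).eq_or_lt with e2 | e2
      · rw [← e2]; simp
      have h5 := mul_le_mul_of_nonneg_left (fin6_cube ((hF v x e1 e2).trans (add_assoc _ _ _))
        (hr v hv x hx e1 e2)) (mul_pos e1 e2).le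
      linarith
    rw [h2]
    refine (sum_le_sum fun v hv => sum_le_sum fun x hx => h4 v hv x hx).trans ?_
    simp only [sum_add_distrib, ← mul_sum]
    simp only [mul_sum] at hK hN2 h3 ⊢
    simp only [← mul_sum] at hK hN2 h3 ⊢
    have h5 := mul_le_mul_of_nonneg_left hK (by positivity : 0 ≤ 640 * z / 2)
    have h6 := mul_le_mul_of_nonneg_left hN2 (by positivity : 0 ≤ 3 * (640 * z) / 2)
    have h7 := mul_le_mul_of_nonneg_left z1 (sq_nonneg z)
    nlinarith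
  have h0 := sum_nonneg fun k (_ : k ∈ (univ : Finset ι)) =>
    shared hP H ζ0 κ0 hγ (fun v => φ v * a v k) fun x => φ' x * b x k
  have γ0 : 0 ≤ γ := by linarith
  have h1 : ∀ k ∈ (univ : Finset ι), ∀ E c m n A B : ℝ,
      w * (E / z ^ 2 - c + (m + n) ^ 2 / 2) + γ * (m * n - c) + ζ * (m ^ 2 + n ^ 2) +
        2 * κ * (A + B) ≤ w / z ^ 2 * E - (w + γ) * c + (w + γ) * m ^ 2 + (w + γ) * n ^ 2 +
        2 * κ * A + 2 * κ * B := by
    intro k _ E c m n A B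
    have e : w * (E / z ^ 2) = w / z ^ 2 * E := by ring
    have h2 := mul_nonneg w0.le (sq_nonneg (m - n))
    have h4 := mul_nonneg γ0 (sq_nonneg (m - n))
    have h5 := mul_le_mul_of_nonneg_right hγ (add_nonneg (sq_nonneg m) (sq_nonneg n))
    nlinarith
  rw [he] at h0
  have h2 := h0.trans (sum_le_sum fun k hk => h1 k hk _ _ _ _ _ _)
  simp only [sum_add_distrib, sum_sub_distrib, ← mul_sum] at h2
  have h4 : w / z ^ 2 * (z ^ 2 * (1 / 50)) = w / 50 := by field_simp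
  have h5 := mul_le_mul_of_nonneg_left hE (by positivity : 0 ≤ w / z ^ 2)
  have wγ : 0 ≤ w + γ := by linarith
  have h6 := mul_le_mul_of_nonneg_left hc wγ
  have h7 := mul_le_mul_of_nonneg_left (a1.trans (by linarith : 64 * z * 7.4 ≤ 1 / 100)) wγ
  have h8 := mul_le_mul_of_nonneg_left (b1.trans (by linarith : 64 * z * 7.4 ≤ 1 / 100)) wγ
  have h9 := mul_le_mul_of_nonneg_left (a2.trans (by linarith : 7.4 * ∑ k, μ k ≤ 59.2 * Θ)) κ0
  have h10 := mul_le_mul_of_nonneg_left (b2.trans (by linarith : 7.4 * ∑ k, μ k ≤ 59.2 * Θ)) κ0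
  nlinarith

end Pool.Agent.Work.MP_e10cd8_co.Far
end

-- merged part: Pool.Agent.Work.MP_e10cd8_co.Far.Low
section
/-! Lower bounds for the information and for the tilted moment. -/

namespace Pool.Agent.Work.MP_e10cd8_co.Far
open Finset Real Pool.Agent.Work.MP_e10cd8_co.Up

variable {V X ι J : Type} [Fintype V] [Fintype X] [Fintype ι] [Fintype J]
  [DecidableEq V] [DecidableEq X] [DecidableEq ι] [DecidableEq J]

theorem low_union {P : V × X → ℝ} (hP : Pb P) (T : Finset V) (T' : Finset X) (S : Finset (V × X))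
    (hS : ∀ z, P z ≠ 0 → z.1 ∉ T → z.2 ∉ T' → z ∈ S) :
    1 - ∑ v ∈ T, mA P v - ∑ x ∈ T', mB P x ≤ ∑ z ∈ S, P z := by
  have e1 : ∑ v ∈ T, mA P v = ∑ z, P z * if z.1 ∈ T then 1 else 0 := by
    rw [← sum_mA P fun v => if v ∈ T then 1 else 0]
    simp
  have e2 : ∑ x ∈ T', mB P x = ∑ z, P z * if z.2 ∈ T' then 1 else 0 := by
    rw [← sum_mB P fun v => if v ∈ T' then 1 else 0]
    simp
  have e3 : ∑ z ∈ S, P z = ∑ z, P z * if z ∈ S then 1 else 0 := by simp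
  rw [sub_sub, sub_le_iff_le_add, e1, e2, e3, ← sum_add_distrib, ← sum_add_distrib]
  refine hP.2.symm.trans_le (sum_le_sum fun z _ => ?_)
  have h0 := hP.1 z
  by_cases k : P z = 0
  · simp [k]
  have k1 := hS z k
  split_ifs with a b c <;> first | linarith | exact absurd (k1 ‹_› ‹_›) ‹_›

theorem low_II {P : V × X → ℝ} (hP : Pb P) (S : Finset (V × X)) {f : ℝ} (hf : 0 < f)
    (hS : ∑ z ∈ S, mA P z.1 * mB P z.2 ≤ f) : -(∑ z ∈ S, P z) * log f - log 2 ≤ II P := by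
  rw [II_eq hP]
  refine gibbs_set hP (fun z => mul_nonneg ((mA_pb hP).1 _) ((mB_pb hP).1 _)) (fun z hz => ?_)
    (le_of_eq ?_) S hf hS
  · have k := (hP.1 z).lt_of_ne' hz
    exact mul_pos (k.trans_le (le_mA hP z)) (k.trans_le (le_mB hP z))
  · rw [Fintype.sum_prod_type]
    simp only [← mul_sum, (mB_pb hP).2, mul_one, (mA_pb hP).2]

theorem low_bad {p ω : V → ℝ} (hp : Pb p) (hω : Pb ω) (h0 : ∀ v, p v ≠ 0 → 0 < ω v) (Λ : ℝ) :
    (∑ v with exp Λ * ω v < p v, p v) * Λ - log 2 ≤ KL p ω := by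
  have k := gibbs_set hp hω.1 h0 hω.2.le (univ.filter fun v => exp Λ * ω v < p v)
    (exp_pos (-Λ)) ?_
  · rwa [log_exp, neg_mul_neg] at k
  · rw [exp_neg, ← one_div, le_div_iff₀' (exp_pos Λ), mul_sum, ← hp.2]
    exact (sum_le_sum fun v hv => (mem_filter.1 hv).2.le).trans
      (sum_le_sum_of_subset_of_nonneg (subset_univ _) fun v _ _ => hp.1 v)

theorem low_good {p ω : V → ℝ} (hp : Pb p) (hω : Pb ω) (Λ : ℝ) :
    Le (exp Λ) ω (fun v => if exp Λ * ω v < p v then 0 else p v) ∧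
      ∑ v, (if exp Λ * ω v < p v then 0 else p v) ≤ 1 := by
  refine ⟨fun v => ?_, (sum_le_sum fun v _ => ?_).trans hp.2.le⟩
  · by_cases k : exp Λ * ω v < p v
    · simp only [if_pos k]
      exact ⟨le_rfl, mul_nonneg (exp_pos Λ).le (hω.1 v)⟩
    · simp only [if_neg k]
      exact ⟨hp.1 v, not_lt.1 k⟩
  · split_ifs
    · exact hp.1 v
    · exact le_rfl

theorem low_tail {p h : V → ℝ} (hp : Pb p) :
    ∑ v with 1 < h v, p v ≤ ∑ v, p v * min (h v) 1 ^ 2 :=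
  (sum_le_sum fun v hv => by rw [min_eq_right (mem_filter.1 hv).2.le, one_pow, mul_one]).trans
    (sum_le_sum_of_subset_of_nonneg (subset_univ _) fun v _ _ => mul_nonneg (hp.1 v) (sq_nonneg _))

/-- `bad = {exp Λ * ω < mA P}` has `ω bad ≤ exp (-Λ)`, so `gibbs_set` gives
`p bad * Λ ≤ KL + log 2`; same for `mB`.  With `S = E ∩ good × good'`, `P S ≥ 9 / 10`, and `Reg`
for `f = p 1_good`, `g = p' 1_good'` gives `p p' S ≤ exp (-L)`; `II_eq`, `gibbs_set`. -/
theorem ilow {P : V × X → ℝ} (hP : Pb P) {E : Finset (V × X)} (hE : ∀ z, z ∉ E → P z = 0)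
    {ω : V → ℝ} {ω' : X → ℝ} (hω : Pb ω) (hω' : Pb ω') (h0 : ∀ z ∈ E, 0 < ω z.1 ∧ 0 < ω' z.2)
    {Λ L : ℝ} (hR : Reg ω ω' E Λ (exp (-L))) (hL : 0 ≤ L)
    (hK : KL (mA P) ω + KL (mB P) ω' + 2 ≤ Λ / 10) : 9 / 10 * L - 1 ≤ II P := by
  have hA := mA_pb hP
  have hB := mB_pb hP
  have hin : ∀ z, P z ≠ 0 → z ∈ E := fun z hz => by_contra fun k => hz (hE z k)
  have a0 : ∀ v, mA P v ≠ 0 → 0 < ω v := fun v hv => by
    obtain ⟨x, -, hx⟩ := exists_ne_zero_of_sum_ne_zero hv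
    exact (h0 _ (hin _ hx)).1
  have b0 : ∀ x, mB P x ≠ 0 → 0 < ω' x := fun x hx => by
    obtain ⟨v, -, hv⟩ := exists_ne_zero_of_sum_ne_zero hx
    exact (h0 _ (hin _ hv)).2
  have a1 := low_bad hA hω a0 Λ
  have b1 := low_bad hB hω' b0 Λ
  have a2 := gibbs hA hω.1 a0 hω.2.le
  have b2 := gibbs hB hω'.1 b0 hω'.2.le
  have l2 : log 2 ≤ 1 := by linarith [log_two_lt_d9]
  have u := low_union hP (univ.filter fun v => exp Λ * ω v < mA P v)
    (univ.filter fun x => exp Λ * ω' x < mB P x)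
    (E.filter fun z => ¬ exp Λ * ω z.1 < mA P z.1 ∧ ¬ exp Λ * ω' z.2 < mB P z.2)
    fun z k1 k2 k3 => mem_filter.2 ⟨hin z k1, fun k => k2 (mem_filter.2 ⟨mem_univ _, k⟩),
      fun k => k3 (mem_filter.2 ⟨mem_univ _, k⟩)⟩
  have r := hR _ _ (low_good hA hω Λ).1 (low_good hB hω' Λ).1 (low_good hA hω Λ).2
    (low_good hB hω' Λ).2
  have i := low_II hP (E.filter fun z => ¬ exp Λ * ω z.1 < mA P z.1 ∧
      ¬ exp Λ * ω' z.2 < mB P z.2) (exp_pos (-L)) (le_trans (le_of_eq (by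
    rw [sum_filter]
    refine sum_congr rfl fun z _ => ?_
    by_cases k1 : exp Λ * ω z.1 < mA P z.1 <;> by_cases k2 : exp Λ * ω' z.2 < mB P z.2 <;>
      simp only [k1, k2, not_true, not_false_iff, and_true, and_false, if_true,
        if_false, mul_zero, zero_mul])) r)
  rw [log_exp, neg_mul_neg] at i
  generalize ∑ v with exp Λ * ω v < mA P v, mA P v = a at *
  generalize ∑ x with exp Λ * ω' x < mB P x, mB P x = b at *
  generalize ∑ z ∈ E with ¬ exp Λ * ω z.1 < mA P z.1 ∧ ¬ exp Λ * ω' z.2 < mB P z.2, P z = m at *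
  have k1 : a + b ≤ 1 / 10 := le_of_mul_le_mul_right (by linarith) (by linarith : 0 < Λ)
  have k2 : 9 / 10 * L ≤ m * L := mul_le_mul_of_nonneg_right (by linarith) hL
  linarith

/-- `T = {h ≤ 1}`, `p Tᶜ ≤ s`; `S = {P ≠ 0} ∩ T × T'`, `P S ≥ 1 - 2 s > 0`, `f = p p' S ∈ (0, 1]`,
`exp (-2) f ≤ e`; `II_eq`, `gibbs_set` give `(1 - 2 s) log (1 / f) ≤ 2 L + 1`. -/
theorem elow {P : V × X → ℝ} (hP : Pb P) {M : V → X → ℝ} (hM : ∀ z, P z ≠ 0 → 1 ≤ M z.1 z.2)
    {h : V → ℝ} {h' : X → ℝ} {s L : ℝ} (h1 : ∑ v, mA P v * min (h v) 1 ^ 2 ≤ s)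
    (h2 : ∑ x, mB P x * min (h' x) 1 ^ 2 ≤ s) (hI : II P ≤ 2 * L) (hL : 0 ≤ L)
    (hs : 2 * s * (2 * L + 2) ≤ 1) : exp (-(2 * L) - 4) ≤ ee (mA P) (mB P) h h' M := by
  have hA := mA_pb hP
  have hB := mB_pb hP
  have e0 := ee_pos hP hM h h'
  have s0 : 0 ≤ s := (sum_nonneg fun v _ => mul_nonneg (hA.1 v) (sq_nonneg _)).trans h1
  have u := low_union hP (univ.filter fun v => 1 < h v) (univ.filter fun x => 1 < h' x)
    (univ.filter fun z => P z ≠ 0 ∧ h z.1 ≤ 1 ∧ h' z.2 ≤ 1)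
    fun z k1 k2 k3 => mem_filter.2 ⟨mem_univ _, k1,
      not_lt.1 fun k => k2 (mem_filter.2 ⟨mem_univ _, k⟩),
      not_lt.1 fun k => k3 (mem_filter.2 ⟨mem_univ _, k⟩)⟩
  have a1 := (low_tail (h := h) hA).trans h1
  have b1 := (low_tail (h := h') hB).trans h2
  have i := low_II hP (univ.filter fun z => P z ≠ 0 ∧ h z.1 ≤ 1 ∧ h' z.2 ≤ 1)
    (mul_pos (exp_pos 2) e0) (by
      unfold ee
      rw [← Fintype.sum_prod_type', mul_sum]
      refine (sum_le_sum fun z hz => ?_).trans (sum_le_sum_of_subset_of_nonneg (subset_univ _)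
        fun z _ _ => by have := hA.1 z.1; have := hB.1 z.2; positivity)
      obtain ⟨-, k1, k2, k3⟩ := mem_filter.1 hz
      have k4 : 1 ≤ exp 2 * exp (-h z.1) * exp (-h' z.2) := by
        rw [← exp_add, ← exp_add]
        exact one_le_exp (by linarith)
      have k5 := one_le_mul_of_one_le_of_one_le k4 (one_le_pow₀ (n := 2) (hM z k1))
      exact (le_mul_of_one_le_right (mul_nonneg (hA.1 _) (hB.1 _)) k5).trans (le_of_eq (by ring)))
  rw [log_mul (exp_pos 2).ne' e0.ne', log_exp] at i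
  rw [← le_log_iff_exp_le e0]
  generalize log (ee (mA P) (mB P) h h' M) = y at *
  generalize ∑ z with P z ≠ 0 ∧ h z.1 ≤ 1 ∧ h' z.2 ≤ 1, P z = m at *
  by_contra k
  have k1 : 2 * L + 2 ≤ -(2 + y) := by linarith [not_le.1 k]
  have k2 : 1 - 2 * s ≤ m := by linarith
  have k3 : 0 ≤ 1 - 2 * s := by nlinarith
  have k4 := mul_le_mul k2 k1 (by linarith) (k3.trans k2)
  linarith [log_two_lt_d9]

/-- Markov: off `T` either `min h 1 ^ 2 ≥ 1` or `s * et > Y + e`; `sum_et` is the hypothesis `h2`. -/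
theorem mkT {p h f : V → ℝ} (hp : Pb p) {s Y e : ℝ} (s0 : 0 ≤ s) (Y0 : 0 ≤ Y) (e0 : 0 < e)
    (hf : ∀ v, 0 ≤ f v) (h1 : ∑ v, p v * min (h v) 1 ^ 2 ≤ s) (h2 : ∑ v, p v * f v ≤ Y) :
    ∃ T : Finset V, (∀ v ∈ T, |h v| ≤ 1 ∧ s * f v ≤ Y + e) ∧ ∑ v ∈ Tᶜ, p v ≤ 2 * s := by
  have hY : 0 < Y + e := by linarith
  refine ⟨univ.filter fun v => |h v| ≤ 1 ∧ s * f v ≤ Y + e, fun v hv => (mem_filter.1 hv).2, ?_⟩
  have n : ∀ v, 0 ≤ s / (Y + e) * f v := fun v => mul_nonneg (div_nonneg s0 hY.le) (hf v)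
  refine ((sum_le_sum (g := fun v => p v * (min (h v) 1 ^ 2 + s / (Y + e) * f v))
    fun v hv => le_mul_of_one_le_right (hp.1 v) ?_).trans (sum_le_sum_of_subset_of_nonneg
      (subset_univ _) fun v _ _ => mul_nonneg (hp.1 v) (add_nonneg (sq_nonneg _) (n v)))).trans ?_
  · have k : ¬ (|h v| ≤ 1 ∧ s * f v ≤ Y + e) := fun k =>
      mem_compl.1 hv (mem_filter.2 ⟨mem_univ _, k⟩)
    rcases not_and_or.1 k with k | k
    · refine le_add_of_le_of_nonneg ?_ (n v)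
      rcases le_total (h v) 1 with k1 | k1
      · rw [min_eq_left k1, one_le_sq_iff_one_le_abs]
        exact (not_le.1 k).le
      · rw [min_eq_right k1, one_pow]
    · refine le_add_of_nonneg_of_le (sq_nonneg _) ?_
      rw [div_mul_eq_mul_div, one_le_div hY]
      exact (not_le.1 k).le
  · have e1 : ∑ v, p v * (min (h v) 1 ^ 2 + s / (Y + e) * f v) =
        ∑ v, p v * min (h v) 1 ^ 2 + s / (Y + e) * ∑ v, p v * f v := by
      rw [mul_sum, ← sum_add_distrib]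
      exact sum_congr rfl fun v _ => by ring
    have e2 : s / (Y + e) * ∑ v, p v * f v ≤ s := by
      rw [div_mul_eq_mul_div, div_le_iff₀ hY]
      exact mul_le_mul_of_nonneg_left (by linarith) s0
    linarith

end Pool.Agent.Work.MP_e10cd8_co.Far
end

-- merged part: Pool.Agent.Work.MP_e10cd8_co.Far.Crux
section
/-! The first-order and second-order conditions are contradictory. -/

namespace Pool.Agent.Work.MP_e10cd8_co.Far
open Finset Real Pool.Agent.Work.MP_e10cd8_co.Up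

variable {V X ι J : Type} [Fintype V] [Fintype X] [Fintype ι] [Fintype J]
  [DecidableEq V] [DecidableEq X] [DecidableEq ι] [DecidableEq J]

theorem crux_exp {c : ℝ} (h : |c| ≤ 1) : 367 / 1000 ≤ exp (-c) := by
  have h1 := exp_neg_one_gt_d9
  have h2 : exp (-1) ≤ exp (-c) := exp_le_exp.2 (by linarith [(abs_le.1 h).2])
  linarith

omit [DecidableEq X] in
theorem crux_row {p h m : X → ℝ} (hp : ∀ x, 0 ≤ p x) {T : Finset X} (t : ∀ x ∈ T, |h x| ≤ 1)
    {c e : ℝ} (hc : |c| ≤ 1) (f : exp (-c) * ∑ x, p x * exp (-h x) * m x ^ 2 ≤ 2 * e) :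
    ∑ x ∈ T, p x * m x ^ 2 ≤ 15 * e := by
  have n : ∀ x, 0 ≤ p x * exp (-h x) * m x ^ 2 := fun x => by
    have := hp x
    positivity
  have b0 : 0 ≤ ∑ x, p x * exp (-h x) * m x ^ 2 := sum_nonneg fun x _ => n x
  have a0 : 0 ≤ ∑ x ∈ T, p x * m x ^ 2 := sum_nonneg fun x _ => mul_nonneg (hp x) (sq_nonneg _)
  have h1 : 367 / 1000 * ∑ x ∈ T, p x * m x ^ 2 ≤ ∑ x, p x * exp (-h x) * m x ^ 2 := by
    rw [mul_sum]
    refine le_trans (sum_le_sum fun x hx => ?_)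
      (sum_le_sum_of_subset_of_nonneg (subset_univ T) fun x _ _ => n x)
    have := mul_le_mul_of_nonneg_left (crux_exp (t x hx)) (mul_nonneg (hp x) (sq_nonneg (m x)))
    linarith
  have h2 := mul_le_mul_of_nonneg_right (crux_exp hc) b0
  linarith

theorem crux_nine {x : ℝ} (hx : 0 ≤ x) : x ^ 9 / 362880 ≤ exp x := by
  have := pow_div_factorial_le_exp x hx 9
  norm_num [Nat.factorial] at this
  exact this

theorem crux_low {L Θ z : ℝ} (hL : 1000 ≤ L) (hΘ : exp (3 * L / 2) ≤ Θ) (z0 : 0 < z)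
    (hz : exp (-(2 * L) - 4) ≤ z ^ 2) : 8 * 10 ^ 6 * L ^ 3 ≤ z * Θ := by
  have h1 : exp (-L - 2) ≤ z := by
    refine le_of_sq_le_sq (le_trans (le_of_eq ?_) hz) z0.le
    rw [sq, ← exp_add]
    congr 1
    ring
  have h2 : exp (-L - 2) * exp (3 * L / 2) ≤ z * Θ :=
    mul_le_mul h1 hΘ (exp_pos _).le z0.le
  rw [← exp_add] at h2
  have h3 : exp (L / 4) ≤ exp (-L - 2 + 3 * L / 2) := exp_le_exp.2 (by linarith)
  have h4 := crux_nine (by linarith : 0 ≤ L / 4)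
  have h5 : (1000 : ℝ) ^ 6 ≤ L ^ 6 := pow_le_pow_left₀ (by norm_num) hL 6
  have h6 := mul_le_mul_of_nonneg_right h5 (by positivity : 0 ≤ L ^ 3)
  have h7 : (L / 4) ^ 9 = L ^ 6 * L ^ 3 / 262144 := by ring
  have h8 : 0 ≤ L ^ 3 := by positivity
  rw [h7] at h4
  linarith

theorem crux_up {L z : ℝ} (hL : 1000 ≤ L) (hz : z ^ 2 ≤ exp (-(L / 2))) : z ≤ 1 / 10 ^ 9 := by
  refine le_of_sq_le_sq (hz.trans ?_) (by norm_num)
  have h1 := crux_nine (by norm_num : (0 : ℝ) ≤ 500)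
  have h2 : exp 500 ≤ exp (L / 2) := exp_le_exp.2 (by linarith)
  rw [exp_neg, inv_le_comm₀ (exp_pos _) (by norm_num)]
  norm_num at h1 ⊢
  linarith

/-- `κ = w / 10 ^ 8 / Θ`, `s = 2 κ / ζ = 4 L κ`, `σ = 2 s ≤ L exp (-3 L / 2) / 10 ^ 7`,
`q = 16 κ Θ ≤ 16 / 10 ^ 8`.  `yb`, `pure`, `elow` (`z = √e ≥ exp (-L - 2)`, `z ≤ exp (-L / 4)`, so
`σ L ^ 2 ≤ z / 10 ^ 14`), `mkT` twice (`f = et`, `Y = ∑ μ ^ 2`); for `v ∈ T`:
`∑_{T'} p' M ^ 2 ≤ exp 1 ∑ p' exp (-h') M ^ 2 ≤ 2 exp 2 e ≤ 15 e`; `ybound`, `rho`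
(`σ et ≤ 2 (Y + e)`, total `≤ (640 z) ^ 2`), `m3b` (`∑ μ σ ≤ 8 Θ σ ≤ L`), `fin6`. -/
theorem crux {P : V × X → ℝ} (hP : Pb P) {M : V → X → ℝ} (hM : ∀ z, P z ≠ 0 → 1 ≤ M z.1 z.2)
    {h : V → ℝ} {h' : X → ℝ} {μ : ι → ℝ} {a : V → ι → ℝ} {b : X → ι → ℝ} {r : V → ℝ} {r' : X → ℝ}
    (ha : Sd (mA P) μ a) (hb : Sd (mB P) μ b) (hF : Fac (mA P) (mB P) M a b r r') {Θ w L : ℝ}
    (H : Mast P h h' M μ a b Θ w (4 / L) (1 / (2 * L)) (w / 10 ^ 8 / Θ)) (w0 : 0 < w) (w1 : w ≤ 1)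
    (hL : 1000 ≤ L) (hΘ : exp (3 * L / 2) ≤ Θ) (hN : ∑ k, μ k ≤ 8 * Θ)
    (f1 : ∀ v, 0 < mA P v → exp (-h v) * ∑ x, mB P x * exp (-h' x) * M v x ^ 2 ≤
      2 * ee (mA P) (mB P) h h' M)
    (f2 : ∀ x, 0 < mB P x → exp (-h' x) * ∑ v, mA P v * exp (-h v) * M v x ^ 2 ≤
      2 * ee (mA P) (mB P) h h' M)
    (f3 : ∑ v, mA P v * min (h v) 1 = 0) (f4 : ∑ x, mB P x * min (h' x) 1 = 0)
    (hI : II P ≤ 2 * L) (he : ee (mA P) (mB P) h h' M ≤ exp (-(L / 2))) : False := by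
  have L0 : 0 < L := by linarith
  have hq := quadratic_le_exp_of_nonneg (by linarith : 0 ≤ 3 * L / 2)
  have LL : 1000 * L ≤ L ^ 2 := by
    rw [sq]
    exact mul_le_mul_of_nonneg_right hL L0.le
  have ΘL : L ^ 2 ≤ Θ := by linarith
  have Θ0 : 0 < Θ := by linarith
  obtain ⟨κ, hκ⟩ : ∃ κ, κ = w / 10 ^ 8 / Θ := ⟨_, rfl⟩
  rw [← hκ] at H
  have κ0 : 0 < κ := by rw [hκ]; positivity
  have κΘ : κ * Θ = w / 10 ^ 8 := by rw [hκ]; field_simp
  have ζ0 : 0 < 1 / (2 * L) := by positivity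
  have g8 : 8 * (1 / (2 * L)) ≤ 4 / L := le_of_eq (by field_simp; ring)
  have g2 : 2 * (1 / (2 * L)) ≤ 4 / L := by linarith
  have κL : κ * L ^ 2 ≤ 1 / 10 ^ 8 := by
    have := mul_le_mul_of_nonneg_left ΘL κ0.le
    linarith
  have κL' : κ * (1000 * L) ≤ 1 / 10 ^ 8 := (mul_le_mul_of_nonneg_left LL κ0.le).trans κL
  have g32 : 32 * κ ≤ 3 * (4 / L) := by
    rw [← mul_div_assoc, le_div_iff₀ L0]
    linarith
  obtain ⟨y1, y2⟩ := yb hP H ha.1 Θ0 ζ0 κ0.le g8 g32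
  have q0 : 0 ≤ 16 * κ * Θ := by positivity
  have q1 : 16 * κ * Θ ≤ 16 / 10 ^ 8 := by linarith
  obtain ⟨p1, p2⟩ := pure hP H ζ0 κ0.le g2 f3 f4
  have es : 2 * κ / (1 / (2 * L)) = 4 * L * κ := by field_simp; ring
  rw [es] at p1 p2
  have s0 : 0 ≤ 4 * L * κ := by positivity
  have el := elow hP hM p1 p2 hI L0.le (by linarith)
  have e0 := ee_pos hP hM h h'
  obtain ⟨z, z0, ez⟩ : ∃ z, 0 < z ∧ ee (mA P) (mB P) h h' M = z ^ 2 :=
    ⟨√_, sqrt_pos.2 e0, (sq_sqrt e0.le).symm⟩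
  rw [ez] at el he f1 f2 e0
  have z1 := crux_up hL he
  have zl := crux_low hL hΘ z0 el
  obtain ⟨σ, hσ⟩ : ∃ σ, σ = 2 * (4 * L * κ) := ⟨_, rfl⟩
  have σ0 : 0 ≤ σ := by rw [hσ]; positivity
  have σΘ : σ * Θ ≤ 8 * L / 10 ^ 8 := by
    have : σ * Θ = 8 * L * (κ * Θ) := by rw [hσ]; ring
    have a := mul_le_mul_of_nonneg_left w1 L0.le
    rw [this, κΘ]
    linarith
  have σL : σ * L ^ 2 ≤ z / 10 ^ 14 := by
    refine le_of_mul_le_mul_right ?_ Θ0
    have := mul_le_mul_of_nonneg_right σΘ (sq_nonneg L)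
    linarith
  have σz : σ ≤ z / 10 ^ 14 := by
    have := mul_le_mul_of_nonneg_left (by linarith : 1 ≤ L ^ 2) σ0
    linarith
  have σ1 : σ ≤ 1 / 1000 := by linarith
  have Y0 : 0 ≤ ∑ k, μ k ^ 2 := sum_nonneg fun k _ => sq_nonneg _
  obtain ⟨T, t1, hT⟩ := mkT (f := et μ a) (mA_pb hP) s0 Y0 e0
    (fun v => sum_nonneg fun k _ => mul_nonneg (ha.1 k) (sq_nonneg _)) p1 (sum_et ha).le
  obtain ⟨T', t2, hT'⟩ := mkT (f := et μ b) (mB_pb hP) s0 Y0 e0
    (fun v => sum_nonneg fun k _ => mul_nonneg (ha.1 k) (sq_nonneg _)) p2 (sum_et hb).le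
  rw [← hσ] at hT hT'
  have k1 : ∀ v ∈ T, 0 < mA P v → ∑ x ∈ T', mB P x * M v x ^ 2 ≤ 15 * z ^ 2 := fun v hv h0 =>
    crux_row (mB_pb hP).1 (fun x hx => (t2 x hx).1) (t1 v hv).1 (f1 v h0)
  have k2 : ∀ x ∈ T', 0 < mB P x → ∑ v ∈ T, mA P v * M v x ^ 2 ≤ 15 * z ^ 2 := fun x hx h0 =>
    crux_row (m := fun v => M v x) (mA_pb hP).1 (fun v hv => (t1 v hv).1) (t2 x hx).1 (f2 x h0)
  have σ2 : σ ^ 2 ≤ (z / 10 ^ 14) ^ 2 := pow_le_pow_left₀ σ0 σz 2
  rw [div_pow] at σ2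
  have hY := ybound (mA_pb hP) (mB_pb hP) ha hb hF σ1 hT hT' (by linarith) k1 k2 q0
    (by linarith) y1 y2
  have hr : ∀ v ∈ T, ∀ x ∈ T', 0 < mA P v → 0 < mB P x → |r v + r' x| ≤ 640 * z := by
    intro v hv x hx h1 h2
    have a1 := rho (mA_pb hP) (mB_pb hP) ha hb hF (by linarith : σ ≤ 1 / 2) (by positivity)
      hT hT' k1 k2 v hv x hx h1 h2
    have a2 := (t1 v hv).2
    have a3 := (t2 x hx).2
    have a4 := mul_le_mul_of_nonneg_right σ1 Y0
    have a5 : 24 * σ * (et μ a v + et μ b x) =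
        48 * (4 * L * κ * et μ a v) + 48 * (4 * L * κ * et μ b x) := by rw [hσ]; ring
    refine abs_le_of_sq_le_sq ?_ (by positivity)
    rw [mul_pow]
    linarith
  have hK : ∑ v ∈ T, ∑ x ∈ T', mA P v * mB P x * M v x ^ 2 ≤ 15 * z ^ 2 := by
    have a1 : ∀ v ∈ T, ∑ x ∈ T', mA P v * mB P x * M v x ^ 2 ≤ mA P v * (15 * z ^ 2) := by
      intro v hv
      simp only [mul_assoc (mA P v), ← mul_sum]
      rcases ((mA_pb hP).1 v).eq_or_lt with c | c
      · rw [← c, zero_mul, zero_mul]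
      · exact mul_le_mul_of_nonneg_left (k1 v hv c) c.le
    refine (sum_le_sum a1).trans ?_
    rw [← sum_mul]
    have a2 : ∑ v ∈ T, mA P v ≤ 1 := (mA_pb hP).2 ▸
      sum_le_sum_of_subset_of_nonneg (subset_univ T) fun v _ _ => (mA_pb hP).1 v
    exact mul_le_of_le_one_left (by positivity) a2
  have h3 := m3b (mA_pb hP) (mB_pb hP) ha hb q0 q1 y1 y2 hT hT' z0 (by linarith) hY
    (by linarith : 1 ≤ L) (by
      have := mul_le_mul_of_nonneg_right hN σ0
      linarith) σL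
  exact fin6 hP hM ha hb hF H w0 ζ0.le κ0.le g2 κΘ.le hN z0 z1 ez hY (fun v hv => (t1 v hv).1)
    (fun x hx => (t2 x hx).1) (hT.trans σ1) (hT'.trans σ1) hr hK h3

end Pool.Agent.Work.MP_e10cd8_co.Far
end

-- merged part: Pool.Agent.Work.MP_e10cd8_co.Far.Nuc
section
/-! The nuclear norm. -/

namespace Pool.Agent.Work.MP_e10cd8_co.Far
open Finset Real Pool.Agent.Work.MP_e10cd8_co.Up

variable {V X ι J : Type} [Fintype V] [Fintype X] [Fintype ι] [Fintype J]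
  [DecidableEq V] [DecidableEq X] [DecidableEq ι] [DecidableEq J]

/-- Take `y = ± e_v`, `z = e_x`. -/
theorem UU_abs {U : V → X → ℝ} (h : U ∈ UU V X) (v : V) (x : X) : |U v x| ≤ 1 := by
  have key : ∀ c : ℝ, c ^ 2 = 1 → c * U v x ≤ 1 := fun c hc => by
    have := h (Pi.single v c) (Pi.single x 1)
    simp only [Pi.single_apply, ite_mul, zero_mul, mul_ite, mul_one, mul_zero, sum_ite_eq',
      mem_univ, if_true, ite_pow, hc, one_pow, ne_eq, OfNat.ofNat_ne_zero, not_false_eq_true,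
      zero_pow] at this
    linarith
  have h1 := key 1 (by norm_num)
  have h2 := key (-1) (by norm_num)
  exact abs_le.2 ⟨by linarith, by linarith⟩

theorem nuc_pair {U : V → X → ℝ} (h : U ∈ UU V X) (Z : V → X → ℝ) :
    ∑ v, ∑ x, U v x * Z v x ≤ ∑ v, ∑ x, |Z v x| :=
  sum_le_sum fun v _ => sum_le_sum fun x _ => (le_abs_self _).trans (by
    rw [abs_mul]
    exact mul_le_of_le_one_left (abs_nonneg _) (UU_abs h v x))

omit [DecidableEq V] [DecidableEq X] in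
theorem nuc_zero : (fun _ _ => 0) ∈ UU V X := fun y z => by
  simp only [mul_zero, zero_mul, sum_const_zero]
  positivity

omit [DecidableEq V] [DecidableEq X] in
theorem nuc_sup {Z : V → X → ℝ} {c : ℝ} (h : ∀ U ∈ UU V X, ∑ v, ∑ x, U v x * Z v x ≤ c) :
    nuc Z ≤ c :=
  csSup_le ⟨_, _, nuc_zero, rfl⟩ (by
    rintro _ ⟨U, hU, rfl⟩
    exact h U hU)

/-- Bounded above by `∑ |Z|` (use `UU_abs`), then `le_csSup`. -/
theorem le_nuc {U : V → X → ℝ} (h : U ∈ UU V X) (Z : V → X → ℝ) :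
    ∑ v, ∑ x, U v x * Z v x ≤ nuc Z := by
  refine le_csSup ⟨∑ v, ∑ x, |Z v x|, ?_⟩ ⟨U, h, rfl⟩
  rintro _ ⟨U', hU, rfl⟩
  exact nuc_pair hU Z

/-- `0 ∈ UU`. -/
theorem nuc_nonneg (Z : V → X → ℝ) : 0 ≤ nuc Z := by
  simpa using le_nuc nuc_zero Z

theorem nuc_lip (Z Z' : V → X → ℝ) : nuc Z ≤ nuc Z' + ∑ v, ∑ x, |Z v x - Z' v x| := by
  refine nuc_sup fun U hU => ?_
  have h1 := le_nuc hU Z'
  have h2 := nuc_pair hU fun v x => Z v x - Z' v x
  simp only [mul_sub, sum_sub_distrib] at h2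
  linarith

/-- `nuc Z ≤ nuc Z' + ∑ |Z - Z'|` by `csSup_le`, `le_nuc`, `UU_abs`; so `nuc` is continuous. -/
theorem nuc_cont : Continuous (nuc : (V → X → ℝ) → ℝ) := by
  refine continuous_iff_continuousAt.2 fun Z => ?_
  have h1 : Continuous fun Z' : V → X → ℝ => ∑ v, ∑ x, |Z' v x - Z v x| := by fun_prop
  have h2 := h1.tendsto Z
  simp only [sub_self, abs_zero, sum_const_zero] at h2
  refine tendsto_iff_dist_tendsto_zero.2 (squeeze_zero (fun _ => dist_nonneg) (fun Z' => ?_) h2)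
  have h3 := nuc_lip Z Z'
  have h4 := nuc_lip Z' Z
  simp only [abs_sub_comm (Z _ _)] at h3
  rw [Real.dist_eq]
  exact abs_le.2 ⟨by linarith, by linarith⟩

/-- `csSup_le`; `⟨U, Z⟩ = ∑ i, y_i U z_i`. -/
theorem nuc_le {Z : V → X → ℝ} (y : V → ι → ℝ) (z : X → ι → ℝ)
    (h : ∀ v x, Z v x = ∑ i, y v i * z x i) :
    nuc Z ≤ (∑ v, ∑ i, y v i ^ 2 + ∑ x, ∑ i, z x i ^ 2) / 2 := by
  refine nuc_sup fun U hU => ?_
  have h1 : ∑ v, ∑ x, U v x * Z v x = ∑ i, ∑ v, ∑ x, y v i * U v x * z x i := by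
    simp only [h, mul_sum]
    rw [sum_comm (s := univ (α := ι))]
    refine sum_congr rfl fun v _ => ?_
    rw [sum_comm]
    exact sum_congr rfl fun i _ => sum_congr rfl fun x _ => by ring
  rw [h1, sum_comm (s := univ (α := V)) (f := fun v i => y v i ^ 2),
    sum_comm (s := univ (α := X)) (f := fun x i => z x i ^ 2), ← sum_add_distrib, sum_div]
  exact sum_le_sum fun i _ => hU (fun v => y v i) fun x => z x i

/-- Singular values.  Apply `spec` to `T x x' = ∑ v, Z v x * Z v x'`; `lam i = |Z φ_i| ^ 2 ≥ 0`,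
`μ i = √(lam i)`, `y v i = (Z φ_i) v / √(μ i)`, `z x i = √(μ i) * φ i x` (both vanish if
`μ i = 0`, since then `Z φ_i = 0`).  For the sum use `le_nuc` with
`U v x = ∑ i, (Z φ_i) v / μ i * φ i x`, which is in `UU` by `2 s t ≤ s ^ 2 + t ^ 2` and `bessel`
with weights `1`. -/
theorem nuc_svd (Z : V → X → ℝ) : ∃ (μ : X → ℝ) (y : V → X → ℝ) (z : X → X → ℝ),
    (∀ i, 0 ≤ μ i) ∧ (∀ v x, Z v x = ∑ i, y v i * z x i) ∧
    (∀ i j, ∑ v, y v i * y v j = if i = j then μ i else 0) ∧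
    (∀ i j, ∑ x, z x i * z x j = if i = j then μ i else 0) ∧ ∑ i, μ i ≤ nuc Z ∧
    (∀ i, ∃ c : X → ℝ, ∀ v, y v i = ∑ x, Z v x * c x) ∧
    ∀ i, ∃ c : V → ℝ, ∀ x, z x i = ∑ v, Z v x * c v := by
  obtain ⟨lam, φ, h1, h2, h3⟩ := spec (fun x x' => ∑ v, Z v x * Z v x')
    fun x x' => sum_congr rfl fun v _ => mul_comm _ _
  obtain ⟨w, hw⟩ : ∃ w : X → V → ℝ, ∀ i v, w i v = ∑ x, Z v x * φ i x := ⟨_, fun _ _ => rfl⟩
  have a1 : ∀ i x, ∑ v, Z v x * w i v = lam i * φ i x := fun i x => by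
    rw [← h3]
    simp only [hw, mul_sum, sum_mul, mul_assoc]
    exact sum_comm
  have a2 : ∀ i j, ∑ v, w i v * w j v = if i = j then lam i else 0 := fun i j => by
    have : ∑ v, w i v * w j v = ∑ x, φ j x * ∑ v, Z v x * w i v := by
      simp only [hw j, mul_sum]
      rw [sum_comm]
      exact sum_congr rfl fun x _ => sum_congr rfl fun v _ => by ring
    rw [this, sum_congr rfl fun x _ => by rw [a1, mul_left_comm, mul_comm (φ j x)], ← mul_sum, h1]
    split_ifs <;> simp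
  have a3 : ∀ i, lam i = ∑ v, w i v * w i v := fun i => by rw [a2, if_pos rfl]
  have a4 : ∀ i, 0 ≤ lam i := fun i => a3 i ▸ sum_nonneg fun v _ => mul_self_nonneg _
  obtain ⟨s, s0, hs⟩ : ∃ s : X → ℝ, (∀ i, 0 ≤ s i) ∧ ∀ i, lam i = s i * s i * (s i * s i) :=
    ⟨fun i => √√(lam i), fun i => sqrt_nonneg _, fun i => by
      rw [mul_self_sqrt (sqrt_nonneg _), mul_self_sqrt (a4 i)]⟩
  have a5 : ∀ i v, s i = 0 → w i v = 0 := fun i v h => by
    have := a3 i
    rw [hs, h, mul_zero, mul_zero] at this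
    exact mul_self_eq_zero.1
      ((sum_eq_zero_iff_of_nonneg fun v _ => mul_self_nonneg _).1 this.symm v (mem_univ v))
  refine ⟨fun i => s i * s i, fun v i => w i v / s i, fun x i => s i * φ i x,
    fun i => mul_self_nonneg _, fun v x => ?_, fun i j => ?_, fun i j => ?_, ?_,
    fun i => ⟨fun x => φ i x / s i, fun v => ?_⟩,
    fun i => ⟨fun v => w i v * (s i / lam i), fun x => ?_⟩⟩
  · have : ∑ i, w i v * φ i x = Z v x := by
      simp only [hw, sum_mul, mul_assoc]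
      rw [sum_comm]
      simp only [← mul_sum, h2, mul_ite, mul_one, mul_zero, sum_ite_eq', mem_univ, if_true]
    rw [← this]
    refine sum_congr rfl fun i _ => ?_
    by_cases h : s i = 0
    · simp [a5 i v h]
    · field_simp
  · simp only [div_mul_div_comm]
    rw [← sum_div, a2]
    split_ifs with h
    · subst h
      rw [hs, mul_self_div_self]
    · exact zero_div _
  · rw [sum_congr rfl fun x _ => mul_mul_mul_comm _ _ _ _, ← mul_sum, h1]
    split_ifs with h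
    · rw [h, mul_one]
    · exact mul_zero _
  · refine le_trans (le_of_eq ?_)
      (le_nuc (U := fun v x => ∑ i, w i v / (s i * s i) * φ i x) (fun a b => ?_) Z)
    · simp only [sum_mul]
      rw [sum_congr rfl fun v _ => sum_comm, sum_comm]
      refine sum_congr rfl fun i _ => ?_
      simp only [mul_assoc, ← mul_sum, mul_comm (φ i _), ← hw]
      simp only [div_mul_eq_mul_div]
      rw [← sum_div, ← a3, hs, mul_self_div_self]
    · have b1 := bessel (p := fun _ : V => 1) (fun _ => zero_le_one) (μ := lam)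
        (a := fun v i => w i v) (by simpa only [one_mul] using a2) a
      have b2 := bessel (p := fun _ : X => 1) (fun _ => zero_le_one) (μ := fun _ => 1)
        (a := fun x i => φ i x) (by simpa only [one_mul] using h1) b
      simp only [one_mul, div_one] at b1 b2
      have b3 : ∑ v, ∑ x, a v * (∑ i, w i v / (s i * s i) * φ i x) * b x =
          ∑ i, (∑ v, a v * w i v) / (s i * s i) * ∑ x, b x * φ i x := by
        simp only [sum_div, sum_mul, mul_sum]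
        rw [sum_congr rfl fun v _ => sum_comm, sum_comm]
        refine sum_congr rfl fun i _ => ?_
        rw [sum_comm]
        exact sum_congr rfl fun x _ => sum_congr rfl fun v _ => by ring
      rw [b3]
      refine le_trans ?_ (div_le_div_of_nonneg_right (add_le_add b1 b2) zero_le_two)
      rw [← sum_add_distrib, sum_div]
      refine sum_le_sum fun i _ => ?_
      rw [hs, ← sq (s i * s i), ← div_pow]
      linarith [sq_nonneg ((∑ v, a v * w i v) / (s i * s i) - ∑ x, b x * φ i x)]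
  · simp only [hw, sum_div, mul_div_assoc]
  · simp only [← mul_assoc]
    rw [← sum_mul, a1]
    by_cases h : s i = 0
    · simp [h]
    · have : lam i ≠ 0 := by
        rw [hs]
        positivity
      field_simp

end Pool.Agent.Work.MP_e10cd8_co.Far
end

-- merged part: Pool.Agent.Work.MP_e10cd8_co.Far.Nf
section
/-! The weighted nuclear norm of the centred kernel. -/

set_option linter.unusedSectionVars false

namespace Pool.Agent.Work.MP_e10cd8_co.Far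
open Finset Real Pool.Agent.Work.MP_e10cd8_co.Up

variable {V X ι J : Type} [Fintype V] [Fintype X] [Fintype ι] [Fintype J]
  [DecidableEq V] [DecidableEq X] [DecidableEq ι] [DecidableEq J]

theorem Nf_nonneg (p : V → ℝ) (p' : X → ℝ) (M : V → X → ℝ) : 0 ≤ Nf p p' M := nuc_nonneg _

/-- `nuc_cont.comp`, then `fun_prop` after unfolding `cen`, `mA`, `mB`. -/
theorem Nf_cont (M : V → X → ℝ) : Continuous fun P : V × X → ℝ => Nf (mA P) (mB P) M := by
  unfold Nf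
  refine nuc_cont.comp ?_
  unfold cen mA mB
  fun_prop

theorem nf_var {p : V → ℝ} (hp : Pb p) (f : V → ℝ) :
    ∑ v, p v * (f v - ∑ u, p u * f u) ^ 2 ≤ ∑ v, p v * f v ^ 2 := by
  obtain ⟨m, hm⟩ : ∃ m, m = ∑ u, p u * f u := ⟨_, rfl⟩
  rw [← hm]
  have e : ∑ v, p v * (f v - m) ^ 2 = ∑ v, p v * f v ^ 2 - 2 * m * ∑ v, p v * f v +
      m ^ 2 * ∑ v, p v := by
    rw [mul_sum, mul_sum, ← sum_sub_distrib, ← sum_add_distrib]
    exact sum_congr rfl fun v _ => by ring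
  rw [e, hp.2, ← hm]
  nlinarith [sq_nonneg m]

theorem nf_mean {p : V → ℝ} (hp : Pb p) {f : V → ℝ} (a : V → ι → ℝ) (c : ι → ℝ) (r : V → ℝ)
    (s : ℝ) (h : ∀ v, 0 < p v → f v = ∑ i, a v i * c i + r v + s) :
    ∑ v, p v * f v = ∑ i, (∑ v, p v * a v i) * c i + ∑ v, p v * r v + s := by
  have e : ∀ v, p v * f v = ∑ i, p v * a v i * c i + p v * r v + p v * s := fun v => by
    rcases (hp.1 v).eq_or_lt with h0 | h0
    · simp [← h0]
    · rw [h v h0, mul_add, mul_add, mul_sum]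
      simp only [mul_assoc]
  rw [sum_congr rfl fun v _ => e v, sum_add_distrib, sum_add_distrib, ← sum_mul, hp.2, one_mul,
    sum_comm]
  simp only [sum_mul]

theorem nf_cen {p : V → ℝ} {p' : X → ℝ} (hp : Pb p) (hp' : Pb p') {M : V → X → ℝ}
    {a : V → ι → ℝ} {b : X → ι → ℝ} {r : V → ℝ} {r' : X → ℝ} (h : Fac p p' M a b r r') {v : V}
    {x : X} (hv : 0 < p v) (hx : 0 < p' x) :
    cen p p' M v x = ∑ i, (a v i - ∑ u, p u * a u i) * (b x i - ∑ y, p' y * b y i) := by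
  have h1 : ∀ u, 0 < p u → ∑ y, p' y * M u y =
      ∑ i, a u i * (∑ y, p' y * b y i) + r u + ∑ y, p' y * r' y := fun u hu => by
    rw [nf_mean hp' b (a u) r' (r u) fun y hy => by
      rw [h u y hu hy, sum_congr rfl fun i _ => mul_comm (a u i) (b y i)]; ring]
    rw [sum_congr rfl fun i _ => mul_comm (a u i) (∑ y, p' y * b y i)]
    ring
  have h2 := nf_mean hp a (b x) r (r' x) fun u hu => h u x hu hx
  have h3 := nf_mean hp a _ r _ h1
  have h4 : ∑ u, ∑ y, p u * p' y * M u y = ∑ u, p u * ∑ y, p' y * M u y :=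
    sum_congr rfl fun u _ => by
      rw [mul_sum]
      exact sum_congr rfl fun y _ => mul_assoc _ _ _
  unfold cen
  rw [h4, h3, h2, h1 v hv, h v x hv hx]
  simp only [sub_mul, mul_sub, sum_sub_distrib]
  ring

theorem nf_row {p : V → ℝ} (hp : Pb p) (p' : X → ℝ) (M : V → X → ℝ) (x : X) :
    ∑ v, p v * cen p p' M v x = 0 := by
  have h4 : ∑ u, ∑ y, p u * p' y * M u y = ∑ u, p u * ∑ y, p' y * M u y :=
    sum_congr rfl fun u _ => by
      rw [mul_sum]
      exact sum_congr rfl fun y _ => mul_assoc _ _ _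
  unfold cen
  rw [h4]
  simp only [mul_add, mul_sub, sum_add_distrib, sum_sub_distrib]
  rw [← sum_mul, ← sum_mul, hp.2]
  ring

theorem nf_col (p : V → ℝ) {p' : X → ℝ} (hp' : Pb p') (M : V → X → ℝ) (v : V) :
    ∑ x, p' x * cen p p' M v x = 0 := by
  have h4 : ∑ u, ∑ y, p u * p' y * M u y = ∑ y, p' y * ∑ u, p u * M u y := by
    rw [sum_comm]
    refine sum_congr rfl fun y _ => ?_
    rw [mul_sum]
    exact sum_congr rfl fun u _ => by ring
  unfold cen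
  rw [h4]
  simp only [mul_add, mul_sub, sum_add_distrib, sum_sub_distrib]
  rw [← sum_mul, ← sum_mul, hp'.2]
  ring

theorem nf_sq {p : V → ℝ} (hp : Pb p) (a : V → ι → ℝ) :
    ∑ v, ∑ i, (√(p v) * (a v i - ∑ u, p u * a u i)) ^ 2 ≤ ∑ v, p v * ∑ i, a v i ^ 2 := by
  have e : ∑ v, p v * ∑ i, a v i ^ 2 = ∑ i, ∑ v, p v * a v i ^ 2 := by
    rw [sum_comm]
    exact sum_congr rfl fun v _ => mul_sum _ _ _
  rw [e, sum_comm]
  refine sum_le_sum fun i _ => le_trans (le_of_eq (sum_congr rfl fun v _ => ?_))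
    (nf_var hp fun v => a v i)
  rw [mul_pow, sq_sqrt (hp.1 v)]

/-- On the supports `cen = ⟨a - abar, b - bbar⟩` with the means `abar i = ∑ p a`, `bbar`; use
`nuc_le` with `y v i = √(p v) (a v i - abar i)`, and `∑ p (a - abar) ^ 2 ≤ ∑ p a ^ 2`. -/
theorem Nf_le {p : V → ℝ} {p' : X → ℝ} (hp : Pb p) (hp' : Pb p') {M : V → X → ℝ} {a : V → ι → ℝ}
    {b : X → ι → ℝ} {r : V → ℝ} {r' : X → ℝ} (h : Fac p p' M a b r r') :
    Nf p p' M ≤ (∑ v, p v * ∑ i, a v i ^ 2 + ∑ x, p' x * ∑ i, b x i ^ 2) / 2 := by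
  refine (nuc_le (fun v i => √(p v) * (a v i - ∑ u, p u * a u i))
    (fun x i => √(p' x) * (b x i - ∑ y, p' y * b y i)) fun v x => ?_).trans ?_
  · rcases (hp.1 v).eq_or_lt with hv | hv
    · simp [← hv]
    rcases (hp'.1 x).eq_or_lt with hx | hx
    · simp [← hx]
    rw [nf_cen hp hp' h hv hx, mul_sum]
    exact sum_congr rfl fun i _ => by ring
  · linarith [nf_sq hp a, nf_sq hp' b]

/-- From `nuc_svd`: `a v i = ∑ x, √(p' x) cen v x c_i x`, so `y v i = √(p v) a v i`; centred since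
`∑ v, p v * cen v x = 0`; same for `b`; cancel `√(p v) √(p' x)` on the supports;
`r v = ∑ p' M v ·`, `r' x = ∑ p M · x - ∑ p p' M`. -/
theorem Nf_svd {p : V → ℝ} {p' : X → ℝ} (hp : Pb p) (hp' : Pb p') (M : V → X → ℝ) :
    ∃ (μ : X → ℝ) (a : V → X → ℝ) (b : X → X → ℝ) (r : V → ℝ) (r' : X → ℝ),
      Sd p μ a ∧ Sd p' μ b ∧ Fac p p' M a b r r' ∧ ∑ i, μ i ≤ Nf p p' M := by
  obtain ⟨μ, y, z, h0, h1, h2, h3, h4, h5, h6⟩ :=
    nuc_svd fun v x => √(p v) * √(p' x) * cen p p' M v x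
  choose c hc using h5
  choose d hd using h6
  have ey : ∀ v i, y v i = √(p v) * ∑ x, √(p' x) * cen p p' M v x * c i x := fun v i => by
    rw [hc, mul_sum]
    exact sum_congr rfl fun x _ => by ring
  have ez : ∀ x i, z x i = √(p' x) * ∑ v, √(p v) * cen p p' M v x * d i v := fun x i => by
    rw [hd, mul_sum]
    exact sum_congr rfl fun v _ => by ring
  refine ⟨μ, fun v i => ∑ x, √(p' x) * cen p p' M v x * c i x,
    fun x i => ∑ v, √(p v) * cen p p' M v x * d i v, fun v => ∑ y, p' y * M v y,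
    fun x => ∑ u, p u * M u x - ∑ u, ∑ y, p u * p' y * M u y, ⟨h0, fun i j => ?_, fun i => ?_⟩,
    ⟨h0, fun i j => ?_, fun i => ?_⟩, fun v x hv hx => ?_, h4⟩
  · rw [← h2 i j]
    refine sum_congr rfl fun v _ => ?_
    rw [ey, ey, mul_mul_mul_comm, mul_self_sqrt (hp.1 v)]
  · simp only [mul_sum]
    rw [sum_comm]
    refine sum_eq_zero fun x _ => ?_
    rw [← mul_zero (√(p' x) * c i x), ← nf_row hp p' M x, mul_sum]
    exact sum_congr rfl fun v _ => by ring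
  · rw [← h3 i j]
    refine sum_congr rfl fun x _ => ?_
    rw [ez, ez, mul_mul_mul_comm, mul_self_sqrt (hp'.1 x)]
  · simp only [mul_sum]
    rw [sum_comm]
    refine sum_eq_zero fun v _ => ?_
    rw [← mul_zero (√(p v) * d i v), ← nf_col p hp' M v, mul_sum]
    exact sum_congr rfl fun x _ => by ring
  · have k : √(p v) * √(p' x) ≠ 0 := (mul_pos (sqrt_pos.2 hv) (sqrt_pos.2 hx)).ne'
    have e : cen p p' M v x = ∑ i, (∑ x, √(p' x) * cen p p' M v x * c i x) *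
        ∑ v, √(p v) * cen p p' M v x * d i v := by
      refine mul_left_cancel₀ k ?_
      rw [h1 v x, mul_sum]
      refine sum_congr rfl fun i _ => ?_
      rw [ey, ez, mul_mul_mul_comm]
    rw [← e]
    unfold cen
    ring

end Pool.Agent.Work.MP_e10cd8_co.Far
end

-- merged part: Pool.Agent.Work.MP_e10cd8_co.Far.U2
section
/-! Calculus of symmetric second differences. -/

namespace Pool.Agent.Work.MP_e10cd8_co.Far
open Finset Real Pool.Agent.Work.MP_e10cd8_co.Up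

variable {V X ι J : Type} [Fintype V] [Fintype X] [Fintype ι] [Fintype J]
  [DecidableEq V] [DecidableEq X] [DecidableEq ι] [DecidableEq J]

theorem U2.add {f g : ℝ → ℝ} {c d : ℝ} (hf : U2 f c) (hg : U2 g d) :
    U2 (fun ε => f ε + g ε) (c + d) := by
  intro θ hθ
  filter_upwards [hf (θ / 2) (half_pos hθ), hg (θ / 2) (half_pos hθ)] with ε h1 h2
  linarith

theorem U2.smul {f : ℝ → ℝ} {c s : ℝ} (hf : U2 f c) (hs : 0 ≤ s) :
    U2 (fun ε => s * f ε) (s * c) := by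
  intro θ hθ
  filter_upwards [hf (θ / (s + 1)) (by positivity)] with ε h1
  have h2 := mul_le_mul_of_nonneg_left h1 hs
  have h3 : s * (θ / (s + 1)) ≤ θ := by
    rw [← mul_div_assoc, div_le_iff₀ (by positivity)]
    linarith
  have h4 := mul_le_mul_of_nonneg_right h3 (sq_nonneg ε)
  linarith

theorem u2_zero : U2 (fun _ => 0) 0 := fun θ hθ => Filter.Eventually.of_forall fun ε => by
  have := mul_nonneg hθ.le (sq_nonneg ε)
  linarith

theorem U2.sum {s : Finset ι} {f : ι → ℝ → ℝ} {c : ι → ℝ} (h : ∀ i ∈ s, U2 (f i) (c i)) :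
    U2 (fun ε => ∑ i ∈ s, f i ε) (∑ i ∈ s, c i) := by
  induction s using Finset.induction_on with
  | empty => simpa only [sum_empty] using u2_zero
  | insert i s hi ih =>
    simp only [sum_insert hi]
    exact (h i (mem_insert_self _ _)).add (ih fun j hj => h j (mem_insert_of_mem hj))

theorem u2_neg {p : ℝ → Prop} (h : ∀ᶠ ε in nhds (0 : ℝ), p ε) :
    ∀ᶠ ε in nhdsWithin (0 : ℝ) (Set.Ioi 0), p ε ∧ p (-ε) := by
  have h1 : Filter.Tendsto (fun ε : ℝ => -ε) (nhds 0) (nhds 0) := by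
    simpa only [neg_zero] using continuous_neg.tendsto (0 : ℝ)
  exact (h.and (h1.eventually h)).filter_mono nhdsWithin_le_nhds

/-- an upper bound near `0` that is not above `f` at `0` -/
theorem U2.of_le {f g : ℝ → ℝ} {c d : ℝ} (hg : U2 g c) (h : ∀ᶠ ε in nhds (0 : ℝ), f ε ≤ g ε)
    (h0 : g 0 ≤ f 0) (hd : c ≤ d) : U2 f d := by
  intro θ hθ
  filter_upwards [hg θ hθ, u2_neg h] with ε h1 h2
  have h3 := mul_le_mul_of_nonneg_right hd (sq_nonneg ε)
  linarith [h2.1, h2.2]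

/-- at a local minimum -/
theorem U2.nonneg {f : ℝ → ℝ} {c : ℝ} (hf : U2 f c) (h : ∀ᶠ ε in nhds (0 : ℝ), f 0 ≤ f ε) :
    0 ≤ c := by
  by_contra hc
  have hc' : c < 0 := not_le.1 hc
  obtain ⟨ε, ⟨h1, h2⟩, h3⟩ :=
    (((hf (-c) (by linarith)).and (u2_neg h)).and self_mem_nhdsWithin).exists
  have h4 := mul_neg_of_neg_of_pos hc' (pow_pos (show 0 < ε from h3) 2)
  linarith [h2.1, h2.2]

theorem T2.add {f g : ℝ → ℝ} {c d : ℝ} (hf : T2 f c) (hg : T2 g d) :
    T2 (fun ε => f ε + g ε) (c + d) :=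
  ⟨hf.1.add hg.1, by simpa only [neg_add] using hf.2.add hg.2⟩

theorem T2.smul {f : ℝ → ℝ} {c : ℝ} (hf : T2 f c) (s : ℝ) : T2 (fun ε => s * f ε) (s * c) := by
  rcases le_total 0 s with hs | hs
  · exact ⟨hf.1.smul hs, by simpa only [mul_neg] using hf.2.smul hs⟩
  · exact ⟨by simpa only [neg_mul_neg] using hf.2.smul (neg_nonneg.2 hs),
      by simpa only [neg_mul] using hf.1.smul (neg_nonneg.2 hs)⟩

theorem T2.sub {f g : ℝ → ℝ} {c d : ℝ} (hf : T2 f c) (hg : T2 g d) :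
    T2 (fun ε => f ε - g ε) (c - d) := by
  simpa only [neg_one_mul, ← sub_eq_add_neg] using hf.add (hg.smul (-1))

theorem T2.sum {s : Finset ι} {f : ι → ℝ → ℝ} {c : ι → ℝ} (h : ∀ i ∈ s, T2 (f i) (c i)) :
    T2 (fun ε => ∑ i ∈ s, f i ε) (∑ i ∈ s, c i) :=
  ⟨U2.sum fun i hi => (h i hi).1,
    by simpa only [sum_neg_distrib] using U2.sum fun i hi => (h i hi).2⟩

theorem T2.congr {f g : ℝ → ℝ} {c d : ℝ} (hg : T2 g c) (h : ∀ᶠ ε in nhds (0 : ℝ), f ε = g ε)
    (hd : d = c) : T2 f d :=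
  ⟨hg.1.of_le (h.mono fun _ e => e.le) h.self_of_nhds.ge hd.ge,
    hg.2.of_le (h.mono fun _ e => (congrArg Neg.neg e).le) (congrArg Neg.neg h.self_of_nhds).ge
      (congrArg Neg.neg hd).ge⟩

theorem u2_of_tendsto {f g : ℝ → ℝ} {c1 c : ℝ}
    (hg : Filter.Tendsto g (nhdsWithin 0 {0}ᶜ) (nhds c))
    (h : ∀ ε, ε ≠ 0 → f ε = f 0 + c1 * ε + ε ^ 2 * g ε) : U2 f c := by
  intro θ hθ
  have h1 := eventually_nhdsWithin_iff.1 (hg.eventually (gt_mem_nhds (lt_add_of_pos_right c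
    (half_pos hθ))))
  filter_upwards [u2_neg h1, self_mem_nhdsWithin] with ε h2 h3
  have h4 : ε ≠ 0 := ne_of_gt h3
  have h5 := mul_le_mul_of_nonneg_left (h2.1 h4).le (sq_nonneg ε)
  have h6 := mul_le_mul_of_nonneg_left (h2.2 (neg_ne_zero.2 h4)).le (sq_nonneg ε)
  rw [h ε h4, h (-ε) (neg_ne_zero.2 h4), neg_sq]
  linarith

theorem u2_t2 {f g : ℝ → ℝ} {c1 c : ℝ} (hg : Filter.Tendsto g (nhdsWithin 0 {0}ᶜ) (nhds c))
    (h : ∀ ε, ε ≠ 0 → f ε = f 0 + c1 * ε + ε ^ 2 * g ε) : T2 f c :=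
  ⟨u2_of_tendsto hg h, u2_of_tendsto (c1 := -c1) hg.neg fun ε hε => by
    rw [h ε hε]
    ring⟩

theorem u2_id : Filter.Tendsto (fun ε : ℝ => ε) (nhdsWithin 0 {0}ᶜ) (nhds 0) :=
  Filter.tendsto_id.mono_left nhdsWithin_le_nhds

theorem u2_log (b : ℝ) : Filter.Tendsto (fun ε : ℝ => (log (1 + ε * b) - ε * b) / ε ^ 2)
    (nhdsWithin 0 {0}ᶜ) (nhds (-(b ^ 2 / 2))) := by
  rw [tendsto_iff_norm_sub_tendsto_zero]
  have h0 : Filter.Tendsto (fun ε : ℝ => |ε * b|) (nhdsWithin 0 {0}ᶜ) (nhds 0) := by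
    simpa only [zero_mul, abs_zero] using (u2_id.mul_const b).abs
  have h1 : Filter.Tendsto (fun ε : ℝ => 2 * b ^ 2 * |ε * b|) (nhdsWithin 0 {0}ᶜ) (nhds 0) := by
    simpa only [mul_zero] using h0.const_mul (2 * b ^ 2)
  refine squeeze_zero' (Filter.Eventually.of_forall fun _ => norm_nonneg _) ?_ h1
  filter_upwards [h0.eventually (gt_mem_nhds (show (0 : ℝ) < 1 / 2 by norm_num)),
    self_mem_nhdsWithin] with ε h2 h3
  have h4 : ε ≠ 0 := h3
  have h5 : 0 < ε ^ 2 := by positivity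
  have h6 := Real.abs_log_sub_add_sum_range_le (x := -(ε * b)) (by rw [abs_neg]; linarith) 2
  rw [abs_neg, sub_neg_eq_add] at h6
  have h7 : (log (1 + ε * b) - ε * b) / ε ^ 2 - -(b ^ 2 / 2) =
      (∑ i ∈ range 2, (-(ε * b)) ^ (i + 1) / ((i : ℝ) + 1) + log (1 + ε * b)) / ε ^ 2 := by
    simp only [sum_range_succ, sum_range_zero]
    push_cast
    field_simp
    ring
  rw [Real.norm_eq_abs, h7, abs_div, abs_of_pos h5, div_le_iff₀ h5]
  refine h6.trans ?_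
  rw [div_le_iff₀ (by linarith), pow_succ, sq_abs]
  have h8 : 0 ≤ (ε * b) ^ 2 * |ε * b| := by positivity
  nlinarith [mul_le_mul_of_nonneg_left h2.le h8]

theorem t2_poly (c0 c1 c2 c3 : ℝ) : T2 (fun ε => c0 + c1 * ε + c2 * ε ^ 2 + c3 * ε ^ 3) c2 := by
  refine u2_t2 (c1 := c1) (g := fun ε => c2 + c3 * ε) ?_ fun ε _ => by ring
  simpa only [mul_zero, add_zero] using (u2_id.const_mul c3).const_add c2

/-- `|log (1 + x) - x + x ^ 2 / 2| ≤ 2 |x| ^ 3` for `|x| ≤ 1 / 2`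
(`Real.abs_log_sub_add_sum_range_le`). -/
theorem t2_log (a b : ℝ) : T2 (fun ε => (1 + ε * a) * log (1 + ε * b)) (a * b - b ^ 2 / 2) := by
  refine u2_t2 (c1 := b) (g := fun ε => a * b + (1 + ε * a) *
    ((log (1 + ε * b) - ε * b) / ε ^ 2)) ?_ fun ε hε => ?_
  · simpa only [zero_mul, add_zero, one_mul, ← sub_eq_add_neg] using
      (((u2_id.mul_const a).const_add 1).mul (u2_log b)).const_add (a * b)
  · simp only [zero_mul, add_zero, log_one, mul_zero]
    field_simp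
    ring

/-- The bracket is `ε (a - b - η) + O(ε ^ 2)`; or: `g ε = bracket / ε` tends to `a - b - η` on both
sides of `0`. -/
theorem t2_sq (a b η : ℝ) :
    T2 (fun ε => (1 + ε * a) * (log (1 + ε * a) - log (1 + ε * b) - ε * η) ^ 2)
      ((a - b - η) ^ 2) := by
  refine u2_t2 (c1 := 0) (g := fun ε => (1 + ε * a) * (a - b - η + ε *
    ((log (1 + ε * a) - ε * a) / ε ^ 2 - (log (1 + ε * b) - ε * b) / ε ^ 2)) ^ 2) ?_
    fun ε hε => ?_
  · simpa only [zero_mul, add_zero, one_mul] using ((u2_id.mul_const a).const_add 1).mul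
      (((u2_id.mul ((u2_log a).sub (u2_log b))).const_add (a - b - η)).pow 2)
  · simp only [zero_mul, add_zero, log_one, sub_self]
    field_simp
    ring

/-- small steps keep all the factors positive -/
theorem ev_pos (G : V → ℝ) : ∀ᶠ ε in nhds (0 : ℝ), ∀ v, 0 < 1 + ε * G v := by
  refine Filter.eventually_all.2 fun v => ?_
  have h : Continuous fun ε : ℝ => 1 + ε * G v := by fun_prop
  exact (h.tendsto 0).eventually (lt_mem_nhds (by simp))

end Pool.Agent.Work.MP_e10cd8_co.Far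
end

-- merged part: Pool.Agent.Work.MP_e10cd8_co.Far.Foc
section
/-! First-order conditions in the tilts. -/

namespace Pool.Agent.Work.MP_e10cd8_co.Far
open Finset Real Pool.Agent.Work.MP_e10cd8_co.Up

variable {V X ι J : Type} [Fintype V] [Fintype X] [Fintype ι] [Fintype J]
  [DecidableEq V] [DecidableEq X] [DecidableEq ι] [DecidableEq J]

theorem foc_upd (h : V → ℝ) (φ : V → ℝ → ℝ) (v : V) (a : ℝ) :
    ∑ u, φ u (Function.update h v a u) = ∑ u, φ u (h u) + (φ v a - φ v (h v)) := by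
  have k : ∀ u, φ u (Function.update h v a u) =
      φ u (h u) + if u = v then φ v a - φ v (h v) else 0 := by
    intro u
    by_cases e : u = v
    · subst e; simp
    · simp [e]
  simp only [k, sum_add_distrib, sum_ite_eq', mem_univ, if_true]

theorem foc_exp {d : ℝ} (hd : |d| ≤ 1) : exp (-d) - 1 ≤ -d + d ^ 2 := by
  have k := Real.abs_exp_sub_one_sub_id_le (x := -d) (by rwa [abs_neg])
  have k2 := (abs_le.mp k).2
  nlinarith

theorem foc_pos {Z Z' r : ℝ} (r0 : 0 < r) (Z0 : 0 ≤ Z')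
    (H : ∀ d, 0 < d → d ≤ r → 0 ≤ d * Z + d ^ 2 * Z') : 0 ≤ Z := by
  by_contra k
  push Not at k
  have a0 : 0 < -Z / (Z' + 1) := div_pos (by linarith) (by linarith)
  have d0 : 0 < min r (-Z / (Z' + 1)) := lt_min r0 a0
  have d1 : min r (-Z / (Z' + 1)) * (Z' + 1) ≤ -Z := by
    rw [← le_div_iff₀ (by linarith)]; exact min_le_right _ _
  have k2 := H _ d0 (min_le_left _ _)
  generalize min r (-Z / (Z' + 1)) = d at d0 d1 k2
  have k3 : 0 ≤ d * (Z + d * Z') := by nlinarith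
  have k4 : Z + d * Z' < 0 := by nlinarith
  nlinarith [mul_pos d0 (neg_pos.mpr k4)]

theorem foc_step {p h F : V → ℝ} {w ζ lo hi : ℝ} (hp : ∀ v, 0 ≤ p v) (hF : ∀ v, 0 ≤ F v)
    (w0 : 0 < w) (ζ0 : 0 < ζ) (hh : ∀ v, lo ≤ h v ∧ h v ≤ hi)
    (e0 : 0 < ∑ v, p v * exp (-h v) * F v)
    (hm : ∀ h1 : V → ℝ, (∀ v, lo ≤ h1 v ∧ h1 v ≤ hi) →
      w * (log (∑ v, p v * exp (-h v) * F v) + ∑ v, p v * h v) + ζ * ∑ v, p v * psi (h v) ≤
      w * (log (∑ v, p v * exp (-h1 v) * F v) + ∑ v, p v * h1 v) + ζ * ∑ v, p v * psi (h1 v))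
    (v : V) (d : ℝ) (hd : |d| ≤ 1) (d1 : lo ≤ h v + d) (d2 : h v + d ≤ hi) :
    0 ≤ d * (p v * (w + ζ * min (h v) 1) -
        w * (p v * exp (-h v) * F v / ∑ v, p v * exp (-h v) * F v)) +
      d ^ 2 * (w * (p v * exp (-h v) * F v / ∑ v, p v * exp (-h v) * F v) + ζ * p v / 2) := by
  have k := hm (Function.update h v (h v + d)) (by
    intro u
    by_cases e : u = v
    · subst e; simpa using ⟨d1, d2⟩
    · simpa [e] using hh u)
  have s1 := foc_upd h (fun u a => p u * exp (-a) * F u) v (h v + d)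
  have s2 := foc_upd h (fun u a => p u * a) v (h v + d)
  have s3 := foc_upd h (fun u a => p u * psi a) v (h v + d)
  rw [s1, s2, s3] at k
  have T0 : 0 ≤ p v * exp (-h v) * F v := mul_nonneg (mul_nonneg (hp v) (exp_pos _).le) (hF v)
  have Te : p v * exp (-h v) * F v ≤ ∑ v, p v * exp (-h v) * F v :=
    single_le_sum (f := fun v => p v * exp (-h v) * F v)
      (fun u _ => mul_nonneg (mul_nonneg (hp u) (exp_pos _).le) (hF u)) (mem_univ v)
  have hT : p v * exp (-(h v + d)) * F v = p v * exp (-h v) * F v * exp (-d) := by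
    rw [neg_add, exp_add]; ring
  rw [hT] at k
  have hps := mul_le_mul_of_nonneg_left (psi_add (h v) d) (hp v)
  generalize p v * exp (-h v) * F v = T at *
  generalize ∑ v, p v * exp (-h v) * F v = e at *
  have x0 := exp_pos (-d)
  have e1 : 0 < e + (T * exp (-d) - T) := by
    rcases T0.eq_or_lt with z | z
    · rw [← z]; linarith
    · nlinarith [mul_pos z x0]
  have hl : log (e + (T * exp (-d) - T)) - log e ≤ T / e * (-d + d ^ 2) := by
    rw [← log_div e1.ne' e0.ne']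
    refine (log_le_sub_one_of_pos (div_pos e1 e0)).trans ?_
    have q : (e + (T * exp (-d) - T)) / e - 1 = T / e * (exp (-d) - 1) := by
      field_simp
      ring
    rw [q]
    exact mul_le_mul_of_nonneg_left (foc_exp hd) (div_nonneg T0 e0.le)
  have a1 := mul_le_mul_of_nonneg_left hl w0.le
  have a2 := mul_le_mul_of_nonneg_left hps ζ0.le
  generalize T / e = R at *
  nlinarith

/-- Change `h v` to `h v + d` (`Function.update`); `log e1 ≤ log e + (e1 - e) / e`,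
`exp (-d) - 1 ≤ -d + d ^ 2` for `|d| ≤ 1`, `psi_add`: `0 ≤ d Z + d ^ 2 Z'` with
`Z = p (w + ζ m) - w p exp (-h) F / e`.  So `Z ≥ 0` if `h v < hi`, `Z ≤ 0` if `lo < h v`; at `lo`
`Z < 0`, at `hi` `Z > 0`. -/
theorem foc1 {p h F : V → ℝ} {w ζ lo hi : ℝ} (hp : ∀ v, 0 ≤ p v) (hF : ∀ v, 0 ≤ F v) (w0 : 0 < w)
    (ζ0 : 0 < ζ) (hlo : w + ζ * lo < 0) (hhi : 1 ≤ hi) (hh : ∀ v, lo ≤ h v ∧ h v ≤ hi)
    (e0 : 0 < ∑ v, p v * exp (-h v) * F v)
    (hb : ∀ v, F v < exp hi * ∑ v, p v * exp (-h v) * F v)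
    (hm : ∀ h1 : V → ℝ, (∀ v, lo ≤ h1 v ∧ h1 v ≤ hi) →
      w * (log (∑ v, p v * exp (-h v) * F v) + ∑ v, p v * h v) + ζ * ∑ v, p v * psi (h v) ≤
      w * (log (∑ v, p v * exp (-h1 v) * F v) + ∑ v, p v * h1 v) + ζ * ∑ v, p v * psi (h1 v))
    (v : V) (hv : 0 < p v) : lo < h v ∧ h v < hi ∧
      w * (exp (-h v) * F v) = (∑ v, p v * exp (-h v) * F v) * (w + ζ * min (h v) 1) := by
  have S := foc_step hp hF w0 ζ0 hh e0 hm v
  have T0 : 0 ≤ p v * exp (-h v) * F v := mul_nonneg (mul_nonneg (hp v) (exp_pos _).le) (hF v)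
  have hbv := hb v
  generalize ∑ v, p v * exp (-h v) * F v = e at *
  have R0 : 0 ≤ p v * exp (-h v) * F v / e := div_nonneg T0 e0.le
  have Z0 : 0 ≤ w * (p v * exp (-h v) * F v / e) + ζ * p v / 2 := by positivity
  have up : h v < hi → 0 ≤ p v * (w + ζ * min (h v) 1) - w * (p v * exp (-h v) * F v / e) := by
    intro k
    refine foc_pos (r := min 1 (hi - h v)) (lt_min one_pos (by linarith)) Z0 fun d d0 d1 => ?_
    have a := d1.trans (min_le_left _ _)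
    have b := d1.trans (min_le_right _ _)
    exact S d (by rw [abs_of_pos d0]; exact a) (by linarith [(hh v).1]) (by linarith)
  have dn : lo < h v → p v * (w + ζ * min (h v) 1) - w * (p v * exp (-h v) * F v / e) ≤ 0 := by
    intro k
    rw [← neg_nonneg]
    refine foc_pos (r := min 1 (h v - lo)) (lt_min one_pos (by linarith)) Z0 fun d d0 d1 => ?_
    have a := d1.trans (min_le_left _ _)
    have b := d1.trans (min_le_right _ _)
    have c := S (-d) (by rw [abs_neg, abs_of_pos d0]; exact a) (by linarith)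
      (by linarith [(hh v).2])
    linarith
  have l0 : lo < 0 := by
    by_contra k
    push Not at k
    nlinarith [mul_nonneg ζ0.le k]
  have g1 : lo < h v := by
    rcases (hh v).1.eq_or_lt with z | z
    · exfalso
      have a := up (by linarith)
      rw [min_eq_left (by linarith : h v ≤ 1)] at a
      have b : p v * (w + ζ * h v) < 0 := mul_neg_of_pos_of_neg hv (by rw [← z]; exact hlo)
      nlinarith [mul_nonneg w0.le R0]
    · exact z
  have g2 : h v < hi := by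
    rcases (hh v).2.eq_or_lt with z | z
    · exfalso
      have a := dn g1
      rw [min_eq_right (by linarith : 1 ≤ h v)] at a
      have b : exp (-h v) * F v < e := by
        rw [← z] at hbv
        have c := mul_lt_mul_of_pos_left hbv (exp_pos (-h v))
        rwa [← mul_assoc, ← exp_add, neg_add_cancel, exp_zero, one_mul] at c
      have c : p v * exp (-h v) * F v / e < p v := by
        rw [div_lt_iff₀ e0, mul_assoc]
        exact mul_lt_mul_of_pos_left b hv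
      nlinarith [mul_lt_mul_of_pos_left c w0, mul_pos hv ζ0]
    · exact z
  refine ⟨g1, g2, ?_⟩
  have z : p v * (w + ζ * min (h v) 1) = w * (p v * exp (-h v) * F v / e) := by
    linarith [up g2, dn g1]
  have z2 : p v * (e * (w + ζ * min (h v) 1)) = p v * (w * (exp (-h v) * F v)) := by
    have : w * (p v * exp (-h v) * F v / e) * e = p v * (w * (exp (-h v) * F v)) := by
      field_simp
    rw [← this, ← z]; ring
  exact (mul_left_cancel₀ hv.ne' z2).symm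

theorem foc_side {p h F : V → ℝ} {w ζ lo hi : ℝ} (hp : Pb p) (hF : ∀ v, 0 ≤ F v) (w0 : 0 < w)
    (ζ0 : 0 < ζ) (ζw : ζ ≤ w) (hlo : w + ζ * lo < 0) (hhi : 1 ≤ hi)
    (hh : ∀ v, lo ≤ h v ∧ h v ≤ hi) {e : ℝ} (he : e = ∑ v, p v * exp (-h v) * F v) (e0 : 0 < e)
    (hb : ∀ v, F v < exp hi * e)
    (hm : ∀ h1 : V → ℝ, (∀ v, lo ≤ h1 v ∧ h1 v ≤ hi) →
      w * (log (∑ v, p v * exp (-h v) * F v) + ∑ v, p v * h v) + ζ * ∑ v, p v * psi (h v) ≤
      w * (log (∑ v, p v * exp (-h1 v) * F v) + ∑ v, p v * h1 v) + ζ * ∑ v, p v * psi (h1 v)) :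
    (∀ v, 0 < p v → lo < h v ∧ h v < hi) ∧ (∀ v, 0 < p v → exp (-h v) * F v ≤ 2 * e) ∧
      ∑ v, p v * min (h v) 1 = 0 := by
  have K := foc1 hp.1 hF w0 ζ0 hlo hhi hh (he ▸ e0) (he ▸ hb) hm
  rw [← he] at K
  refine ⟨fun v hv => ⟨(K v hv).1, (K v hv).2.1⟩, fun v hv => ?_, ?_⟩
  · have a := (K v hv).2.2
    have b : ζ * min (h v) 1 ≤ w := by
      nlinarith [mul_le_mul_of_nonneg_left (min_le_right (h v) 1) ζ0.le]
    have c : w * (exp (-h v) * F v) ≤ w * (2 * e) := by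
      rw [a]; nlinarith [mul_le_mul_of_nonneg_left b e0.le]
    exact le_of_mul_le_mul_left c w0
  · have a : ∀ v, w * (p v * exp (-h v) * F v) =
        e * w * p v + e * ζ * (p v * min (h v) 1) := by
      intro v
      rcases (hp.1 v).eq_or_lt with z | z
      · rw [← z]; ring
      · have b := (K v z).2.2
        calc w * (p v * exp (-h v) * F v) = p v * (w * (exp (-h v) * F v)) := by ring
          _ = _ := by rw [b]; ring
    have b : w * e = e * w + e * ζ * ∑ v, p v * min (h v) 1 := by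
      conv_lhs => rw [he, mul_sum, sum_congr rfl fun v _ => a v, sum_add_distrib, ← mul_sum,
        ← mul_sum, hp.2, mul_one]
    have c : e * ζ * ∑ v, p v * min (h v) 1 = 0 := by linarith
    exact (mul_eq_zero.mp c).resolve_left (mul_pos e0 ζ0).ne'

theorem foc_eeA (p : V → ℝ) (p' : X → ℝ) (h : V → ℝ) (h' : X → ℝ) (M : V → X → ℝ) :
    ee p p' h h' M = ∑ v, p v * exp (-h v) * ∑ x, p' x * exp (-h' x) * M v x ^ 2 := by
  unfold ee
  refine sum_congr rfl fun v _ => ?_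
  rw [mul_sum]
  exact sum_congr rfl fun x _ => by ring

theorem foc_eeB (p : V → ℝ) (p' : X → ℝ) (h : V → ℝ) (h' : X → ℝ) (M : V → X → ℝ) :
    ee p p' h h' M = ∑ x, p' x * exp (-h' x) * ∑ v, p v * exp (-h v) * M v x ^ 2 := by
  unfold ee
  rw [sum_comm]
  refine sum_congr rfl fun x _ => ?_
  rw [mul_sum]
  exact sum_congr rfl fun v _ => by ring

theorem foc_bd {p h m : V → ℝ} {lo c : ℝ} (hp : Pb p) (hh : ∀ v, lo ≤ h v)
    (hm : ∀ v, m v ^ 2 ≤ c) : ∑ v, p v * exp (-h v) * m v ^ 2 ≤ exp (-lo) * c := by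
  calc ∑ v, p v * exp (-h v) * m v ^ 2 ≤ ∑ v, p v * (exp (-lo) * c) := by
        refine sum_le_sum fun v _ => ?_
        rw [mul_assoc]
        refine mul_le_mul_of_nonneg_left ?_ (hp.1 v)
        exact mul_le_mul (exp_le_exp.mpr (by linarith [hh v])) (hm v) (sq_nonneg _) (exp_pos _).le
    _ = _ := by rw [← sum_mul, hp.2, one_mul]

/-- `foc1` on both sides, with `F v = ∑ x, p' x exp (-h' x) M ^ 2 ≤ exp (-lo) Θ ^ 2`; summing the
identity against `p` gives `∑ p min h 1 = 0`; `min h 1 ≤ 1` and `ζ ≤ w` give the factor `2`. -/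
theorem foc {ω : V → ℝ} {ω' : X → ℝ} {M : V → X → ℝ} {Θ w γ ζ κ lo hi : ℝ} {E : Finset (V × X)}
    {P : V × X → ℝ} {h : V → ℝ} {h' : X → ℝ} (H : IsMn ω ω' M Θ w γ ζ κ E lo hi P h h')
    (hM : ∀ z ∈ E, 1 ≤ M z.1 z.2) (hΘ : ∀ v x, M v x ^ 2 ≤ Θ ^ 2) (w0 : 0 < w) (ζ0 : 0 < ζ)
    (ζw : ζ ≤ w) (hlo : w + ζ * lo < 0) (hhi : 1 ≤ hi)
    (hb : exp (-lo) * Θ ^ 2 < exp hi * ee (mA P) (mB P) h h' M) :
    (∀ v, 0 < mA P v → lo < h v ∧ h v < hi) ∧ (∀ x, 0 < mB P x → lo < h' x ∧ h' x < hi) ∧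
    (∀ v, 0 < mA P v → exp (-h v) * ∑ x, mB P x * exp (-h' x) * M v x ^ 2 ≤
      2 * ee (mA P) (mB P) h h' M) ∧
    (∀ x, 0 < mB P x → exp (-h' x) * ∑ v, mA P v * exp (-h v) * M v x ^ 2 ≤
      2 * ee (mA P) (mB P) h h' M) ∧
    ∑ v, mA P v * min (h v) 1 = 0 ∧ ∑ x, mB P x * min (h' x) 1 = 0 := by
  obtain ⟨⟨hP, hE, hh, hh'⟩, hmin⟩ := H
  have pA := mA_pb hP
  have pB := mB_pb hP
  have e0 : 0 < ee (mA P) (mB P) h h' M := by
    have a : 0 ≤ exp (-lo) * Θ ^ 2 := by positivity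
    exact (mul_pos_iff_of_pos_left (exp_pos hi)).mp (a.trans_lt hb)
  have A := foc_side (F := fun v => ∑ x, mB P x * exp (-h' x) * M v x ^ 2) pA
    (fun v => sum_nonneg fun x _ =>
      mul_nonneg (mul_nonneg (pB.1 x) (exp_pos _).le) (sq_nonneg _))
    w0 ζ0 ζw hlo hhi hh (foc_eeA _ _ _ _ _) e0
    (fun v => (foc_bd pB (fun x => (hh' x).1) (hΘ v)).trans_lt hb) (by
      intro h1 k1
      have k := hmin P h1 h' ⟨hP, hE, k1, hh'⟩
      unfold Psi br at k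
      rw [foc_eeA, foc_eeA] at k
      linarith)
  have B := foc_side (F := fun x => ∑ v, mA P v * exp (-h v) * M v x ^ 2) pB
    (fun x => sum_nonneg fun v _ =>
      mul_nonneg (mul_nonneg (pA.1 v) (exp_pos _).le) (sq_nonneg _))
    w0 ζ0 ζw hlo hhi hh' (foc_eeB _ _ _ _ _) e0
    (fun x => (foc_bd pA (fun v => (hh v).1) (fun v => hΘ v x)).trans_lt hb) (by
      intro h1 k1
      have k := hmin P h h1 ⟨hP, hE, hh, k1⟩
      unfold Psi br at k
      rw [foc_eeB, foc_eeB] at k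
      linarith)
  exact ⟨A.1, B.1, A.2.1, B.2.1, A.2.2, B.2.2⟩

end Pool.Agent.Work.MP_e10cd8_co.Far
end

-- merged part: Pool.Agent.Work.MP_e10cd8_co.Far.Min
section
/-! Existence of a state of least potential. -/

namespace Pool.Agent.Work.MP_e10cd8_co.Far
open Finset Real Pool.Agent.Work.MP_e10cd8_co.Up

variable {V X ι J : Type} [Fintype V] [Fintype X] [Fintype ι] [Fintype J]
  [DecidableEq V] [DecidableEq X] [DecidableEq ι] [DecidableEq J]

theorem min_HH : Continuous (HH : (V → ℝ) → ℝ) :=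
  continuous_finset_sum _ fun v _ => continuous_mul_log.comp (continuous_apply v)

theorem min_mA : Continuous (mA : (V × X → ℝ) → V → ℝ) := by
  unfold mA
  fun_prop

theorem min_mB : Continuous (mB : (V × X → ℝ) → X → ℝ) := by
  unfold mB
  fun_prop

theorem min_psi : Continuous psi := by
  unfold psi
  fun_prop

theorem min_compact (E : Finset (V × X)) (lo hi : ℝ) :
    IsCompact {s : (V × X → ℝ) × (V → ℝ) × (X → ℝ) | Dom E lo hi s.1 s.2.1 s.2.2} := by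
  refine (isCompact_Icc (a := ((fun _ => 0, fun _ => lo, fun _ => lo) :
    (V × X → ℝ) × (V → ℝ) × (X → ℝ))) (b := (fun _ => 1, fun _ => hi, fun _ => hi))).of_isClosed_subset
    ?_ fun s hs => ⟨⟨hs.1.1, fun v => (hs.2.2.1 v).1, fun x => (hs.2.2.2 x).1⟩,
      fun z => ?_, fun v => (hs.2.2.1 v).2, fun x => (hs.2.2.2 x).2⟩
  · simp only [Dom, Pb, Set.ofPred_and, Set.ofPred_forall]
    refine (IsClosed.inter (isClosed_iInter fun z => isClosed_le (by fun_prop) (by fun_prop))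
      (isClosed_eq (by fun_prop) (by fun_prop))).inter (IsClosed.inter
      (isClosed_iInter fun z => isClosed_iInter fun _ => isClosed_eq (by fun_prop) (by fun_prop))
      (IsClosed.inter (isClosed_iInter fun z => IsClosed.inter ?_ ?_)
        (isClosed_iInter fun z => IsClosed.inter ?_ ?_))) <;>
      exact isClosed_le (by fun_prop) (by fun_prop)
  · exact (single_le_sum (fun z _ => hs.1.1 z) (mem_univ z)).trans hs.1.2.le

/-- The set of triples in `Dom` is compact (closed subset of `stdSimplex ×ˢ Icc ×ˢ Icc`), `Psi` is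
continuous on it: `Nf_cont`, `Real.continuous_mul_log` for `HH`, `ee_pos` for the logarithm,
`psi` is continuous.  `IsCompact.exists_isMinOn`; compare `Up.free_min`. -/
theorem exists_min (ω : V → ℝ) (ω' : X → ℝ) {M : V → X → ℝ} (Θ w γ ζ κ : ℝ) {E : Finset (V × X)}
    (hM : ∀ z ∈ E, 1 ≤ M z.1 z.2) {lo hi : ℝ} {P0 : V × X → ℝ} {h0 : V → ℝ} {h0' : X → ℝ}
    (hD : Dom E lo hi P0 h0 h0') : ∃ P h h', IsMn ω ω' M Θ w γ ζ κ E lo hi P h h' := by
  have c1 := Nf_cont M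
  have c2 := min_mA (V := V) (X := X)
  have c3 := min_mB (V := V) (X := X)
  have c4 := min_HH (V := V)
  have c5 := min_HH (V := X)
  have c6 := min_HH (V := V × X)
  have c7 := min_psi
  have c8 : ContinuousOn (fun s : (V × X → ℝ) × (V → ℝ) × (X → ℝ) =>
      log (ee (mA s.1) (mB s.1) s.2.1 s.2.2 M)) {s | Dom E lo hi s.1 s.2.1 s.2.2} := by
    refine ContinuousOn.log (Continuous.continuousOn ?_) fun s hs => (ee_pos hs.1
      (fun z hz => hM z (by_contra fun k => hz (hs.2.1 z k))) _ _).ne'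
    unfold ee
    fun_prop
  have c9 : Continuous fun s : (V × X → ℝ) × (V → ℝ) × (X → ℝ) => Nf (mA s.1) (mB s.1) M :=
    c1.comp continuous_fst
  have hc : ContinuousOn (fun s : (V × X → ℝ) × (V → ℝ) × (X → ℝ) =>
      Psi ω ω' M Θ w γ ζ κ s.1 s.2.1 s.2.2) {s | Dom E lo hi s.1 s.2.1 s.2.2} := by
    unfold Psi br II KL
    refine ((((c9.div_const Θ).continuousOn.add (continuousOn_const.mul
      (((c8.add ?_).add ?_).add ?_))).add ?_).add ?_).add ?_ <;>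
      exact Continuous.continuousOn (by fun_prop)
  obtain ⟨s, hs, hm⟩ := (min_compact E lo hi).exists_isMinOn ⟨(P0, h0, h0'), hD⟩ hc
  exact ⟨s.1, s.2.1, s.2.2, hs, fun P1 h1 h1' k => hm (a := (P1, h1, h1')) k⟩

end Pool.Agent.Work.MP_e10cd8_co.Far
end

-- merged part: Pool.Agent.Work.MP_e10cd8_co.Far.KSpec
section
/-! The spectrum of the centred kernel. -/

namespace Pool.Agent.Work.MP_e10cd8_co.Far
open Finset Real Pool.Agent.Work.MP_e10cd8_co.Up

variable {V X ι J : Type} [Fintype V] [Fintype X] [Fintype ι] [Fintype J]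
  [DecidableEq V] [DecidableEq X] [DecidableEq ι] [DecidableEq J]

theorem kspec_pars {φ : V → V → ℝ} (h : ∀ o o', ∑ i, φ i o * φ i o' = if o = o' then 1 else 0)
    (u v : V → ℝ) : ∑ i, (∑ o, u o * φ i o) * ∑ o, v o * φ i o = ∑ o, u o * v o := by
  have e : ∀ o, u o * v o = ∑ o', u o * v o' * ∑ i, φ i o * φ i o' := fun o => by
    simp only [h, mul_ite, mul_one, mul_zero, sum_ite_eq, mem_univ, if_true]
  rw [sum_congr rfl fun o _ => e o]
  simp only [sum_mul_sum]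
  simp only [mul_sum]
  rw [sum_comm]
  refine sum_congr rfl fun o _ => ?_
  rw [sum_comm]
  exact sum_congr rfl fun o' _ => sum_congr rfl fun i _ => by ring

/-- the positive spectrum of a symmetric kernel with respect to the weights `ω` -/
theorem kspec_abs {ω : V → ℝ} (hω : ∀ o, 0 ≤ ω o) {K : V → V → ℝ} (hK : ∀ x y, K x y = K y x) :
    ∃ (lam : V → ℝ) (b : V → V → ℝ), (∀ i, 0 ≤ lam i) ∧ (∀ i o, lam i = 0 → b o i = 0) ∧
      (∀ i o, lam i * b o i = ∑ o', K o o' * (ω o' * b o' i)) ∧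
      (∀ i i', ∑ o, ω o * (b o i * b o i') = if i = i' then (if 0 < lam i then 1 else 0) else 0) ∧
      (∀ g : V → ℝ, Q K (fun o => ω o * g o) (fun o => ω o * g o) ≤
        ∑ i, lam i * (∑ o, ω o * g o * b o i) ^ 2) ∧
      ∀ o, ∑ i, lam i ^ 2 * b o i ^ 2 ≤ ∑ o', ω o' * K o o' ^ 2 := by
  obtain ⟨s, hs⟩ : ∃ s : V → ℝ, ∀ o, ω o = s o * s o :=
    ⟨fun o => √(ω o), fun o => (mul_self_sqrt (hω o)).symm⟩
  obtain ⟨l, φ, h1, h2, h3⟩ := spec (fun o o' => s o * s o' * K o o') fun x y => by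
    rw [hK x y]; ring
  obtain ⟨c, hc⟩ : ∃ c : V → V → ℝ, ∀ i o, c i o = ∑ o', K o o' * s o' * φ i o' :=
    ⟨_, fun _ _ => rfl⟩
  have e1 : ∀ i o, s o * c i o = l i * φ i o := fun i o => by
    rw [← h3, hc, mul_sum]
    exact sum_congr rfl fun _ _ => by ring
  have e2 : ∀ i, 0 < l i → ∀ o, s o * (c i o / l i) = φ i o := fun i hi o => by
    rw [← mul_div_assoc, e1, mul_div_cancel_left₀ _ hi.ne']
  refine ⟨fun i => if 0 < l i then l i else 0, fun o i => if 0 < l i then c i o / l i else 0,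
    fun i => ?_, fun i o h => ?_, fun i o => ?_, fun i i' => ?_, fun g => ?_, fun o => ?_⟩ <;>
    beta_reduce at *
  · split_ifs with h
    · exact h.le
    · exact le_rfl
  · split_ifs at h ⊢ with h'
    · exact absurd h h'.ne'
    · rfl
  · split_ifs with h
    · rw [mul_div_cancel₀ _ h.ne', hc]
      exact sum_congr rfl fun o' _ => by rw [hs, ← e2 i h o']; ring
    · simp
  · by_cases h : 0 < l i
    · by_cases h' : 0 < l i'
      · simp only [if_pos h, if_pos h']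
        rw [← h1]
        exact sum_congr rfl fun o _ => by rw [hs, ← e2 i h o, ← e2 i' h' o]; ring
      · have : i ≠ i' := fun e => h' (e ▸ h)
        simp [h', this]
    · simp [h]
  · have a1 : Q K (fun o => ω o * g o) (fun o => ω o * g o) =
        ∑ o, s o * g o * ∑ o', s o' * g o' * (s o * s o' * K o o') := by
      simp only [Q, mul_sum, hs]
      exact sum_congr rfl fun _ _ => sum_congr rfl fun _ _ => by ring
    have a2 : ∀ i, ∑ o, (∑ o', s o' * g o' * (s o * s o' * K o o')) * φ i o =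
        l i * ∑ o, s o * g o * φ i o := fun i => by
      simp only [sum_mul, mul_sum]
      rw [sum_comm]
      refine sum_congr rfl fun o' _ => ?_
      rw [show l i * (s o' * g o' * φ i o') = s o' * g o' * (l i * φ i o') by ring, ← h3, mul_sum]
      exact sum_congr rfl fun o _ => by rw [hK o o']; ring
    rw [a1, ← kspec_pars h2]
    refine sum_le_sum fun i _ => ?_
    rw [a2]
    split_ifs with h
    · refine le_of_eq ?_
      rw [show ∑ o, ω o * g o * (c i o / l i) = ∑ o, s o * g o * φ i o from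
        sum_congr rfl fun o _ => by rw [hs, ← e2 i h o]; ring]
      ring
    · nlinarith [sq_nonneg (∑ o, s o * g o * φ i o)]
  · have a1 := kspec_pars h2 (fun o' => K o o' * s o') fun o' => K o o' * s o'
    rw [show ∑ o', ω o' * K o o' ^ 2 = ∑ o', K o o' * s o' * (K o o' * s o') from
      sum_congr rfl fun o' _ => by rw [hs]; ring, ← a1]
    refine sum_le_sum fun i _ => ?_
    rw [← hc]
    split_ifs with h
    · refine le_of_eq ?_
      field_simp
    · nlinarith [sq_nonneg (c i o)]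

omit [DecidableEq V] [DecidableEq J] in
theorem kspec_part (f : J × V → ℝ) (F : J → ℝ) :
    ∑ o, f o * F o.1 = ∑ j, (∑ x, f (j, x)) * F j := by
  simp only [Fintype.sum_prod_type, sum_mul]

/-- `C u o = u o - k ∑ y, ω (o.1, y) u (o.1, y)`; `Wt` is `Wo W` with `C` applied in both
variables (four terms, each with values in `[0, 1]`), `T o o' = √(ω o) √(ω o') Wt o o'`, `spec`.
For an eigenvalue `l i > 0` put `lam i = l i`, `b o i = (∑ o', Wt o o' √(ω o') φ i o') / l i`, so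
`φ i o = √(ω o) b o i`; otherwise `lam i = 0`, `b o i = 0`.  For `Zs ω g`,
`Q (ω g) (ω g) = ∑ ω g ω g Wt = ∑ l i ⟨√ω g, φ i⟩ ^ 2`; apply `h` to `b · i`.  Last part: `bessel`
(weights `1`) and `Wt ^ 2 ≤ 4 (sum of the four terms)`, whose `ω` sums are
`fo, fo, fb, fb`. -/
theorem kspec {W : V → V → ℝ} (hW : Gr W) {β : ℝ} {Z : Finset V} {ω : J × V → ℝ}
    (hJ : 0 < Fintype.card J) (hω : ω ∈ KK J Z)
    (h : ∀ g, Zs ω g → β * Q (Wo W) (fun o => ω o * g o) (fun o => ω o * g o) ≤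
      Fintype.card J * ∑ o, ω o * g o ^ 2) :
    ∃ (lam : J × V → ℝ) (b : J × V → J × V → ℝ), (∀ i, 0 ≤ lam i ∧ β * lam i ≤ Fintype.card J) ∧
      (∀ i, Zs ω fun o => b o i) ∧
      (∀ i i', ∑ o, ω o * (b o i * b o i') = if i = i' then (if 0 < lam i then 1 else 0) else 0) ∧
      (∀ g, Zs ω g → Q (Wo W) (fun o => ω o * g o) (fun o => ω o * g o) ≤
        ∑ i, lam i * (∑ o, ω o * g o * b o i) ^ 2) ∧
      ∀ o, ∑ i, lam i ^ 2 * b o i ^ 2 ≤ 8 * fo W ω o + 8 * fb W ω o.1 := by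
  obtain ⟨k, hk⟩ : ∃ k : ℝ, k = Fintype.card J := ⟨_, rfl⟩
  have k0 : 0 < k := by rw [hk]; exact_mod_cast hJ
  have w0 := hω.1
  have w1 : ∀ j, k * ∑ x, ω (j, x) = 1 := fun j => by
    rw [hω.2.1, ← hk, mul_one_div_cancel k0.ne']
  have av : ∀ (u : J × V → ℝ) (j : J), (∀ o, 0 ≤ u o ∧ u o ≤ 1) →
      0 ≤ k * ∑ x, ω (j, x) * u (j, x) ∧ k * ∑ x, ω (j, x) * u (j, x) ≤ 1 := fun u j hu =>
    ⟨mul_nonneg k0.le (sum_nonneg fun x _ => mul_nonneg (w0 _) (hu _).1),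
      (mul_le_mul_of_nonneg_left (sum_le_sum fun x _ => mul_le_of_le_one_right (w0 _) (hu _).2)
        k0.le).trans_eq (w1 j)⟩
  have b0 : ∀ o o' : J × V, 0 ≤ Wo W o o' ∧ Wo W o o' ≤ 1 := fun o o' =>
    ⟨Wo_nonneg hW o o', (Wo_le hW o o').trans (hW.le_one _ _)⟩
  obtain ⟨r, hr⟩ : ∃ r : J × V → J → ℝ, ∀ o j, r o j = k * ∑ y, ω (j, y) * Wo W o (j, y) :=
    ⟨_, fun _ _ => rfl⟩
  obtain ⟨m, hm⟩ : ∃ m : J → J → ℝ, ∀ j j', m j j' = k * ∑ x, ω (j, x) * r (j, x) j' :=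
    ⟨_, fun _ _ => rfl⟩
  have b1 : ∀ o j, 0 ≤ r o j ∧ r o j ≤ 1 := fun o j => by rw [hr]; exact av _ j (b0 o)
  have b2 : ∀ j j', 0 ≤ m j j' ∧ m j j' ≤ 1 := fun j j' => by
    rw [hm]; exact av (fun o => r o j') j fun o => b1 o j'
  have ms : ∀ j j', m j j' = m j' j := fun j j' => by
    simp only [hm, hr, mul_sum]
    rw [sum_comm]
    exact sum_congr rfl fun _ _ => sum_congr rfl fun _ _ => by rw [Wo_symm hW]; ring
  obtain ⟨K, hK⟩ : ∃ K : J × V → J × V → ℝ,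
      ∀ o o', K o o' = Wo W o o' - r o' o.1 - r o o'.1 + m o.1 o'.1 := ⟨_, fun _ _ => rfl⟩
  have ks : ∀ o o', K o o' = K o' o := fun o o' => by rw [hK, hK, Wo_symm hW, ms]; ring
  have cz : ∀ j o', ∑ x, ω (j, x) * K (j, x) o' = 0 := fun j o' => by
    refine mul_left_cancel₀ k0.ne' ?_
    have e1 : k * ∑ x, ω (j, x) * Wo W (j, x) o' = r o' j := by
      rw [hr]; simp only [Wo_symm hW o']
    simp only [hK, mul_add, mul_sub, sum_add_distrib, sum_sub_distrib, ← sum_mul, ← mul_assoc,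
      e1, ← hm, w1]
    ring
  have qe : ∀ g, Zs ω g → Q (Wo W) (fun o => ω o * g o) (fun o => ω o * g o) =
      Q K (fun o => ω o * g o) fun o => ω o * g o := fun g hg => by
    have z : ∀ F : J → ℝ, ∑ o, ω o * g o * F o.1 = 0 := fun F => by
      rw [kspec_part (fun o => ω o * g o)]
      exact sum_eq_zero fun j _ => by rw [hg j, zero_mul]
    have e1 : ∀ o, ∑ o', ω o * g o * (ω o' * g o') * K o o' =
        ∑ o', ω o * g o * (ω o' * g o') * (Wo W o o' - r o' o.1) := fun o => by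
      have := z fun j => ω o * g o * (m o.1 j - r o j)
      rw [← add_zero (∑ o', ω o * g o * (ω o' * g o') * (Wo W o o' - r o' o.1)), ← this,
        ← sum_add_distrib]
      exact sum_congr rfl fun o' _ => by rw [hK]; ring
    have e2 := z fun j => ∑ o', ω o' * g o' * r o' j
    simp only [Q, e1, mul_sub, sum_sub_distrib]
    simp only [mul_sum, ← mul_assoc] at e2 ⊢
    rw [e2, sub_zero]
  obtain ⟨lam, b, c1, c2, c3, c4, c5, c6⟩ := kspec_abs w0 ks
  have zb : ∀ i, Zs ω fun o => b o i := fun i j => by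
    rcases (c1 i).eq_or_lt with e | e
    · exact sum_eq_zero fun x _ => mul_eq_zero_of_right _ (c2 i _ e.symm)
    · refine mul_left_cancel₀ e.ne' ?_
      rw [mul_zero, mul_sum, show ∑ x, lam i * (ω (j, x) * b (j, x) i) =
        ∑ x, ∑ o', ω (j, x) * K (j, x) o' * (ω o' * b o' i) from sum_congr rfl fun x _ => by
          rw [mul_left_comm, c3, mul_sum]
          exact sum_congr rfl fun _ _ => by ring, sum_comm]
      exact sum_eq_zero fun o' _ => by rw [← sum_mul, cz, zero_mul]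
  refine ⟨lam, b, fun i => ⟨c1 i, ?_⟩, zb, c4, fun g hg => (qe g hg).trans_le (c5 g),
    fun o => (c6 o).trans ?_⟩
  · rcases (c1 i).eq_or_lt with e | e
    · rw [← e, mul_zero]; positivity
    · have n1 : ∑ o, ω o * (b o i * b o i) = 1 := by rw [c4, if_pos rfl, if_pos e]
      have n2 : Q K (fun o => ω o * b o i) (fun o => ω o * b o i) = lam i := by
        rw [← mul_one (lam i), ← n1, mul_sum]
        refine sum_congr rfl fun o _ => ?_
        rw [show lam i * (ω o * (b o i * b o i)) = ω o * b o i * (lam i * b o i) by ring, c3,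
          mul_sum]
        exact sum_congr rfl fun _ _ => by ring
      have n3 := h _ (zb i)
      rw [qe _ (zb i), n2] at n3
      simpa only [sq, n1, mul_one] using n3
  · have pt : ∀ F : J → ℝ, k * ∑ o', ω o' * F o'.1 = ∑ j, F j := fun F => by
      rw [kspec_part, mul_sum]
      exact sum_congr rfl fun j _ => by rw [← mul_assoc, w1, one_mul]
    have sr : ∀ p, ∑ j, r p j = k * fo W ω p := fun p => by
      simp only [hr, fo, Fintype.sum_prod_type, mul_sum]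
    have s2 : ∑ o', ω o' * r o o'.1 = fo W ω o := mul_left_cancel₀ k0.ne' (by rw [pt, sr])
    have s3 : ∑ o', ω o' * r o' o.1 = fb W ω o.1 := by
      simp only [hr, fb, fo, ← hk, mul_sum]
      rw [sum_comm]
      exact sum_congr rfl fun _ _ => sum_congr rfl fun _ _ => by rw [Wo_symm hW]; ring
    have s4 : ∑ o', ω o' * m o.1 o'.1 = fb W ω o.1 := by
      refine mul_left_cancel₀ k0.ne' ?_
      rw [pt (m o.1)]
      simp only [hm, fb, ← hk, ← mul_sum]
      rw [sum_comm]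
      simp only [← mul_sum, sr]
      rw [mul_sum, mul_sum, mul_sum]
      exact sum_congr rfl fun _ _ => by ring
    have s5 : ∑ o', ω o' * K o o' ^ 2 ≤
        ∑ o', 4 * (ω o' * Wo W o o' + ω o' * r o o'.1 + ω o' * r o' o.1 + ω o' * m o.1 o'.1) := by
      refine sum_le_sum fun o' _ => ?_
      rw [← mul_add, ← mul_add, ← mul_add, mul_left_comm, hK]
      refine mul_le_mul_of_nonneg_left ?_ (w0 o')
      obtain ⟨p1, p2⟩ := b0 o o'
      obtain ⟨p3, p4⟩ := b1 o o'.1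
      obtain ⟨p5, p6⟩ := b1 o' o.1
      obtain ⟨p7, p8⟩ := b2 o.1 o'.1
      have q1 : |Wo W o o' - r o' o.1 - r o o'.1 + m o.1 o'.1| ≤ 2 :=
        abs_le.2 ⟨by linarith, by linarith⟩
      have q2 : |Wo W o o' - r o' o.1 - r o o'.1 + m o.1 o'.1| ≤
          Wo W o o' + r o o'.1 + r o' o.1 + m o.1 o'.1 := abs_le.2 ⟨by linarith, by linarith⟩
      rw [← sq_abs, sq]
      exact (mul_le_mul q1 q2 (abs_nonneg _) (by norm_num)).trans (by linarith)
    refine s5.trans (le_of_eq ?_)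
    rw [← mul_sum, sum_add_distrib, sum_add_distrib, sum_add_distrib, s2, s3, s4]
    unfold fo
    ring

end Pool.Agent.Work.MP_e10cd8_co.Far
end

-- merged part: Pool.Agent.Work.MP_e10cd8_co.Far.KFree
section
/-! The free energy with equal parts. -/

namespace Pool.Agent.Work.MP_e10cd8_co.Far
open Finset Real Pool.Agent.Work.MP_e10cd8_co.Up

variable {V X ι J : Type} [Fintype V] [Fintype X] [Fintype ι] [Fintype J]
  [DecidableEq V] [DecidableEq X] [DecidableEq ι] [DecidableEq J]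

omit [DecidableEq V] [DecidableEq J] in
theorem kfree_J (hN : 0 < Fintype.card (J × V)) : 0 < Fintype.card J := by
  rw [Fintype.card_prod] at hN
  exact Nat.pos_of_mul_pos_right hN

theorem kfree_Q {O : Type} [Fintype O] {W : O → O → ℝ} (hW : ∀ x y, W x y = W y x)
    (ν δ : O → ℝ) : Q W (fun x => ν x + δ x) (fun x => ν x + δ x) =
      Q W ν ν + 2 * ∑ x, δ x * ∑ y, ν y * W x y + Q W δ δ := by
  have a : Q W δ ν = ∑ x, δ x * ∑ y, ν y * W x y := by
    simp only [Q, mul_sum, mul_assoc]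
  have b : Q W ν δ = Q W δ ν := by
    unfold Q
    rw [sum_comm]
    exact sum_congr rfl fun x _ => sum_congr rfl fun y _ => by rw [hW y x]; ring
  rw [Q_add_left, Q_add_right, Q_add_right, b, a]
  ring

/-- As `Up.free_min`: `KK J Z` is a closed subset of `Set.Icc 0 1`-valued functions. -/
theorem kmin (W : V → V → ℝ) (β : ℝ) (hN : 0 < Fintype.card (J × V)) {Z : Finset V}
    (h : (KK J Z).Nonempty) : ∃ ω : J × V → ℝ, KMin W β Z ω := by
  have hN' : (0 : ℝ) < Fintype.card (J × V) := by exact_mod_cast hN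
  have hJ := kfree_J hN
  have hc : IsCompact (KK J Z) := by
    refine (isCompact_stdSimplex ℝ (J × V)).of_isClosed_subset ?_ fun ω hω => KK_pb hω hJ
    have e : KK J Z = (⋂ o, {ω : J × V → ℝ | 0 ≤ ω o}) ∩
        ((⋂ j, {ω : J × V → ℝ | ∑ x, ω (j, x) = 1 / Fintype.card J}) ∩
          ⋂ o : J × V, ⋂ (_ : o.2 ∉ Z), {ω : J × V → ℝ | ω o = 0}) := by
      ext ω
      simp only [KK, Set.mem_ofPred_eq, Set.mem_inter_iff, Set.mem_iInter]
    rw [e]
    exact (isClosed_iInter fun o => isClosed_le continuous_const (continuous_apply o)).inter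
      ((isClosed_iInter fun j => isClosed_eq (by fun_prop) continuous_const).inter
        (isClosed_iInter fun o => isClosed_iInter fun _ =>
          isClosed_eq (continuous_apply o) continuous_const))
  have hF : Continuous (free_F (Wo (J := J) W) β) := by
    unfold free_F Q
    refine Continuous.add (continuous_finsetSum _ fun x _ => ?_) (by fun_prop)
    have e : (fun ν : J × V → ℝ => ν x * Real.log (Fintype.card (J × V) * ν x)) =
        fun ν : J × V → ℝ => (Fintype.card (J × V) : ℝ)⁻¹ *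
          (Fintype.card (J × V) * ν x * Real.log (Fintype.card (J × V) * ν x)) := by
      funext ν
      field_simp
    rw [e]
    exact continuous_const.mul (Real.continuous_mul_log.comp
      (continuous_const.mul (continuous_apply x)))
  obtain ⟨ν, h1, h2⟩ := hc.exists_isMinOn h hF.continuousOn
  exact ⟨ν, h1, fun μ hμ => h2 hμ⟩

/-- As `Up.free_breg` (`Up.free_term` with `δ = ω g`; only `Wo_symm` is used). -/
theorem kbreg {W : V → V → ℝ} (hW : Gr W) (β : ℝ) (hN : 0 < Fintype.card (J × V))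
    {ω g : J × V → ℝ} (hω : ∀ o, 0 ≤ ω o) (hg : ∀ o, 0 ≤ ω o * (1 + g o))
    (hs : ∑ o, ω o * g o = 0) :
    free_F (Wo W) β (fun o => ω o * (1 + g o)) ≤
      free_F (Wo W) β ω + ∑ o, ω o * g o * free_l (Wo W) β ω o + cost W β ω g := by
  have hN' : (0 : ℝ) < Fintype.card (J × V) := by exact_mod_cast hN
  have e0 : (fun o => ω o * (1 + g o)) = fun o => ω o + ω o * g o := funext fun o => by ring
  have k := sum_le_sum fun o (_ : o ∈ (univ : Finset (J × V))) =>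
    free_term hN' (hω o) (e := ω o * g o) (by have := hg o; linarith) fun h => by rw [h, zero_mul]
  have e1 : ∑ o, (ω o * g o) ^ 2 / ω o = ∑ o, ω o * g o ^ 2 := sum_congr rfl fun o _ => by
    rcases eq_or_ne (ω o) 0 with h | h
    · simp [h]
    · field_simp
  simp only [sum_add_distrib, hs, e1] at k
  have e : ∑ o, ω o * g o * free_l (Wo W) β ω o =
      ∑ o, ω o * g o * Real.log (Fintype.card (J × V) * ω o) +
      2 * β * ∑ o, ω o * g o * ∑ y, ω y * Wo W o y := by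
    rw [mul_sum, ← sum_add_distrib]
    exact sum_congr rfl fun x _ => by unfold free_l; ring
  rw [e0]
  unfold free_F cost
  rw [kfree_Q (Wo_symm hW), e]
  linarith

/-- `kbreg` for `t g`, `|t|` small, both signs: `0 ≤ t A + t ^ 2 B`. -/
theorem klin {W : V → V → ℝ} (hW : Gr W) {β : ℝ} (hN : 0 < Fintype.card (J × V)) {Z : Finset V}
    {ω g : J × V → ℝ} (H : KMin W β Z ω) (hg : Zs ω g) :
    ∑ o, ω o * g o * free_l (Wo W) β ω o = 0 ∧ 0 ≤ cost W β ω g := by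
  set A := ∑ o, ω o * g o * free_l (Wo W) β ω o with hA
  set B := cost W β ω g with hB
  have s0 : 0 ≤ ∑ o, |g o| := sum_nonneg fun _ _ => abs_nonneg _
  set T := 1 / (1 + ∑ o, |g o|) with hT
  have T0 : 0 < T := by positivity
  have k : ∀ t : ℝ, |t| ≤ T → 0 ≤ t * A + t ^ 2 * B := fun t ht => by
    have p : ∀ o, 0 ≤ ω o * (1 + t * g o) := fun o => by
      refine mul_nonneg (H.1.1 o) ?_
      have a : |g o| ≤ ∑ o, |g o| := single_le_sum (fun o _ => abs_nonneg (g o)) (mem_univ o)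
      have b : |t * g o| ≤ T * (1 + ∑ o, |g o|) := by
        rw [abs_mul]
        exact mul_le_mul ht (by linarith) (abs_nonneg _) T0.le
      rw [hT, one_div_mul_cancel (by positivity)] at b
      linarith [(abs_le.1 b).1]
    have z : ∀ j, ∑ x, ω (j, x) * (t * g (j, x)) = 0 := fun j => by
      rw [sum_congr rfl fun x _ => mul_left_comm (ω (j, x)) t (g (j, x)), ← mul_sum, hg j,
        mul_zero]
    have a := H.2 (fun o => ω o * (1 + t * g o)) ⟨p, fun j => by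
      simp only [mul_add, mul_one, sum_add_distrib, z j, H.1.2.1 j, add_zero],
      fun o ho => by simp only [H.1.2.2 o ho, zero_mul]⟩
    have b := kbreg hW β hN (g := fun o => t * g o) H.1.1 p (by
      rw [Fintype.sum_prod_type]
      exact sum_eq_zero fun j _ => z j)
    have e1 : ∑ o, ω o * (t * g o) * free_l (Wo W) β ω o = t * A := by
      rw [hA, mul_sum]
      exact sum_congr rfl fun x _ => by ring
    have e2 : cost W β ω (fun o => t * g o) = t ^ 2 * B := by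
      have e3 : (fun o => ω o * (t * g o)) = fun o => t * (ω o * g o) := funext fun o => by ring
      rw [hB]
      unfold cost
      rw [e3, Q_mul, mul_add, mul_sum]
      congr 1
      · exact sum_congr rfl fun x _ => by ring
      · ring
    rw [e1, e2] at b
    linarith
  have k2 : ∀ t : ℝ, 0 < t → t ≤ T → |A| ≤ t * B := fun t ht ht' => by
    have a := k t (by rwa [abs_of_pos ht])
    have b := k (-t) (by rwa [abs_neg, abs_of_pos ht])
    refine abs_le.2 ⟨?_, ?_⟩ <;> refine le_of_mul_le_mul_left ?_ ht <;> nlinarith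
  have B0 : 0 ≤ B := nonneg_of_mul_nonneg_right ((abs_nonneg A).trans (k2 T T0 le_rfl)) T0
  refine ⟨?_, B0⟩
  by_contra hA0
  have A0 : 0 < |A| := abs_pos.2 hA0
  have a := k2 (min T (|A| / (2 * (B + 1)))) (lt_min T0 (by positivity)) (min_le_left _ _)
  have b : min T (|A| / (2 * (B + 1))) * B ≤ |A| / (2 * (B + 1)) * (B + 1) :=
    mul_le_mul (min_le_right _ _) (by linarith) B0 (by positivity)
  have c : |A| / (2 * (B + 1)) * (B + 1) = |A| / 2 := by field_simp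
  linarith

/-- For `j ≠ i` test with `g` on part `j`, `-g` on part `i`, `0` elsewhere:
`2 β Q_ji ≤ S_j + S_i`; sum over ordered pairs. -/
theorem kpair {W : V → V → ℝ} (hW : Gr W) {β : ℝ} {ω : J × V → ℝ} (hω : ∀ o, 0 ≤ ω o)
    (h : ∀ g, Zs ω g → 0 ≤ cost W β ω g) (g : J × V → ℝ) (hg : Zs ω g) :
    β * Q (Wo W) (fun o => ω o * g o) (fun o => ω o * g o) ≤
      Fintype.card J * ∑ o, ω o * g o ^ 2 := by
  let c : J → J × V → ℝ := fun j o => if o.1 = j then 1 else 0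
  let q : J → J → ℝ := fun j i =>
    Q (Wo W) (fun o => c j o * (ω o * g o)) fun o => c i o * (ω o * g o)
  let s : J → ℝ := fun j => ∑ o, c j o * (ω o * g o ^ 2)
  have c1 : ∀ o, ∑ j, c j o = 1 := fun o => by simp [c]
  have s0 : ∀ j, 0 ≤ s j := fun j => sum_nonneg fun o _ =>
    mul_nonneg (by simp only [c]; split_ifs <;> norm_num) (mul_nonneg (hω o) (sq_nonneg _))
  have q0 : ∀ j, q j j = 0 := fun j => sum_eq_zero fun x _ => sum_eq_zero fun y _ => by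
    simp only [c, Wo]
    by_cases a : x.1 = j
    · by_cases b : y.1 = j
      · rw [if_pos (a.trans b.symm), mul_zero]
      · rw [if_neg b, zero_mul, mul_zero, zero_mul]
    · rw [if_neg a, zero_mul, zero_mul, zero_mul]
  have eq : ∑ j, ∑ i, q j i = Q (Wo W) (fun o => ω o * g o) fun o => ω o * g o := by
    have a : ∀ x y : J × V, ∑ j, ∑ i, c j x * (ω x * g x) * (c i y * (ω y * g y)) * Wo W x y =
        ω x * g x * (ω y * g y) * Wo W x y := fun x y => by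
      simp only [← sum_mul, ← mul_sum, c1, one_mul]
    simp only [q, Q, ← a]
    refine (sum_congr rfl fun j _ => sum_comm.trans (sum_congr rfl fun x _ => sum_comm)).trans ?_
    exact sum_comm.trans (sum_congr rfl fun x _ => sum_comm)
  have es : ∑ j, s j = ∑ o, ω o * g o ^ 2 := by
    simp only [s]
    rw [sum_comm]
    exact sum_congr rfl fun o _ => by rw [← sum_mul, c1, one_mul]
  have k : ∀ j i, β * q j i + β * q i j ≤ s j + s i := fun j i => by
    by_cases e : j = i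
    · subst e
      rw [q0, mul_zero]
      linarith [s0 j]
    have a := h (fun o => (c j o - c i o) * g o) fun j' => by
      have b : ∀ x, ω (j', x) * ((c j (j', x) - c i (j', x)) * g (j', x)) =
          ((if j' = j then 1 else 0) - if j' = i then 1 else 0) * (ω (j', x) * g (j', x)) :=
        fun x => mul_left_comm _ _ _
      rw [sum_congr rfl fun x _ => b x, ← mul_sum, hg j', mul_zero]
    have e1 : ∑ o, ω o * ((c j o - c i o) * g o) ^ 2 = s j + s i := by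
      simp only [s]
      rw [← sum_add_distrib]
      refine sum_congr rfl fun o _ => ?_
      simp only [c]
      by_cases a : o.1 = j
      · rw [if_pos a, if_neg fun b => e (a.symm.trans b)]
        ring
      · rw [if_neg a]
        split_ifs <;> ring
    have e2 : Q (Wo W) (fun o => ω o * ((c j o - c i o) * g o))
        (fun o => ω o * ((c j o - c i o) * g o)) = q j j - q j i - q i j + q i i := by
      simp only [q, Q, ← sum_sub_distrib, ← sum_add_distrib]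
      exact sum_congr rfl fun x _ => sum_congr rfl fun y _ => by ring
    unfold cost at a
    rw [e1, e2, q0, q0] at a
    linarith
  have t := sum_le_sum fun j (_ : j ∈ (univ : Finset J)) =>
    sum_le_sum fun i (_ : i ∈ (univ : Finset J)) => k j i
  have eq' : ∑ j, ∑ i, q i j = Q (Wo W) (fun o => ω o * g o) fun o => ω o * g o :=
    sum_comm.trans eq
  simp only [sum_add_distrib, ← mul_sum, eq, eq', es, sum_const, card_univ, nsmul_eq_mul] at t
  linarith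

/-- `klin` with `g o' = 1_{o' = o} - k ω o 1_{o'.1 = o.1}`. -/
theorem kconst {W : V → V → ℝ} (hW : Gr W) {β : ℝ} (hN : 0 < Fintype.card (J × V)) {Z : Finset V}
    {ω : J × V → ℝ} (H : KMin W β Z ω) (o : J × V) (ho : 0 < ω o) :
    free_l (Wo W) β ω o = cj W β ω o.1 := by
  have hJ : (Fintype.card J : ℝ) ≠ 0 := by exact_mod_cast (kfree_J hN).ne'
  have e : ∀ f : J × V → ℝ, ∑ o', ω o' * ((if o' = o then 1 else 0) -
      Fintype.card J * ω o * if o'.1 = o.1 then 1 else 0) * f o' =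
      ω o * (f o - Fintype.card J * ∑ x, ω (o.1, x) * f (o.1, x)) := fun f => by
    have a : ∑ o' : J × V, (if o'.1 = o.1 then 1 else 0) * (ω o' * f o') =
        ∑ x, ω (o.1, x) * f (o.1, x) := by
      rw [Fintype.sum_prod_type, sum_eq_single o.1 (fun j _ hj => by simp [hj])
        fun h => absurd (mem_univ _) h]
      simp
    have b : ∑ o' : J × V, (if o' = o then 1 else 0) * (ω o' * f o') = ω o * f o := by simp
    rw [mul_sub, ← a, ← b, mul_sum, mul_sum, ← sum_sub_distrib]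
    exact sum_congr rfl fun o' _ => by ring
  have a := (klin hW hN (g := fun o' => (if o' = o then 1 else 0) -
      Fintype.card J * ω o * if o'.1 = o.1 then 1 else 0) H fun j => by
    have b := e fun o' => if o'.1 = j then 1 else 0
    rw [Fintype.sum_prod_type, sum_eq_single j (fun j' _ hj => by simp [hj])
      fun h => absurd (mem_univ _) h] at b
    simp only [if_true, mul_one] at b
    rw [b]
    split_ifs
    · simp only [mul_one]
      rw [H.1.2.1, mul_one_div_cancel hJ, sub_self, mul_zero]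
    · simp).1
  rw [e] at a
  exact sub_eq_zero.1 ((mul_eq_zero.1 a).resolve_left ho.ne')

end Pool.Agent.Work.MP_e10cd8_co.Far
end

-- merged part: Pool.Agent.Work.MP_e10cd8_co.Far.KSup
section
/-! Uniform bounds at a minimiser. -/

namespace Pool.Agent.Work.MP_e10cd8_co.Far
open Finset Real Pool.Agent.Work.MP_e10cd8_co.Up

variable {V X ι J : Type} [Fintype V] [Fintype X] [Fintype ι] [Fintype J]
  [DecidableEq V] [DecidableEq X] [DecidableEq ι] [DecidableEq J]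

omit [Fintype J] [DecidableEq V] [DecidableEq J] in
theorem ksup_symm {W : V → V → ℝ} (hW : Gr W) (f g : V → ℝ) : Q W f g = Q W g f := by
  unfold Q
  rw [sum_comm]
  exact sum_congr rfl fun x _ => sum_congr rfl fun y _ => by rw [hW.2.1 y x]; ring

omit [DecidableEq V] in
theorem ksup_fo (W : V → V → ℝ) (ω : J × V → ℝ) (a : J) :
    ∑ x, ω (a, x) * fo W ω (a, x) =
      ∑ b, if a = b then 0 else Q W (fun x => ω (a, x)) fun x => ω (b, x) := by
  simp only [fo, Fintype.sum_prod_type, mul_sum]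
  rw [sum_comm]
  refine sum_congr rfl fun b _ => ?_
  by_cases e : a = b
  · simp [Wo, e]
  · rw [if_neg e]
    unfold Q
    exact sum_congr rfl fun x _ => sum_congr rfl fun y _ => by
      simp only [Wo, if_neg e]; ring

omit [DecidableEq V] in
theorem ksup_Q (W : V → V → ℝ) (ω : J × V → ℝ) :
    Q (Wo W) ω ω = ∑ a, ∑ b, if a = b then 0 else Q W (fun x => ω (a, x)) fun x => ω (b, x) := by
  simp only [← ksup_fo]
  unfold Q fo
  rw [Fintype.sum_prod_type]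
  refine sum_congr rfl fun a _ => sum_congr rfl fun x _ => ?_
  rw [mul_sum]
  exact sum_congr rfl fun y _ => by ring

omit [DecidableEq V] in
theorem ksup_F (W : V → V → ℝ) (β : ℝ) (ω : J × V → ℝ) :
    free_F (Wo W) β ω = ∑ a, ∑ x, ω (a, x) * log (Fintype.card (J × V) * ω (a, x)) +
      β * ∑ a, ∑ b, if a = b then 0 else Q W (fun x => ω (a, x)) fun x => ω (b, x) := by
  unfold free_F
  rw [ksup_Q, Fintype.sum_prod_type]

omit [DecidableEq V] in
theorem ksup_l (W : V → V → ℝ) (β : ℝ) (ω : J × V → ℝ) (o : J × V) :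
    free_l (Wo W) β ω o = log (Fintype.card (J × V) * ω o) + 2 * β * fo W ω o := rfl

omit [DecidableEq V] in
theorem ksup_cj (W : V → V → ℝ) (β : ℝ) (ω : J × V → ℝ) (a : J) :
    cj W β ω a = Fintype.card J * (∑ x, ω (a, x) * log (Fintype.card (J × V) * ω (a, x)) +
      2 * β * ∑ b, if a = b then 0 else Q W (fun x => ω (a, x)) fun x => ω (b, x)) := by
  unfold cj
  rw [← ksup_fo, mul_sum univ _ (2 * β), ← sum_add_distrib]
  congr 1
  exact sum_congr rfl fun x _ => by rw [ksup_l]; ring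

theorem ksup_row (F : J → ℝ) (j : J) :
    (∑ b, if j = b then 0 else F b) = ∑ b ∈ univ.erase j, F b := by
  rw [← add_sum_erase univ _ (mem_univ j), if_pos rfl, zero_add]
  exact sum_congr rfl fun b hb => if_neg (ne_of_mem_erase hb).symm

theorem ksup_split (F : J → J → ℝ) (j : J) :
    (∑ a, ∑ b, if a = b then 0 else F a b) =
      (∑ a ∈ univ.erase j, ∑ b ∈ univ.erase j, if a = b then 0 else F a b) +
        ∑ b ∈ univ.erase j, F j b + ∑ a ∈ univ.erase j, F a j := by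
  rw [← add_sum_erase univ _ (mem_univ j), ksup_row]
  have e : ∀ a ∈ univ.erase j, (∑ b, if a = b then 0 else F a b) =
      (∑ b ∈ univ.erase j, if a = b then 0 else F a b) + F a j := fun a ha => by
    rw [← add_sum_erase univ _ (mem_univ j), if_neg (ne_of_mem_erase ha), add_comm]
  rw [sum_congr rfl e, sum_add_distrib]
  ring

theorem ksup_abs {n : J → ℝ} {F : J → J → ℝ} (hs : ∀ a b, F a b = F b a) (h0 : ∀ a b, 0 ≤ F a b)
    {β : ℝ} (β0 : 0 ≤ β) (i j : J)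
    (h : ∑ a, n a + β * (∑ a, ∑ b, if a = b then 0 else F a b) ≤
      ∑ a, n (if a = j then i else a) + β * ∑ a, ∑ b, if a = b then 0 else
        F (if a = j then i else a) (if b = j then i else b)) :
    n j + 2 * β * (∑ b, if j = b then 0 else F j b) ≤
      n i + 2 * β * (∑ b, if i = b then 0 else F i b) + 2 * β * F i i := by
  have s : ∀ a ∈ univ.erase j, (if a = j then i else a) = a := fun a ha =>
    if_neg (ne_of_mem_erase ha)
  have e1 : ∑ a, n (if a = j then i else a) = n i + ∑ a ∈ univ.erase j, n a := by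
    rw [← add_sum_erase univ _ (mem_univ j), if_pos rfl]
    congr 1
    exact sum_congr rfl fun a ha => by rw [s a ha]
  have e2 : ∑ a, n a = n j + ∑ a ∈ univ.erase j, n a := (add_sum_erase univ _ (mem_univ j)).symm
  have e3 : (∑ a ∈ univ.erase j, ∑ b ∈ univ.erase j, if a = b then 0 else
      F (if a = j then i else a) (if b = j then i else b)) =
      ∑ a ∈ univ.erase j, ∑ b ∈ univ.erase j, if a = b then 0 else F a b :=
    sum_congr rfl fun a ha => sum_congr rfl fun b hb => by rw [s a ha, s b hb]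
  have e4 : ∑ b ∈ univ.erase j, F (if j = j then i else j) (if b = j then i else b) =
      ∑ b ∈ univ.erase j, F i b := sum_congr rfl fun b hb => by rw [if_pos rfl, s b hb]
  have e5 : ∑ a ∈ univ.erase j, F (if a = j then i else a) (if j = j then i else j) =
      ∑ b ∈ univ.erase j, F i b := sum_congr rfl fun b hb => by rw [if_pos rfl, s b hb, hs]
  have e6 : ∑ a ∈ univ.erase j, F a j = ∑ b ∈ univ.erase j, F j b :=
    sum_congr rfl fun b _ => hs _ _
  have e7 : ∑ b ∈ univ.erase j, F i b ≤ F i i + ∑ b ∈ univ.erase i, F i b := by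
    rw [add_sum_erase univ _ (mem_univ i)]
    exact sum_le_sum_of_subset_of_nonneg (subset_univ _) fun b _ _ => h0 i b
  rw [ksup_split _ j, ksup_split _ j, e1, e2, e3, e4, e5, e6] at h
  rw [ksup_row, ksup_row]
  have e8 := mul_le_mul_of_nonneg_left e7 β0
  linarith

/-- Compare with `μ o = if o.1 = j then ω (i, o.2) else ω o` (for `i = j` the claim is trivial).
With `q a b = Q W ω_a ω_b`, `n a = ∑ x, ω (a, x) log (N k ω (a, x))`:
`free_F = ∑ a, n a + β ∑_{a ≠ b} q a b`, `cj a = k (n a + 2 β ∑_{b ≠ a} q a b)`, and the change is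
`n i - n j + 2 β (∑_{b ≠ j} q i b - ∑_{b ≠ j} q j b)`, `∑_{b ≠ j} q i b ≤ ∑_{b ≠ i} q i b + q i i`. -/
theorem kcopy {W : V → V → ℝ} (hW : Gr W) {β : ℝ} (β0 : 0 ≤ β) {Z : Finset V} {ω : J × V → ℝ}
    (H : KMin W β Z ω) (i j : J) : cj W β ω j ≤ cj W β ω i +
      2 * β * (Fintype.card J * Q W (fun x => ω (i, x)) fun x => ω (i, x)) := by
  have k0 : (0 : ℝ) ≤ Fintype.card J := Nat.cast_nonneg _
  have m : (fun o : J × V => ω (if o.1 = j then i else o.1, o.2)) ∈ KK J Z :=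
    ⟨fun o => H.1.1 _, fun a => H.1.2.1 (if a = j then i else a), fun o ho => H.1.2.2 _ ho⟩
  have h := H.2 _ m
  rw [ksup_F, ksup_F] at h
  have a := ksup_abs (n := fun a => ∑ x, ω (a, x) * log (Fintype.card (J × V) * ω (a, x)))
    (F := fun a b => Q W (fun x => ω (a, x)) fun x => ω (b, x)) (fun a b => ksup_symm hW _ _)
    (fun a b => sum_nonneg fun x _ => sum_nonneg fun y _ =>
      mul_nonneg (mul_nonneg (H.1.1 _) (H.1.1 _)) (hW.nonneg x y)) β0 i j h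
  have b := mul_le_mul_of_nonneg_left a k0
  rw [ksup_cj, ksup_cj]
  linarith

/-- `cj a = Ent a + 2 β fb a` with `Ent a ≥ 0` (`Up.free_ent` for `k ω_a`); the mean of `cj` is
`Ent + 2 β Q ≤ 2 Φ`; for `i` with `cj i ≤ 2 Φ`, `kconst` gives `N k ω ≤ exp (2 Φ)` on part `i`,
`Sp` with `b = exp (2 Φ) / (N k)` gives `Q ω_i ω_i ≤ 4 η / k ^ 2`; `kcopy`, `kconst`. -/
theorem ksup {W : V → V → ℝ} (hW : Gr W) {β Φ η q Xx : ℝ} (β0 : 0 ≤ β)
    (hN : 0 < Fintype.card (J × V)) {Z : Finset V} {ω : J × V → ℝ} (H : KMin W β Z ω)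
    (hΦ : free_F (Wo W) β ω ≤ Φ) (hS : Sp W (fun _ => 1) η Xx) (η0 : 0 ≤ η) (X0 : 0 ≤ Xx)
    (hk : η ≤ Fintype.card J * q) (hX : Xx * exp (2 * Φ) ≤ Fintype.card V) :
    (∀ o, Fintype.card (J × V) * ω o ≤ exp (2 * Φ + 8 * β * q)) ∧
    (∀ o, exp (-(2 * Φ + 8 * β * q)) ≤ Fintype.card (J × V) * ω o →
      β * fo W ω o ≤ 2 * Φ + 8 * β * q) ∧
    (∀ j, 2 * β * fb W ω j ≤ 2 * Φ + 8 * β * q) ∧ β * Q (Wo W) ω ω ≤ Φ := by
  have hN' : (0 : ℝ) < Fintype.card (J × V) := by exact_mod_cast hN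
  have hc : Fintype.card (J × V) = Fintype.card J * Fintype.card V := Fintype.card_prod J V
  have hJ : 0 < Fintype.card J := Nat.pos_of_mul_pos_right (hc ▸ hN)
  have hV : 0 < Fintype.card V := Nat.pos_of_mul_pos_left (hc ▸ hN)
  have k0 : (0 : ℝ) < Fintype.card J := by exact_mod_cast hJ
  have n0 : (0 : ℝ) < Fintype.card V := by exact_mod_cast hV
  have hc' : (Fintype.card (J × V) : ℝ) = Fintype.card J * Fintype.card V := by exact_mod_cast hc
  have ent : ∀ a, 0 ≤ ∑ x, ω (a, x) * log (Fintype.card (J × V) * ω (a, x)) := fun a => by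
    have e := free_ent hV (ν := fun x => Fintype.card J * ω (a, x))
      ⟨fun x => mul_nonneg k0.le (H.1.1 _), by
        rw [← mul_sum, H.1.2.1 a, mul_one_div_cancel k0.ne']⟩
    refine nonneg_of_mul_nonneg_right (le_of_le_of_eq e ?_) k0
    rw [mul_sum]
    refine sum_congr rfl fun x _ => ?_
    rw [hc', show (Fintype.card V : ℝ) * (Fintype.card J * ω (a, x)) =
      Fintype.card J * Fintype.card V * ω (a, x) by ring]
    ring
  have fo0 : ∀ o, 0 ≤ fo W ω o := fun o =>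
    sum_nonneg fun y _ => mul_nonneg (H.1.1 y) (Wo_nonneg hW o y)
  have ent' : 0 ≤ ∑ a, ∑ x, ω (a, x) * log (Fintype.card (J × V) * ω (a, x)) :=
    sum_nonneg fun a _ => ent a
  have hF := hΦ
  rw [ksup_F] at hF
  have up : ∀ (c : ℝ) (o : J × V), cj W β ω o.1 ≤ c → Fintype.card (J × V) * ω o ≤ exp c :=
    fun c o h => by
    rcases (H.1.1 o).eq_or_lt with e | e
    · rw [← e, mul_zero]
      exact (exp_pos _).le
    · have a := kconst hW hN H o e
      rw [ksup_l] at a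
      have b : 0 ≤ 2 * β * fo W ω o := mul_nonneg (by positivity) (fo0 o)
      rw [← Real.log_le_iff_le_exp (mul_pos hN' e)]
      linarith
  obtain ⟨i, -, hi⟩ : ∃ i ∈ (univ : Finset J), cj W β ω i ≤ 2 * Φ := by
    refine exists_le_of_sum_le (univ_nonempty_iff.2 (Fintype.card_pos_iff.1 hJ)) ?_
    rw [sum_const, card_univ, nsmul_eq_mul, sum_congr rfl fun a _ => ksup_cj W β ω a, ← mul_sum,
      sum_add_distrib, ← mul_sum]
    refine mul_le_mul_of_nonneg_left ?_ k0.le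
    linarith
  have hq : Fintype.card J * Q W (fun x => ω (i, x)) (fun x => ω (i, x)) ≤ 4 * q := by
    have b0 : 0 ≤ exp (2 * Φ) / Fintype.card (J × V) := by positivity
    have l : Le (exp (2 * Φ) / Fintype.card (J × V)) (fun _ : V => (1 : ℝ)) fun x => ω (i, x) :=
      fun x => ⟨H.1.1 _, by
        rw [mul_one, le_div_iff₀ hN', mul_comm]
        exact up _ (i, x) hi⟩
    have a := hS _ _ _ b0 l l
    rw [H.1.2.1 i] at a
    have b : exp (2 * Φ) / Fintype.card (J × V) * Xx ≤ 1 / Fintype.card J := by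
      rw [div_mul_eq_mul_div, div_le_div_iff₀ hN' k0, hc']
      nlinarith
    have b1 : 0 ≤ exp (2 * Φ) / Fintype.card (J × V) * Xx := mul_nonneg b0 X0
    have k1 : (0 : ℝ) < 1 / Fintype.card J := by positivity
    have c : η * (1 / Fintype.card J + exp (2 * Φ) / Fintype.card (J × V) * Xx) *
        (1 / Fintype.card J + exp (2 * Φ) / Fintype.card (J × V) * Xx) ≤
        Fintype.card J * q * (2 * (1 / Fintype.card J)) * (2 * (1 / Fintype.card J)) :=
      mul_le_mul (mul_le_mul hk (by linarith) (by linarith) (η0.trans hk)) (by linarith)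
        (by linarith) (mul_nonneg (η0.trans hk) (by linarith))
    refine (mul_le_mul_of_nonneg_left (a.trans c) k0.le).trans (le_of_eq ?_)
    field_simp
    ring
  have all : ∀ j, cj W β ω j ≤ 2 * Φ + 8 * β * q := fun j => by
    have a := kcopy hW β0 H i j
    have b := mul_le_mul_of_nonneg_left hq (show 0 ≤ 2 * β by positivity)
    linarith
  refine ⟨fun o => up _ o (all o.1), fun o ho => ?_, fun j => ?_, ?_⟩
  · have p : 0 < Fintype.card (J × V) * ω o := (exp_pos _).trans_le ho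
    have a := kconst hW hN H o ((mul_pos_iff_of_pos_left hN').1 p)
    rw [ksup_l] at a
    have b := (Real.le_log_iff_exp_le p).2 ho
    have c := all o.1
    linarith
  · have a := all j
    have b := mul_nonneg k0.le (ent j)
    rw [ksup_cj, ← ksup_fo] at a
    unfold fb
    linarith
  · rw [ksup_Q]
    linarith

end Pool.Agent.Work.MP_e10cd8_co.Far
end
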