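import Pool.Agent.Work.MP_e10cd8_co.Exact.XAsym
import Pool.Agent.Work.MP_e10cd8_co.All.AAsym
import Pool.Agent.Work.MP_e10cd8_co.Far.KSup

-- merged part: Pool.Agent.Work.MP_e10cd8_co.Four.Exist
section
/-! The projective space of dimension three over the field with a prime number of elements. -/

namespace Pool.Agent.Work.MP_e10cd8_co.Four

open Module

section Aux

variable {K : Type} [Field K]

theorem Exist_rep_mem {V : Type} [AddCommGroup V] [Module K V] (S : Submodule K V) (v : V)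
    (hv : v ≠ 0) : (Projectivization.mk K v hv).rep ∈ S ↔ v ∈ S := by
  obtain ⟨a, ha⟩ := Projectivization.exists_smul_eq_mk_rep K v hv
  rw [← ha, Units.smul_def]
  exact S.smul_mem_iff a.ne_zero

/-- the number of projective points inside a subspace -/
theorem Exist_card_sub {V : Type} [AddCommGroup V] [Module K V] [Finite K] (S : Submodule K V)
    {n : ℕ} (hn : finrank K S = n) :
    Nat.card {p : Projectivization K V // p.rep ∈ S} =
      ∑ i ∈ Finset.range n, Nat.card K ^ i := by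
  rw [← Projectivization.card_of_finrank K S hn]
  symm
  have hmem : ∀ u : Projectivization K S,
      (Projectivization.map S.subtype S.injective_subtype u).rep ∈ S := by
    intro u
    induction u using Projectivization.ind with
    | h v hv =>
      rw [Projectivization.map_mk, Exist_rep_mem]
      exact v.2
  refine Nat.card_congr (Equiv.ofBijective
    (fun u => ⟨Projectivization.map S.subtype S.injective_subtype u, hmem u⟩) ⟨?_, ?_⟩)
  · intro u u' h
    exact Projectivization.map_injective (τ := RingHom.id K) S.subtype S.injective_subtype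
      (congrArg Subtype.val h)
  · rintro ⟨p, hp⟩
    refine ⟨Projectivization.mk K ⟨p.rep, hp⟩ ?_, ?_⟩
    · intro h
      exact p.rep_nonzero (congrArg Subtype.val h)
    · apply Subtype.ext
      exact p.mk_rep

/-- the dot product as a bilinear form -/
def Exist_B (K : Type) [Field K] : LinearMap.BilinForm K (Fin 4 → K) := dotProductBilin K K

theorem Exist_B_apply (v w : Fin 4 → K) : Exist_B K v w = v ⬝ᵥ w := rfl

theorem Exist_B_nondeg : (Exist_B K).Nondegenerate := by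
  constructor
  · intro v h
    exact dotProduct_eq_zero v h
  · intro v h
    refine dotProduct_eq_zero v fun w => ?_
    rw [dotProduct_comm]
    exact h w

theorem Exist_mem_orth_span (v x : Fin 4 → K) :
    x ∈ (Exist_B K).orthogonal (Submodule.span K {v}) ↔ v ⬝ᵥ x = 0 := by
  rw [LinearMap.BilinForm.mem_orthogonal_iff]
  constructor
  · intro h
    exact h v (Submodule.mem_span_singleton_self v)
  · intro h n hn
    obtain ⟨a, rfl⟩ := Submodule.mem_span_singleton.1 hn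
    rw [Exist_B_apply, smul_dotProduct, h, smul_zero]

theorem Exist_mem_orth_sup (S : Submodule K (Fin 4 → K)) (v x : Fin 4 → K) :
    x ∈ (Exist_B K).orthogonal (S ⊔ Submodule.span K {v}) ↔
      x ∈ (Exist_B K).orthogonal S ∧ v ⬝ᵥ x = 0 := by
  rw [← Exist_mem_orth_span]
  simp only [LinearMap.BilinForm.mem_orthogonal_iff]
  constructor
  · intro h
    exact ⟨fun n hn => h n (Submodule.mem_sup_left hn), fun n hn => h n (Submodule.mem_sup_right hn)⟩
  · rintro ⟨h1, h2⟩ n hn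
    obtain ⟨a, ha, b, hb, rfl⟩ := Submodule.mem_sup.1 hn
    rw [map_add, LinearMap.add_apply, h1 a ha, h2 b hb, add_zero]

theorem Exist_card_orth [Finite K] [Fintype (Projectivization K (Fin 4 → K))]
    (S : Submodule K (Fin 4 → K)) {d : ℕ} (hd : finrank K S = d)
    (X : Finset (Projectivization K (Fin 4 → K)))
    (hX : ∀ p, p ∈ X ↔ p.rep ∈ (Exist_B K).orthogonal S) :
    X.card = ∑ i ∈ Finset.range (4 - d), Nat.card K ^ i := by
  have h1 : finrank K ((Exist_B K).orthogonal S) = 4 - d := by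
    rw [LinearMap.BilinForm.finrank_orthogonal Exist_B_nondeg, hd]
    simp
  rw [← Exist_card_sub _ h1, ← Nat.card_eq_finsetCard]
  exact Nat.card_congr (Equiv.subtypeEquivRight hX)

theorem Exist_notMem {a y : Projectivization K (Fin 4 → K)} (h : a ≠ y) :
    y.rep ∉ Submodule.span K {a.rep} := by
  intro hy
  obtain ⟨c, hc⟩ := Submodule.mem_span_singleton.1 hy
  have := Projectivization.linearIndependent_pair_iff_ne.2 h
  rw [LinearIndependent.pair_iff' a.rep_nonzero] at this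
  exact this c hc

end Aux

/-- Take `Pt = Projectivization (ZMod q) (Fin 4 → ZMod q)` and `pl b` the points orthogonal to `b`
for the dot product (`Projectivization.orthogonal`). The points inside a subspace of dimension `d`
number `(q^d - 1)/(q - 1)`; the vectors orthogonal to `1, 2, 3` independent vectors form subspaces
of dimension `3, 2, 1`. For `tri`: if `z` were in the span of `a, y` the inclusion would hold. -/
theorem exists_PG (q : ℕ) (hq : q.Prime) :
    ∃ (Pt : Type) (_ : Fintype Pt) (_ : DecidableEq Pt), Nonempty (PG q Pt) := by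
  classical
  have : Fact q.Prime := ⟨hq⟩
  let Pt := Projectivization (ZMod q) (Fin 4 → ZMod q)
  let F : Fintype Pt := Fintype.ofFinite Pt
  have hK : Nat.card (ZMod q) = q := Nat.card_zmod q
  let pl : Pt → Finset Pt := fun b => sel fun p => b.rep ⬝ᵥ p.rep = 0
  have hpl : ∀ b p : Pt, p ∈ pl b ↔ b.rep ⬝ᵥ p.rep = 0 := fun b p => mem_sel
  have h1 : ∀ a : Pt, finrank (ZMod q) (Submodule.span (ZMod q) {a.rep}) = 1 :=
    fun a => finrank_span_singleton a.rep_nonzero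
  have h2 : ∀ a y : Pt, a ≠ y → finrank (ZMod q)
      (Submodule.span (ZMod q) {a.rep} ⊔ Submodule.span (ZMod q) {y.rep} :
        Submodule (ZMod q) (Fin 4 → ZMod q)) = 2 := by
    intro a y h
    rw [Submodule.finrank_sup_span_singleton (Exist_notMem h), h1]
  have hm2 : ∀ a y p : Pt, p ∈ pl a ∩ pl y ↔ p.rep ∈ (Exist_B (ZMod q)).orthogonal
      (Submodule.span (ZMod q) {a.rep} ⊔ Submodule.span (ZMod q) {y.rep}) := by
    intro a y p
    rw [Finset.mem_inter, hpl, hpl, Exist_mem_orth_sup, Exist_mem_orth_span]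
  refine ⟨Pt, F, inferInstance, ⟨⟨pl, hq.two_le, ?_, ?_, ?_, ?_, ?_⟩⟩⟩
  · intro a b
    rw [hpl, hpl, dotProduct_comm]
  · rw [← Nat.card_eq_fintype_card,
      Projectivization.card_of_finrank (ZMod q) (Fin 4 → ZMod q) (n := 4) (by simp), hK]
    simp only [Finset.sum_range_succ, Finset.sum_range_zero]
    ring
  · intro a
    rw [Exist_card_orth _ (h1 a) (pl a) (fun p => by rw [hpl, Exist_mem_orth_span]), hK]
    simp only [Finset.sum_range_succ, Finset.sum_range_zero]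
    ring
  · intro a y h
    rw [Exist_card_orth _ (h2 a y h) _ (hm2 a y), hK]
    simp only [Finset.sum_range_succ, Finset.sum_range_zero]
    ring
  · intro a y z h hz
    have hn : z.rep ∉ (Submodule.span (ZMod q) {a.rep} ⊔ Submodule.span (ZMod q) {y.rep} :
        Submodule (ZMod q) (Fin 4 → ZMod q)) := by
      intro hmem
      apply hz
      intro p hp
      rw [hpl]
      exact (LinearMap.BilinForm.mem_orthogonal_iff.1 ((hm2 a y p).1 hp)) _ hmem
    have h3 := Submodule.finrank_sup_span_singleton hn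
    rw [h2 a y h] at h3
    rw [Exist_card_orth _ h3 (pl a ∩ pl y ∩ pl z)
      (fun p => by rw [Finset.mem_inter, hm2, hpl, Exist_mem_orth_sup _ z.rep])]
    simp

end Pool.Agent.Work.MP_e10cd8_co.Four
end

-- merged part: Pool.Agent.Work.MP_e10cd8_co.All.Tower
section
/-! The projective spaces over the field with a prime number of elements, with projections. -/

namespace Pool.Agent.Work.MP_e10cd8_co.All

open Module Four

section Aux

variable {K : Type} [Field K] {n : ℕ}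

/-- the dot product as a bilinear form -/
def Tower_B (K : Type) [Field K] (n : ℕ) : LinearMap.BilinForm K (Fin n → K) := dotProductBilin K K

theorem Tower_nondeg : (Tower_B K n).Nondegenerate := by
  constructor
  · intro v h
    exact dotProduct_eq_zero v h
  · intro v h
    refine dotProduct_eq_zero v fun w => ?_
    rw [dotProduct_comm]
    exact h w

theorem Tower_orth (S : Submodule K (Fin n → K)) :
    finrank K ((Tower_B K n).orthogonal S) = n - finrank K S := by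
  rw [LinearMap.BilinForm.finrank_orthogonal Tower_nondeg]
  simp

theorem Tower_le (S : Submodule K (Fin n → K)) : finrank K S ≤ n :=
  (Submodule.finrank_le S).trans (by simp)

theorem Tower_mem (A : Set (Fin n → K)) (x : Fin n → K) :
    x ∈ (Tower_B K n).orthogonal (Submodule.span K A) ↔ ∀ v ∈ A, x ⬝ᵥ v = 0 := by
  rw [LinearMap.BilinForm.mem_orthogonal_iff]
  refine ⟨fun h v hv => (dotProduct_comm _ _).trans (h v (Submodule.subset_span hv)),
    fun h v hv => ?_⟩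
  have : Submodule.span K A ≤ LinearMap.ker (Tower_B K n x) := Submodule.span_le.2 h
  exact (dotProduct_comm v x).trans (LinearMap.mem_ker.1 (this hv))

theorem Tower_dot (v x : Fin n → K) (hv : v ≠ 0) :
    (Projectivization.mk K v hv).rep ⬝ᵥ x = 0 ↔ v ⬝ᵥ x = 0 := by
  obtain ⟨a, ha⟩ := Projectivization.exists_smul_eq_mk_rep K v hv
  rw [← ha, Units.smul_def, smul_dotProduct, smul_eq_zero, or_iff_right a.ne_zero]

theorem Tower_notMem {a y : Projectivization K (Fin n → K)} (h : a ≠ y) :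
    y.rep ∉ Submodule.span K {a.rep} := by
  intro hy
  obtain ⟨c, hc⟩ := Submodule.mem_span_singleton.1 hy
  have := Projectivization.linearIndependent_pair_iff_ne.2 h
  rw [LinearIndependent.pair_iff' a.rep_nonzero] at this
  exact this c hc

theorem Tower_card [Finite K] (S : Submodule K (Fin n → K))
    (X : Finset (Projectivization K (Fin n → K))) (hX : ∀ p, p ∈ X ↔ p.rep ∈ S) :
    X.card = gs (Nat.card K) (finrank K S) := by
  rw [gs, ← Exist_card_sub S rfl, ← Nat.card_eq_finsetCard]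
  exact Nat.card_congr (Equiv.subtypeEquivRight hX)

theorem Tower_span (S : Submodule K (Fin n → K))
    (X : Finset (Projectivization K (Fin n → K))) (hX : ∀ p, p ∈ X ↔ p.rep ∈ S) :
    Submodule.span K (Projectivization.rep '' (X : Set (Projectivization K (Fin n → K)))) = S := by
  refine le_antisymm (Submodule.span_le.2 ?_) fun v hv => ?_
  · rintro _ ⟨p, hp, rfl⟩
    exact (hX p).1 hp
  · by_cases h : v = 0
    · exact h ▸ Submodule.zero_mem _
    · exact (Exist_rep_mem _ v h).1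
        (Submodule.subset_span ⟨_, (hX _).2 ((Exist_rep_mem S v h).2 hv), rfl⟩)

/-- the geometry of the vector space of dimension `t + 1` -/
noncomputable def Tower_G (K : Type) [Field K] [Finite K] (q t : ℕ) (ht : 2 ≤ t)
    (hq : Nat.card K = q) [Fintype (Projectivization K (Fin (t + 1) → K))]
    [DecidableEq (Projectivization K (Fin (t + 1) → K))] :
    GP q t (Projectivization K (Fin (t + 1) → K)) :=
  have hp : ∀ (A : Finset (Projectivization K (Fin (t + 1) → K))) z,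
      z ∈ (sel fun z : Projectivization K (Fin (t + 1) → K) =>
        A ⊆ sel fun p => z.rep ⬝ᵥ p.rep = 0) ↔ z.rep ∈ (Tower_B K (t + 1)).orthogonal
          (Submodule.span K (Projectivization.rep ''
            (A : Set (Projectivization K (Fin (t + 1) → K))))) := fun A z => by
    rw [mem_sel, Tower_mem]
    exact ⟨by rintro h _ ⟨p, hp, rfl⟩; simpa only [mem_sel] using h hp,
      fun h p hp => mem_sel.2 (h _ ⟨p, hp, rfl⟩)⟩
  { pl := fun b => sel fun p => b.rep ⬝ᵥ p.rep = 0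
    rk := fun A => finrank K (Submodule.span K (Projectivization.rep ''
      (A : Set (Projectivization K (Fin (t + 1) → K)))))
    two_le := hq ▸ Finite.one_lt_card
    ht := ht
    symm := fun a b => by rw [mem_sel, mem_sel, dotProduct_comm]
    rk_le := fun A => Tower_le _
    card_perp' := fun A => by rw [Tower_card _ _ (hp A), Tower_orth, hq]
    rk_perp' := fun A => by rw [Tower_span _ _ (hp A), Tower_orth]
    rk_empty := by simp
    rk_one := fun a => by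
      rw [Finset.coe_singleton, Set.image_singleton]
      exact finrank_span_singleton a.rep_nonzero
    rk_two := fun a y h => by
      rw [Finset.coe_pair, Set.image_pair, Submodule.span_insert,
        Submodule.finrank_sup_span_singleton (Tower_notMem h), finrank_span_singleton a.rep_nonzero]
    rk_insert := fun y A => by
      rw [Finset.coe_insert, Set.image_insert_eq, Submodule.span_insert]
      refine (Submodule.finrank_add_le_finrank_add_finrank _ _).trans ?_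
      rw [finrank_span_singleton y.rep_nonzero, add_comm] }

theorem Tower_map (c : Fin (n + 1) → K) (hc : c ≠ 0) : ∃ M : Matrix (Fin n) (Fin (n + 1)) K,
    Function.Surjective M.mulVec ∧ ∀ v, M.mulVec v = 0 ↔ v ∈ Submodule.span K {c} := by
  have h : finrank K ((Fin (n + 1) → K) ⧸ Submodule.span K {c}) = finrank K (Fin n → K) := by
    have := Submodule.finrank_quotient_add_finrank (Submodule.span K {c})
    rw [finrank_span_singleton hc] at this
    simp only [finrank_fintype_fun_eq_card, Fintype.card_fin] at this ⊢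
    omega
  let e := LinearEquiv.ofFinrankEq _ _ h
  refine ⟨LinearMap.toMatrix' (e.toLinearMap ∘ₗ (Submodule.span K {c}).mkQ), fun w => ?_,
    fun v => ?_⟩
  · obtain ⟨v, hv⟩ := (Submodule.span K {c}).mkQ_surjective (e.symm w)
    exact ⟨v, by rw [LinearMap.toMatrix'_mulVec]; simp [hv]⟩
  · rw [LinearMap.toMatrix'_mulVec]
    simp

end Aux

theorem Tower_prj (K : Type) [Field K] [Finite K] (q t : ℕ) (ht : 2 ≤ t) (hq : Nat.card K = q)
    [Fintype (Projectivization K (Fin (t + 1) → K))]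
    [DecidableEq (Projectivization K (Fin (t + 1) → K))]
    [Fintype (Projectivization K (Fin (t + 1 + 1) → K))]
    [DecidableEq (Projectivization K (Fin (t + 1 + 1) → K))]
    (c : Projectivization K (Fin (t + 1 + 1) → K)) :
    ∃ π φ, Prj (Tower_G K q (t + 1) (by omega) hq) (Tower_G K q t ht hq) c π φ := by
  classical
  obtain ⟨M, hs, hk⟩ := Tower_map c.rep c.rep_nonzero
  have hd : ∀ w v, M.vecMulLinear w ⬝ᵥ v = w ⬝ᵥ M.mulVec v := fun w v =>
    (Matrix.dotProduct_mulVec w M v).symm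
  have hi : Function.Injective M.vecMulLinear := (injective_iff_map_eq_zero _).2 fun w h =>
    dotProduct_eq_zero w fun x => by
      obtain ⟨v, rfl⟩ := hs x
      rw [← hd, h, zero_dotProduct]
  have h0 : ∀ a, a ≠ c → M.mulVec a.rep ≠ 0 := fun a h k => Tower_notMem h.symm ((hk _).1 k)
  have hc : M.mulVec c.rep = 0 := (hk _).2 (Submodule.mem_span_singleton_self _)
  have hφ : ∀ (b : Projectivization K (Fin (t + 1) → K)) x,
      (Projectivization.map M.vecMulLinear hi b).rep ⬝ᵥ x = 0 ↔ b.rep ⬝ᵥ M.mulVec x = 0 := by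
    intro b x
    conv_lhs => rw [← b.mk_rep, Projectivization.map_mk]
    rw [Tower_dot, hd]
  refine ⟨fun a => if h : a = c then Projectivization.mk _ (fun _ => 1)
      (fun e => one_ne_zero (congrFun e 0)) else Projectivization.mk _ _ (h0 a h),
    Projectivization.map M.vecMulLinear hi,
    Projectivization.map_injective (τ := RingHom.id _) _ hi, fun b => mem_sel.2 ?_, fun b hb => ?_,
    fun a h b => ?_, fun y => ?_⟩
  · rw [dotProduct_comm, hφ, hc, dotProduct_zero]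
  · have e : LinearMap.range M.vecMulLinear =
        (Tower_B K (t + 1 + 1)).orthogonal (Submodule.span K {c.rep}) := by
      refine Submodule.eq_of_le_of_finrank_eq ?_ ?_
      · rintro _ ⟨w, rfl⟩
        rw [Tower_mem]
        rintro _ rfl
        rw [hd, hc, dotProduct_zero]
      · rw [LinearMap.finrank_range_of_inj hi, Tower_orth, finrank_span_singleton c.rep_nonzero]
        simp
    obtain ⟨w, hw⟩ : b.rep ∈ LinearMap.range M.vecMulLinear := by
      rw [e, Tower_mem]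
      rintro _ rfl
      have := (mem_sel (p := fun p : Projectivization K _ => c.rep ⬝ᵥ p.rep = 0)).1 hb
      exact (dotProduct_comm _ _).trans this
    refine ⟨Projectivization.mk _ w fun k => b.rep_nonzero (by rw [← hw, k, map_zero]), ?_⟩
    rw [Projectivization.map_mk]
    simp only [hw, Projectivization.mk_rep]
  · refine mem_sel.trans (Iff.trans ?_ mem_sel.symm)
    rw [dif_neg h, hφ, dotProduct_comm, Tower_dot, dotProduct_comm]
  · obtain ⟨x, hx⟩ := hs y.rep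
    have hn : x ∉ Submodule.span K {c.rep} := fun k => y.rep_nonzero (hx ▸ (hk x).2 k)
    have h2 := Tower_card (Submodule.span K {c.rep} ⊔ Submodule.span K {x})
      (insert c (sel fun a => a ≠ c ∧ (if h : a = c then Projectivization.mk _ (fun _ => 1)
        (fun e => one_ne_zero (congrFun e 0)) else Projectivization.mk _ _ (h0 a h)) = y))
      fun a => ?_
    · rw [Finset.card_insert_of_notMem fun k => (mem_sel.1 k).1 rfl,
        Submodule.finrank_sup_span_singleton hn, finrank_span_singleton c.rep_nonzero,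
        hq] at h2
      simp only [gs, Finset.sum_range_succ, Finset.sum_range_zero, pow_zero, pow_one] at h2
      omega
    · by_cases h : a = c
      · subst h
        exact iff_of_true (Finset.mem_insert_self _ _)
          (Submodule.mem_sup_left (Submodule.mem_span_singleton_self _))
      · rw [Finset.mem_insert, or_iff_right h, mem_sel, and_iff_right h, dif_neg h]
        conv_lhs => rw [← y.mk_rep, Projectivization.mk_eq_mk_iff']
        constructor
        · rintro ⟨r, hr⟩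
          have : a.rep - r • x ∈ Submodule.span K {c.rep} := by
            rw [← hk, Matrix.mulVec_sub, Matrix.mulVec_smul, hx, hr, sub_self]
          exact Submodule.mem_sup.2 ⟨_, this, r • x,
            Submodule.smul_mem _ _ (Submodule.mem_span_singleton_self _), sub_add_cancel _ _⟩
        · intro k
          obtain ⟨u, hu, v, hv, e⟩ := Submodule.mem_sup.1 k
          obtain ⟨r, rfl⟩ := Submodule.mem_span_singleton.1 hv
          exact ⟨r, by rw [← e, Matrix.mulVec_add, (hk u).2 hu, zero_add, Matrix.mulVec_smul, hx]⟩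

/-- `Pt t = Projectivization (ZMod q) (Fin (t + 3) → ZMod q)`, `pl b` = points orthogonal to `b`,
`rk A` = dimension of the span of the representatives (compare `Four/Exist`). For a centre `c` take
a linear surjection `f` onto `Fin (t + 3) → ZMod q` with kernel spanned by `c`; `π` is induced by
`f` (any value at `c`), `φ` by the transpose of `f`, whose image is the orthogonal of `c`. -/
theorem exists_tower (q : ℕ) (hq : q.Prime) :
    ∃ (Pt : ℕ → Type) (_ : ∀ t, Fintype (Pt t)) (_ : ∀ t, DecidableEq (Pt t))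
      (G : ∀ t, GP q (t + 2) (Pt t)),
      ∀ (t : ℕ) (c : Pt (t + 1)), ∃ π φ, Prj (t := t + 2) (G (t + 1)) (G t) c π φ := by
  classical
  have : Fact q.Prime := ⟨hq⟩
  let F : ∀ t, Fintype (Projectivization (ZMod q) (Fin (t + 1) → ZMod q)) :=
    fun t => Fintype.ofFinite _
  exact ⟨fun t => Projectivization (ZMod q) (Fin (t + 2 + 1) → ZMod q), fun t => F (t + 2),
    fun _ => inferInstance, fun t => Tower_G (ZMod q) q (t + 2) (by omega) (Nat.card_zmod q),
    fun t c => Tower_prj (ZMod q) q (t + 2) (by omega) (Nat.card_zmod q) c⟩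

end Pool.Agent.Work.MP_e10cd8_co.All
end

-- merged part: Pool.Agent.Work.MP_e10cd8_co.All.KMom
section
/-! Cones over random centres: the second moment bound and the choice of a tuple of centres. -/

namespace Pool.Agent.Work.MP_e10cd8_co.All

open Finset Four

section
variable {α β γ : Type} [DecidableEq α] [DecidableEq β] [DecidableEq γ]

/-- Cauchy-Schwarz over pairs (centre, value) -/
theorem KMom_cs (C : Finset γ) (X : γ → Finset β) (om : γ → β → ℝ) {s : ℝ}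
    (hs : ∀ z ∈ C, ((X z).card : ℝ) ≤ s) :
    (∑ z ∈ C, ∑ u ∈ X z, om z u) ^ 2 ≤ C.card * s * ∑ z ∈ C, ∑ u ∈ X z, om z u ^ 2 := by
  refine sq_sum_le_card_mul_sum_sq.trans ?_
  rw [mul_assoc, mul_sum C _ s]
  refine mul_le_mul_of_nonneg_left (sum_le_sum fun z hz => ?_) (Nat.cast_nonneg _)
  exact sq_sum_le_card_mul_sum_sq.trans
    (mul_le_mul_of_nonneg_right (hs z hz) (sum_nonneg fun _ _ => sq_nonneg _))

/-- second moment of the number of cones containing a point -/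
theorem moment (C : Finset γ) (E : Finset α) (ok : γ → α → Prop) (pr : γ → α → β)
    (X : γ → Finset β) {s κ y : ℝ} (hs : ∀ z ∈ C, ((X z).card : ℝ) ≤ s) (hs0 : 0 ≤ s) (hκ : 0 ≤ κ)
    (hC : C.Nonempty) (hy : 0 < y) (hκy : 2 * κ * s ≤ y * C.card)
    (col : ∀ a a', a ≠ a' →
      ((selIn C fun z => ok z a ∧ ok z a' ∧ pr z a = pr z a').card : ℝ) ≤ κ)
    (d : α → ℝ) (hd : ∀ a, d a = (selIn C fun z => ok z a ∧ pr z a ∈ X z).card)
    (hE : ∀ a ∈ E, y * (C.card : ℝ) ^ 2 ≤ d a ^ 2) :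
    ∑ a ∈ E, d a ^ 2 ≤ 2 * s * (C.card : ℝ) ^ 2 := by
  have c0 : (0 : ℝ) < C.card := Nat.cast_pos.2 hC.card_pos
  have d0 : ∀ a, 0 ≤ d a := fun a => by rw [hd]; exact Nat.cast_nonneg _
  obtain ⟨om, hom⟩ : ∃ om : γ → β → ℝ, ∀ z u, om z u = ∑ a ∈ E, d a * ind (ok z a ∧ pr z a = u) :=
    ⟨_, fun _ _ => rfl⟩
  have e1 : ∀ z a, ∑ u ∈ X z, ind (ok z a ∧ pr z a = u) = ind (ok z a ∧ pr z a ∈ X z) := by
    intro z a
    by_cases h : ok z a ∧ pr z a ∈ X z
    · rw [ind_pos h, sum_eq_single_of_mem (pr z a) h.2 fun u _ hu => ind_neg fun k => hu k.2.symm,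
        ind_pos ⟨h.1, rfl⟩]
    · rw [ind_neg h]
      exact sum_eq_zero fun u hu => ind_neg fun k => h ⟨k.1, k.2 ▸ hu⟩
  have h1 : ∑ z ∈ C, ∑ u ∈ X z, om z u = ∑ a ∈ E, d a ^ 2 := by
    simp only [hom]
    rw [sum_congr rfl fun z _ => sum_comm, sum_comm]
    refine sum_congr rfl fun a _ => ?_
    simp only [← mul_sum, e1]
    rw [← card_selIn, ← hd, sq]
  have e2 : ∀ z a a', ∑ u ∈ X z, ind (ok z a ∧ pr z a = u) * ind (ok z a' ∧ pr z a' = u) ≤
      ind (ok z a ∧ ok z a' ∧ pr z a = pr z a') := by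
    intro z a a'
    by_cases h : ok z a ∧ ok z a' ∧ pr z a = pr z a'
    · rw [ind_pos h]
      refine le_trans (sum_le_sum fun u _ =>
        mul_le_of_le_one_right (ind_nonneg _) (ind_le_one _)) ?_
      rw [e1]
      exact ind_le_one _
    · rw [ind_neg h]
      refine (sum_eq_zero fun u _ => ?_).le
      by_cases k : ok z a ∧ pr z a = u
      · rw [ind_neg fun l : ok z a' ∧ pr z a' = u => h ⟨k.1, l.1, k.2.trans l.2.symm⟩, mul_zero]
      · rw [ind_neg k, zero_mul]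
  have h2 : ∑ z ∈ C, ∑ u ∈ X z, om z u ^ 2 ≤
      C.card * ∑ a ∈ E, d a ^ 2 + κ * (∑ a ∈ E, d a) ^ 2 := by
    calc _ = ∑ z ∈ C, ∑ a ∈ E, ∑ a' ∈ E, d a * d a' *
            ∑ u ∈ X z, ind (ok z a ∧ pr z a = u) * ind (ok z a' ∧ pr z a' = u) := by
          refine sum_congr rfl fun z _ => ?_
          simp only [hom, sq, sum_mul_sum]
          rw [sum_comm]
          refine sum_congr rfl fun a _ => ?_
          rw [sum_comm]
          refine sum_congr rfl fun a' _ => ?_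
          rw [mul_sum]
          exact sum_congr rfl fun u _ => by ring
      _ ≤ ∑ z ∈ C, ∑ a ∈ E, ∑ a' ∈ E, d a * d a' * ind (ok z a ∧ ok z a' ∧ pr z a = pr z a') :=
          sum_le_sum fun z _ => sum_le_sum fun a _ => sum_le_sum fun a' _ =>
            mul_le_mul_of_nonneg_left (e2 z a a') (mul_nonneg (d0 a) (d0 a'))
      _ = ∑ a ∈ E, ∑ a' ∈ E, d a * d a' *
            ((selIn C fun z => ok z a ∧ ok z a' ∧ pr z a = pr z a').card : ℝ) := by
          rw [sum_comm]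
          refine sum_congr rfl fun a _ => ?_
          rw [sum_comm]
          exact sum_congr rfl fun a' _ => by rw [card_selIn, mul_sum]
      _ ≤ ∑ a ∈ E, ∑ a' ∈ E, (d a * d a' * κ + if a' = a then C.card * d a ^ 2 else 0) := by
          refine sum_le_sum fun a _ => sum_le_sum fun a' _ => ?_
          by_cases h : a' = a
          · rw [if_pos h, h]
            have : ((selIn C fun z => ok z a ∧ ok z a ∧ pr z a = pr z a).card : ℝ) ≤ C.card :=
              Nat.cast_le.2 (card_le_card (selIn_subset _ _))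
            nlinarith [mul_le_mul_of_nonneg_left this (mul_nonneg (d0 a) (d0 a)),
              mul_nonneg (mul_nonneg (d0 a) (d0 a)) hκ]
          · rw [if_neg h, add_zero]
            exact mul_le_mul_of_nonneg_left (col a a' (Ne.symm h)) (mul_nonneg (d0 a) (d0 a'))
      _ = _ := by
          simp only [sum_add_distrib, sum_ite_eq', ← sum_mul, ← mul_sum]
          rw [sum_congr rfl fun a ha => if_pos ha, ← mul_sum]
          ring
  have h3 := (KMom_cs C X om hs).trans (mul_le_mul_of_nonneg_left h2 (by positivity))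
  rw [h1] at h3
  have h4 : y * (C.card : ℝ) ^ 2 * (∑ a ∈ E, d a) ^ 2 ≤ (∑ a ∈ E, d a ^ 2) ^ 2 := by
    rw [← Real.sq_sqrt (show 0 ≤ y * (C.card : ℝ) ^ 2 by positivity), ← mul_pow]
    refine pow_le_pow_left₀ (mul_nonneg (Real.sqrt_nonneg _) (sum_nonneg fun a _ => d0 a)) ?_ 2
    rw [mul_sum]
    refine sum_le_sum fun a ha => ?_
    rw [sq (d a)]
    exact mul_le_mul_of_nonneg_right (Real.sqrt_le_iff.2 ⟨d0 a, hE a ha⟩) (d0 a)
  have m0 : 0 ≤ ∑ a ∈ E, d a ^ 2 := sum_nonneg fun _ _ => sq_nonneg _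
  generalize ∑ a ∈ E, d a ^ 2 = M at h3 h4 m0 ⊢
  have s0 := sq_nonneg (∑ a ∈ E, d a)
  generalize (∑ a ∈ E, d a) ^ 2 = S at h3 h4 s0
  rcases m0.eq_or_lt with h | h
  · rw [← h]
    positivity
  refine le_of_mul_le_mul_right ?_ h
  nlinarith [mul_le_mul_of_nonneg_right hκy (mul_nonneg c0.le s0)]

/-- a tuple of centres whose cones meet in a small set holding a share of `P` -/
theorem tuples [Fintype α] (C : Finset γ) (hC : C.Nonempty) (cone : γ → α → Prop) (P : Finset α)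
    (J : ℕ) {B : ℝ} (hB : 0 < B) (d : α → ℝ) (hd : ∀ a, d a = (selIn C fun z => cone z a).card)
    (h1 : (P.card : ℝ) * C.card ≤ 3 * ∑ a ∈ P, d a)
    (h2 : ∑ a, d a ^ J ≤ B * (C.card : ℝ) ^ J) :
    ∃ f ∈ Fintype.piFinset fun _ : Fin J => C,
      (P.card : ℝ) ≤ 2 * 3 ^ J * (P ∩ sel fun a => ∀ i, cone (f i) a).card ∧
      ((sel fun a => ∀ i, cone (f i) a).card : ℝ) ≤ 2 * 3 ^ J * B := by
  have c0 : (0 : ℝ) < C.card := Nat.cast_pos.2 hC.card_pos
  have d0 : ∀ a, 0 ≤ d a := fun a => by rw [hd]; exact Nat.cast_nonneg _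
  have e1 : ∀ a, ∑ f ∈ Fintype.piFinset fun _ : Fin J => C, ind (∀ i, cone (f i) a) = d a ^ J := by
    intro a
    rw [hd, card_selIn, ← Fin.prod_const J, prod_univ_sum]
    refine sum_congr rfl fun f _ => ?_
    by_cases h : ∀ i, cone (f i) a
    · rw [ind_pos h, prod_eq_one fun i _ => ind_pos (h i)]
    · obtain ⟨i, hi⟩ := not_forall.1 h
      rw [ind_neg h, prod_eq_zero (mem_univ i) (ind_neg hi)]
  have e2 : ∀ S : Finset α, ∑ f ∈ Fintype.piFinset fun _ : Fin J => C,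
      ((S ∩ sel fun a => ∀ i, cone (f i) a).card : ℝ) = ∑ a ∈ S, d a ^ J := by
    intro S
    simp only [← e1]
    rw [sum_comm]
    refine sum_congr rfl fun f _ => ?_
    rw [← card_selIn]
    congr 2
    ext a
    simp only [mem_inter, mem_sel, mem_selIn]
  rcases P.eq_empty_or_nonempty with rfl | hP
  · obtain ⟨f, hf, h⟩ := exists_le_of_sum_le (s := Fintype.piFinset fun _ : Fin J => C)
      (Fintype.piFinset_nonempty.2 fun _ => hC)
      (f := fun f => ((univ ∩ sel fun a => ∀ i, cone (f i) a).card : ℝ)) (g := fun _ => B) (by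
        rw [e2, sum_const, Fintype.card_piFinset_const, nsmul_eq_mul, Nat.cast_pow, mul_comm]
        exact h2)
    rw [univ_inter] at h
    refine ⟨f, hf, by simp, h.trans (le_mul_of_one_le_left hB.le ?_)⟩
    linarith [one_le_pow₀ (n := J) (show (1 : ℝ) ≤ 3 by norm_num)]
  have p0 : (0 : ℝ) < P.card := Nat.cast_pos.2 hP.card_pos
  have t0 : (0 : ℝ) < 3 ^ J := by positivity
  have h3 : (P.card : ℝ) * (C.card : ℝ) ^ J ≤ 3 ^ J * ∑ a ∈ P, d a ^ J := by
    rcases J with _ | J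
    · simp
    have k1 := pow_sum_le_card_mul_sum_pow (s := P) (f := d) (fun a _ => d0 a) J
    have k2 := pow_le_pow_left₀ (by positivity) h1 (J + 1)
    rw [mul_pow, mul_pow] at k2
    refine le_of_mul_le_mul_left ?_ (pow_pos p0 J)
    calc _ = (P.card : ℝ) ^ (J + 1) * (C.card : ℝ) ^ (J + 1) := by ring
      _ ≤ 3 ^ (J + 1) * ((P.card : ℝ) ^ J * ∑ a ∈ P, d a ^ (J + 1)) :=
          k2.trans (mul_le_mul_of_nonneg_left k1 t0.le)
      _ = _ := by ring
  obtain ⟨f, hf, h⟩ := exists_le_of_sum_le (s := Fintype.piFinset fun _ : Fin J => C)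
    (Fintype.piFinset_nonempty.2 fun _ => hC) (f := fun _ => B * P.card)
    (g := fun f => 2 * 3 ^ J * B * ((P ∩ sel fun a => ∀ i, cone (f i) a).card : ℝ) -
      P.card * ((univ ∩ sel fun a => ∀ i, cone (f i) a).card : ℝ)) (by
      rw [sum_const, sum_sub_distrib, ← mul_sum, ← mul_sum, e2, e2, Fintype.card_piFinset_const,
        nsmul_eq_mul, Nat.cast_pow]
      nlinarith [mul_le_mul_of_nonneg_left h3 hB.le, mul_le_mul_of_nonneg_left h2 p0.le])
  rw [univ_inter] at h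
  have a1 : ((P ∩ sel fun a => ∀ i, cone (f i) a).card : ℝ) ≤ P.card :=
    Nat.cast_le.2 (card_le_card inter_subset_left)
  have a2 : (0 : ℝ) ≤ (sel fun a => ∀ i, cone (f i) a).card := Nat.cast_nonneg _
  refine ⟨f, hf, le_of_mul_le_mul_left ?_ hB, le_of_mul_le_mul_left ?_ p0⟩
  · nlinarith [mul_nonneg p0.le a2]
  · nlinarith [mul_le_mul_of_nonneg_left a1 (mul_pos t0 hB).le, mul_pos hB p0]

end

end Pool.Agent.Work.MP_e10cd8_co.All
end

-- merged part: Pool.Agent.Work.MP_e10cd8_co.All.KSmall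
section
/-! A small extremal set lies largely in an intersection of cones over containers. -/

namespace Pool.Agent.Work.MP_e10cd8_co.All

open Finset Four

variable {q t : ℕ} {Pt Pt' : Type} [Fintype Pt] [DecidableEq Pt] [Fintype Pt'] [DecidableEq Pt']
  {G : GP q (t + 1) Pt} {G' : GP q t Pt'}

/-- most centres are good -/
theorem small_pick {π : Pt → Pt → Pt'} {φ : Pt → Pt' → Pt} (hp : ∀ c, Prj G G' c (π c) (φ c))
    {x Om Γ : ℝ} (hx : 0 < x) (hOm : 0 ≤ Om) (hΓ : 0 ≤ Γ) {F' : Finset (Finset Pt')}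
    (hF : G'.Cont x (6 * Om) Γ (fun _ => True) F') (hq : Om ≤ q) {P : Finset Pt}
    (hP : G.Ext (x / 4) P Om) (hs : 2000 * (P.card : ℝ) ≤ (q : ℝ) ^ t) :
    ∃ X : Pt → Finset Pt', (∀ z, X z ∈ insert ∅ F') ∧
      (∀ z, ((X z).card : ℝ) ≤ 3 * Γ * Om * P.card) ∧
      (P.card : ℝ) * Fintype.card Pt ≤
        3 * ∑ a ∈ P, ((selIn univ fun z => a ≠ z ∧ π z a ∈ X z).card : ℝ) := by
  have q1 : (2 : ℝ) ≤ q := by exact_mod_cast G.two_le
  have p0 : (0 : ℝ) < P.card := Nat.cast_pos.2 hP.1.card_pos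
  obtain ⟨g, hg⟩ : ∃ g : Pt → ℝ, ∀ z, g z = ∑ a ∈ P, ∑ a' ∈ P,
      ind (a ≠ a' ∧ a ≠ z ∧ a' ≠ z ∧ π z a = π z a') := ⟨_, fun _ => rfl⟩
  have g0 : ∀ z, 0 ≤ g z := fun z => by
    rw [hg]
    exact sum_nonneg fun _ _ => sum_nonneg fun _ _ => ind_nonneg _
  have g1 : ∑ z, g z ≤ P.card * (P.card * (2 * q)) := by
    simp only [hg]
    rw [sum_comm, ← nsmul_eq_mul]
    refine sum_le_card_nsmul _ _ _ fun a _ => ?_
    rw [sum_comm, ← nsmul_eq_mul]
    refine sum_le_card_nsmul _ _ _ fun a' _ => ?_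
    by_cases e : a = a'
    · rw [sum_eq_zero fun z _ => ind_neg fun k => k.1 e]
      linarith
    · refine le_trans (le_of_eq ?_) (prj_col hp a a' e)
      rw [card_selIn]
      exact sum_congr rfl fun z _ => congrArg ind (propext ⟨fun k => k.2, fun k => ⟨e, k⟩⟩)
  have g2 : ((sel fun z => (P.card : ℝ) < 100 * g z).card : ℝ) ≤ 200 * q * P.card := by
    have k1 : ((sel fun z => (P.card : ℝ) < 100 * g z).card : ℝ) * P.card ≤ 100 * ∑ z, g z := by
      rw [card_sel, sum_mul, mul_sum]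
      refine sum_le_sum fun z _ => ?_
      by_cases k : (P.card : ℝ) < 100 * g z
      · rw [ind_pos k, one_mul]
        exact k.le
      · rw [ind_neg k, zero_mul]
        linarith [g0 z]
    refine le_of_mul_le_mul_right ?_ p0
    linarith
  have g3 : ((G.low (1 / 2) (G.low (x / 4) P)).card : ℝ) ≤ 4 * q * P.card := by
    have k1 := G.card_low_le (x := 1 / 2) (by norm_num) (G.low (x / 4) P)
    have k2 := hP.2
    have k3 : (0 : ℝ) < (G.low (x / 4) P).card := by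
      refine (Nat.cast_nonneg _).lt_of_ne fun k => ?_
      rw [← k, zero_mul, zero_mul] at k2
      exact absurd k2 (not_le.2 (by positivity))
    refine le_of_mul_le_mul_right ?_ k3
    nlinarith [mul_le_mul_of_nonneg_left hq (mul_nonneg k3.le p0.le)]
  obtain ⟨B, hB⟩ : ∃ B, B = P ∪ G.low (1 / 2) (G.low (x / 4) P) ∪
      sel fun z => (P.card : ℝ) < 100 * g z := ⟨_, rfl⟩
  have b1 : 10 * (B.card : ℝ) ≤ 3 * Fintype.card Pt := by
    have k1 : (B.card : ℝ) ≤ P.card + (G.low (1 / 2) (G.low (x / 4) P)).card +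
        (sel fun z => (P.card : ℝ) < 100 * g z).card := by
      rw [hB]
      exact_mod_cast (card_union_le _ _).trans (Nat.add_le_add_right (card_union_le _ _) _)
    have k2 := G.le_card_pt
    rw [pow_succ] at k2
    nlinarith [mul_le_mul_of_nonneg_left hs (show (0 : ℝ) ≤ q by linarith)]
  have b2 : ∀ z, ∃ X ∈ insert ∅ F', (X.card : ℝ) ≤ 3 * Γ * Om * P.card ∧ (z ∉ B →
      99 * (P.card : ℝ) ≤ 200 * (selIn P fun a => a ≠ z ∧ π z a ∈ X).card) := by
    intro z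
    by_cases hz : z ∈ B
    · exact ⟨∅, mem_insert_self _ _, by rw [card_empty, Nat.cast_zero]; positivity,
        fun k => absurd hz k⟩
    simp only [hB, mem_union, mem_sel, not_or, not_lt] at hz
    obtain ⟨X, hX, a1, a2⟩ := (hp z).good hx hOm hΓ hF hP hz.1.1 hz.1.2 (le_trans (by
      rw [hg, card_selIn]
      refine mul_le_mul_of_nonneg_left (sum_le_sum fun a ha => ?_) (by norm_num)
      by_cases k : ∃ a' ∈ P, a ≠ a' ∧ π z a = π z a'
      · obtain ⟨a', ha', k1, k2⟩ := k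
        refine (ind_le_one _).trans (le_trans (le_of_eq (ind_pos ?_).symm)
          (single_le_sum (f := fun a' => ind (a ≠ a' ∧ a ≠ z ∧ a' ≠ z ∧ π z a = π z a'))
            (fun _ _ => ind_nonneg _) ha'))
        exact ⟨k1, fun e => hz.1.1 (e ▸ ha), fun e => hz.1.1 (e ▸ ha'), k2⟩
      · rw [ind_neg k]
        exact sum_nonneg fun _ _ => ind_nonneg _) hz.2)
    exact ⟨X, mem_insert_of_mem hX, a1, fun _ => a2⟩
  choose X c1 c2 c3 using b2
  refine ⟨X, c1, c2, ?_⟩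
  have d1 : ∑ a ∈ P, ((selIn univ fun z => a ≠ z ∧ π z a ∈ X z).card : ℝ) =
      ∑ z, ((selIn P fun a => a ≠ z ∧ π z a ∈ X z).card : ℝ) := by
    simp only [card_selIn]
    exact sum_comm
  have d2 : (Bᶜ.card : ℝ) * (99 * P.card / 200) ≤
      ∑ z, ((selIn P fun a => a ≠ z ∧ π z a ∈ X z).card : ℝ) := by
    rw [← nsmul_eq_mul]
    refine (card_nsmul_le_sum _ (fun z => ((selIn P fun a => a ≠ z ∧ π z a ∈ X z).card : ℝ)) _
      fun z hz => ?_).trans
      (sum_le_sum_of_subset_of_nonneg (subset_univ _) fun _ _ _ => Nat.cast_nonneg _)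
    linarith [c3 z (mem_compl.1 hz)]
  have d3 : (B.card : ℝ) + Bᶜ.card = Fintype.card Pt := by exact_mod_cast card_add_card_compl B
  rw [d1]
  have d4 : (0 : ℝ) ≤ Fintype.card Pt := Nat.cast_nonneg _
  nlinarith

/-- high moments from the second moment -/
theorem small_pow {α : Type} [Fintype α] (d : α → ℝ) {c y s r : ℝ} (m : ℕ) (hy : 0 ≤ y)
    (hr : 0 < r) (hyr : y ^ 4 * r ≤ 1) (d0 : ∀ a, 0 ≤ d a) (d1 : ∀ a, d a ≤ c) (hc : 0 ≤ c)
    (hα : (Fintype.card α : ℝ) ≤ 2 * r ^ (m + 1))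
    (h2 : ∑ a ∈ sel fun a => y * c ^ 2 ≤ d a ^ 2, d a ^ 2 ≤ 2 * s * c ^ 2) :
    ∑ a, d a ^ (8 * (m + 1)) ≤ (2 + 2 * s) * c ^ (8 * (m + 1)) := by
  classical
  have r0 := pow_pos hr (m + 1)
  rw [← sum_add_sum_compl (sel fun a => y * c ^ 2 ≤ d a ^ 2), add_comm, add_mul]
  refine add_le_add ?_ ?_
  · refine (sum_le_card_nsmul _ _ (c ^ (8 * (m + 1)) / r ^ (m + 1)) fun a ha => ?_).trans ?_
    · have k1 := (lt_of_not_ge fun k => mem_compl.1 ha (mem_sel.2 k)).le
      have k2 := pow_le_pow_left₀ (sq_nonneg _) k1 (4 * (m + 1))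
      have k3 : (y ^ 4 * r) ^ (m + 1) ≤ 1 := pow_le_one₀ (by positivity) hyr
      rw [le_div_iff₀ r0]
      calc _ = (d a ^ 2) ^ (4 * (m + 1)) * r ^ (m + 1) := by ring
        _ ≤ (y * c ^ 2) ^ (4 * (m + 1)) * r ^ (m + 1) := mul_le_mul_of_nonneg_right k2 r0.le
        _ = (y ^ 4 * r) ^ (m + 1) * c ^ (8 * (m + 1)) := by ring
        _ ≤ _ := mul_le_of_le_one_left (by positivity) k3
    · rw [nsmul_eq_mul, ← mul_div_assoc, div_le_iff₀ r0, mul_right_comm]
      exact mul_le_mul_of_nonneg_right ((Nat.cast_le.2 (card_le_univ _)).trans hα) (by positivity)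
  · calc _ ≤ ∑ a ∈ sel fun a => y * c ^ 2 ≤ d a ^ 2, d a ^ 2 * c ^ (8 * m + 6) :=
          sum_le_sum fun a _ => by
            rw [show 8 * (m + 1) = 2 + (8 * m + 6) by ring, pow_add]
            exact mul_le_mul_of_nonneg_left (pow_le_pow_left₀ (d0 a) (d1 a) _) (sq_nonneg _)
      _ ≤ 2 * s * c ^ 2 * c ^ (8 * m + 6) := by
          rw [← sum_mul]
          exact mul_le_mul_of_nonneg_right h2 (by positivity)
      _ = _ := by ring

theorem small_tuple {π : Pt → Pt → Pt'} {φ : Pt → Pt' → Pt} (hp : ∀ c, Prj G G' c (π c) (φ c))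
    (ht : 3 ≤ t) {x Om Γ : ℝ} (hx : 0 < x) (hOm : 1 ≤ Om) (hΓ : 1 ≤ Γ) {F' : Finset (Finset Pt')}
    (hF : G'.Cont x (6 * Om) Γ (fun _ => True) F') (hq : (300 * Γ * Om) ^ 4 ≤ q) {P : Finset Pt}
    (hP : G.Ext (x / 4) P Om) (hs : (P.card : ℝ) ^ 2 ≤ 4 * (q : ℝ) ^ (t + 2)) :
    ∃ f ∈ Fintype.piFinset fun _ : Fin (8 * (t + 1)) => univ ×ˢ insert ∅ F',
      (P.card : ℝ) ≤ 2 * 3 ^ (8 * (t + 1)) *
        (P ∩ sel fun a => ∀ i, a ≠ (f i).1 ∧ π (f i).1 a ∈ (f i).2).card ∧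
      ((sel fun a => ∀ i, a ≠ (f i).1 ∧ π (f i).1 a ∈ (f i).2).card : ℝ) ≤
        8 * 3 ^ (8 * (t + 1)) * (3 * Γ * Om) * P.card := by
  have p1 : (1 : ℝ) ≤ P.card := by exact_mod_cast hP.1.card_pos
  obtain ⟨W, hW⟩ : ∃ W, W = 3 * Γ * Om := ⟨_, rfl⟩
  have w1 : Om ≤ W := by rw [hW]; nlinarith
  have w2 : 10 ^ 8 * W ^ 4 ≤ q := le_trans (le_of_eq (by rw [hW]; ring)) hq
  have w3 : W ≤ W ^ 4 := le_self_pow₀ (by linarith) (by norm_num)
  have q0 : (0 : ℝ) < q := by linarith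
  have r0 := pow_pos q0 t
  have n1 : q * (P.card : ℝ) ^ 2 ≤ 4 * ((q : ℝ) ^ t) ^ 2 := by
    have k : (q : ℝ) ^ (t + 2) * q ≤ ((q : ℝ) ^ t) ^ 2 := by
      rw [← pow_succ, ← pow_mul]
      exact pow_le_pow_right₀ (by linarith) (by omega)
    nlinarith
  have n2 : 2000 * (P.card : ℝ) ≤ (q : ℝ) ^ t := by
    refine (pow_le_pow_iff_left₀ (by positivity) r0.le two_ne_zero).1
      (le_of_mul_le_mul_left ?_ q0)
    nlinarith [mul_le_mul_of_nonneg_right (show (10 : ℝ) ^ 8 ≤ q by linarith) (sq_nonneg ((q : ℝ) ^ t))]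
  obtain ⟨X, c1, c2, c3⟩ := small_pick hp hx (by linarith) (by linarith) hF (by linarith) hP n2
  rw [← hW] at c2 ⊢
  have hC : (univ : Finset Pt).Nonempty := hP.1.mono (subset_univ _)
  have c0 := G.le_card_pt
  obtain ⟨y, hy⟩ : ∃ y, y = 4 * W * P.card / (q : ℝ) ^ t := ⟨_, rfl⟩
  have y1 : y * (q : ℝ) ^ t = 4 * W * P.card := by rw [hy, div_mul_cancel₀ _ r0.ne']
  have s0 : 1 ≤ W * P.card := one_le_mul_of_one_le_of_one_le (by linarith) p1
  have y0 : 0 < y := by rw [hy]; exact div_pos (by linarith) r0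
  have y2 : q * y ^ 2 ≤ 64 * W ^ 2 := by
    refine le_of_mul_le_mul_right ?_ (pow_pos r0 2)
    calc _ = q * (y * (q : ℝ) ^ t) ^ 2 := by ring
      _ = 16 * W ^ 2 * (q * (P.card : ℝ) ^ 2) := by rw [y1]; ring
      _ ≤ 16 * W ^ 2 * (4 * ((q : ℝ) ^ t) ^ 2) := mul_le_mul_of_nonneg_left n1 (by positivity)
      _ = _ := by ring
  have y3 : y ^ 4 * q ≤ 1 := by
    refine le_of_mul_le_mul_right ?_ q0
    have k := pow_le_pow_left₀ (by positivity) y2 2
    nlinarith
  have m := moment univ (sel fun a => y * ((univ : Finset Pt).card : ℝ) ^ 2 ≤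
      ((selIn univ fun z => a ≠ z ∧ π z a ∈ X z).card : ℝ) ^ 2) (fun z a => a ≠ z) π X
    (fun z _ => c2 z) (by linarith) (show (0 : ℝ) ≤ 2 * q by linarith) hC y0 (by
      rw [card_univ]
      rw [pow_succ] at c0
      nlinarith [mul_le_mul_of_nonneg_left c0 y0.le]) (prj_col hp) _ (fun _ => rfl)
    fun a ha => by rwa [mem_sel] at ha
  have m2 := small_pow _ t y0.le q0 y3 (fun _ => Nat.cast_nonneg _)
    (fun a => Nat.cast_le.2 (card_le_card (selIn_subset _ _))) (Nat.cast_nonneg _) G.card_pt_le m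
  obtain ⟨f, -, a1, a2⟩ := tuples univ hC (fun z a => a ≠ z ∧ π z a ∈ X z) P (8 * (t + 1))
    (show 0 < 2 + 2 * (W * P.card) by linarith) _ (fun _ => rfl) c3 m2
  refine ⟨fun i => (f i, X (f i)), Fintype.mem_piFinset.2 fun i =>
    mem_product.2 ⟨mem_univ _, c1 _⟩, a1, a2.trans ?_⟩
  nlinarith [mul_le_mul_of_nonneg_left s0 (show (0 : ℝ) ≤ 3 ^ (8 * (t + 1)) by positivity)]

end Pool.Agent.Work.MP_e10cd8_co.All
end

-- merged part: Pool.Agent.Work.MP_e10cd8_co.All.KStep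
section
/-! Containers pass to the next dimension. -/

namespace Pool.Agent.Work.MP_e10cd8_co.All

open Finset Four

variable {q t : ℕ} {Pt Pt' : Type} [Fintype Pt] [DecidableEq Pt] [Fintype Pt'] [DecidableEq Pt']

theorem KStep_log (hq : 1000 ≤ q) : 1 ≤ Real.log q := by
  have q1 : (1000 : ℝ) ≤ q := by exact_mod_cast hq
  rw [Real.le_log_iff_exp_le (by linarith)]
  linarith [Real.exp_one_lt_d9]

theorem KStep_lam (hq : 1000 ≤ q) {Om c : ℝ} (hOm : 1 ≤ Om) (hc : 1 ≤ c) :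
    1 ≤ lam q Om ∧ lam q (c * Om) ≤ c * lam q Om ∧ 1 + Real.log (c * Om) ≤ c * lam q Om := by
  have h1 := Real.log_nonneg hOm
  have h2 := Real.log_nonneg (KStep_log hq)
  have h3 := Real.log_le_sub_one_of_pos (show 0 < c by linarith)
  have h4 := mul_nonneg (sub_nonneg.2 hc) (add_nonneg h1 h2)
  unfold lam
  rw [Real.log_mul (by linarith) (by linarith)]
  exact ⟨by linarith, by linarith, by linarith⟩

theorem KStep_exp {a b u : ℝ} (h : a ≤ b) (hu : 1 ≤ u) :
    Real.exp a + Real.exp b ≤ Real.exp (b + u) := by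
  have h1 := Real.exp_le_exp.2 h
  have h2 := mul_le_mul_of_nonneg_left (Real.add_one_le_exp u) (Real.exp_pos b).le
  rw [Real.exp_add]
  nlinarith [Real.exp_pos b]

theorem kl_small {G : GP q (t + 1) Pt} {G' : GP q t Pt'} (hp : ∀ c, ∃ π φ, Prj G G' c π φ)
    (ht : 3 ≤ t) (hq : 1000 ≤ q) {x A Γ : ℝ} (hx : 0 < x) (hx1 : x ≤ 1 / 8) (hA : 0 ≤ A)
    (hΓ : 1 ≤ Γ) (hK : G'.KLp x A Γ) (Om : ℝ) (hOm : 1 ≤ Om) :
    ∃ F : Finset (Finset Pt), (F.card : ℝ) ≤ Real.exp ((8 * (t + 1) * (t + 3 + 6 * A) + 1 +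
        300 * (t + 2) * (8 * (t + 1) * (300 * Γ))) * q * Real.log q * lam q Om) ∧
      G.Cont (x / (4 * 3 ^ (8 * (t + 1)))) Om (8 * 3 ^ (8 * (t + 1)))
        (fun P => (P.card : ℝ) ^ 2 ≤ 4 * (q : ℝ) ^ (t + 1 + 1)) F := by
  choose π φ hp using hp
  obtain ⟨F', a1, a2⟩ := hK (6 * Om) (by linarith)
  have q1 : (1000 : ℝ) ≤ q := by exact_mod_cast hq
  have l1 := KStep_log hq
  obtain ⟨l2, l3, -⟩ := KStep_lam hq hOm (show (1 : ℝ) ≤ 6 by norm_num)
  obtain ⟨-, -, l4⟩ := KStep_lam hq hOm (show 1 ≤ 300 * Γ by linarith)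
  have l5 : 0 ≤ q * Real.log q := by positivity
  obtain ⟨u, hu⟩ : ∃ u, u = q * Real.log q * lam q Om := ⟨_, rfl⟩
  have u1 : Real.log q ≤ u := by
    rw [hu]
    nlinarith [mul_le_mul_of_nonneg_left l2 l5]
  have u0 : 0 ≤ u := by linarith
  have v1 : 1 ≤ Γ * Om := one_le_mul_of_one_le_of_one_le hΓ hOm
  have v2 : 1 ≤ 300 * Γ * Om := by linarith
  have t0 : (0 : ℝ) < 3 ^ (8 * (t + 1)) := by positivity
  have t1 : (1 : ℝ) ≤ 3 ^ (8 * (t + 1)) := one_le_pow₀ (by norm_num)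
  obtain ⟨F0, hF0⟩ : ∃ F0 : Finset (Finset Pt), F0 = insert univ
      ((Fintype.piFinset fun _ : Fin (8 * (t + 1)) => univ ×ˢ insert ∅ F').image fun f =>
        sel fun a => ∀ i, a ≠ (f i).1 ∧ π (f i).1 a ∈ (f i).2) := ⟨_, rfl⟩
  have b1 : (F0.card : ℝ) ≤ Real.exp (8 * (t + 1) * (t + 3 + 6 * A) * u + u) := by
    have k1 : (Fintype.card Pt : ℝ) ≤ Real.exp ((t + 2) * u) := by
      have : (Fintype.card Pt : ℝ) ≤ (q : ℝ) ^ (t + 1 + 1) := by
        exact_mod_cast (Nat.le_succ _).trans G.card_pt_succ_le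
      refine this.trans ?_
      rw [← Real.exp_log (show (0 : ℝ) < q by linarith), ← Real.exp_nat_mul, Real.exp_le_exp]
      push_cast
      rw [add_assoc, one_add_one_eq_two]
      exact mul_le_mul_of_nonneg_left u1 (by positivity)
    have k2 : ((insert ∅ F').card : ℝ) ≤ Real.exp (6 * A * u + u) := by
      have : ((insert ∅ F').card : ℝ) ≤ F'.card + 1 := by exact_mod_cast card_insert_le _ _
      refine this.trans (le_trans ?_ (KStep_exp (a := 0) (by positivity) (by linarith)))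
      rw [Real.exp_zero, add_comm]
      refine add_le_add le_rfl (a1.trans (Real.exp_le_exp.2 ?_))
      rw [hu]
      nlinarith [mul_le_mul_of_nonneg_left l3 (mul_nonneg hA l5)]
    have k3 : (F0.card : ℝ) ≤
        ((Fintype.card Pt : ℝ) * (insert ∅ F').card) ^ (8 * (t + 1)) + 1 := by
      rw [hF0]
      have := (card_insert_le univ _).trans (Nat.add_le_add_right (card_image_le
        (s := Fintype.piFinset fun _ : Fin (8 * (t + 1)) => univ ×ˢ insert ∅ F')
        (f := fun f => sel fun a => ∀ i, a ≠ (f i).1 ∧ π (f i).1 a ∈ (f i).2)) 1)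
      rw [Fintype.card_piFinset_const, card_product, card_univ] at this
      exact_mod_cast this
    have k4 := pow_le_pow_left₀ (by positivity)
      (mul_le_mul k1 k2 (Nat.cast_nonneg _) (Real.exp_pos _).le) (8 * (t + 1))
    rw [← Real.exp_add, ← Real.exp_nat_mul] at k4
    refine k3.trans (le_trans ?_ (KStep_exp (a := 0) (by positivity) (by linarith)))
    rw [Real.exp_zero, add_comm]
    refine add_le_add le_rfl (k4.trans (le_of_eq ?_))
    push_cast
    ring_nf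
  obtain ⟨F, c1, c2⟩ := G.cont_of_corr hq F0 b1 (W := (300 * Γ * Om) ^ (8 * (t + 1)))
    (c := 2 * 3 ^ (8 * (t + 1))) (x := x / (4 * 3 ^ (8 * (t + 1)))) (one_le_pow₀ v2)
    (by positivity) (by
      rw [div_mul_eq_mul_div, div_le_iff₀ (by positivity)]
      nlinarith)
  refine ⟨F, c1.trans (Real.exp_le_exp.2 ?_), fun P hs hP => ?_⟩
  · have k1 : 1 + Real.log ((300 * Γ * Om) ^ (8 * (t + 1))) ≤
        8 * (t + 1) * (300 * Γ * lam q Om) := by
      rw [Real.log_pow]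
      push_cast
      nlinarith [mul_le_mul_of_nonneg_left l4 (show (0 : ℝ) ≤ 8 * (t + 1) by positivity),
        Nat.cast_nonneg (α := ℝ) t]
    have k2 := mul_le_mul_of_nonneg_left k1 (show 0 ≤ 300 * ((t : ℝ) + 2) * (q * Real.log q) by
      positivity)
    push_cast
    rw [hu]
    linarith
  have p1 : (1 : ℝ) ≤ P.card := by exact_mod_cast hP.1.card_pos
  rw [show (8 : ℝ) * 3 ^ (8 * (t + 1)) = 4 * (2 * 3 ^ (8 * (t + 1))) by ring]
  by_cases hc : (300 * Γ * Om) ^ 4 ≤ q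
  · obtain ⟨f, hf, d1, d2⟩ := small_tuple hp ht hx hOm hΓ a2 hc (G.Ext_mono
      (div_le_div_of_nonneg_left hx.le (by norm_num) (by linarith)) le_rfl hP) hs
    refine c2 P hP.1 _ (hF0 ▸ mem_insert_of_mem (mem_image_of_mem _ hf)) d1 (d2.trans ?_)
    refine (mul_le_mul_of_nonneg_left d1 (by positivity)).trans ?_
    rw [← mul_assoc]
    refine mul_le_mul_of_nonneg_right ?_ (Nat.cast_nonneg _)
    have k1 : (33 * (Γ * Om)) ^ 2 ≤ (33 * (Γ * Om)) ^ (8 * (t + 1)) :=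
      pow_le_pow_right₀ (by linarith) (by omega)
    calc _ = (3 * 3) ^ (8 * (t + 1)) * (48 * (Γ * Om)) := by rw [mul_pow]; ring
      _ ≤ (3 * 3) ^ (8 * (t + 1)) * (33 * (Γ * Om)) ^ (8 * (t + 1)) :=
          mul_le_mul_of_nonneg_left (le_trans (by nlinarith) k1) (by positivity)
      _ ≤ _ := by
          rw [← mul_pow]
          exact pow_le_pow_left₀ (by positivity) (by linarith) _
  · refine c2 P hP.1 univ (hF0 ▸ mem_insert_self _ _) ?_ ?_
    · rw [inter_univ]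
      exact le_mul_of_one_le_left (by linarith) (by linarith)
    · rw [inter_univ, card_univ]
      have k1 := pow_le_pow_left₀ (by linarith) (not_le.1 hc).le (t + 1)
      have k2 : (q : ℝ) ≤ (q : ℝ) ^ (t + 1) := le_self_pow₀ (by linarith) (by omega)
      have k3 : (300 * Γ * Om) ^ (8 * (t + 1)) = (((300 * Γ * Om) ^ 4) ^ (t + 1)) ^ 2 := by
        rw [← pow_mul, ← pow_mul]
        congr 1
        ring
      refine G.card_pt_le.trans (le_trans ?_ (le_mul_of_one_le_right (by positivity) p1))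
      rw [k3]
      nlinarith

/-- a large extremal set has few low hyperplanes, so the small case applies to them -/
theorem kl_of_small (G : GP q t Pt) (hq : 1000 ≤ q) {x A Γ : ℝ} (hx : 0 < x) (hx1 : x ≤ 1 / 16)
    (hA : 0 ≤ A) (hΓ : 8 ≤ Γ) (h : ∀ Om : ℝ, 1 ≤ Om → ∃ F : Finset (Finset Pt),
      (F.card : ℝ) ≤ Real.exp (A * q * Real.log q * lam q Om) ∧
        G.Cont (2 * x) Om Γ (fun P => (P.card : ℝ) ^ 2 ≤ 4 * (q : ℝ) ^ (t + 1)) F) :
    G.KLp x (2 * A + 600 * (t + 1) * Γ + 1) Γ := by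
  intro Om hOm
  obtain ⟨F0, a1, a2⟩ := h (2 * Om) (by linarith)
  have q1 : (1000 : ℝ) ≤ q := by exact_mod_cast hq
  have l1 := KStep_log hq
  obtain ⟨l2, l3, -⟩ := KStep_lam hq hOm (show (1 : ℝ) ≤ 2 by norm_num)
  obtain ⟨-, -, l4⟩ := KStep_lam hq hOm (show 1 ≤ 2 * Γ by linarith)
  have l5 : 1 ≤ q * Real.log q := one_le_mul_of_one_le_of_one_le (by linarith) l1
  have l6 := one_le_mul_of_one_le_of_one_le l5 l2
  have b1 : (F0.card : ℝ) ≤ Real.exp (2 * A * (q * Real.log q * lam q Om)) :=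
    a1.trans (Real.exp_le_exp.2 (by
      nlinarith [mul_le_mul_of_nonneg_left l3 (mul_nonneg hA (zero_le_one.trans l5))]))
  obtain ⟨F, c1, c2⟩ := G.cont_of_corr hq F0 b1 (W := 2 * Γ * Om) (c := 2) (x := x)
    (one_le_mul_of_one_le_of_one_le (by linarith) hOm) hx.le (by linarith)
  refine ⟨F0 ∪ F, ?_, fun P _ hP => ?_⟩
  · have k1 : ((F0 ∪ F).card : ℝ) ≤ F0.card + F.card := by exact_mod_cast card_union_le _ _
    have k2 := mul_le_mul_of_nonneg_left l4
      (show 0 ≤ 300 * ((t : ℝ) + 1) * (q * Real.log q) by positivity)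
    have k3 : 0 ≤ 600 * ((t : ℝ) + 1) * Γ * (q * Real.log q * lam q Om) := by
      have : 0 ≤ Γ := by linarith
      positivity
    refine k1.trans ((add_le_add b1 (c1.trans (Real.exp_le_exp.2
      (show _ ≤ (2 * A + 600 * (t + 1) * Γ) * (q * Real.log q * lam q Om) by linarith)))).trans
      ((KStep_exp (by linarith) l6).trans (le_of_eq (by ring_nf))))
  by_cases hs : (P.card : ℝ) ^ 2 ≤ 4 * (q : ℝ) ^ (t + 1)
  · obtain ⟨Y, hY, d⟩ := G.Cont_mono (x := x) (Om := Om) (Γ := Γ) (by linarith) (by linarith)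
      le_rfl a2 P hs hP
    exact ⟨Y, mem_union_left _ hY, d⟩
  have r0 : (0 : ℝ) < (q : ℝ) ^ (t + 1) := by positivity
  obtain ⟨U, hU, d1, d2⟩ := G.corr_of_cont hx (by linarith) a2 hP (by
    have k1 := G.card_low_le (x := x) (by linarith) P
    have s0 : (0 : ℝ) ≤ (G.low x P).card := Nat.cast_nonneg _
    have p0 : (0 : ℝ) ≤ P.card := Nat.cast_nonneg _
    have k2 : ((G.low x P).card : ℝ) * P.card ≤ 2 * (q : ℝ) ^ (t + 1) := by
      nlinarith [mul_le_mul_of_nonneg_left (show 1 / 2 ≤ (1 - x) ^ 2 by nlinarith)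
        (mul_nonneg s0 p0)]
    have k3 := pow_le_pow_left₀ (mul_nonneg s0 p0) k2 2
    refine le_of_mul_le_mul_right ?_ r0
    nlinarith [mul_le_mul_of_nonneg_left (not_le.1 hs).le (sq_nonneg ((G.low x P).card : ℝ))])
  have d3 : (P.card : ℝ) ≤ 2 * (P ∩ U).card := by exact_mod_cast d1
  obtain ⟨Y, hY, e1, e2⟩ := c2 P hP.1 U hU d3 (d2.trans (by
    nlinarith [mul_le_mul_of_nonneg_left d3 (show 0 ≤ Γ * Om by nlinarith)]))
  exact ⟨Y, mem_union_right _ hY, e1, e2.trans (mul_le_mul_of_nonneg_right (by linarith) r0.le)⟩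

end Pool.Agent.Work.MP_e10cd8_co.All
end

-- merged part: Pool.Agent.Work.MP_e10cd8_co.Four.KL
section
/-! Containers for the low planes of extremal sets (paper 6). -/

namespace Pool.Agent.Work.MP_e10cd8_co.Four
namespace PG
open Finset

variable {q : ℕ} {Pt : Type} [Fintype Pt] [DecidableEq Pt] (G : PG q Pt)

theorem KL_comb (hq : 1000 ≤ q) (F0 : Finset (Finset Pt)) {A Om : ℝ} (hOm : 1 ≤ Om)
    (hA : (F0.card : ℝ) ≤ Real.exp A) :
    ∃ F : Finset (Finset Pt),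
      (F.card : ℝ) ≤ Real.exp (A + 1300 * q * Real.log q * (1 + Real.log Om)) ∧
      ∀ U ∈ F0, ∀ X ⊆ U, X.Nonempty → (U.card : ℝ) ≤ Om * X.card →
        ∃ Y ∈ F, G.low (1 / 8) X ⊆ Y ∧ (Y.card : ℝ) * X.card ≤ 4 * (q : ℝ) ^ 4 := by
  choose FU h1 h2 using fun U => G.boost hq U hOm
  refine ⟨F0.biUnion FU, ?_, fun U hU X hX hne hc => ?_⟩
  · have h3 : ((F0.biUnion FU).card : ℝ) ≤ ∑ U ∈ F0, ((FU U).card : ℝ) := by
      exact_mod_cast card_biUnion_le
    refine h3.trans ((sum_le_sum fun U _ => h1 U).trans ?_)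
    rw [sum_const, nsmul_eq_mul, Real.exp_add]
    exact mul_le_mul_of_nonneg_right hA (Real.exp_pos _).le
  · obtain ⟨Y, hY, h⟩ := h2 U X hX hne hc
    exact ⟨Y, mem_biUnion.2 ⟨U, hU, hY⟩, h⟩

theorem KL_log {w : ℝ} (hw : (2 : ℝ) ^ 30 ≤ w) : 1 ≤ Real.log w ∧ Real.log 16 ≤ Real.log w := by
  have h1 : Real.log 16 ≤ Real.log w := Real.log_le_log (by norm_num) (by linarith)
  refine ⟨le_trans ?_ h1, h1⟩
  rw [Real.le_log_iff_exp_le (by norm_num)]
  linarith [Real.exp_one_lt_d9]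

theorem KL_qL (hq : 1000 ≤ q) : (1 : ℝ) ≤ q * Real.log q := by
  have q1 : (1000 : ℝ) ≤ q := by exact_mod_cast hq
  have h : 1 ≤ Real.log q := by
    rw [Real.le_log_iff_exp_le (by linarith)]
    linarith [Real.exp_one_lt_d9]
  exact one_le_mul_of_one_le_of_one_le (by linarith) h

/-- `corr`, then `boost U (4 w^400)` for every member `U`, with `X = P ∩ U`; `low_subset_low` -/
theorem kl_small (hq : 1000 ≤ q) {w : ℝ} (hw : (2 : ℝ) ^ 30 ≤ w) (hL : Real.log q ≤ w) :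
    ∃ F : Finset (Finset Pt), (F.card : ℝ) ≤ Real.exp (2 ^ 33 * q * Real.log q * Real.log w) ∧
      ∀ P : Finset Pt, P.card ≤ q ^ 2 → G.Ext (1 / 2 ^ 27) P w →
        ∃ Y ∈ F, G.low (1 / 2 ^ 27) P ⊆ Y ∧ (Y.card : ℝ) * P.card ≤ 16 * (q : ℝ) ^ 4 := by
  obtain ⟨F0, a1, a2⟩ := G.corr hq hw hL
  have w1 : (1 : ℝ) ≤ w := by linarith
  have w2 : (1 : ℝ) ≤ w ^ 400 := one_le_pow₀ w1
  obtain ⟨F, b1, b2⟩ := G.KL_comb hq F0 (Om := 4 * w ^ 400) (by linarith) a1
  obtain ⟨l1, l2⟩ := KL_log hw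
  have l3 := KL_qL hq
  refine ⟨F, b1.trans (Real.exp_le_exp.2 ?_), fun P hP hE => ?_⟩
  · have l4 : Real.log (4 * w ^ 400) ≤ 401 * Real.log w := by
      rw [Real.log_mul (by norm_num) (by positivity), Real.log_pow]
      have : Real.log 4 ≤ Real.log 16 := Real.log_le_log (by norm_num) (by norm_num)
      push_cast
      linarith
    have l5 : (q * Real.log q) * (1 + Real.log (4 * w ^ 400)) ≤
        (q * Real.log q) * (402 * Real.log w) :=
      mul_le_mul_of_nonneg_left (by linarith) (by linarith)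
    have l6 : 0 ≤ (q * Real.log q) * Real.log w := mul_nonneg (by linarith) (by linarith)
    linarith
  · obtain ⟨U, hU, c1, c2⟩ := a2 P hP hE
    have c3 : (P.card : ℝ) ≤ 4 * (P ∩ U).card := by exact_mod_cast c1
    have hne : (P ∩ U).Nonempty := by
      have := hE.1.card_pos
      exact card_pos.1 (by omega)
    obtain ⟨Y, hY, d1, d2⟩ := b2 U hU (P ∩ U) inter_subset_right hne (by
      have := mul_le_mul_of_nonneg_left c3 (by linarith : 0 ≤ w ^ 400)
      linarith)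
    refine ⟨Y, hY, (G.low_subset_low inter_subset_left (by norm_num) c3 (by norm_num)).trans d1, ?_⟩
    have := mul_le_mul_of_nonneg_left c3 (Nat.cast_nonneg (α := ℝ) Y.card)
    linarith

/-- For `|P| > q^2` choose `Y' ⊆ low (1/2^28) P` of size `min |low| q^2 ≥ |low| / 2`
(`card_low_le`); `half_low` makes `Y'` extremal with `4 Om ≤ w`; `kl_small` gives
`U ⊇ low (1/2^27) Y'` with `|U| ≤ 32 Om |P|`; `boost U (64 Om)` with `X = P ∩ U`. -/
theorem kl (hq : 1000 ≤ q) {w Om : ℝ} (hw : (2 : ℝ) ^ 30 ≤ w) (hL : Real.log q ≤ w)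
    (hOm : 1 ≤ Om) (hOw : 4 * Om ≤ w) :
    ∃ F : Finset (Finset Pt), (F.card : ℝ) ≤ Real.exp (2 ^ 34 * q * Real.log q * Real.log w) ∧
      G.Cont (1 / 2 ^ 28) Om F := by
  obtain ⟨F1, a1, a2⟩ := G.kl_small hq hw hL
  obtain ⟨F2, b1, b2⟩ := G.KL_comb hq F1 (Om := 64 * Om) (by linarith) a1
  obtain ⟨l1, l2⟩ := KL_log hw
  have l3 := KL_qL hq
  have q1 : (1000 : ℝ) ≤ q := by exact_mod_cast hq
  have q4 : (0 : ℝ) < (q : ℝ) ^ 4 := by positivity
  refine ⟨F1 ∪ F2, ?_, fun P hE => ?_⟩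
  · have l4 : Real.log (64 * Om) ≤ 2 * Real.log w := by
      have : Real.log (64 * Om) ≤ Real.log (16 * w) := Real.log_le_log (by linarith) (by linarith)
      rw [Real.log_mul (x := 16) (by norm_num) (by linarith)] at this
      linarith
    have l5 : (q * Real.log q) * (1 + Real.log (64 * Om)) ≤
        (q * Real.log q) * (3 * Real.log w) :=
      mul_le_mul_of_nonneg_left (by linarith) (by linarith)
    have l6 : 1 ≤ (q * Real.log q) * Real.log w := one_le_mul_of_one_le_of_one_le l3 l1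
    have e1 : ((F1 ∪ F2).card : ℝ) ≤ F1.card + F2.card := by exact_mod_cast card_union_le _ _
    have e2 : (F1.card : ℝ) ≤ Real.exp (2 ^ 34 * q * Real.log q * Real.log w - 1) :=
      a1.trans (Real.exp_le_exp.2 (by linarith))
    have e3 : (F2.card : ℝ) ≤ Real.exp (2 ^ 34 * q * Real.log q * Real.log w - 1) :=
      b1.trans (Real.exp_le_exp.2 (by linarith))
    have e4 : (2 : ℝ) ≤ Real.exp 1 := by linarith [Real.add_one_le_exp (1 : ℝ)]
    have e5 := mul_le_mul_of_nonneg_left e4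
      (Real.exp_pos (2 ^ 34 * q * Real.log q * Real.log w - 1)).le
    rw [← Real.exp_add, sub_add_cancel] at e5
    linarith
  · have hm : G.low (1 / 2 ^ 28) P ⊆ G.low (1 / 2 ^ 27) P := G.low_mono (by norm_num) P
    have hP0 : (0 : ℝ) ≤ P.card := Nat.cast_nonneg _
    by_cases hP : P.card ≤ q ^ 2
    · have h1 : ((G.low (1 / 2 ^ 28) P).card : ℝ) ≤ (G.low (1 / 2 ^ 27) P).card := by
        exact_mod_cast card_le_card hm
      obtain ⟨Y, hY, d1, d2⟩ := a2 P hP ⟨hE.1, hE.2.trans (by gcongr; linarith)⟩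
      exact ⟨Y, mem_union_left _ hY, hm.trans d1, d2⟩
    · have h1 : (q : ℝ) ^ 2 ≤ P.card := by exact_mod_cast (not_le.1 hP).le
      have h2 := G.card_low_le (x := 1 / 2 ^ 28) (by norm_num) P
      have h3 := hE.2
      have hL0 : (0 : ℝ) ≤ (G.low (1 / 2 ^ 28) P).card := Nat.cast_nonneg _
      have h4 : (G.low (1 / 2 ^ 28) P).card ≤ 2 * q ^ 2 := by
        have k1 := mul_le_mul_of_nonneg_left h1 hL0
        have k2 : ((G.low (1 / 2 ^ 28) P).card : ℝ) * P.card * (1 / 2) ≤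
            ((G.low (1 / 2 ^ 28) P).card : ℝ) * P.card * (1 - 1 / 2 ^ 28) ^ 2 :=
          mul_le_mul_of_nonneg_left (by norm_num) (by positivity)
        have k3 : ((G.low (1 / 2 ^ 28) P).card : ℝ) * (q : ℝ) ^ 2 ≤ 2 * (q : ℝ) ^ 2 * (q : ℝ) ^ 2 := by
          linarith
        have k4 := le_of_mul_le_mul_right k3 (by positivity)
        exact_mod_cast k4
      obtain ⟨Y', y1, y2⟩ := exists_subset_card_eq (s := G.low (1 / 2 ^ 28) P)
        (n := min (G.low (1 / 2 ^ 28) P).card (q ^ 2)) (min_le_left _ _)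
      have y3 : ((G.low (1 / 2 ^ 28) P).card : ℝ) ≤ 2 * Y'.card := by
        have : (G.low (1 / 2 ^ 28) P).card ≤ 2 * Y'.card := by omega
        exact_mod_cast this
      have y0 : (0 : ℝ) ≤ Y'.card := Nat.cast_nonneg _
      have y4 : (q : ℝ) ^ 4 ≤ 2 * Y'.card * P.card * Om := h3.trans (by gcongr)
      have h5 := G.half_low (by norm_num) y1
      rw [show (2 : ℝ) * (1 / 2 ^ 28) = 1 / 2 ^ 27 by norm_num] at h5
      have h6 : (P.card : ℝ) ≤ 2 * (G.low (1 / 2 ^ 27) Y').card := by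
        have := card_le_card (inter_subset_right (s₁ := P) (s₂ := G.low (1 / 2 ^ 27) Y'))
        have : P.card ≤ 2 * (G.low (1 / 2 ^ 27) Y').card := by omega
        exact_mod_cast this
      have hne : Y'.Nonempty := by
        rw [nonempty_iff_ne_empty]
        rintro rfl
        simp at y4
        linarith
      obtain ⟨U, hU, u1, u2⟩ := a2 Y' (by omega) ⟨hne, by
        calc (q : ℝ) ^ 4 ≤ 2 * Y'.card * P.card * Om := y4
          _ ≤ 2 * Y'.card * (2 * (G.low (1 / 2 ^ 27) Y').card) * Om := by gcongr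
          _ = (G.low (1 / 2 ^ 27) Y').card * Y'.card * (4 * Om) := by ring
          _ ≤ _ := by gcongr⟩
      have u3 : (U.card : ℝ) ≤ 32 * Om * P.card := by
        refine le_of_mul_le_mul_right ?_ q4
        calc (U.card : ℝ) * (q : ℝ) ^ 4 ≤ U.card * (2 * Y'.card * P.card * Om) := by gcongr
          _ = U.card * Y'.card * (2 * P.card * Om) := by ring
          _ ≤ 16 * (q : ℝ) ^ 4 * (2 * P.card * Om) := by gcongr
          _ = _ := by ring
      have c1 : P.card ≤ 2 * (P ∩ U).card :=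
        h5.trans (Nat.mul_le_mul_left 2 (card_le_card (inter_subset_inter_left u1)))
      have c3 : (P.card : ℝ) ≤ 2 * (P ∩ U).card := by exact_mod_cast c1
      have hne' : (P ∩ U).Nonempty := by
        have := hE.1.card_pos
        exact card_pos.1 (by omega)
      obtain ⟨Y, hY, d1, d2⟩ := b2 U hU (P ∩ U) inter_subset_right hne' (by
        have := mul_le_mul_of_nonneg_left c3 (by linarith : 0 ≤ 32 * Om)
        linarith)
      refine ⟨Y, mem_union_right _ hY,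
        (G.low_subset_low inter_subset_left (by norm_num) c3 (by norm_num)).trans d1, ?_⟩
      have := mul_le_mul_of_nonneg_left c3 (Nat.cast_nonneg (α := ℝ) Y.card)
      linarith

end PG
end Pool.Agent.Work.MP_e10cd8_co.Four
end

-- merged part: Pool.Agent.Work.MP_e10cd8_co.All.KL
section
/-! Containers in every dimension, by projection. -/

namespace Pool.Agent.Work.MP_e10cd8_co.All

open Finset Four

theorem kl_base {q : ℕ} {Pt : Type} [Fintype Pt] [DecidableEq Pt] (G : GP q 3 Pt)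
    (hq : 1000 ≤ q) : G.KLp (1 / 2 ^ 28) (23 * 2 ^ 34) 16 := by
  let H : PG q Pt :=
    { pl := G.pl
      two_le := G.two_le
      symm := G.symm
      card_pt := by rw [G.card_pt]; simp only [gs, sum_range_succ, sum_range_zero]; ring
      deg := fun a => by rw [G.deg]; simp only [gs, sum_range_succ, sum_range_zero]; ring
      codeg := fun a y h => by
        rw [G.codeg h]; simp only [gs, sum_range_succ, sum_range_zero]; ring
      tri := fun a y z h hn => by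
        have h1 : G.pl a ∩ G.pl y ∩ G.pl z = G.perp (insert z {a, y}) := by
          ext b
          simp only [G.mem_perp, mem_inter, insert_subset_iff, singleton_subset_iff, G.symm b]
          tauto
        have h2 := G.rk_lt (A := {a, y}) (B := insert z {a, y}) (subset_insert _ _)
          (mem_insert_self _ _) fun k => hn (G.perp_pair a y ▸ G.mem_perp.1 k)
        have h3 := G.rk_insert z {a, y}
        rw [G.rk_two _ _ h] at h2 h3
        rw [h1, G.card_perp, show G.rk (insert z {a, y}) = 3 by omega]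
        simp [gs] }
  intro Om hOm
  have l1 := KStep_log hq
  have l2 : 1 ≤ Om * Real.log q := one_le_mul_of_one_le_of_one_le hOm l1
  have l3 : Om ≤ Om * Real.log q := le_mul_of_one_le_right (by linarith) l1
  have l4 : Real.log q ≤ Om * Real.log q := le_mul_of_one_le_left (by linarith) hOm
  obtain ⟨F, a1, a2⟩ := H.kl hq (w := 2 ^ 32 * (Om * Real.log q)) (by linarith) (by linarith) hOm
    (by linarith)
  refine ⟨F, a1.trans (Real.exp_le_exp.2 ?_), fun P _ hP => a2 P hP⟩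
  have k1 : Real.log (2 ^ 32 * (Om * Real.log q)) ≤ 23 * lam q Om := by
    rw [Real.log_mul (by norm_num) (by linarith), Real.log_mul (by linarith) (by linarith),
      Real.log_pow]
    unfold lam
    push_cast
    linarith [Real.log_two_lt_d9, Real.log_nonneg hOm, Real.log_nonneg l1]
  linarith [mul_le_mul_of_nonneg_left k1 (show 0 ≤ (2 : ℝ) ^ 34 * q * Real.log q by positivity)]

theorem kl_tower (j : ℕ) : ∃ x A Γ : ℝ, 0 < x ∧ x ≤ 1 / 8 ∧ 0 ≤ A ∧ 1 ≤ Γ ∧
    ∀ (q : ℕ) (Pt : ℕ → Type) [∀ t, Fintype (Pt t)] [∀ t, DecidableEq (Pt t)]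
      (G : ∀ t, GP q (t + 2) (Pt t)), 1000 ≤ q →
      (∀ (t : ℕ) (c : Pt (t + 1)), ∃ π φ, Prj (t := t + 2) (G (t + 1)) (G t) c π φ) →
      (G (j + 1)).KLp x A Γ := by
  induction j with
  | zero =>
    exact ⟨_, _, _, by norm_num, by norm_num, by norm_num, by norm_num,
      fun q Pt _ _ G hq _ => kl_base (G 1) hq⟩
  | succ j ih =>
    obtain ⟨x, A, Γ, h1, h2, h3, h4, h5⟩ := ih
    have t1 : (1 : ℝ) ≤ 3 ^ (8 * (j + 1 + 2 + 1)) := one_le_pow₀ (by norm_num)
    have x1 : x / (4 * 3 ^ (8 * (j + 1 + 2 + 1))) / 2 ≤ 1 / 16 := by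
      linarith [div_le_self h1.le (show (1 : ℝ) ≤ 4 * 3 ^ (8 * (j + 1 + 2 + 1)) by linarith)]
    refine ⟨x / (4 * 3 ^ (8 * (j + 1 + 2 + 1))) / 2, _, 8 * 3 ^ (8 * (j + 1 + 2 + 1)),
      by positivity, by linarith, ?_, by linarith, fun q Pt _ _ G hq hp =>
        kl_of_small (G (j + 1 + 1)) hq (by positivity) x1 ?_ (by linarith) (by
          rw [mul_div_cancel₀ _ two_ne_zero]
          exact kl_small (t := j + 1 + 2) (hp (j + 1)) (by omega) hq h1 h2 h3 h4
            (h5 q Pt G hq hp))⟩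
    all_goals positivity

/-- dimension three from `Four.PG.kl`, higher dimensions by projecting from random centres,
dimension two by lifting to a cone -/
theorem kl_all (j : ℕ) : ∃ x A Γ : ℝ, 0 < x ∧ x ≤ 1 / 8 ∧ 0 ≤ A ∧ 1 ≤ Γ ∧
    ∀ q : ℕ, q.Prime → 1000 ≤ q → ∃ (Pt : Type) (_ : Fintype Pt) (_ : DecidableEq Pt)
      (G : GP q (j + 2) Pt), G.KLp x A Γ := by
  obtain ⟨x, A, Γ, h1, h2, h3, h4, h5⟩ := kl_tower j
  refine ⟨x, A, Γ, h1, h2, h3, h4, fun q hp hq => ?_⟩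
  obtain ⟨Pt, i1, i2, G, hG⟩ := exists_tower q hp
  have h6 : 0 < Fintype.card (Pt (j + 1)) := by
    rw [(G (j + 1)).card_pt, gs_succ]
    omega
  obtain ⟨c⟩ := Fintype.card_pos_iff.1 h6
  obtain ⟨π, φ, h7⟩ := hG j c
  exact ⟨Pt j, i1 j, i2 j, G j, h7.kl_down (h5 q Pt G hq hG)⟩

end Pool.Agent.Work.MP_e10cd8_co.All
end

-- merged part: Pool.Agent.Work.MP_e10cd8_co.Far.KInit
section
/-! Choice of a level in each row. -/

namespace Pool.Agent.Work.MP_e10cd8_co.Far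
open Finset Real Pool.Agent.Work.MP_e10cd8_co.Up

variable {V X ι J : Type} [Fintype V] [Fintype X] [Fintype ι] [Fintype J]
  [DecidableEq V] [DecidableEq X] [DecidableEq ι] [DecidableEq J]

/-- dyadic decomposition of the positive part -/
theorem kinit_dy (M t : ℝ) (t0 : 0 < t) (n : ℕ) : max M 0 ≤
    t + ∑ i ∈ range n, (if 2 ^ i * t ≤ M then 2 ^ (i + 1) * t else 0) + M ^ 2 / (2 ^ n * t) := by
  have p : ∀ n : ℕ, 0 ≤ ∑ i ∈ range n, (if 2 ^ i * t ≤ M then 2 ^ (i + 1) * t else 0) :=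
    fun n => sum_nonneg fun i _ => by
      split_ifs
      · positivity
      · exact le_rfl
  have key : ∀ n : ℕ, M ≤ 2 ^ n * t →
      max M 0 ≤ t + ∑ i ∈ range n, (if 2 ^ i * t ≤ M then 2 ^ (i + 1) * t else 0) := by
    intro n
    induction n with
    | zero =>
      intro h
      rw [pow_zero, one_mul] at h
      rw [sum_range_zero, add_zero]
      exact max_le h t0.le
    | succ n ih =>
      intro h
      rw [sum_range_succ]
      split_ifs with k
      · have := max_le h (by positivity : (0 : ℝ) ≤ 2 ^ (n + 1) * t)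
        linarith only [this, p n, t0]
      · rw [add_zero]
        exact ih (not_le.1 k).le
  have q : (0 : ℝ) < 2 ^ n * t := by positivity
  rcases le_total M (2 ^ n * t) with k | k
  · exact le_add_of_le_of_nonneg (key n k) (div_nonneg (sq_nonneg _) q.le)
  · have k0 := q.le.trans k
    rw [max_eq_left k0]
    refine le_add_of_nonneg_of_le (add_nonneg t0.le (p n)) ?_
    rw [le_div_iff₀ q, sq]
    exact mul_le_mul_of_nonneg_left k k0

/-- One row.  Off `G` Cauchy-Schwarz gives at most `e / 4`; `t0 = e / (16 D)`,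
`512 ≤ ν 2 ^ n ≤ 1024`; `kinit_dy`; the first and last terms give `e / 16` each, so some
`t = 2 ^ i t0`, `i < n`, has `m t ^ 2 ≥ e t0 / 32` where `m` is the mass below. -/
theorem kinit_row {ω W M : X → ℝ} (hω : ∀ o, 0 ≤ ω o) (hW : ∀ o, W o = 0 ∨ W o = 1) {G : Finset X}
    {D ν e : ℝ} (D0 : 0 < D) (ν0 : 0 < ν) (ν1 : ν ≤ 1) (h1 : ∑ o, ω o * M o ^ 2 = e)
    (h2 : e ≤ 2 * ∑ o, ω o * W o * max (M o) 0) (h3 : ν * D / 2 ≤ e) (h4 : ∑ o, ω o * W o ≤ D)
    (h5 : ∑ o ∈ Gᶜ, ω o ≤ ν * D / 32) :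
    ∃ t : ℝ, 0 < t ∧ ν * e ≤ 512 * D * t ^ 2 ∧
      D * ν ^ 2 / 2 ^ 21 ≤ ∑ o ∈ G with W o = 1 ∧ t ≤ M o ∧ 0 < ω o, ω o ∧
      ν * e ≤ 1024 * t ^ 2 * ∑ o ∈ G with W o = 1 ∧ t ≤ M o ∧ 0 < ω o, ω o := by
  have e0 : 0 < e := lt_of_lt_of_le (half_pos (mul_pos ν0 D0)) h3
  obtain ⟨n, n1, n2⟩ := exists_nat_pow_near (x := 1024 / ν) (y := 2)
    ((le_div_iff₀ ν0).2 (by linarith only [ν1])) one_lt_two
  rw [le_div_iff₀ ν0] at n1
  rw [div_lt_iff₀ ν0, pow_succ] at n2
  obtain ⟨t0, ht⟩ : ∃ t0, t0 = e / (16 * D) := ⟨_, rfl⟩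
  have tp : 0 < t0 := ht ▸ div_pos e0 (by linarith only [D0])
  have te : 16 * D * t0 = e := by
    rw [ht]
    field_simp
  have W0 : ∀ o, 0 ≤ ω o * W o := fun o => by
    rcases hW o with k | k <;> rw [k] <;> linarith only [hω o]
  have W1 : ∀ o, ω o * W o ≤ ω o := fun o => by
    rcases hW o with k | k <;> rw [k] <;> linarith only [hω o]
  have q0 : ∀ o, 0 ≤ ω o * M o ^ 2 := fun o => mul_nonneg (hω o) (sq_nonneg _)
  have a1 : ∑ o ∈ Gᶜ, ω o * W o * max (M o) 0 ≤ e / 4 := by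
    have k1 : ∑ o ∈ Gᶜ, ω o * W o * max (M o) 0 ≤ ∑ o ∈ Gᶜ, (ω o * M o ^ 2 / 8 + 2 * ω o) :=
      sum_le_sum fun o _ => by
        have : max (M o) 0 ≤ M o ^ 2 / 8 + 2 :=
          max_le (by nlinarith only [sq_nonneg (M o - 4)]) (by positivity)
        refine (mul_le_mul (W1 o) this (le_max_right _ _) (hω o)).trans (le_of_eq (by ring))
    rw [sum_add_distrib, ← sum_div, ← mul_sum] at k1
    have k2 : ∑ o ∈ Gᶜ, ω o * M o ^ 2 ≤ e :=
      h1 ▸ sum_le_sum_of_subset_of_nonneg (subset_univ _) fun o _ _ => q0 o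
    linarith only [k1, k2, h5, h3]
  obtain ⟨m, hm⟩ : ∃ m : ℝ → ℝ, ∀ t, m t = ∑ o ∈ G with W o = 1 ∧ t ≤ M o ∧ 0 < ω o, ω o :=
    ⟨_, fun _ => rfl⟩
  have a2 : ∑ o ∈ G, ω o * W o * max (M o) 0 ≤
      D * t0 + ∑ i ∈ range n, 2 ^ (i + 1) * t0 * m (2 ^ i * t0) + e / (2 ^ n * t0) := by
    refine (sum_le_sum fun o _ => mul_le_mul_of_nonneg_left (kinit_dy (M o) t0 tp n) (W0 o)).trans ?_
    simp only [mul_add, sum_add_distrib]
    refine add_le_add (add_le_add ?_ (le_of_eq ?_)) ?_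
    · rw [← sum_mul]
      exact mul_le_mul_of_nonneg_right
        ((sum_le_sum_of_subset_of_nonneg (subset_univ _) fun o _ _ => W0 o).trans h4) tp.le
    · simp only [mul_sum]
      rw [sum_comm]
      refine sum_congr rfl fun i _ => ?_
      rw [hm, sum_filter, mul_sum]
      refine sum_congr rfl fun o _ => ?_
      rcases hW o with k | k
      · simp [k]
      rcases (hω o).eq_or_lt with k' | k'
      · simp [← k']
      by_cases k2 : 2 ^ i * t0 ≤ M o
      · rw [if_pos k2, if_pos ⟨k, k2, k'⟩, k]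
        ring
      · rw [if_neg k2, if_neg fun c => k2 c.2.1, mul_zero, mul_zero]
    · rw [← h1, sum_div]
      refine (sum_le_sum fun o _ => ?_).trans (sum_le_sum_of_subset_of_nonneg (subset_univ G)
        fun o _ _ => div_nonneg (q0 o) (by positivity))
      rw [mul_div_assoc]
      exact mul_le_mul_of_nonneg_right (W1 o) (by positivity)
  have a3 : e / (2 ^ n * t0) < e / 16 := by
    refine div_lt_div_of_pos_left e0 (by norm_num) (lt_of_mul_lt_mul_left ?_ (mul_pos ν0 D0).le)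
    have k1 := mul_lt_mul_of_pos_right n2 (mul_pos D0 tp)
    linarith only [k1, te, h3]
  have a4 : ∃ i ∈ range n, e * t0 / 32 ≤ (2 ^ i * t0) ^ 2 * m (2 ^ i * t0) := by
    by_contra c
    have k1 : ∑ i ∈ range n, 2 ^ (i + 1) * t0 * m (2 ^ i * t0) ≤
        ∑ i ∈ range n, e / 16 * (1 / 2) ^ i := sum_le_sum fun i hi => by
      have k := not_le.1 fun k => c ⟨i, hi, k⟩
      refine le_of_mul_le_mul_left ?_ (by positivity : (0 : ℝ) < 2 ^ i * t0)
      have k2 : 2 ^ i * t0 * (e / 16 * (1 / 2) ^ i) = e * t0 / 16 := by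
        rw [one_div, inv_pow]
        field_simp
      rw [k2, pow_succ]
      linarith only [k]
    rw [← mul_sum] at k1
    have k2 := mul_le_mul_of_nonneg_left (sum_geometric_two_le n) (by positivity : 0 ≤ e / 16)
    rw [← sum_add_sum_compl G] at h2
    linarith only [k1, k2, h2, a1, a2, a3, te]
  obtain ⟨i, hi, k⟩ := a4
  have m0 : 0 ≤ m (2 ^ i * t0) := hm _ ▸ sum_nonneg fun o _ => hω o
  have b1 : t0 ≤ 2 ^ i * t0 := le_mul_of_one_le_left tp.le (one_le_pow₀ one_le_two)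
  have b2 : ν * e ≤ 32 * (e * t0) := by
    have := mul_le_mul_of_nonneg_right h3 e0.le
    refine le_of_mul_le_mul_left ?_ D0
    rw [show D * (32 * (e * t0)) = 2 * e * (16 * D * t0) by ring, te]
    linarith only [this]
  refine ⟨2 ^ i * t0, by positivity, ?_, ?_, ?_⟩
  · have k1 := mul_le_mul_of_nonneg_left (pow_le_pow_left₀ tp.le b1 2) D0.le
    rw [← te] at b2 ⊢
    linarith only [k1, b2]
  · rw [← hm]
    have k1 : 2 ^ i * t0 * ν ≤ 1024 * t0 := by
      have := mul_le_mul_of_nonneg_right ((mul_le_mul_of_nonneg_right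
        (pow_le_pow_right₀ one_le_two (mem_range.1 hi).le) ν0.le).trans n1) tp.le
      linarith only [this]
    have k2 := mul_le_mul_of_nonneg_right (pow_le_pow_left₀ (by positivity) k1 2) m0
    have k3 := mul_le_mul_of_nonneg_right k (sq_nonneg ν)
    refine le_of_mul_le_mul_left ?_ (pow_pos tp 2)
    rw [← te] at k3
    linarith only [k2, k3]
  · rw [← hm]
    linarith only [k, b2]

/-- Rows `R = {v ∈ GG | ν D / 2 ≤ e v}` have mass `≥ ν / 4`; `kinit_row` gives `t v`;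
`a' v = s a v / t v` on `R` (else `0`), `b' o = b o / s` on `G` (else `0`) with
`s ^ 2 = Θ ν / (512 D)`; `E = {(v, o) | v ∈ R, 0 < ω v, o ∈ G, W v o = 1, t v ≤ M v o, 0 < ω' o}`. -/
theorem kinit {ω : V → ℝ} {ω' : X → ℝ} (hω : Pb ω) (hω' : Pb ω') {W : V → X → ℝ}
    (hW : ∀ v o, W v o = 0 ∨ W v o = 1) {GG : Finset V} {G : Finset X} {a : V → ι → ℝ}
    {b : X → ι → ℝ} {D ν B Θ : ℝ} (D0 : 0 < D) (ν0 : 0 < ν) (ν1 : ν ≤ 1) (Θ0 : 0 < Θ)
    (h1 : ∀ v ∈ GG, ∑ o, ω' o * (∑ i, a v i * b o i) ^ 2 = ∑ i, a v i ^ 2)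
    (h2 : ∀ v ∈ GG, ∑ i, a v i ^ 2 ≤ 2 * ∑ o, ω' o * W v o * max (∑ i, a v i * b o i) 0)
    (h3 : ∀ v ∈ GG, ∑ i, a v i ^ 2 ≤ 2 * D) (h4 : ∀ v ∈ GG, ∑ o, ω' o * W v o ≤ D)
    (h5 : ∑ o ∈ Gᶜ, ω' o ≤ ν * D / 32) (h6 : ∀ o ∈ G, ∑ i, b o i ^ 2 ≤ B)
    (h7 : ν * D ≤ ∑ v ∈ GG, ω v * ∑ i, a v i ^ 2) (h8 : 512 * D * B ≤ ν * Θ ^ 2) :
    ∃ (a' : V → ι → ℝ) (b' : X → ι → ℝ) (E : Finset (V × X)), (∀ v, ∑ i, a' v i ^ 2 ≤ Θ) ∧
      (∀ o, ∑ i, b' o i ^ 2 ≤ Θ) ∧
      (∀ z ∈ E, W z.1 z.2 = 1 ∧ 1 ≤ ∑ i, a' z.1 i * b' z.2 i ∧ 0 < ω z.1 ∧ 0 < ω' z.2) ∧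
      D * ν ^ 3 / 2 ^ 23 ≤ ∑ z ∈ E, ω z.1 * ω' z.2 ∧
      ∑ v, ∑ o, ω v * ω' o * (∑ i, a' v i * b' o i) ^ 2 ≤ 1024 / ν * ∑ z ∈ E, ω z.1 * ω' z.2 := by
  obtain ⟨R, hR⟩ : ∃ R, R = GG.filter fun v => ν * D / 2 ≤ ∑ i, a v i ^ 2 := ⟨_, rfl⟩
  have r1 : ν / 4 ≤ ∑ v ∈ R, ω v := by
    have k1 : ∑ v ∈ GG, ω v * ∑ i, a v i ^ 2 ≤
        ∑ v ∈ GG, (2 * D * (if ν * D / 2 ≤ ∑ i, a v i ^ 2 then ω v else 0) + ν * D / 2 * ω v) :=
      sum_le_sum fun v hv => by
        have q := mul_nonneg (half_pos (mul_pos ν0 D0)).le (hω.1 v)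
        split_ifs with k
        · linarith only [mul_le_mul_of_nonneg_left (h3 v hv) (hω.1 v), q]
        · linarith only [mul_le_mul_of_nonneg_left (not_le.1 k).le (hω.1 v)]
    rw [sum_add_distrib, ← mul_sum, ← mul_sum, ← sum_filter, ← hR] at k1
    have k2 : ∑ v ∈ GG, ω v ≤ 1 :=
      hω.2 ▸ sum_le_sum_of_subset_of_nonneg (subset_univ _) fun v _ _ => hω.1 v
    have k3 := mul_le_mul_of_nonneg_left k2 (half_pos (mul_pos ν0 D0)).le
    refine le_of_mul_le_mul_left ?_ D0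
    linarith only [k1, k3, h7]
  have r2 : ∀ v, ∃ t : ℝ, 0 < t ∧ (v ∈ R → ν * ∑ i, a v i ^ 2 ≤ 512 * D * t ^ 2 ∧
      D * ν ^ 2 / 2 ^ 21 ≤ ∑ o ∈ G with W v o = 1 ∧ t ≤ ∑ i, a v i * b o i ∧ 0 < ω' o, ω' o ∧
      ν * ∑ i, a v i ^ 2 ≤
        1024 * t ^ 2 * ∑ o ∈ G with W v o = 1 ∧ t ≤ ∑ i, a v i * b o i ∧ 0 < ω' o, ω' o) := by
    intro v
    by_cases hv : v ∈ R
    · have k := mem_filter.1 (hR ▸ hv)
      obtain ⟨t, t0, ht⟩ := kinit_row hω'.1 (hW v) D0 ν0 ν1 (h1 v k.1) (h2 v k.1) k.2 (h4 v k.1) h5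
      exact ⟨t, t0, fun _ => ht⟩
    · exact ⟨1, one_pos, fun k => absurd k hv⟩
  choose t t0 ht using r2
  obtain ⟨s, s0, hs⟩ : ∃ s : ℝ, 0 < s ∧ s ^ 2 * (512 * D) = Θ * ν := by
    have q : 0 < Θ * ν / (512 * D) := by positivity
    exact ⟨_, sqrt_pos.2 q, by rw [sq_sqrt q.le, div_mul_cancel₀ _ (by positivity)]⟩
  have dot : ∀ v o, ∑ i, (if v ∈ R then s * a v i / t v else 0) * (if o ∈ G then b o i / s else 0) =
      if v ∈ R ∧ o ∈ G then (∑ i, a v i * b o i) / t v else 0 := fun v o => by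
    by_cases hv : v ∈ R <;> by_cases ho : o ∈ G <;> simp only [hv, ho, if_true, if_false, and_self,
      and_false, and_true, mul_zero, zero_mul, sum_const_zero]
    rw [sum_div]
    refine sum_congr rfl fun i _ => ?_
    have := (t0 v).ne'
    field_simp
  have mass : ∑ z ∈ univ.filter (fun z : V × X => z.1 ∈ R ∧ 0 < ω z.1 ∧ z.2 ∈ G ∧ W z.1 z.2 = 1 ∧
      t z.1 ≤ ∑ i, a z.1 i * b z.2 i ∧ 0 < ω' z.2), ω z.1 * ω' z.2 = ∑ v ∈ R, ω v *
        ∑ o ∈ G with W v o = 1 ∧ t v ≤ ∑ i, a v i * b o i ∧ 0 < ω' o, ω' o := by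
    rw [sum_filter, Fintype.sum_prod_type, ← sum_subset (subset_univ R) fun v _ hv => by simp [hv]]
    refine sum_congr rfl fun v hv => ?_
    rw [sum_filter, mul_sum, ← sum_subset (subset_univ G) fun o _ ho => by simp [ho]]
    refine sum_congr rfl fun o ho => ?_
    rcases (hω.1 v).eq_or_lt with k | k
    · simp [← k]
    · simp only [hv, ho, k, true_and, mul_ite, mul_zero]
  refine ⟨fun v i => if v ∈ R then s * a v i / t v else 0, fun o i => if o ∈ G then b o i / s else 0,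
    univ.filter fun z : V × X => z.1 ∈ R ∧ 0 < ω z.1 ∧ z.2 ∈ G ∧ W z.1 z.2 = 1 ∧
      t z.1 ≤ ∑ i, a z.1 i * b z.2 i ∧ 0 < ω' z.2, fun v => ?_, fun o => ?_, fun z hz => ?_, ?_, ?_⟩
  · by_cases hv : v ∈ R
    · simp only [if_pos hv, div_pow, mul_pow]
      rw [← sum_div, ← mul_sum, div_le_iff₀ (pow_pos (t0 v) 2)]
      refine le_of_mul_le_mul_right ?_ (by positivity : 0 < 512 * D)
      rw [mul_right_comm, hs]
      linarith only [mul_le_mul_of_nonneg_left (ht v hv).1 Θ0.le]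
    · simp [hv, Θ0.le]
  · by_cases ho : o ∈ G
    · simp only [if_pos ho, div_pow]
      rw [← sum_div, div_le_iff₀ (pow_pos s0 2)]
      refine le_of_mul_le_mul_right ?_ (by positivity : 0 < 512 * D)
      rw [mul_assoc Θ, hs]
      linarith only [mul_le_mul_of_nonneg_right (h6 o ho) (by positivity : 0 ≤ 512 * D), h8]
    · simp [ho, Θ0.le]
  · obtain ⟨k1, k2, k3, k4, k5, k6⟩ := (mem_filter.1 hz).2
    refine ⟨k4, ?_, k2, k6⟩
    rw [dot, if_pos ⟨k1, k3⟩]
    exact (one_le_div (t0 _)).2 k5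
  · rw [mass]
    refine le_trans ?_ (sum_le_sum fun v hv => mul_le_mul_of_nonneg_left (ht v hv).2.1 (hω.1 v))
    rw [← sum_mul]
    refine le_trans (le_of_eq (by ring)) (mul_le_mul_of_nonneg_right r1 (by positivity))
  · simp only [dot]
    rw [mass, mul_sum, ← sum_subset (subset_univ R) fun v _ hv => by simp [hv]]
    refine sum_le_sum fun v hv => ?_
    have k1 : ∑ o, ω' o * (if v ∈ R ∧ o ∈ G then (∑ i, a v i * b o i) / t v else 0) ^ 2 ≤
        (∑ i, a v i ^ 2) / t v ^ 2 := by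
      rw [← h1 v (mem_filter.1 (hR ▸ hv)).1, sum_div]
      refine sum_le_sum fun o _ => ?_
      rw [mul_div_assoc, ← div_pow]
      refine mul_le_mul_of_nonneg_left ?_ (hω'.1 o)
      split_ifs
      · exact le_rfl
      · rw [zero_pow two_ne_zero]
        exact sq_nonneg _
    simp only [mul_assoc]
    rw [← mul_sum, mul_left_comm]
    refine mul_le_mul_of_nonneg_left (k1.trans ?_) (hω.1 v)
    rw [div_mul_eq_mul_div, div_le_div_iff₀ (pow_pos (t0 v) 2) ν0]
    linarith only [(ht v hv).2.2]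

end Pool.Agent.Work.MP_e10cd8_co.Far
end

-- merged part: Pool.Agent.Work.MP_e10cd8_co.Far.MastA
section
/-! Second-order bounds along the path, term by term. -/

namespace Pool.Agent.Work.MP_e10cd8_co.Far
open Finset Real Pool.Agent.Work.MP_e10cd8_co.Up

variable {V X ι J : Type} [Fintype V] [Fintype X] [Fintype ι] [Fintype J]
  [DecidableEq V] [DecidableEq X] [DecidableEq ι] [DecidableEq J]

theorem masta_side {p : V → ℝ} {μ : ι → ℝ} {a : V → ι → ℝ} (ha : Sd p μ a) (G : V → ℝ)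
    (S : ι → ι → ℝ) (s : ℝ) :
    T2 (fun ε => ∑ v, p v * (1 + ε * G v) * (∑ i, (a v i + s * ε * ∑ j, S i j * a v j) ^ 2 +
        ∑ i, (ε * ∑ j, S i j * a v j) ^ 2))
      (2 * s * ∑ i, ∑ j, S i j * al p a G i j + (s ^ 2 + 1) * ∑ i, ∑ j, μ j * S i j ^ 2) := by
  refine (T2.sum (s := univ) fun v _ => (t2_poly (∑ i, a v i ^ 2)
    (G v * ∑ i, a v i ^ 2 + 2 * s * ∑ i, a v i * ∑ j, S i j * a v j)
    (2 * s * (G v * ∑ i, a v i * ∑ j, S i j * a v j) + (s ^ 2 + 1) * ∑ i, (∑ j, S i j * a v j) ^ 2)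
    ((s ^ 2 + 1) * (G v * ∑ i, (∑ j, S i j * a v j) ^ 2))).smul (p v)).congr
    (Filter.Eventually.of_forall fun ε => sum_congr rfl fun v _ => ?_) ?_
  · have e : ∑ i, (a v i + s * ε * ∑ j, S i j * a v j) ^ 2 + ∑ i, (ε * ∑ j, S i j * a v j) ^ 2 =
        ∑ i, a v i ^ 2 + 2 * s * ε * ∑ i, a v i * ∑ j, S i j * a v j +
          (s ^ 2 + 1) * ε ^ 2 * ∑ i, (∑ j, S i j * a v j) ^ 2 := by
      rw [mul_sum _ _ (2 * s * ε), mul_sum _ _ ((s ^ 2 + 1) * ε ^ 2), ← sum_add_distrib,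
        ← sum_add_distrib, ← sum_add_distrib]
      exact sum_congr rfl fun i _ => by ring
    rw [e]
    ring
  · have e1 : ∑ i, ∑ j, S i j * al p a G i j =
        ∑ v, p v * (G v * ∑ i, a v i * ∑ j, S i j * a v j) := by
      simp only [al, mul_sum]
      rw [sum_comm (s := (univ : Finset V))]
      refine sum_congr rfl fun i _ => ?_
      rw [sum_comm (s := (univ : Finset V))]
      exact sum_congr rfl fun j _ => sum_congr rfl fun v _ => by ring
    have e2 : ∑ i, ∑ j, μ j * S i j ^ 2 = ∑ v, p v * ∑ i, (∑ j, S i j * a v j) ^ 2 := by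
      simp only [← pars ha.2.1]
      rw [sum_comm]
      exact sum_congr rfl fun v _ => (mul_sum _ _ _).symm
    rw [e1, e2, mul_sum, mul_sum, ← sum_add_distrib]
    exact sum_congr rfl fun v _ => by ring

theorem masta_tr {p : V → ℝ} {μ : ι → ℝ} {a : V → ι → ℝ} (ha : Sd p μ a) :
    ∑ v, p v * ∑ i, a v i ^ 2 = ∑ i, μ i := by
  simp only [mul_sum]
  rw [sum_comm]
  refine sum_congr rfl fun i _ => ?_
  have h := ha.2.1 i i
  rw [if_pos rfl] at h
  simpa only [sq] using h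

theorem masta_pb {p G : V → ℝ} (hp : Pb p) (h : ∑ v, p v * G v = 0) {ε : ℝ}
    (k : ∀ v, 0 < 1 + ε * G v) : Pb fun v => p v * (1 + ε * G v) := by
  refine ⟨fun v => mul_nonneg (hp.1 v) (k v).le, ?_⟩
  have e : ∑ v, p v * (1 + ε * G v) = ∑ v, p v + ε * ∑ v, p v * G v := by
    rw [mul_sum, ← sum_add_distrib]
    exact sum_congr rfl fun v _ => by ring
  rw [e, h, hp.2, mul_zero, add_zero]

theorem masta_d (G t η : ℝ) :
    T2 (fun ε => (1 + ε * G) * (log (1 + ε * G) - log (1 + ε * t) - ε * η))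
      (G ^ 2 / 2 - G * t + t ^ 2 / 2 - η * G) :=
  (((t2_log G G).sub (t2_log G t)).sub (t2_poly 0 η (G * η) 0)).congr
    (Filter.Eventually.of_forall fun ε => by ring) (by ring)

theorem masta_lin (p G c : V → ℝ) : T2 (fun ε => ∑ v, p v * (1 + ε * G v) * c v) 0 := by
  refine (t2_poly (∑ v, p v * c v) (∑ v, p v * G v * c v) 0 0).congr
    (Filter.Eventually.of_forall fun ε => ?_) rfl
  rw [sum_mul, ← sum_add_distrib, zero_mul, zero_mul, add_zero, add_zero]
  exact sum_congr rfl fun v _ => by ring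

theorem masta_pos {x y : ℝ} (h : 0 < x * y) (k : 0 < y) : 0 < x := (pos_iff_pos_of_mul_pos h).2 k

/-- For small `ε` (`ev_pos`) `Nf_le` with the features, indexed by `ι ⊕ ι`,
`(a + ε S a, ε S a)` and `(b - ε S b, ε S b)` (`(S a) i = ∑ j, S i j * a j`; the inner product is
still `⟨a, b⟩` as `S` is symmetric); the bound is a cubic in `ε` with value `∑ μ` at `0`
(`t2_poly`, `U2.of_le`), `∑ p |S a| ^ 2 = ∑ S i j ^ 2 μ j` (`pars`). -/
theorem u2_nuc {p G' : V → ℝ} {p' G : X → ℝ} (hp : Pb p) (hp' : Pb p') {M : V → X → ℝ}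
    {μ : ι → ℝ} {a : V → ι → ℝ} {b : X → ι → ℝ} {r : V → ℝ} {r' : X → ℝ} (ha : Sd p μ a)
    (hb : Sd p' μ b) (hF : Fac p p' M a b r r') (hN : ∑ i, μ i ≤ Nf p p' M) {S : ι → ι → ℝ}
    (hS : ∀ i j, S i j = S j i) (h1 : ∑ v, p v * G' v = 0) (h2 : ∑ x, p' x * G x = 0) :
    U2 (fun ε => Nf (fun v => p v * (1 + ε * G' v)) (fun x => p' x * (1 + ε * G x)) M)
      (∑ i, ∑ j, (S i j * (al p a G' i j - al p' b G i j) + (μ i + μ j) * S i j ^ 2)) := by
  have T := ((masta_side ha G' S 1).add (masta_side hb G S (-1))).smul (1 / 2)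
  refine T.1.of_le ?_ ?_ (le_of_eq ?_)
  · filter_upwards [ev_pos G', ev_pos G] with ε k k'
    have F : Fac (fun v => p v * (1 + ε * G' v)) (fun x => p' x * (1 + ε * G x)) M
        (fun v => Sum.elim (fun i => a v i + 1 * ε * ∑ j, S i j * a v j)
          fun i => ε * ∑ j, S i j * a v j)
        (fun x => Sum.elim (fun i => b x i + -1 * ε * ∑ j, S i j * b x j)
          fun i => ε * ∑ j, S i j * b x j) r r' := fun v x hv hx => by
      rw [hF v x (masta_pos hv (k v)) (masta_pos hx (k' x)),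
        Fintype.sum_sum_type]
      have e : ∑ i, (∑ j, S i j * a v j) * b x i = ∑ i, a v i * ∑ j, S i j * b x j := by
        simp only [mul_sum, sum_mul]
        rw [sum_comm]
        exact sum_congr rfl fun i _ => sum_congr rfl fun j _ => by rw [hS j i]; ring
      have e2 : ∑ i, (a v i + 1 * ε * ∑ j, S i j * a v j) * (b x i + -1 * ε * ∑ j, S i j * b x j) +
          ∑ i, (ε * ∑ j, S i j * a v j) * (ε * ∑ j, S i j * b x j) = ∑ i, a v i * b x i +
          ε * (∑ i, (∑ j, S i j * a v j) * b x i - ∑ i, a v i * ∑ j, S i j * b x j) := by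
        rw [← sum_sub_distrib, mul_sum _ _ ε, ← sum_add_distrib, ← sum_add_distrib]
        exact sum_congr rfl fun i _ => by ring
      simp only [Sum.elim_inl, Sum.elim_inr]
      rw [e2, e, sub_self, mul_zero, add_zero]
    have k2 := Nf_le (masta_pb hp h1 k) (masta_pb hp' h2 k') F
    simp only [Fintype.sum_sum_type, Sum.elim_inl, Sum.elim_inr] at k2
    linarith
  · simp only [zero_mul, mul_zero, add_zero, mul_one, ne_eq, OfNat.ofNat_ne_zero,
      not_false_eq_true, zero_pow, sum_const_zero]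
    rw [masta_tr ha, masta_tr hb]
    linarith
  · have e : ∑ i, ∑ j, μ i * S i j ^ 2 = ∑ i, ∑ j, μ j * S i j ^ 2 := by
      rw [sum_comm]
      exact sum_congr rfl fun i _ => sum_congr rfl fun j _ => by rw [hS j i]
    simp only [mul_sub, add_mul, sum_add_distrib, sum_sub_distrib]
    rw [e]
    ring

/-- The sum is `exp (ε (η + η')) (e + ε u1 + ε ^ 2 u2)`, positive for small `ε`;
`log y ≤ log e + (y - e) / e`; `t2_poly`, `U2.of_le`. -/
theorem u2_loge {A t' : V → ℝ} {B t : X → ℝ} {M : V → X → ℝ} (η η' : ℝ)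
    (e0 : 0 < ∑ v, ∑ x, A v * B x * M v x ^ 2) :
    U2 (fun ε => log (∑ v, ∑ x, A v * (1 + ε * t' v) * exp (ε * η) *
        (B x * (1 + ε * t x) * exp (ε * η')) * M v x ^ 2))
      ((∑ v, ∑ x, A v * t' v * (B x * t x) * M v x ^ 2) / ∑ v, ∑ x, A v * B x * M v x ^ 2) := by
  obtain ⟨e, he⟩ : ∃ e, e = ∑ v, ∑ x, A v * B x * M v x ^ 2 := ⟨_, rfl⟩
  obtain ⟨u1, hu1⟩ : ∃ u, u = ∑ v, ∑ x, A v * B x * (t' v + t x) * M v x ^ 2 := ⟨_, rfl⟩
  obtain ⟨u2, hu2⟩ : ∃ u, u = ∑ v, ∑ x, A v * t' v * (B x * t x) * M v x ^ 2 := ⟨_, rfl⟩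
  have key : ∀ ε : ℝ, ∑ v, ∑ x, A v * (1 + ε * t' v) * exp (ε * η) *
      (B x * (1 + ε * t x) * exp (ε * η')) * M v x ^ 2 =
      exp (ε * η + ε * η') * (e + ε * u1 + ε ^ 2 * u2) := fun ε => by
    rw [he, hu1, hu2, exp_add]
    simp only [mul_sum, ← sum_add_distrib]
    exact sum_congr rfl fun v _ => sum_congr rfl fun x _ => by ring
  rw [← he] at e0 ⊢
  rw [← hu2]
  simp only [key]
  refine (t2_poly (log e) (η + η' + u1 / e) (u2 / e) 0).1.of_le ?_ (by simp) le_rfl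
  have hc : ContinuousAt (fun ε : ℝ => e + ε * u1 + ε ^ 2 * u2) 0 := by fun_prop
  filter_upwards [continuousAt_const.eventually_lt hc (by simpa using e0)] with ε k
  have k2 := log_le_sub_one_of_pos (div_pos k e0)
  rw [log_div k.ne' e0.ne'] at k2
  rw [log_mul (exp_pos _).ne' k.ne', log_exp]
  have k3 : (e + ε * u1 + ε ^ 2 * u2) / e = 1 + u1 / e * ε + u2 / e * ε ^ 2 := by field_simp
  rw [k3] at k2
  linarith

/-- `p (1 + ε G) log (p (1 + ε G)) = p log p (1 + ε G) + p (1 + ε G) log (1 + ε G)`; `t2_log`. -/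
theorem t2_HH {p : V → ℝ} (hp : ∀ v, 0 ≤ p v) (G : V → ℝ) :
    T2 (fun ε => HH fun v => p v * (1 + ε * G v)) ((∑ v, p v * G v ^ 2) / 2) := by
  refine ((masta_lin p G fun v => log (p v)).add
    (T2.sum (s := univ) fun v _ => (t2_log (G v) (G v)).smul (p v))).congr ?_ ?_
  · filter_upwards [ev_pos G] with ε k
    rw [HH, ← sum_add_distrib]
    refine sum_congr rfl fun v _ => ?_
    rcases (hp v).eq_or_lt with h | h
    · rw [← h]
      ring
    · rw [log_mul h.ne' (k v).ne']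
      ring
  · rw [zero_add, sum_div]
    exact sum_congr rfl fun v _ => by ring

theorem t2_lin (p G c : V → ℝ) : T2 (fun ε => ∑ v, p v * (1 + ε * G v) * c v) 0 := by
  exact masta_lin p G c

theorem t2_h (p h G t : V → ℝ) (η : ℝ) :
    T2 (fun ε => ∑ v, p v * (1 + ε * G v) * (h v + (log (1 + ε * G v) - log (1 + ε * t v) - ε * η)))
      (∑ v, p v * (G v ^ 2 / 2 - G v * t v + t v ^ 2 / 2 - η * G v)) := by
  refine ((t2_lin p G h).add
    (T2.sum (s := univ) fun v _ => (masta_d (G v) (t v) η).smul (p v))).congr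
    (Filter.Eventually.of_forall fun ε => ?_) (zero_add _).symm
  rw [← sum_add_distrib]
  exact sum_congr rfl fun v _ => by ring

/-- `psi_add`, then `t2_log`, `t2_sq`, `t2_poly`. -/
theorem u2_psi {p : V → ℝ} (hp : ∀ v, 0 ≤ p v) (h G t : V → ℝ) (η : ℝ) :
    U2 (fun ε => ∑ v, p v * (1 + ε * G v) *
        psi (h v + (log (1 + ε * G v) - log (1 + ε * t v) - ε * η))) (zt p h G t η) := by
  have T := (t2_lin p G fun v => psi (h v)).add (T2.sum (s := univ) fun v _ =>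
    (((masta_d (G v) (t v) η).smul (min (h v) 1)).add
      ((t2_sq (G v) (t v) η).smul (1 / 2))).smul (p v))
  refine T.1.of_le ?_ (by simp) (le_of_eq ?_)
  · filter_upwards [ev_pos G] with ε k
    rw [← sum_add_distrib]
    refine sum_le_sum fun v _ => ?_
    refine (mul_le_mul_of_nonneg_left (psi_add _ _) (mul_nonneg (hp v) (k v).le)).trans
      (le_of_eq ?_)
    ring
  · rw [zero_add, zt]
    exact sum_congr rfl fun v _ => by ring

end Pool.Agent.Work.MP_e10cd8_co.Far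
end

-- merged part: Pool.Agent.Work.MP_e10cd8_co.Far.Mast
section
/-! The second-order condition at a state of least potential. -/

namespace Pool.Agent.Work.MP_e10cd8_co.Far
open Finset Real Pool.Agent.Work.MP_e10cd8_co.Up

variable {V X ι J : Type} [Fintype V] [Fintype X] [Fintype ι] [Fintype J]
  [DecidableEq V] [DecidableEq X] [DecidableEq ι] [DecidableEq J]

/-- the path of the tilts -/
noncomputable def mast_p (p h G t : V → ℝ) (η ε : ℝ) (v : V) : ℝ :=
  if 0 < p v then h v + (log (1 + ε * G v) - log (1 + ε * t v) - ε * η) else h v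

omit [Fintype V] [DecidableEq V] in
theorem mast_zero (p h G t : V → ℝ) (η : ℝ) : mast_p p h G t η 0 = h := by
  funext v
  simp [mast_p]

omit [DecidableEq V] in
theorem mast_dom {p h : V → ℝ} (G t : V → ℝ) (η : ℝ) {lo hi : ℝ} (h1 : ∀ v, lo ≤ h v ∧ h v ≤ hi)
    (h2 : ∀ v, 0 < p v → lo < h v ∧ h v < hi) :
    ∀ᶠ ε in nhds (0 : ℝ), ∀ v, lo ≤ mast_p p h G t η ε v ∧ mast_p p h G t η ε v ≤ hi := by
  refine Filter.eventually_all.2 fun v => ?_
  by_cases k : 0 < p v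
  · have c : ∀ a : ℝ, ContinuousAt (fun ε : ℝ => log (1 + ε * a)) 0 := fun a =>
      ContinuousAt.log (by fun_prop) (by simp)
    have c1 : ContinuousAt
        (fun ε : ℝ => h v + (log (1 + ε * G v) - log (1 + ε * t v) - ε * η)) 0 :=
      continuousAt_const.add (((c _).sub (c _)).sub (by fun_prop))
    have c2 := c1.eventually (p := fun y => y ∈ Set.Ioo lo hi)
      (Ioo_mem_nhds (by simpa using (h2 v k).1) (by simpa using (h2 v k).2))
    filter_upwards [c2] with ε hε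
    simp only [mast_p, if_pos k]
    exact ⟨hε.1.le, hε.2.le⟩
  · simp only [mast_p, if_neg k]
    exact Filter.Eventually.of_forall fun _ => h1 v

omit [DecidableEq V] in
theorem mast_sum {p : V → ℝ} (hp : ∀ v, 0 ≤ p v) (h G t : V → ℝ) (η ε : ℝ) (f : ℝ → ℝ) :
    ∑ v, p v * (1 + ε * G v) * f (mast_p p h G t η ε v) =
      ∑ v, p v * (1 + ε * G v) * f (h v + (log (1 + ε * G v) - log (1 + ε * t v) - ε * η)) := by
  refine sum_congr rfl fun v _ => ?_
  rcases (hp v).eq_or_lt with k | k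
  · simp [← k]
  · simp only [mast_p, if_pos k]

omit [Fintype V] [DecidableEq V] in
theorem mast_exp {p : V → ℝ} (hp : ∀ v, 0 ≤ p v) (h : V → ℝ) {G t : V → ℝ} (η : ℝ) {ε : ℝ}
    (h1 : ∀ v, 0 < 1 + ε * G v) (h2 : ∀ v, 0 < 1 + ε * t v) (v : V) :
    p v * (1 + ε * G v) * exp (-mast_p p h G t η ε v) =
      p v * exp (-h v) * (1 + ε * t v) * exp (ε * η) := by
  rcases (hp v).eq_or_lt with k | k
  · simp [← k]
  · simp only [mast_p, if_pos k]
    have e : -(h v + (log (1 + ε * G v) - log (1 + ε * t v) - ε * η)) =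
        -h v + log (1 + ε * t v) + ε * η - log (1 + ε * G v) := by ring
    rw [e, exp_sub, exp_add, exp_add, exp_log (h1 v), exp_log (h2 v)]
    have := (h1 v).ne'
    field_simp

/-- Path: `P ε z = P z (1 + ε Gt z)` (marginals `p (1 + ε G')`, `p' (1 + ε G)`),
`h ε v = if 0 < p v then h v + (log (1 + ε G') - log (1 + ε t') - ε η) else h v`, same for `h'`.
For small `ε` it lies in `Dom` (`ev_pos`, continuity at `0`, strict interior), and
`p (1 + ε G') exp (-h ε) = p exp (-h) (1 + ε t') exp (ε η)`.  Add `u2_nuc`, `u2_loge`, `t2_HH`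
(three times), `t2_h`, `u2_psi`, `t2_lin` (for `∑ p log ω`); `∑ p G' = ∑ P Gt = 0`;
`U2.nonneg`. -/
theorem master {ω : V → ℝ} {ω' : X → ℝ} {M : V → X → ℝ} {Θ w γ ζ κ lo hi : ℝ}
    {E : Finset (V × X)} {P : V × X → ℝ} {h : V → ℝ} {h' : X → ℝ}
    (H : IsMn ω ω' M Θ w γ ζ κ E lo hi P h h') (hM : ∀ z ∈ E, 1 ≤ M z.1 z.2) (Θ0 : 0 < Θ)
    (w0 : 0 ≤ w) (ζ0 : 0 ≤ ζ) (i1 : ∀ v, 0 < mA P v → lo < h v ∧ h v < hi)
    (i2 : ∀ x, 0 < mB P x → lo < h' x ∧ h' x < hi) {μ : ι → ℝ} {a : V → ι → ℝ} {b : X → ι → ℝ}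
    {r : V → ℝ} {r' : X → ℝ} (ha : Sd (mA P) μ a) (hb : Sd (mB P) μ b)
    (hF : Fac (mA P) (mB P) M a b r r') (hN : ∑ i, μ i ≤ Nf (mA P) (mB P) M) :
    Mast P h h' M μ a b Θ w γ ζ κ := by
  intro Gt G' t' G t η η' S hS h0 hA hB
  obtain ⟨⟨hP, hE, hh, hh'⟩, hmin⟩ := H
  have pA := mA_pb hP
  have pB := mB_pb hP
  have zA : ∑ v, mA P v * G' v = 0 := by
    rw [sum_congr rfl fun v _ => hA v, ← h0, Fintype.sum_prod_type]
  have zB : ∑ x, mB P x * G x = 0 := by
    rw [sum_congr rfl fun x _ => hB x, ← h0, Fintype.sum_prod_type_right]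
  have eA : ∀ ε : ℝ, mA (fun z => P z * (1 + ε * Gt z)) = fun v => mA P v * (1 + ε * G' v) := by
    intro ε
    funext v
    have e : mA P v * (1 + ε * G' v) = mA P v + ε * (mA P v * G' v) := by ring
    rw [e, hA v, mul_sum]
    simp only [mA]
    rw [← sum_add_distrib]
    exact sum_congr rfl fun x _ => by ring
  have eB : ∀ ε : ℝ, mB (fun z => P z * (1 + ε * Gt z)) = fun x => mB P x * (1 + ε * G x) := by
    intro ε
    funext x
    have e : mB P x * (1 + ε * G x) = mB P x + ε * (mB P x * G x) := by ring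
    rw [e, hB x, mul_sum]
    simp only [mB]
    rw [← sum_add_distrib]
    exact sum_congr rfl fun v _ => by ring
  have e0 : 0 < ee (mA P) (mB P) h h' M :=
    ee_pos hP (fun z hz => hM z (by_contra fun k => hz (hE z k))) h h'
  have u1 := (u2_nuc pA pB ha hb hF hN hS zA zB).smul (inv_pos.2 Θ0).le
  have u2 := u2_loge (A := fun v => mA P v * exp (-h v)) (t' := t')
    (B := fun x => mB P x * exp (-h' x)) (t := t) (M := M) η η' e0
  have tP := t2_HH hP.1 Gt
  have tA := t2_HH pA.1 G'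
  have tB := t2_HH pB.1 G
  have tI := (tP.sub tA).sub tB
  have u3 := (((u2.add tI.1).add (t2_h (mA P) h G' t' η).1).add (t2_h (mB P) h' G t η').1).smul w0
  have u4 := (tI.smul γ).1
  have u5 := ((u2_psi pA.1 h G' t' η).add (u2_psi pB.1 h' G t η')).smul ζ0
  have u6 := (((tA.sub (t2_lin (mA P) G' fun v => log (ω v))).add
    (tB.sub (t2_lin (mB P) G fun x => log (ω' x)))).smul κ).1
  have U := (((u1.add u3).add u4).add u5).add u6
  have F := U.of_le (f := fun ε => Psi ω ω' M Θ w γ ζ κ (fun z => P z * (1 + ε * Gt z))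
    (mast_p (mA P) h G' t' η ε) (mast_p (mB P) h' G t η' ε)) ?_ ?_ le_rfl
  · refine (F.nonneg ?_).trans (le_of_eq ?_)
    · filter_upwards [ev_pos Gt, mast_dom G' t' η hh i1, mast_dom G t η' hh' i2] with ε k1 k2 k3
      simp only [mast_zero, zero_mul, add_zero, mul_one]
      refine hmin _ _ _ ⟨⟨fun z => mul_nonneg (hP.1 z) (k1 z).le, ?_⟩,
        fun z hz => mul_eq_zero_of_left (hE z hz) _, k2, k3⟩
      have e : ∀ z, P z * (1 + ε * Gt z) = P z + ε * (P z * Gt z) := fun z => by ring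
      simp only [e]
      rw [sum_add_distrib, ← mul_sum, h0, hP.2, mul_zero, add_zero]
    · have e1 : ∑ v, mA P v * (G' v ^ 2 / 2 - G' v * t' v + t' v ^ 2 / 2 - η * G' v) =
          (∑ v, mA P v * G' v ^ 2) / 2 + ∑ v, mA P v * (t' v ^ 2 / 2 - G' v * t' v) -
            η * ∑ v, mA P v * G' v := by
        rw [sum_div, mul_sum, ← sum_add_distrib, ← sum_sub_distrib]
        exact sum_congr rfl fun v _ => by ring
      have e2 : ∑ x, mB P x * (G x ^ 2 / 2 - G x * t x + t x ^ 2 / 2 - η' * G x) =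
          (∑ x, mB P x * G x ^ 2) / 2 + ∑ x, mB P x * (t x ^ 2 / 2 - G x * t x) -
            η' * ∑ x, mB P x * G x := by
        rw [sum_div, mul_sum, ← sum_add_distrib, ← sum_sub_distrib]
        exact sum_congr rfl fun x _ => by ring
      rw [e1, e2, zA, zB]
      simp only [ee]
      ring
  · filter_upwards [ev_pos G', ev_pos t', ev_pos G, ev_pos t] with ε k1 k2 k3 k4
    refine le_of_eq ?_
    simp only [Psi, br, II, KL, ee, eA, eB, mast_exp pA.1 h η k1 k2, mast_exp pB.1 h' η' k3 k4]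
    rw [mast_sum pA.1 h G' t' η ε psi, mast_sum pB.1 h' G t η' ε psi,
      mast_sum pA.1 h G' t' η ε fun y => y, mast_sum pB.1 h' G t η' ε fun y => y, div_eq_inv_mul]
  · refine le_of_eq ?_
    simp only [Psi, br, II, KL, ee, mast_zero, zero_mul, add_zero, mul_one, log_one, sub_self,
      exp_zero, div_eq_inv_mul]

end Pool.Agent.Work.MP_e10cd8_co.Far
end

-- merged part: Pool.Agent.Work.MP_e10cd8_co.Far.Start
section
/-! The starting state. -/

namespace Pool.Agent.Work.MP_e10cd8_co.Far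
open Finset Real Pool.Agent.Work.MP_e10cd8_co.Up

variable {V X ι J : Type} [Fintype V] [Fintype X] [Fintype ι] [Fintype J]
  [DecidableEq V] [DecidableEq X] [DecidableEq ι] [DecidableEq J]

theorem start_term {p ω : ℝ} (p0 : 0 < p) (ω0 : 0 < ω) :
    p * max 0 (log (p / ω)) ≤ p * log p - p * log ω + ω := by
  have e : log (p / ω) = log p - log ω := log_div p0.ne' ω0.ne'
  rcases le_total 0 (log (p / ω)) with k | k
  · rw [max_eq_right k, e]
    linarith
  · rw [max_eq_left k]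
    have h1 := log_le_sub_one_of_pos (div_pos ω0 p0)
    rw [log_div ω0.ne' p0.ne'] at h1
    have h2 := mul_le_mul_of_nonneg_left h1 p0.le
    rw [mul_sub p (ω / p), mul_div_cancel₀ _ p0.ne'] at h2
    linarith

theorem start_side {ω p : V → ℝ} (hω : Pb ω) (hp : Pb p) {f l0 : ℝ} (hf : exp (-l0) ≤ f)
    (hl : 0 ≤ l0) (hle : ∀ v, p v * f ≤ ω v) :
    ∃ h : V → ℝ, (∀ v, 0 ≤ h v ∧ h v ≤ l0) ∧ (∀ v, p v * exp (-h v) ≤ ω v) ∧
      ∑ v, p v * h v ≤ KL p ω + 1 ∧ 0 ≤ KL p ω := by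
  have f0 : 0 < f := (exp_pos _).trans_le hf
  have hpos : ∀ v, p v ≠ 0 → 0 < p v ∧ 0 < ω v := fun v k =>
    have a := (hp.1 v).lt_of_ne' k
    ⟨a, (mul_pos a f0).trans_le (hle v)⟩
  refine ⟨fun v => max 0 (log (p v / ω v)), fun v => ⟨le_max_left _ _, max_le hl ?_⟩,
    fun v => ?_, ?_, gibbs hp hω.1 (fun v k => (hpos v k).2) hω.2.le⟩
  · by_cases k : p v = 0
    · rw [k, zero_div, log_zero]
      exact hl
    · obtain ⟨a, b⟩ := hpos v k
      rw [log_le_iff_le_exp (div_pos a b), div_le_iff₀ b]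
      have h1 := mul_le_mul_of_nonneg_left hf a.le
      have h2 := mul_le_mul_of_nonneg_left (h1.trans (hle v)) (exp_pos l0).le
      rwa [mul_left_comm, ← exp_add, add_neg_cancel, exp_zero, mul_one] at h2
  · by_cases k : p v = 0
    · rw [k, zero_mul]
      exact hω.1 v
    · obtain ⟨a, b⟩ := hpos v k
      have h1 : exp (-max 0 (log (p v / ω v))) ≤ exp (-log (p v / ω v)) :=
        exp_le_exp.2 (neg_le_neg (le_max_right _ _))
      rw [exp_neg (log _), exp_log (div_pos a b), inv_div] at h1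
      have h2 := mul_le_mul_of_nonneg_left h1 a.le
      rwa [mul_div_cancel₀ _ a.ne'] at h2
  · rw [KL, HH, ← hω.2, ← sum_sub_distrib, ← sum_add_distrib]
    refine sum_le_sum fun v _ => ?_
    by_cases k : p v = 0
    · simp only [k, zero_mul, sub_zero, zero_add]
      exact hω.1 v
    · exact start_term (hpos v k).1 (hpos v k).2

/-- `P0 = ω ω' 1_E / f0`, `h0 = max 0 (log (p0 / ω))`, so `p0 exp (-h0) ≤ ω`, `p0 ≤ ω / f0`,
`h0 ≤ l0`.  `Nf ≤ Θ` by `Nf_le` with `r = r' = 0`.  `II + KL + KL' = -log f0 ≤ l0` (three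
nonnegative terms, `II_nonneg`, `gibbs`), `∑ p0 h0 ≤ KL + 1` (termwise
`p h0 ≤ p log (p / ω) + ω`), `0 < e ≤ exp (u - 3) f0` (`ee_pos`), so `br ≤ u - 1`;
`psi_le`. -/
theorem start {ω : V → ℝ} {ω' : X → ℝ} (hω : Pb ω) (hω' : Pb ω') {a : V → ι → ℝ} {b : X → ι → ℝ}
    {Θ w γ ζ κ u l0 lo hi : ℝ} (Θ0 : 0 < Θ) (w0 : 0 ≤ w) (γ0 : 0 ≤ γ) (ζ0 : 0 ≤ ζ) (κ0 : 0 ≤ κ)
    (ha : ∀ v, ∑ i, a v i ^ 2 ≤ Θ) (hb : ∀ x, ∑ i, b x i ^ 2 ≤ Θ) {E : Finset (V × X)}
    (hE : ∀ z ∈ E, 1 ≤ ∑ i, a z.1 i * b z.2 i ∧ 0 < ω z.1 ∧ 0 < ω' z.2)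
    (hf : exp (-l0) ≤ ∑ z ∈ E, ω z.1 * ω' z.2)
    (hx : ∑ v, ∑ x, ω v * ω' x * (∑ i, a v i * b x i) ^ 2 ≤ exp (u - 3) * ∑ z ∈ E, ω z.1 * ω' z.2)
    (hlo : lo ≤ 0) (hhi : l0 ≤ hi) :
    ∃ P h h', Dom E lo hi P h h' ∧ Psi ω ω' (fun v x => ∑ i, a v i * b x i) Θ w γ ζ κ P h h' ≤
      1 + w * (u - 1) + γ * l0 + ζ * (l0 + 2) + κ * l0 := by
  obtain ⟨f, hfe⟩ : ∃ f, f = ∑ z ∈ E, ω z.1 * ω' z.2 := ⟨_, rfl⟩
  rw [← hfe] at hf hx
  have f0 : 0 < f := (exp_pos _).trans_le hf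
  have f1 : f ≤ 1 := by
    have h1 : f ≤ ∑ z : V × X, ω z.1 * ω' z.2 := hfe ▸
      sum_le_sum_of_subset_of_nonneg (subset_univ _) fun z _ _ => mul_nonneg (hω.1 _) (hω'.1 _)
    rwa [Fintype.sum_prod_type' fun v x => ω v * ω' x, ← sum_mul_sum, hω.2, hω'.2, one_mul] at h1
  have hl : 0 ≤ l0 := by
    have := exp_le_one_iff.1 (hf.trans f1)
    linarith
  have hlf : -log f ≤ l0 := by
    have := (le_log_iff_exp_le f0).2 hf
    linarith
  obtain ⟨P, hP⟩ : ∃ P : V × X → ℝ, ∀ z, P z = if z ∈ E then ω z.1 * ω' z.2 / f else 0 :=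
    ⟨_, fun _ => rfl⟩
  have hPE : ∀ z, z ∉ E → P z = 0 := fun z k => by rw [hP, if_neg k]
  have hPE' : ∀ z, P z ≠ 0 → z ∈ E := fun z k => not_not.1 fun k' => k (hPE z k')
  have hPle : ∀ z, P z * f ≤ ω z.1 * ω' z.2 := fun z => by
    rw [hP]
    split_ifs
    · rw [div_mul_cancel₀ _ f0.ne']
    · rw [zero_mul]
      exact mul_nonneg (hω.1 _) (hω'.1 _)
  have hPb : Pb P := by
    refine ⟨fun z => ?_, ?_⟩
    · rw [hP]
      split_ifs
      · exact div_nonneg (mul_nonneg (hω.1 _) (hω'.1 _)) f0.le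
      · exact le_rfl
    · simp only [hP]
      rw [sum_ite_mem, univ_inter, ← sum_div, ← hfe, div_self f0.ne']
  obtain ⟨h, a1, a2, a3, a4⟩ := start_side hω (mA_pb hPb) hf hl fun v => by
    rw [mA, sum_mul]
    refine (sum_le_sum fun x _ => hPle (v, x)).trans ?_
    simp only [← mul_sum, hω'.2, mul_one, le_refl]
  obtain ⟨h', b1, b2, b3, b4⟩ := start_side hω' (mB_pb hPb) hf hl fun x => by
    rw [mB, sum_mul]
    refine (sum_le_sum fun v _ => hPle (v, x)).trans ?_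
    simp only [← sum_mul, hω.2, one_mul, le_refl]
  refine ⟨P, h, h', ⟨hPb, hPE, fun v => ⟨hlo.trans (a1 v).1, (a1 v).2.trans hhi⟩,
    fun x => ⟨hlo.trans (b1 x).1, (b1 x).2.trans hhi⟩⟩, ?_⟩
  have c1 : Nf (mA P) (mB P) (fun v x => ∑ i, a v i * b x i) / Θ ≤ 1 := by
    rw [div_le_one Θ0]
    refine (Nf_le (a := a) (b := b) (r := fun _ => 0) (r' := fun _ => 0) (mA_pb hPb) (mB_pb hPb)
      fun v x _ _ => by rw [add_zero, add_zero]).trans ?_
    have h1 : ∑ v, mA P v * ∑ i, a v i ^ 2 ≤ ∑ v, mA P v * Θ :=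
      sum_le_sum fun v _ => mul_le_mul_of_nonneg_left (ha v) ((mA_pb hPb).1 v)
    have h2 : ∑ x, mB P x * ∑ i, b x i ^ 2 ≤ ∑ x, mB P x * Θ :=
      sum_le_sum fun x _ => mul_le_mul_of_nonneg_left (hb x) ((mB_pb hPb).1 x)
    rw [← sum_mul, (mA_pb hPb).2] at h1
    rw [← sum_mul, (mB_pb hPb).2] at h2
    linarith
  have c2 : II P + KL (mA P) ω + KL (mB P) ω' = -log f := by
    have h1 : ∑ z, (P z * log (P z) - P z * log (ω z.1) - P z * log (ω' z.2)) =
        ∑ z, P z * -log f := by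
      refine sum_congr rfl fun z _ => ?_
      by_cases k : z ∈ E
      · obtain ⟨-, k1, k2⟩ := hE z k
        have e : log (P z) = log (ω z.1) + log (ω' z.2) - log f := by
          rw [hP, if_pos k, log_div (mul_pos k1 k2).ne' f0.ne', log_mul k1.ne' k2.ne']
        rw [e]
        ring
      · rw [hPE z k]
        ring
    rw [sum_sub_distrib, sum_sub_distrib, ← sum_mul, hPb.2, one_mul] at h1
    rw [II, KL, KL, sum_mA P fun v => log (ω v), sum_mB P fun x => log (ω' x), ← h1, HH]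
    ring
  have c3 := II_nonneg hPb
  have c4 : log (ee (mA P) (mB P) h h' fun v x => ∑ i, a v i * b x i) ≤ u - 3 + log f := by
    have e0 := ee_pos hPb (M := fun v x => ∑ i, a v i * b x i) (fun z k => (hE z (hPE' z k)).1) h h'
    rw [log_le_iff_le_exp e0, exp_add, exp_log f0]
    refine le_trans (sum_le_sum fun v _ => sum_le_sum fun x _ => ?_) hx
    exact mul_le_mul_of_nonneg_right (mul_le_mul (a2 v) (b2 x)
      (mul_nonneg ((mB_pb hPb).1 x) (exp_pos _).le) (hω.1 v)) (sq_nonneg _)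
  have c5 : br (fun v x => ∑ i, a v i * b x i) P h h' ≤ u - 1 := by
    rw [br]
    linarith
  have c6 : ∑ v, mA P v * psi (h v) ≤ ∑ v, mA P v * h v :=
    sum_le_sum fun v _ => mul_le_mul_of_nonneg_left (psi_le (a1 v).1) ((mA_pb hPb).1 v)
  have c7 : ∑ x, mB P x * psi (h' x) ≤ ∑ x, mB P x * h' x :=
    sum_le_sum fun x _ => mul_le_mul_of_nonneg_left (psi_le (b1 x).1) ((mB_pb hPb).1 x)
  have d1 := mul_le_mul_of_nonneg_left c5 w0
  have d2 := mul_le_mul_of_nonneg_left (show II P ≤ l0 by linarith) γ0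
  have d3 := mul_le_mul_of_nonneg_left
    (show ∑ v, mA P v * psi (h v) + ∑ x, mB P x * psi (h' x) ≤ l0 + 2 by linarith) ζ0
  have d4 := mul_le_mul_of_nonneg_left (show KL (mA P) ω + KL (mB P) ω' ≤ l0 by linarith) κ0
  rw [Psi]
  linarith

end Pool.Agent.Work.MP_e10cd8_co.Far
end

-- merged part: Pool.Agent.Work.MP_e10cd8_co.Far.LemS
section
/-! Heavy tails of a kernel of bounded factorisation norm give a dense pair. -/

namespace Pool.Agent.Work.MP_e10cd8_co.Far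
open Finset Real Pool.Agent.Work.MP_e10cd8_co.Up

variable {V X ι J : Type} [Fintype V] [Fintype X] [Fintype ι] [Fintype J]
  [DecidableEq V] [DecidableEq X] [DecidableEq ι] [DecidableEq J]

/-- `w = 1 / u`, `γ = 4 / L`, `ζ = 1 / (2 L)`, `κ = w / 10 ^ 8 / Θ`, `lo = -w / ζ - 1`,
`hi = -lo + 2 log Θ + 18 L + 2`.  `start` (`l0 = 6 L / 5`, value `≤ 8`), `exists_min`; the five
terms of `Psi` are nonnegative (`Nf_nonneg`, `br_nonneg`, `II_nonneg`, `psi_nonneg`, `gibbs`), so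
`Nf ≤ 8 Θ`, `br ≤ 8 u`, `II ≤ 2 L`, `∑ psi ≤ 16 L`, `KL + KL ≤ 8 10 ^ 8 Θ u`.  `br ≥ 0` and `le_psi`
give `log e ≥ -18 L - 1`, hence `foc` (`M ^ 2 ≤ Θ ^ 2` by Cauchy-Schwarz); `ilow`;
`∑ p h ≥ ∑ p min h 1 = 0`, so `log e ≤ 8 u - II ≤ -L / 2`; `Nf_svd`, `master`, `crux`. -/
theorem lemS {ω : V → ℝ} {ω' : X → ℝ} (hω : Pb ω) (hω' : Pb ω') {a : V → ι → ℝ} {b : X → ι → ℝ}
    {Θ u L Λ : ℝ} (ha : ∀ v, ∑ i, a v i ^ 2 ≤ Θ) (hb : ∀ x, ∑ i, b x i ^ 2 ≤ Θ)
    {E : Finset (V × X)} (hE : ∀ z ∈ E, 1 ≤ ∑ i, a z.1 i * b z.2 i ∧ 0 < ω z.1 ∧ 0 < ω' z.2)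
    (hf : exp (-(6 * L / 5)) ≤ ∑ z ∈ E, ω z.1 * ω' z.2)
    (hx : ∑ v, ∑ x, ω v * ω' x * (∑ i, a v i * b x i) ^ 2 ≤ exp (u - 3) * ∑ z ∈ E, ω z.1 * ω' z.2)
    (u1 : 3 ≤ u) (u2 : u ≤ 3 + L / 40) (hL : 1000 ≤ L) (hΘ : exp (3 * L / 2) ≤ Θ)
    (hΛ : 10 ^ 10 * Θ * u ≤ Λ) (hR : Reg ω ω' E Λ (exp (-L))) : False := by
  have u0 : 0 < u := by linarith
  have L0 : 0 < L := by linarith
  have ΘL : L ≤ Θ := by linarith [add_one_le_exp (3 * L / 2)]
  have Θ0 : 0 < Θ := by linarith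
  have lΘ : 0 ≤ log Θ := log_nonneg (by linarith)
  obtain ⟨w, hw⟩ : ∃ w : ℝ, w = 1 / u := ⟨_, rfl⟩
  have wu : w * u = 1 := by rw [hw]; field_simp
  have w0 : 0 < w := by rw [hw]; positivity
  have w1 : w ≤ 1 / 3 := by rw [hw]; exact one_div_le_one_div_of_le (by norm_num) u1
  have γ0 : 0 < 4 / L := by positivity
  have ζ0 : 0 < 1 / (2 * L) := by positivity
  have κ0 : 0 < w / 10 ^ 8 / Θ := by positivity
  have ζw : 1 / (2 * L) ≤ w := by rw [hw]; exact one_div_le_one_div_of_le u0 (by linarith)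
  obtain ⟨lo, hlo⟩ : ∃ lo : ℝ, lo = -(w * (2 * L)) - 1 := ⟨_, rfl⟩
  have lo0 : lo ≤ 0 := by rw [hlo]; nlinarith [mul_pos w0 L0]
  have lo1 : w + 1 / (2 * L) * lo < 0 := by
    have : w + 1 / (2 * L) * lo = -(1 / (2 * L)) := by rw [hlo]; field_simp; ring
    rw [this]; linarith
  obtain ⟨hi, hhi⟩ : ∃ hi : ℝ, hi = -lo + 2 * log Θ + 18 * L + 2 := ⟨_, rfl⟩
  obtain ⟨M, hM⟩ : ∃ M : V → X → ℝ, M = fun v x => ∑ i, a v i * b x i := ⟨_, rfl⟩
  have hME : ∀ z ∈ E, 1 ≤ M z.1 z.2 := fun z hz => by rw [hM]; exact (hE z hz).1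
  have hMΘ : ∀ v x, M v x ^ 2 ≤ Θ ^ 2 := fun v x => by
    rw [hM, sq Θ]
    exact (sum_mul_sq_le_sq_mul_sq _ _ _).trans
      (mul_le_mul (ha v) (hb x) (sum_nonneg fun _ _ => sq_nonneg _) Θ0.le)
  obtain ⟨P0, h0, h0', D0, s0⟩ := start (lo := lo) (hi := hi) hω hω' Θ0 w0.le γ0.le ζ0.le κ0.le
    ha hb hE hf hx lo0 (by linarith)
  rw [← hM] at s0
  obtain ⟨P, h, h', H⟩ := exists_min ω ω' Θ w (4 / L) (1 / (2 * L)) (w / 10 ^ 8 / Θ) hME D0
  have s8 : Psi ω ω' M Θ w (4 / L) (1 / (2 * L)) (w / 10 ^ 8 / Θ) P h h' ≤ 8 := by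
    refine ((H.2 _ _ _ D0).trans s0).trans ?_
    have e1 : 4 / L * (6 * L / 5) = 24 / 5 := by field_simp; ring
    have e2 : 1 / (2 * L) * (6 * L / 5 + 2) ≤ 7 / 10 := by
      rw [one_div_mul_eq_div, div_le_iff₀ (by positivity)]; linarith
    have e3 : w / 10 ^ 8 / Θ * (6 * L / 5) ≤ 1 / 10 := by
      rw [div_mul_eq_mul_div, div_le_iff₀ Θ0]; nlinarith
    rw [e1]; nlinarith
  have hP : Pb P := H.1.1
  have hPE : ∀ z, P z ≠ 0 → z ∈ E := fun z hz => by_contra fun k => hz (H.1.2.1 z k)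
  have hPM : ∀ z, P z ≠ 0 → 1 ≤ M z.1 z.2 := fun z hz => hME z (hPE z hz)
  have pA := mA_pb hP
  have pB := mB_pb hP
  have t1 := Nf_nonneg (mA P) (mB P) M
  have t2 := br_nonneg hP hPM h h'
  have t3 := II_nonneg hP
  have t4 : 0 ≤ ∑ v, mA P v * psi (h v) + ∑ x, mB P x * psi (h' x) :=
    add_nonneg (sum_nonneg fun v _ => mul_nonneg (pA.1 v) (psi_nonneg _))
      (sum_nonneg fun x _ => mul_nonneg (pB.1 x) (psi_nonneg _))
  have t5 : 0 ≤ KL (mA P) ω + KL (mB P) ω' := by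
    refine add_nonneg (gibbs pA hω.1 (fun v hv => ?_) hω.2.le)
      (gibbs pB hω'.1 (fun x hx => ?_) hω'.2.le)
    · obtain ⟨x, -, k⟩ := exists_ne_zero_of_sum_ne_zero hv
      exact (hE _ (hPE _ k)).2.1
    · obtain ⟨v, -, k⟩ := exists_ne_zero_of_sum_ne_zero hx
      exact (hE _ (hPE _ k)).2.2
  unfold Psi at s8
  have n1 := div_nonneg t1 Θ0.le
  have n2 := mul_nonneg w0.le t2
  have n3 := mul_nonneg γ0.le t3
  have n4 := mul_nonneg ζ0.le t4
  have n5 := mul_nonneg κ0.le t5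
  have b1 : Nf (mA P) (mB P) M ≤ 8 * Θ := (div_le_iff₀ Θ0).1 (by linarith)
  have b2 : br M P h h' ≤ 8 * u := by
    have k : w * br M P h h' ≤ w * (8 * u) := by nlinarith
    exact le_of_mul_le_mul_left k w0
  have b3 : II P ≤ 2 * L := by
    have k : 4 / L * II P ≤ 4 / L * (2 * L) := by
      rw [show 4 / L * (2 * L) = 8 by field_simp; ring]; linarith
    exact le_of_mul_le_mul_left k γ0
  have b4 : ∑ v, mA P v * psi (h v) + ∑ x, mB P x * psi (h' x) ≤ 16 * L := by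
    refine le_of_mul_le_mul_left ?_ ζ0
    rw [show 1 / (2 * L) * (16 * L) = 8 by field_simp; ring]; linarith
  have b5 : KL (mA P) ω + KL (mB P) ω' ≤ 8 * 10 ^ 8 * (Θ * u) := by
    refine le_of_mul_le_mul_left ?_ κ0
    rw [show w / 10 ^ 8 / Θ * (8 * 10 ^ 8 * (Θ * u)) = 8 * (w * u) by field_simp, wu]; linarith
  have e0 := ee_pos hP hPM h h'
  have c1 : ∑ v, mA P v * h v ≤ ∑ v, mA P v * psi (h v) + 1 / 2 := by
    calc _ ≤ ∑ v, mA P v * (psi (h v) + 1 / 2) :=
          sum_le_sum fun v _ => mul_le_mul_of_nonneg_left (le_psi _) (pA.1 v)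
      _ = _ := by simp only [mul_add, sum_add_distrib, ← sum_mul, pA.2, one_mul]
  have c2 : ∑ x, mB P x * h' x ≤ ∑ x, mB P x * psi (h' x) + 1 / 2 := by
    calc _ ≤ ∑ x, mB P x * (psi (h' x) + 1 / 2) :=
          sum_le_sum fun x _ => mul_le_mul_of_nonneg_left (le_psi _) (pB.1 x)
      _ = _ := by simp only [mul_add, sum_add_distrib, ← sum_mul, pB.2, one_mul]
  unfold br at t2 b2
  have hb' : exp (-lo) * Θ ^ 2 < exp hi * ee (mA P) (mB P) h h' M := by
    rw [← exp_log e0, ← exp_log Θ0, ← exp_nat_mul, ← exp_add, ← exp_add, exp_lt_exp, hhi]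
    push_cast
    linarith
  obtain ⟨i1, i2, f1, f2, f3, f4⟩ := foc H hME hMΘ w0 ζ0 ζw lo1 (by linarith) hb'
  have hI : 9 / 10 * L - 1 ≤ II P := by
    refine ilow hP H.1.2.1 hω hω' (fun z hz => (hE z hz).2) hR L0.le ?_
    nlinarith
  have d1 : 0 ≤ ∑ v, mA P v * h v :=
    f3.symm.trans_le (sum_le_sum fun v _ => mul_le_mul_of_nonneg_left (min_le_left _ _) (pA.1 v))
  have d2 : 0 ≤ ∑ x, mB P x * h' x :=
    f4.symm.trans_le (sum_le_sum fun x _ => mul_le_mul_of_nonneg_left (min_le_left _ _) (pB.1 x))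
  have he : ee (mA P) (mB P) h h' M ≤ exp (-(L / 2)) :=
    (log_le_iff_le_exp e0).1 (by linarith)
  obtain ⟨μ, a', b', r, r', s1, s2, s3, s4⟩ := Nf_svd pA pB M
  exact crux hP hPM s1 s2 s3 (master H hME Θ0 w0.le ζ0.le i1 i2 s1 s2 s3 s4) w0 (by linarith) hL hΘ
    (s4.trans b1) f1 f2 f3 f4 b3 he

end Pool.Agent.Work.MP_e10cd8_co.Far
end

-- merged part: Pool.Agent.Work.MP_e10cd8_co.Far.KE
section
/-! Little energy on the large eigenvalues. -/

namespace Pool.Agent.Work.MP_e10cd8_co.Far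
open Finset Real Pool.Agent.Work.MP_e10cd8_co.Up

variable {V X ι J : Type} [Fintype V] [Fintype X] [Fintype ι] [Fintype J]
  [DecidableEq V] [DecidableEq X] [DecidableEq ι] [DecidableEq J]

lemma ke_dec (j : ℕ) : (7 / 8 : ℝ) ^ j * (10 + 2 * j) ≤ 14 := by
  have h := one_add_mul_le_pow (show (-2 : ℝ) ≤ 1 / 7 by norm_num) j
  have e : (7 / 8 : ℝ) ^ j * (1 + 1 / 7) ^ j = 1 := by
    rw [← mul_pow]
    norm_num
  have p0 : (0 : ℝ) < (7 / 8) ^ j := by positivity
  have := mul_le_mul_of_nonneg_left h p0.le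
  nlinarith

lemma ke_log (j : ℕ) : log (1024 * 3 ^ j) ≤ 7 + 2 * j := by
  rw [log_mul (by norm_num) (by positivity), log_pow, show (1024 : ℝ) = 2 ^ 10 by norm_num, log_pow]
  have h3 : log 3 ≤ 2 := (log_le_sub_one_of_pos (by norm_num)).trans (by norm_num)
  have := mul_le_mul_of_nonneg_left h3 (Nat.cast_nonneg (α := ℝ) j)
  have := log_two_lt_d9
  push_cast
  linarith

/-- `kinit` with `D = 20 q`, `ν = (1 / 3) ^ j ≥ 1 / k ^ 2`, `Θ = 102400 n q (7 / 8) ^ j`, then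
`lemS` with `u = 3 + log (1024 * 3 ^ j)` (`≤ 10 + 2 j`, and `1024 * 3 ^ j ≤ 1024 k ^ 2`),
`(7 / 8) ^ j (10 + 2 j) ≤ 14`, `(7 / 8) ^ j ≥ 1 / k`, `20 q ≥ 5 exp (-L) / k`,
`2 ^ 23 k ^ 7 ≤ (1024 k ^ 2) ^ 8 ≤ exp (L / 5)`, `exp (-1280 n q) ≤ exp (-6 L / 5)`. -/
theorem kE {ω : V → ℝ} {ω' : X → ℝ} (hω : Pb ω) (hω' : Pb ω') {W : V → X → ℝ}
    (hW : ∀ v o, W v o = 0 ∨ W v o = 1) {GG : Finset V} {G : Finset X} {a : V → ι → ℝ}
    {b : X → ι → ℝ} {n q k L : ℝ} {j : ℕ} (q0 : 0 < q) (hj : 2 ^ j ≤ k) (hL : 1000 ≤ L)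
    (c1 : exp (-L) ≤ 4 * k * q) (c2 : 1024 * k ^ 2 ≤ exp (L / 40)) (c3 : exp (8 * L / 5) ≤ n * q)
    (h1 : ∀ v ∈ GG, ∑ o, ω' o * (∑ i, a v i * b o i) ^ 2 = ∑ i, a v i ^ 2)
    (h2 : ∀ v ∈ GG, ∑ i, a v i ^ 2 ≤ 2 * ∑ o, ω' o * W v o * max (∑ i, a v i * b o i) 0)
    (h3 : ∀ v ∈ GG, ∑ i, a v i ^ 2 ≤ 40 * q) (h4 : ∀ v ∈ GG, ∑ o, ω' o * W v o ≤ 20 * q)
    (h5 : ∑ o ∈ Gᶜ, ω' o ≤ exp (-(1280 * n * q)))
    (h6 : ∀ o ∈ G, 4 ^ j * ∑ i, b o i ^ 2 ≤ 240 * q * (64 * n) ^ 2)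
    (hR : ∀ (f : V → ℝ) (g : X → ℝ), Le (exp (15 * 10 ^ 15 * (n * q))) ω f →
      Le (exp (15 * 10 ^ 15 * (n * q))) ω' g → ∑ v, f v ≤ 1 → ∑ x, g x ≤ 1 →
      ∑ v, ∑ x, f v * g x * W v x ≤ exp (-L)) :
    ∑ v ∈ GG, ω v * ∑ i, a v i ^ 2 ≤ (1 / 3) ^ j * (20 * q) := by
  by_contra hn
  have k1 : 1 ≤ k := (one_le_pow₀ one_le_two).trans hj
  have k0 : 0 < k := by linarith
  have x0 : 0 < n * q := (exp_pos _).trans_le c3
  have k3 : (3 : ℝ) ^ j ≤ k ^ 2 :=
    calc (3 : ℝ) ^ j ≤ 4 ^ j := by gcongr; norm_num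
      _ = (2 ^ j) ^ 2 := by rw [← pow_mul, mul_comm, pow_mul]; norm_num
      _ ≤ k ^ 2 := by gcongr
  have e3 : (1 / 3 : ℝ) ^ j * 3 ^ j = 1 := by rw [← mul_pow]; norm_num
  have ν0 : (0 : ℝ) < (1 / 3) ^ j := by positivity
  have ν1 : (1 / 3 : ℝ) ^ j ≤ 1 := pow_le_one₀ (by norm_num) (by norm_num)
  have ν2 : 1 ≤ (1 / 3 : ℝ) ^ j * k ^ 2 := e3.ge.trans (mul_le_mul_of_nonneg_left k3 ν0.le)
  have s1 : 1 ≤ (7 / 8 : ℝ) ^ j * k :=
    calc (1 : ℝ) ≤ (7 / 8 * 2) ^ j := one_le_pow₀ (by norm_num)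
      _ = (7 / 8) ^ j * 2 ^ j := mul_pow _ _ _
      _ ≤ _ := by gcongr
  have hf : exp (-(6 * L / 5)) ≤ 20 * q * ((1 / 3) ^ j) ^ 3 / 2 ^ 23 := by
    have a1 : 2 ^ 23 * k ^ 7 ≤ exp (L / 5) :=
      calc 2 ^ 23 * k ^ 7 ≤ 1024 ^ 8 * k ^ 16 := by
            gcongr
            · norm_num
            · norm_num
        _ = (1024 * k ^ 2) ^ 8 := by ring
        _ ≤ exp (L / 40) ^ 8 := by gcongr
        _ = exp (L / 5) := by rw [← exp_nat_mul]; congr 1; push_cast; ring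
    have a2 : exp (-(6 * L / 5)) * exp (L / 5) = exp (-L) := by rw [← exp_add]; congr 1; ring
    have a3 : 1 ≤ (((1 / 3 : ℝ) ^ j) * k ^ 2) ^ 3 := one_le_pow₀ ν2
    have a4 := mul_le_mul_of_nonneg_left a1 (exp_pos (-(6 * L / 5))).le
    have a5 := mul_le_mul_of_nonneg_left a3 (by positivity : 0 ≤ 4 * k * q)
    rw [le_div_iff₀ (by positivity)]
    refine le_of_mul_le_mul_right ?_ (pow_pos k0 7)
    have a6 : 0 ≤ q * ((1 / 3 : ℝ) ^ j) ^ 3 * k ^ 7 := by positivity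
    nlinarith
  have h5' : ∑ o ∈ Gᶜ, ω' o ≤ (1 / 3) ^ j * (20 * q) / 32 := by
    refine h5.trans ((exp_le_exp.2 ?_).trans (hf.trans ?_))
    · have := add_one_le_exp (8 * L / 5)
      nlinarith
    · have a1 : ((1 / 3 : ℝ) ^ j) ^ 3 ≤ (1 / 3) ^ j := pow_le_of_le_one ν0.le ν1 (by norm_num)
      have a2 := mul_le_mul_of_nonneg_left a1 q0.le
      have a3 := mul_pos q0 ν0
      nlinarith
  obtain ⟨a', b', E, b1, b2, b3, b4, b5⟩ := kinit (B := 240 * q * (64 * n) ^ 2 / 4 ^ j)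
    (Θ := 102400 * (n * q) * (7 / 8) ^ j) hω hω' hW (by positivity : 0 < 20 * q) ν0 ν1
    (by positivity) h1 h2 (fun v hv => (h3 v hv).trans_eq (by ring)) h4 h5'
    (fun o ho => (le_div_iff₀' (by positivity)).2 (h6 o ho)) (not_le.1 hn).le (by
      have a1 : (1 : ℝ) ≤ (1 / 3 * (7 / 8) ^ 2 * 4) ^ j := one_le_pow₀ (by norm_num)
      rw [mul_pow, mul_pow, ← pow_mul, mul_comm 2 j, pow_mul] at a1
      have a2 := mul_le_mul_of_nonneg_left a1 (sq_nonneg (n * q))
      rw [← mul_div_assoc, div_le_iff₀ (by positivity)]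
      nlinarith [sq_nonneg (n * q)])
  refine lemS (u := 3 + log (1024 * 3 ^ j)) (Λ := 15 * 10 ^ 15 * (n * q)) hω hω' b1 b2
    (fun z hz => (b3 z hz).2) (hf.trans b4) (b5.trans_eq ?_) ?_ ?_ hL ?_ ?_
    fun f g f1 g1 f2 g2 => le_trans ?_ (hR f g f1 g1 f2 g2)
  · rw [add_sub_cancel_left, exp_log (by positivity), one_div, inv_pow, div_inv_eq_mul]
  · have : (1 : ℝ) ≤ 3 ^ j := one_le_pow₀ (by norm_num)
    linarith [log_nonneg (show (1 : ℝ) ≤ 1024 * 3 ^ j by linarith)]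
  · have := (log_le_iff_le_exp (by positivity)).2
      ((mul_le_mul_of_nonneg_left k3 (by norm_num)).trans c2)
    linarith
  · have a1 : k ≤ exp (L / 10) :=
      (show k ≤ 1024 * k ^ 2 by nlinarith).trans (c2.trans (exp_le_exp.2 (by linarith)))
    have a2 : exp (3 * L / 2) * exp (L / 10) = exp (8 * L / 5) := by
      rw [← exp_add]; congr 1; ring
    have a3 := mul_le_mul_of_nonneg_left a1 (exp_pos (3 * L / 2)).le
    have a4 := mul_le_mul_of_nonneg_left s1 x0.le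
    refine le_of_mul_le_mul_right ?_ k0
    nlinarith
  · have a1 : (7 / 8 : ℝ) ^ j * (3 + log (1024 * 3 ^ j)) ≤ 14 :=
      (mul_le_mul_of_nonneg_left (by linarith [ke_log j]) (by positivity)).trans (ke_dec j)
    nlinarith [mul_le_mul_of_nonneg_left a1 x0.le]
  · rw [← Fintype.sum_prod_type']
    refine (sum_congr rfl fun z hz => ?_).trans_le (sum_le_sum_of_subset_of_nonneg
      (subset_univ E) fun z _ _ => mul_nonneg (mul_nonneg (f1 _).1 (g1 _).1) ?_)
    · rw [(b3 z hz).1, mul_one]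
    · rcases hW z.1 z.2 with h | h <;> rw [h] <;> norm_num

end Pool.Agent.Work.MP_e10cd8_co.Far
end

-- merged part: Pool.Agent.Work.MP_e10cd8_co.Far.KRes
section
/-! The residual of a vertex. -/

namespace Pool.Agent.Work.MP_e10cd8_co.Far
open Finset Real Pool.Agent.Work.MP_e10cd8_co.Up

variable {V X ι J : Type} [Fintype V] [Fintype X] [Fintype ι] [Fintype J]
  [DecidableEq V] [DecidableEq X] [DecidableEq ι] [DecidableEq J]

theorem kres_dy (t : ℝ) (n : ℕ) (h : t ≤ 2 ^ n) :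
    t ≤ 1 + ∑ j ∈ range n, if (2 : ℝ) ^ j ≤ t then (2 : ℝ) ^ (j + 1) else 0 := by
  have p : ∀ j, (0 : ℝ) ≤ if (2 : ℝ) ^ j ≤ t then (2 : ℝ) ^ (j + 1) else 0 := fun j => by
    split_ifs <;> positivity
  induction n with
  | zero => simpa using h
  | succ n ih =>
    rw [sum_range_succ]
    rcases le_total t (2 ^ n) with k | k
    · linarith [ih k, p n]
    · rw [if_pos k]
      linarith [sum_nonneg fun j (_ : j ∈ range n) => p j]

theorem kres_pos (hN : 0 < Fintype.card (J × V)) :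
    (0 : ℝ) < Fintype.card J ∧ (0 : ℝ) < Fintype.card V := by
  rw [Fintype.card_prod] at hN
  exact ⟨by exact_mod_cast Nat.pos_of_mul_pos_right hN, by exact_mod_cast Nat.pos_of_mul_pos_left hN⟩

/-- dyadic decomposition of the spectrum, term by term -/
theorem kdyad {lam c : ι → ℝ} {β : ℝ} {n : ℕ} (h : ∀ i, β * lam i ≤ 2 ^ n) :
    β * ∑ i, lam i * c i ^ 2 ≤
      ∑ i, c i ^ 2 + ∑ j ∈ range n, 2 ^ (j + 1) * ∑ i with 2 ^ j ≤ β * lam i, c i ^ 2 := by
  rw [mul_sum]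
  simp only [sum_filter, mul_sum]
  rw [sum_comm, ← sum_add_distrib]
  refine sum_le_sum fun i _ => ?_
  have h1 := mul_le_mul_of_nonneg_right (kres_dy (β * lam i) n (h i)) (sq_nonneg (c i))
  rw [add_mul, one_mul, sum_mul] at h1
  rw [← mul_assoc]
  refine h1.trans (le_of_eq ?_)
  congr 1
  refine sum_congr rfl fun j _ => ?_
  split_ifs <;> simp

theorem dj_le {W : V → V → ℝ} (hW : Gr W) {ω : J × V → ℝ} (hω : ∀ o, 0 ≤ ω o) (v : V) (j : J) :
    0 ≤ dj W ω v j ∧ dj W ω v j ≤ Fintype.card J * ∑ o, ω o * W v o.2 := by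
  have h0 : ∀ j x, 0 ≤ ω (j, x) * W v x := fun j x => mul_nonneg (hω _) (hW.nonneg _ _)
  refine ⟨mul_nonneg (Nat.cast_nonneg _) (sum_nonneg fun x _ => h0 j x),
    mul_le_mul_of_nonneg_left ?_ (Nat.cast_nonneg _)⟩
  rw [Fintype.sum_prod_type]
  exact single_le_sum (f := fun j => ∑ x, ω (j, x) * W v x)
    (fun j _ => sum_nonneg fun x _ => h0 j x) (mem_univ j)

theorem Rv_zs (W : V → V → ℝ) {Z : Finset V} {ω : J × V → ℝ} (hJ : 0 < Fintype.card J)
    (hω : ω ∈ KK J Z) (v : V) : Zs ω (Rv W ω v) := by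
  intro j
  have k : (Fintype.card J : ℝ) ≠ 0 := by exact_mod_cast hJ.ne'
  have e : ∀ x, ω (j, x) * Rv W ω v (j, x) =
      (ω (j, x) * W v x - dj W ω v j * ω (j, x)) / (1 - dj W ω v j) := fun x => by
    unfold Rv
    ring
  simp only [e]
  rw [← sum_div, sum_sub_distrib, ← mul_sum, hω.2.1 j]
  have : ∑ x, ω (j, x) * W v x - dj W ω v j * (1 / Fintype.card J) = 0 := by
    unfold dj
    field_simp
    ring
  rw [this, zero_div]

/-- On part `j` the sum is `d_j / (1 - d_j) / k ≤ 2 d_j / k`. -/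
theorem Rv_sq {W : V → V → ℝ} (hW : Gr W) {Z : Finset V} {ω : J × V → ℝ}
    (hJ : 0 < Fintype.card J) (hω : ω ∈ KK J Z) {v : V} (hv : ∀ j, dj W ω v j ≤ 1 / 2) :
    ∑ o, ω o * Rv W ω v o ^ 2 ≤ 2 * ∑ o, ω o * W v o.2 := by
  have k : (Fintype.card J : ℝ) ≠ 0 := by exact_mod_cast hJ.ne'
  rw [Fintype.sum_prod_type, Fintype.sum_prod_type, mul_sum]
  refine sum_le_sum fun j _ => ?_
  have d1 := hv j
  have e : ∀ x, ω (j, x) * Rv W ω v (j, x) ^ 2 =
      ((1 - 2 * dj W ω v j) * (ω (j, x) * W v x) + dj W ω v j ^ 2 * ω (j, x)) /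
        (1 - dj W ω v j) ^ 2 := fun x => by
    unfold Rv
    rcases hW.1 v x with e | e <;> simp only [e] <;> rw [div_pow] <;> ring
  simp only [e]
  rw [← sum_div, sum_add_distrib, ← mul_sum, ← mul_sum, hω.2.1 j]
  have s0 : 0 ≤ ∑ x, ω (j, x) * W v x :=
    sum_nonneg fun x _ => mul_nonneg (hω.1 _) (hW.nonneg _ _)
  have e2 : dj W ω v j ^ 2 * (1 / Fintype.card J) = dj W ω v j * ∑ x, ω (j, x) * W v x := by
    conv_lhs => rw [sq, mul_assoc]
    congr 1
    unfold dj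
    field_simp
  rw [e2, div_le_iff₀ (by nlinarith)]
  nlinarith [mul_nonneg s0 (mul_nonneg (show 0 ≤ 1 - dj W ω v j by linarith)
    (show 0 ≤ 1 - 2 * dj W ω v j by linarith))]

/-- On part `j` the sum is `∑ ω W g / (1 - d_j)`. -/
theorem Rv_mul {W : V → V → ℝ} (hW : Gr W) {ω g : J × V → ℝ} (hω : ∀ o, 0 ≤ ω o) {v : V}
    (hv : ∀ j, dj W ω v j ≤ 1 / 2) (hg : Zs ω g) :
    ∑ o, ω o * Rv W ω v o * g o ≤ 2 * ∑ o, ω o * W v o.2 * max (g o) 0 := by
  rw [Fintype.sum_prod_type, Fintype.sum_prod_type, mul_sum]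
  refine sum_le_sum fun j _ => ?_
  have d1 := hv j
  have e : ∀ x, ω (j, x) * Rv W ω v (j, x) * g (j, x) =
      (ω (j, x) * W v x * g (j, x) - dj W ω v j * (ω (j, x) * g (j, x))) / (1 - dj W ω v j) :=
    fun x => by
      unfold Rv
      ring
  simp only [e]
  rw [← sum_div, sum_sub_distrib, ← mul_sum, hg j, mul_zero, sub_zero, div_le_iff₀ (by linarith)]
  have h0 : ∀ x, 0 ≤ ω (j, x) * W v x := fun x => mul_nonneg (hω _) (hW.nonneg _ _)
  have s0 : 0 ≤ ∑ x, ω (j, x) * W v x * max (g (j, x)) 0 :=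
    sum_nonneg fun x _ => mul_nonneg (h0 x) (le_max_right _ _)
  have s1 : ∑ x, ω (j, x) * W v x * g (j, x) ≤ ∑ x, ω (j, x) * W v x * max (g (j, x)) 0 :=
    sum_le_sum fun x _ => mul_le_mul_of_nonneg_left (le_max_left _ _) (h0 x)
  nlinarith

/-- `1 - Rv = (1 - W) / (1 - d_j)`. -/
theorem Rv_mem {W : V → V → ℝ} (hW : Gr W) {Z : Finset V} {ω : J × V → ℝ}
    (hJ : 0 < Fintype.card J) (hω : ω ∈ KK J Z) {v : V} (hv : ∀ j, dj W ω v j ≤ 1 / 2) :
    (fun o => ω o * (1 + -Rv W ω v o)) ∈ KK J (Z.filter fun x => W v x ≠ 1) := by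
  have e : ∀ o : J × V, 1 + -Rv W ω v o = (1 - W v o.2) / (1 - dj W ω v o.1) := fun o => by
    have : 1 - dj W ω v o.1 ≠ 0 := by linarith [hv o.1]
    unfold Rv
    field_simp
    ring
  refine ⟨fun o => mul_nonneg (hω.1 o) ?_, fun j => ?_, fun o ho => ?_⟩
  · rw [e]
    exact div_nonneg (by linarith [hW.le_one v o.2]) (by linarith [hv o.1])
  · have := Rv_zs W hJ hω v j
    simp only [mul_add, mul_one, mul_neg, sum_add_distrib, sum_neg_distrib, this, neg_zero,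
      add_zero]
    exact hω.2.1 j
  · by_cases hz : o.2 ∈ Z
    · have : W v o.2 = 1 := by
        by_contra h
        exact ho (mem_filter.2 ⟨hz, h⟩)
      show ω o * (1 + -Rv W ω v o) = 0
      rw [e, this, sub_self, zero_div, mul_zero]
    · show ω o * (1 + -Rv W ω v o) = 0
      rw [hω.2.2 o hz, zero_mul]

/-- `Q_marg`; the marginals are at most `exp A / N`; `Sp`. -/
theorem kreg {W : V → V → ℝ} {η Xx A Λ Φ : ℝ} (hS : Sp W (fun _ => 1) η Xx) (η0 : 0 ≤ η)
    (X0 : 0 ≤ Xx) (hN : 0 < Fintype.card (J × V)) {ω : J × V → ℝ}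
    (h : ∀ o, Fintype.card (J × V) * ω o ≤ exp Φ) (hA : Λ + Φ ≤ A)
    (hX : Xx * exp A ≤ Fintype.card V) {f g : J × V → ℝ} (hf : Le (exp Λ) ω f)
    (hg : Le (exp Λ) ω g) (f1 : ∑ o, f o ≤ 1) (g1 : ∑ o, g o ≤ 1) :
    ∑ o, ∑ o', f o * g o' * W o.2 o'.2 ≤ 4 * η := by
  obtain ⟨kJ, kV⟩ := kres_pos hN
  have hm : ∀ {f : J × V → ℝ}, Le (exp Λ) ω f →
      Le (exp A / Fintype.card V) (fun _ => 1) fun x => ∑ j, f (j, x) := by
    intro f hf x
    refine ⟨sum_nonneg fun j _ => (hf _).1, ?_⟩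
    have h1 : ∀ j, f (j, x) ≤ exp A / (Fintype.card J * Fintype.card V) := fun j => by
      have h2 := h (j, x)
      rw [Fintype.card_prod, Nat.cast_mul] at h2
      have h3 : exp Λ * exp Φ ≤ exp A := by
        rw [← exp_add]
        exact exp_le_exp.2 hA
      have h4 := mul_le_mul_of_nonneg_left h2 (exp_pos Λ).le
      have h5 := mul_le_mul_of_nonneg_right (hf (j, x)).2 (mul_pos kJ kV).le
      rw [le_div_iff₀ (mul_pos kJ kV)]
      linarith
    refine (sum_le_sum fun j _ => h1 j).trans (le_of_eq ?_)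
    rw [sum_const, card_univ, nsmul_eq_mul]
    field_simp
  have h1 := hS _ _ _ (div_pos (exp_pos A) kV).le (hm hf) (hm hg)
  rw [← Q_marg, ← Fintype.sum_prod_type_right f, ← Fintype.sum_prod_type_right g] at h1
  have h2 : exp A / Fintype.card V * Xx ≤ 1 := by
    rw [div_mul_eq_mul_div, div_le_one kV]
    linarith
  have h3 : 0 ≤ exp A / Fintype.card V * Xx := by positivity
  have h4 := hf.sum_nonneg
  have h5 := hg.sum_nonneg
  refine h1.trans ?_
  rw [mul_assoc, mul_comm 4 η]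
  exact mul_le_mul_of_nonneg_left (by nlinarith) η0

/-- `W = Wo W + (same part)`; on each part `Sp` with `b = exp Φ / (N k)` gives `4 η / k ^ 2`. -/
theorem kdeg {W : V → V → ℝ} {η Xx Φ : ℝ} (hS : Sp W (fun _ => 1) η Xx) (η0 : 0 ≤ η)
    (X0 : 0 ≤ Xx) (hN : 0 < Fintype.card (J × V)) {Z : Finset V} {ω : J × V → ℝ}
    (hω : ω ∈ KK J Z) (h : ∀ o, Fintype.card (J × V) * ω o ≤ exp Φ)
    (hX : Xx * exp Φ ≤ Fintype.card V) :
    ∑ v : J × V, ω v * ∑ o, ω o * W v.2 o.2 ≤ Q (Wo W) ω ω + 4 * η / Fintype.card J := by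
  obtain ⟨kJ, kV⟩ := kres_pos hN
  have h1 : ∀ j, Q W (fun x => ω (j, x)) (fun x => ω (j, x)) ≤
      4 * η / Fintype.card J / Fintype.card J := fun j => by
    have hm : Le (exp Φ / (Fintype.card J * Fintype.card V)) (fun _ => 1) fun x => ω (j, x) := by
      intro x
      refine ⟨hω.1 _, ?_⟩
      have h2 := h (j, x)
      rw [Fintype.card_prod, Nat.cast_mul] at h2
      rw [mul_one, le_div_iff₀ (mul_pos kJ kV)]
      linarith
    have h2 := hS _ _ _ (div_pos (exp_pos Φ) (mul_pos kJ kV)).le hm hm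
    rw [hω.2.1 j] at h2
    have h3 : exp Φ / (Fintype.card J * Fintype.card V) * Xx ≤ 1 / Fintype.card J := by
      rw [div_mul_eq_mul_div, div_le_div_iff₀ (mul_pos kJ kV) kJ]
      nlinarith
    have h4 : 0 ≤ exp Φ / (Fintype.card J * Fintype.card V) * Xx := by positivity
    have h5 : (0 : ℝ) < 1 / Fintype.card J := by positivity
    refine h2.trans ?_
    have e : 4 * η / Fintype.card J / Fintype.card J =
        η * (4 * (1 / Fintype.card J * (1 / Fintype.card J))) := by ring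
    rw [e, mul_assoc]
    exact mul_le_mul_of_nonneg_left (by nlinarith) η0
  have h2 : ∑ v : J × V, ω v * ∑ o, ω o * W v.2 o.2 =
      Q (Wo W) ω ω + ∑ j, Q W (fun x => ω (j, x)) fun x => ω (j, x) := by
    have e : ∑ j, Q W (fun x => ω (j, x)) (fun x => ω (j, x)) =
        ∑ v : J × V, ∑ o : J × V, if v.1 = o.1 then ω v * ω o * W v.2 o.2 else 0 := by
      rw [Fintype.sum_prod_type]
      refine sum_congr rfl fun j _ => sum_congr rfl fun x _ => ?_
      rw [Fintype.sum_prod_type_right]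
      exact sum_congr rfl fun y _ => by simp
    rw [e, Q, ← sum_add_distrib]
    refine sum_congr rfl fun v _ => ?_
    rw [mul_sum, ← sum_add_distrib]
    refine sum_congr rfl fun o _ => ?_
    unfold Wo
    split_ifs <;> ring
  rw [h2]
  refine add_le_add le_rfl ((sum_le_sum fun j _ => h1 j).trans (le_of_eq ?_))
  rw [sum_const, card_univ, nsmul_eq_mul]
  field_simp

end Pool.Agent.Work.MP_e10cd8_co.Far
end

-- merged part: Pool.Agent.Work.MP_e10cd8_co.Far.KMove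
section
/-! A cheap move exists. -/

namespace Pool.Agent.Work.MP_e10cd8_co.Far
open Finset Real Pool.Agent.Work.MP_e10cd8_co.Up

variable {V X ι J : Type} [Fintype V] [Fintype X] [Fintype ι] [Fintype J]
  [DecidableEq V] [DecidableEq X] [DecidableEq ι] [DecidableEq J]

theorem kmove_geo (n : ℕ) : ∑ j ∈ range n, (2 : ℝ) ^ (j + 1) * (1 / 3) ^ j ≤ 6 := by
  have h : ∑ j ∈ range n, (2 : ℝ) ^ (j + 1) * (1 / 3) ^ j = 6 - 6 * (2 / 3) ^ n := by
    induction n with
    | zero => simp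
    | succ n ih =>
      have e : (2 : ℝ) ^ n * (1 / 3) ^ n = (2 / 3) ^ n := by
        rw [← mul_pow]
        norm_num
      rw [sum_range_succ, ih, pow_succ, pow_succ, mul_right_comm, e]
      ring
  have : (0 : ℝ) ≤ (2 / 3) ^ n := by positivity
  linarith

theorem kmove_zs {ω : J × V → ℝ} {b : J × V → ι → ℝ} (h : ∀ i, Zs ω fun o => b o i) (a : ι → ℝ) :
    Zs ω fun o => ∑ i, a i * b o i := fun j => by
  simp only [mul_sum]
  rw [sum_comm]
  refine sum_eq_zero fun i _ => ?_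
  have k := congrArg (a i * ·) (h i j)
  simp only [mul_sum, mul_zero] at k
  exact (sum_congr rfl fun x _ => by ring).trans k

/-- `klin`, `kpair`, `kspec` give `lam`, `b`; `ksup` (`Φ = 384 n q`, `β = 64 n`, so the bound is
`1280 n q`).  `GG = {v | ∑ o, ω o W v.2 o.2 ≤ 20 q}` has mass `≥ 1 / 2` (`kdeg`: mean `≤ 10 q`),
`dj ≤ 1 / 2` on it (`dj_le`); `G = {exp (-1280 n q) ≤ N k ω}`.  `c v i = ∑ ω (Rv v.2) b_i`,
`n0 = Nat.clog 2 k`.  For `j < n0` apply `kE` to `a v i = if 2 ^ j ≤ β lam i then c v i else 0`,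
`b' o i = if 2 ^ j ≤ β lam i then b o i else 0` (`pars`, `Rv_mul`, `bessel_y` with `y = 1`,
`Rv_sq`, `kreg`).  `kdyad`: `cost ≤ 80 q + ∑ 2 ^ (j + 1) e_j`; the `ω` sum over `GG` is at most
`80 q ω GG + 120 q ≤ 320 q ω GG` (`∑ (2 / 3) ^ j ≤ 3`), so some `o` with `0 < ω o` is cheap. -/
theorem kmove {W : V → V → ℝ} (hW : Gr W) {n q η L Xx : ℝ} (hN : 0 < Fintype.card (J × V))
    (n0 : 0 < n) (q0 : 0 < q) (η0 : 0 ≤ η) (X0 : 0 ≤ Xx) (hS : Sp W (fun _ => 1) η Xx)
    (hL : 1000 ≤ L) (c0 : 4 * η ≤ exp (-L)) (c1 : exp (-L) ≤ 4 * Fintype.card J * q)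
    (c4 : 40 * Fintype.card J * q ≤ 1) (c2 : 1024 * (Fintype.card J : ℝ) ^ 2 ≤ exp (L / 40))
    (c3 : exp (8 * L / 5) ≤ n * q) (hX : Xx * exp (2 * 10 ^ 16 * (n * q)) ≤ Fintype.card V)
    {Z : Finset V} {ω : J × V → ℝ} (H : KMin W (64 * n) Z ω)
    (hΦ : free_F (Wo W) (64 * n) ω ≤ 384 * (n * q)) :
    ∃ o, 0 < ω o ∧ (∀ j, dj W ω o.2 j ≤ 1 / 2) ∧ cost W (64 * n) ω (Rv W ω o.2) ≤ 320 * q := by
  classical
  have hJ : 0 < Fintype.card J := by
    rw [Fintype.card_prod] at hN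
    exact Nat.pos_of_mul_pos_right hN
  have k0 : (0 : ℝ) < Fintype.card J := by exact_mod_cast hJ
  have N0 : (0 : ℝ) < Fintype.card (J × V) := by exact_mod_cast hN
  have hP := KK_pb H.1 hJ
  have nq : 0 < n * q := mul_pos n0 q0
  have hk : η ≤ Fintype.card J * q := by linarith
  have hX' : ∀ t : ℝ, t ≤ 2 * 10 ^ 16 * (n * q) → Xx * exp t ≤ Fintype.card V := fun t ht =>
    (mul_le_mul_of_nonneg_left (exp_le_exp.2 ht) X0).trans hX
  obtain ⟨lam, b, s1, s2, s3, s4, s5⟩ :=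
    kspec hW hJ H.1 (kpair hW H.1.1 fun g hg => (klin hW hN H hg).2)
  obtain ⟨u1, u2, u3, u4⟩ := ksup hW (by positivity) hN H hΦ hS η0 X0 hk (hX' _ (by linarith))
  rw [show 2 * (384 * (n * q)) + 8 * (64 * n) * q = 1280 * n * q by ring] at u1 u2 u3
  have u5 := kdeg hS η0 X0 hN H.1 u1 (hX' _ (by linarith))
  have u6 : Q (Wo W) ω ω ≤ 6 * q := le_of_mul_le_mul_left (by linarith) n0
  have u7 : 4 * η / Fintype.card J ≤ 4 * q := by
    rw [div_le_iff₀ k0]
    linarith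
  obtain ⟨GG, hGG⟩ : ∃ GG : Finset (J × V), ∀ v, v ∈ GG ↔ ∑ o, ω o * W v.2 o.2 ≤ 20 * q :=
    ⟨univ.filter fun v => ∑ o, ω o * W v.2 o.2 ≤ 20 * q, fun v => by simp⟩
  obtain ⟨G, hG⟩ : ∃ G : Finset (J × V), ∀ o, o ∈ G ↔
      exp (-(1280 * n * q)) ≤ Fintype.card (J × V) * ω o :=
    ⟨univ.filter fun o => exp (-(1280 * n * q)) ≤ Fintype.card (J × V) * ω o, fun v => by
      simp only [mem_filter, mem_univ, true_and]⟩
  have m1 : 1 / 2 ≤ ∑ v ∈ GG, ω v := by
    have a1 := sum_add_sum_compl GG ω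
    have a2 := sum_add_sum_compl GG fun v => ω v * ∑ o, ω o * W v.2 o.2
    have a3 : 0 ≤ ∑ v ∈ GG, ω v * ∑ o, ω o * W v.2 o.2 := sum_nonneg fun v _ =>
      mul_nonneg (hP.1 v) (sum_nonneg fun o _ => mul_nonneg (hP.1 o) (hW.nonneg _ _))
    have a4 : ∑ v ∈ GGᶜ, ω v * (20 * q) ≤ ∑ v ∈ GGᶜ, ω v * ∑ o, ω o * W v.2 o.2 :=
      sum_le_sum fun v hv => mul_le_mul_of_nonneg_left
        (not_le.1 fun h => mem_compl.1 hv ((hGG v).2 h)).le (hP.1 v)
    rw [← sum_mul] at a4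
    rw [hP.2] at a1
    have a5 : (∑ v ∈ GGᶜ, ω v) ≤ 1 / 2 := le_of_mul_le_mul_right (by linarith) q0
    linarith
  have m2 : ∀ v ∈ GG, ∀ j, dj W ω v.2 j ≤ 1 / 2 := fun v hv j => by
    have a1 := (dj_le hW hP.1 v.2 j).2
    have a2 := mul_le_mul_of_nonneg_left ((hGG v).1 hv) k0.le
    linarith
  have m3 : ∑ o ∈ Gᶜ, ω o ≤ exp (-(1280 * n * q)) := by
    refine le_of_mul_le_mul_left ?_ N0
    rw [mul_sum]
    refine (sum_le_card_nsmul _ _ (exp (-(1280 * n * q))) fun o ho =>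
      (not_le.1 fun h => mem_compl.1 ho ((hG o).2 h)).le).trans ?_
    rw [nsmul_eq_mul]
    exact mul_le_mul_of_nonneg_right (Nat.cast_le.2 (card_le_univ _)) (exp_pos _).le
  obtain ⟨c, hc⟩ : ∃ c : J × V → J × V → ℝ, ∀ v i, c v i = ∑ o, ω o * Rv W ω v.2 o * b o i :=
    ⟨_, fun _ _ => rfl⟩
  have m4 : ∀ v ∈ GG, ∑ o, ω o * Rv W ω v.2 o ^ 2 ≤ 40 * q := fun v hv => by
    have a1 := Rv_sq hW hJ H.1 (m2 v hv)
    have a2 := (hGG v).1 hv
    linarith
  have m5 : ∀ v ∈ GG, ∑ i, c v i ^ 2 ≤ 40 * q := fun v hv => by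
    have a1 := bessel_y hP.1 s3 zero_le_one (fun i => by split_ifs <;> norm_num) (Rv W ω v.2)
    simp only [hc]
    linarith [m4 v hv]
  have hE : ∀ j ∈ range (Nat.clog 2 (Fintype.card J)),
      ∑ v ∈ GG, ω v * ∑ i with 2 ^ j ≤ 64 * n * lam i, c v i ^ 2 ≤ (1 / 3) ^ j * (20 * q) := by
    intro j hj
    have a0 : (2 : ℝ) ^ j ≤ Fintype.card J := by
      exact_mod_cast ((Nat.lt_clog_iff_pow_lt one_lt_two).1 (mem_range.1 hj)).le
    obtain ⟨a, ha⟩ : ∃ a : J × V → J × V → ℝ, ∀ v i,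
      a v i = if 2 ^ j ≤ 64 * n * lam i then c v i else 0 := ⟨_, fun _ _ => rfl⟩
    have e1 : ∀ v o, ∑ i, a v i * (if 2 ^ j ≤ 64 * n * lam i then b o i else 0) =
        ∑ i, a v i * b o i := fun v o => sum_congr rfl fun i _ => by
      rw [ha]
      split_ifs <;> simp
    have e2 : ∀ v, ∑ i with 2 ^ j ≤ 64 * n * lam i, c v i ^ 2 = ∑ i, a v i ^ 2 := fun v => by
      rw [sum_filter]
      refine sum_congr rfl fun i _ => ?_
      rw [ha]
      split_ifs <;> simp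
    simp only [e2]
    refine kE (W := fun v o : J × V => W v.2 o.2) (G := G)
      (b := fun o i => if 2 ^ j ≤ 64 * n * lam i then b o i else 0) hP hP (fun v o => hW.1 _ _) q0
      a0 hL c1 c2 c3 (fun v _ => ?_) (fun v hv => ?_) (fun v hv => ?_) (fun v hv => (hGG v).1 hv)
      m3 (fun o ho => ?_) fun f g hf hg f1 g1 =>
        (kreg hS η0 X0 hN u1 (by linarith) hX hf hg f1 g1).trans c0
    · simp only [e1]
      rw [pars s3]
      refine sum_congr rfl fun i _ => ?_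
      rw [ha]
      by_cases h : 2 ^ j ≤ 64 * n * lam i
      · have p : (0 : ℝ) < 2 ^ j := by positivity
        have hl : 0 < lam i :=
          (mul_pos_iff_of_pos_left (by positivity : (0 : ℝ) < 64 * n)).1 (p.trans_le h)
        rw [if_pos hl, one_mul]
      · rw [if_neg h]
        simp
    · simp only [e1]
      refine le_trans (le_of_eq ?_) (Rv_mul hW hP.1 (m2 v hv) (kmove_zs s2 (a v)))
      simp only [mul_sum]
      rw [sum_comm]
      refine sum_congr rfl fun i _ => ?_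
      have e3 : a v i ^ 2 = a v i * c v i := by
        rw [ha]
        split_ifs <;> ring
      rw [e3, hc, mul_sum]
      exact sum_congr rfl fun o _ => by ring
    · rw [← e2]
      exact (sum_le_sum_of_subset_of_nonneg (filter_subset _ _) fun _ _ _ => sq_nonneg _).trans
        (m5 v hv)
    · have b1 : fo W ω o ≤ 20 * q := le_of_mul_le_mul_left (by linarith [u2 o ((hG o).1 ho)]) n0
      have b2 : fb W ω o.1 ≤ 10 * q := le_of_mul_le_mul_left (by linarith [u3 o.1]) n0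
      have b3 : ∑ i, lam i ^ 2 * b o i ^ 2 ≤ 240 * q := by linarith [s5 o]
      refine le_trans ?_ (mul_le_mul_of_nonneg_right b3 (sq_nonneg (64 * n)))
      rw [mul_sum, sum_mul]
      refine sum_le_sum fun i _ => ?_
      by_cases h : 2 ^ j ≤ 64 * n * lam i
      · have b4 := pow_le_pow_left₀ (by positivity) h 2
        rw [← pow_mul, mul_comm j, pow_mul, show (2 : ℝ) ^ 2 = 4 by norm_num] at b4
        rw [if_pos h]
        exact (mul_le_mul_of_nonneg_right b4 (sq_nonneg _)).trans (le_of_eq (by ring))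
      · rw [if_neg h, zero_pow two_ne_zero, mul_zero]
        positivity
  have m6 : ∀ v ∈ GG, cost W (64 * n) ω (Rv W ω v.2) ≤ 80 * q +
      ∑ j ∈ range (Nat.clog 2 (Fintype.card J)),
        2 ^ (j + 1) * ∑ i with 2 ^ j ≤ 64 * n * lam i, c v i ^ 2 := fun v hv => by
    have a1 := mul_le_mul_of_nonneg_left (s4 _ (Rv_zs W hJ H.1 v.2)) (by positivity : 0 ≤ 64 * n)
    have a2 := kdyad (lam := lam) (c := c v) (β := 64 * n) (n := Nat.clog 2 (Fintype.card J))
      fun i => (s1 i).2.trans (by exact_mod_cast Nat.le_pow_clog one_lt_two _)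
    simp only [← hc] at a1
    unfold cost
    linarith [m4 v hv, m5 v hv]
  have m7 : ∑ v ∈ GG, ω v * cost W (64 * n) ω (Rv W ω v.2) ≤ ∑ v ∈ GG, ω v * (320 * q) := by
    refine (sum_le_sum fun v hv => mul_le_mul_of_nonneg_left (m6 v hv) (hP.1 v)).trans ?_
    simp only [mul_add, sum_add_distrib, ← sum_mul]
    have a1 : ∑ v ∈ GG, ω v * ∑ j ∈ range (Nat.clog 2 (Fintype.card J)),
        2 ^ (j + 1) * ∑ i with 2 ^ j ≤ 64 * n * lam i, c v i ^ 2 ≤ 6 * (20 * q) := by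
      refine le_trans ?_ (mul_le_mul_of_nonneg_right (kmove_geo (Nat.clog 2 (Fintype.card J)))
        (by positivity))
      simp only [mul_sum (s := range _)]
      rw [sum_comm, sum_mul]
      refine sum_le_sum fun j hj => ?_
      simp only [mul_left_comm (ω _), ← mul_sum]
      rw [mul_assoc]
      exact mul_le_mul_of_nonneg_left (hE j hj) (by positivity)
    nlinarith
  by_contra hc'
  have m8 : ∀ v ∈ GG, 0 < ω v → 320 * q < cost W (64 * n) ω (Rv W ω v.2) := fun v hv h =>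
    not_le.1 fun h' => hc' ⟨v, h, m2 v hv, h'⟩
  obtain ⟨v, hv, h⟩ := exists_ne_zero_of_sum_ne_zero (lt_of_lt_of_le (by norm_num) m1).ne'
  have h' := (hP.1 v).lt_of_ne' h
  refine absurd m7 (not_le.2 (sum_lt_sum (fun v hv => ?_)
    ⟨v, hv, mul_lt_mul_of_pos_left (m8 v hv h') h'⟩))
  rcases (hP.1 v).eq_or_lt with e | e
  · rw [← e, zero_mul, zero_mul]
  · exact (mul_lt_mul_of_pos_left (m8 v hv e) e).le

end Pool.Agent.Work.MP_e10cd8_co.Far
end

-- merged part: Pool.Agent.Work.MP_e10cd8_co.Far.KInd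
section
/-! The greedy choice of an independent set. -/

namespace Pool.Agent.Work.MP_e10cd8_co.Far
open Finset Real Pool.Agent.Work.MP_e10cd8_co.Up

variable {V X ι J : Type} [Fintype V] [Fintype X] [Fintype ι] [Fintype J]
  [DecidableEq V] [DecidableEq X] [DecidableEq ι] [DecidableEq J]

theorem kind_neg (W : V → V → ℝ) (β : ℝ) (ω g : J × V → ℝ) :
    cost W β ω (fun o => -g o) = cost W β ω g := by
  unfold cost Q
  congr 1
  · exact sum_congr rfl fun o _ => by ring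
  · congr 1
    exact sum_congr rfl fun o _ => sum_congr rfl fun o' _ => by ring

theorem kind_ind {W : V → V → ℝ} (hW : Gr W) {β Φ c : ℝ} (c0 : 0 ≤ c)
    (hN : 0 < Fintype.card (J × V))
    (hm : ∀ (Z : Finset V) (ω : J × V → ℝ), KMin W β Z ω → free_F (Wo W) β ω ≤ Φ →
      ∃ o, 0 < ω o ∧ (∀ j, dj W ω o.2 j ≤ 1 / 2) ∧ cost W β ω (Rv W ω o.2) ≤ c) (j : ℕ) :
    ∀ (Z : Finset V) (φ : ℝ), (∃ ω ∈ KK J Z, free_F (Wo W) β ω ≤ φ) → φ + j * c ≤ Φ →
      ∃ S : Finset V, S ⊆ Z ∧ S.card = j + 1 ∧ ∀ x ∈ S, ∀ y ∈ S, W x y = 1 → x = y := by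
  have hJ : 0 < Fintype.card J := by
    rw [Fintype.card_prod] at hN
    exact Nat.pos_of_mul_pos_right hN
  induction j with
  | zero =>
    rintro Z φ ⟨ω, hω, -⟩ -
    obtain ⟨o, -, ho⟩ := exists_ne_zero_of_sum_ne_zero ((KK_pb hω hJ).2.trans_ne one_ne_zero)
    refine ⟨{o.2}, singleton_subset_iff.2 (by_contra fun h => ho (hω.2.2 o h)),
      card_singleton _, ?_⟩
    intro x hx y hy _
    rw [mem_singleton.1 hx, mem_singleton.1 hy]
  | succ j ih =>
    rintro Z φ ⟨ω0, hω0, hφ0⟩ hφ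
    obtain ⟨ω, H⟩ := kmin W β hN ⟨ω0, hω0⟩
    have h1 : free_F (Wo W) β ω ≤ φ := (H.2 ω0 hω0).trans hφ0
    push_cast at hφ
    have hj : 0 ≤ (j : ℝ) * c := by positivity
    obtain ⟨o, ho, hd, hc⟩ := hm Z ω H (by linarith)
    have hz : Zs ω fun o' => -Rv W ω o.2 o' := fun i => by
      have a := Rv_zs W hJ H.1 o.2 i
      simp only [mul_neg, sum_neg_distrib, a, neg_zero]
    have hmem := Rv_mem hW hJ H.1 hd
    have hs : ∑ o', ω o' * -Rv W ω o.2 o' = 0 := by
      rw [Fintype.sum_prod_type]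
      exact sum_eq_zero fun i _ => hz i
    have a := kbreg hW β hN (g := fun o' => -Rv W ω o.2 o') H.1.1 hmem.1 hs
    rw [(klin hW hN H hz).1, kind_neg] at a
    obtain ⟨S, s1, s2, s3⟩ := ih (Z.filter fun x => W o.2 x ≠ 1) (φ + c)
      ⟨_, hmem, by linarith⟩ (by linarith)
    have hvS : o.2 ∉ S := fun h => (mem_filter.1 (s1 h)).2 (hW.2.2 _)
    refine ⟨insert o.2 S, insert_subset (by_contra fun h => ho.ne' (H.1.2.2 o h))
      (s1.trans (filter_subset _ _)), by rw [card_insert_of_notMem hvS, s2], ?_⟩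
    intro x hx y hy hxy
    rcases mem_insert.1 hx with rfl | hx' <;> rcases mem_insert.1 hy with rfl | hy'
    · rfl
    · exact absurd hxy (mem_filter.1 (s1 hy')).2
    · exact absurd ((hW.2.1 _ _).trans hxy) (mem_filter.1 (s1 hx')).2
    · exact s3 x hx' y hy' hxy

/-- As `Up.free_ind` and `Up.free`: induction on `j` over `Z` and the energy level; `kmin`, `hm`,
`kbreg` and `klin` for `g = -Rv` (`Rv_zs`, `Rv_mem`; `cost` is even in `g`); start from the
uniform weight `1 / (N k)`, whose energy is at most `β ∑ W / N ^ 2` (`Wo_le`). -/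
theorem kind {W : V → V → ℝ} (hW : Gr W) {β Φ c : ℝ} {j : ℕ} (β0 : 0 ≤ β) (c0 : 0 ≤ c)
    (hN : 0 < Fintype.card (J × V))
    (hm : ∀ (Z : Finset V) (ω : J × V → ℝ), KMin W β Z ω → free_F (Wo W) β ω ≤ Φ →
      ∃ o, 0 < ω o ∧ (∀ j, dj W ω o.2 j ≤ 1 / 2) ∧ cost W β ω (Rv W ω o.2) ≤ c)
    (h0 : β * ((∑ x, ∑ y, W x y) / (Fintype.card V : ℝ) ^ 2) + j * c ≤ Φ) :
    ∃ S : Finset V, S.card = j + 1 ∧ ∀ x ∈ S, ∀ y ∈ S, W x y = 1 → x = y := by
  have hN' : (0 : ℝ) < Fintype.card (J × V) := by exact_mod_cast hN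
  have eN : (Fintype.card (J × V) : ℝ) = Fintype.card J * Fintype.card V := by
    rw [Fintype.card_prod, Nat.cast_mul]
  have hJ : (Fintype.card J : ℝ) ≠ 0 := fun e => by rw [eN, e, zero_mul] at hN'; exact lt_irrefl _ hN'
  have hV : (Fintype.card V : ℝ) ≠ 0 := fun e => by rw [eN, e, mul_zero] at hN'; exact lt_irrefl _ hN'
  obtain ⟨S, -, h⟩ := kind_ind hW c0 hN hm j univ
    (β * ((∑ x, ∑ y, W x y) / (Fintype.card V : ℝ) ^ 2))
    ⟨fun _ => (Fintype.card (J × V) : ℝ)⁻¹, ⟨fun _ => by positivity, fun _ => by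
      rw [sum_const, card_univ, nsmul_eq_mul, eN]
      field_simp, fun o ho => absurd (mem_univ _) ho⟩, by
      unfold free_F
      beta_reduce
      rw [mul_inv_cancel₀ hN'.ne', Real.log_one, mul_zero, sum_const_zero, zero_add]
      refine mul_le_mul_of_nonneg_left ?_ β0
      have a : Q (Wo W) (fun _ : J × V => (Fintype.card (J × V) : ℝ)⁻¹)
          (fun _ => (Fintype.card (J × V) : ℝ)⁻¹) ≤ ∑ o : J × V, ∑ o' : J × V,
            (Fintype.card (J × V) : ℝ)⁻¹ * (Fintype.card (J × V) : ℝ)⁻¹ * W o.2 o'.2 :=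
        sum_le_sum fun o _ => sum_le_sum fun o' _ =>
          mul_le_mul_of_nonneg_left (Wo_le hW o o') (by positivity)
      refine a.trans (le_of_eq ?_)
      simp only [Fintype.sum_prod_type, sum_const, card_univ, nsmul_eq_mul, ← mul_sum]
      rw [eN]
      field_simp⟩ h0
  exact ⟨S, h⟩

end Pool.Agent.Work.MP_e10cd8_co.Far
end

-- merged part: Pool.Agent.Work.MP_e10cd8_co.Far.Ind
section
/-! Sparse graphs have large independent sets. -/

namespace Pool.Agent.Work.MP_e10cd8_co.Far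
open Finset Real Pool.Agent.Work.MP_e10cd8_co.Up

variable {V X ι J : Type} [Fintype V] [Fintype X] [Fintype ι] [Fintype J]
  [DecidableEq V] [DecidableEq X] [DecidableEq ι] [DecidableEq J]

theorem ind_far {W : V → V → ℝ} (hW : Gr W) {η q L Xx : ℝ} {n k : ℕ} (η0 : 0 ≤ η) (X0 : 0 < Xx)
    (hd : ∑ x, ∑ y, W x y ≤ q * (Fintype.card V : ℝ) ^ 2 / 2) (hS : Sp W (fun _ => 1) η Xx)
    (hL : 1000 ≤ L) (c0 : 4 * η ≤ exp (-L)) (c1 : exp (-L) ≤ 4 * k * q) (c4 : 40 * k * q ≤ 1)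
    (c2 : 1024 * (k : ℝ) ^ 2 ≤ exp (L / 40)) (c3 : exp (8 * L / 5) ≤ n * q)
    (hX : Xx * exp (2 * 10 ^ 16 * (n * q)) ≤ Fintype.card V) :
    ∃ S : Finset V, S.card = n + 1 ∧ ∀ x ∈ S, ∀ y ∈ S, W x y = 1 → x = y := by
  have nq : 0 < n * q := (exp_pos _).trans_le c3
  have kq : 0 < 4 * k * q := (exp_pos _).trans_le c1
  have n0 : (0 : ℝ) < n := by
    rcases (Nat.cast_nonneg (α := ℝ) n).eq_or_lt with h | h
    · rw [← h] at nq; simp at nq
    · exact h
  have q0 : 0 < q := (mul_pos_iff_of_pos_left n0).1 nq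
  have k0 : 0 < k := by
    rcases k.eq_zero_or_pos with h | h
    · rw [h] at kq; simp at kq
    · exact h
  have N0 : (0 : ℝ) < Fintype.card V := lt_of_lt_of_le (by positivity) hX
  have hN : 0 < Fintype.card (Fin k × V) := by
    rw [Fintype.card_prod, Fintype.card_fin]
    exact Nat.mul_pos k0 (by exact_mod_cast N0)
  refine kind (J := Fin k) (β := 64 * n) (Φ := 384 * (n * q)) (c := 320 * q) hW (by positivity)
    (by positivity) hN (fun Z ω H hΦ => kmove hW hN n0 q0 η0 X0.le hS hL c0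
      (by rwa [Fintype.card_fin]) (by rwa [Fintype.card_fin]) (by rwa [Fintype.card_fin]) c3 hX H
      hΦ) ?_
  have a : (∑ x, ∑ y, W x y) / (Fintype.card V : ℝ) ^ 2 ≤ q / 2 := by
    rw [div_le_iff₀ (by positivity)]
    linarith
  linarith [mul_le_mul_of_nonneg_left a n0.le]

end Pool.Agent.Work.MP_e10cd8_co.Far
end
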