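import Pool.Agent.Work.MP_e10cd8_co.Far.Ind
import Pool.Agent.Work.MP_e10cd8_co.Gap.Rich3
import Pool.Agent.Work.MP_e10cd8_co.Up.Step
import Pool.Agent.Work.MP_e10cd8_co.All.AAsym

-- merged part: Pool.Agent.Work.MP_e10cd8_co.Uni.LPrj
section
/-! Projection from a subspace spanned by several random points. -/

namespace Pool.Agent.Work.MP_e10cd8_co.Uni
open Finset Pool.Agent.Work.MP_e10cd8_co.Four Pool.Agent.Work.MP_e10cd8_co.All

variable {q t t' : ℕ} {Pt Pt' : Type} [Fintype Pt] [DecidableEq Pt] [Fintype Pt'] [DecidableEq Pt']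

/-- projection from the span of `R` -/
structure MPrj (G : GP q t Pt) (G' : GP q t' Pt') (R : Finset Pt) (π : Pt → Pt') (φ : Pt' → Pt) :
    Prop where
  mem : ∀ b', R ⊆ G.pl (φ b')
  surj : ∀ b, R ⊆ G.pl b → ∃ b', φ b' = b
  inc : ∀ a, (∃ b, R ⊆ G.pl b ∧ a ∉ G.pl b) → ∀ b', (π a ∈ G'.pl b' ↔ a ∈ G.pl (φ b'))

theorem exists_mprj (Pt : ℕ → Type) [∀ t, Fintype (Pt t)] [∀ t, DecidableEq (Pt t)]
    (G : ∀ t, GP q (t + 2) (Pt t))
    (hp : ∀ (t : ℕ) (c : Pt (t + 1)), ∃ π φ, Prj (t := t + 2) (G (t + 1)) (G t) c π φ) (s r : ℕ) :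
    ∀ R : Finset (Pt (s + r)), (G (s + r)).rk R = r → ∃ π φ, MPrj (G (s + r)) (G s) R π φ := by
  induction r with
  | zero =>
    intro R hR
    have : R = ∅ := by
      by_contra k
      have := (G (s + 0)).one_le_rk (nonempty_iff_ne_empty.2 k)
      omega
    subst this
    exact ⟨id, id, fun _ => empty_subset _, fun b _ => ⟨b, rfl⟩, fun _ _ _ => Iff.rfl⟩
  | succ r ih =>
    intro R hR
    obtain ⟨c, hc⟩ : R.Nonempty := by
      rw [nonempty_iff_ne_empty]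
      rintro rfl
      rw [(G _).rk_empty] at hR
      omega
    obtain ⟨π, φ, h⟩ := hp (s + r) c
    have e : ∀ b', (R.erase c).image π ⊆ (G (s + r)).pl b' ↔ R ⊆ (G (s + r + 1)).pl (φ b') := by
      intro b'
      refine ⟨fun k a ha => ?_, fun k u hu => ?_⟩
      · by_cases ac : a = c
        · rw [ac]
          exact ((G _).symm _ _).1 (h.mem b')
        · exact (h.inc a ac b').1 (k (mem_image_of_mem _ (mem_erase.2 ⟨ac, ha⟩)))
      · obtain ⟨a, ha, rfl⟩ := mem_image.1 hu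
        exact (h.inc a (mem_erase.1 ha).1 b').2 (k (mem_erase.1 ha).2)
    have s1 : ∀ b, R ⊆ (G (s + r + 1)).pl b → ∃ b', φ b' = b := fun b k =>
      h.surj b (((G _).symm _ _).1 (k hc))
    have c1 : ((G (s + r)).perp ((R.erase c).image π)).card = ((G (s + r + 1)).perp R).card :=
      card_bij (fun b' _ => φ b') (fun b' hb => (G _).mem_perp.2 ((e b').1 ((G _).mem_perp.1 hb)))
        (fun _ _ _ _ k => h.inj k) fun b hb => by
          obtain ⟨b', rfl⟩ := s1 b ((G _).mem_perp.1 hb)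
          exact ⟨b', (G _).mem_perp.2 ((e b').2 ((G _).mem_perp.1 hb)), rfl⟩
    rw [GP.card_perp, GP.card_perp] at c1
    have c2 := (gs_strictMono (G s).two_le).injective c1
    have c3 := (G (s + r)).rk_le ((R.erase c).image π)
    have hR' : (G (s + r + 1)).rk R = r + 1 := hR
    obtain ⟨π', φ', h'⟩ := ih ((R.erase c).image π) (by omega)
    refine ⟨fun a => π' (π a), fun b => φ (φ' b), fun b => (e _).1 (h'.mem b), fun b k => ?_,
      fun a ⟨b, k1, k2⟩ b' => ?_⟩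
    · obtain ⟨b', rfl⟩ := s1 b k
      obtain ⟨b'', rfl⟩ := h'.surj b' ((e b').2 k)
      exact ⟨b'', rfl⟩
    · obtain ⟨b1, rfl⟩ := s1 b k1
      have ac : a ≠ c := fun u => k2 (k1 (u ▸ hc))
      exact (h'.inc (π a) ⟨b1, (e b1).2 k1, fun u => k2 ((h.inc a ac b1).1 u)⟩ b').trans
        (h.inc a ac _)

theorem cnt_fun (X : Finset Pt) (r : ℕ) :
    ∑ z : Fin r → Pt, ind (univ.image z ⊆ X) = (X.card : ℝ) ^ r := by
  rw [← card_sel, ← Nat.cast_pow, ← Fintype.card_piFinset_const]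
  congr 2
  ext z
  simp only [mem_sel, Fintype.mem_piFinset, image_subset_iff, mem_univ, forall_true_left]

/-- number of members of `S` through all centres -/
noncomputable def thr (G : GP q t Pt) (S : Finset Pt) {r : ℕ} (z : Fin r → Pt) : ℝ :=
  (selIn S fun b => univ.image z ⊆ G.pl b).card

theorem gs_bounds (G : GP q t Pt) {r : ℕ} (hr : r ≤ t) :
    (gs q t : ℝ) ^ r * q ^ r ≤ (Fintype.card Pt : ℝ) ^ r ∧
    (Fintype.card Pt : ℝ) ^ r ≤ 2 * ((gs q t : ℝ) ^ r * q ^ r) ∧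
    (gs q (t - 1) : ℝ) ^ r * (Fintype.card Pt : ℝ) ^ r ≤ ((gs q t : ℝ) ^ r) ^ 2 := by
  have e : (Fintype.card Pt : ℝ) = q * gs q t + 1 := by rw [G.card_pt, gs_succ]; push_cast; rfl
  have q2 : (2 : ℝ) ≤ q := by exact_mod_cast G.two_le
  have g0 : (0 : ℝ) ≤ gs q t := Nat.cast_nonneg _
  refine ⟨?_, ?_, ?_⟩
  · rw [← mul_pow]
    exact pow_le_pow_left₀ (by positivity) (by linarith) _
  · have c : 2 * (r : ℝ) ≤ Fintype.card Pt := by
      refine le_trans ?_ G.le_card_pt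
      obtain ⟨s, rfl⟩ : ∃ s, t = s + 1 := ⟨t - 1, by have := G.ht; omega⟩
      have : 2 * r ≤ q ^ (s + 1) := by
        have := Nat.lt_two_pow_self (n := s)
        have := Nat.pow_le_pow_left G.two_le (s + 1)
        rw [pow_succ] at this
        omega
      exact_mod_cast this
    have c0 : (0 : ℝ) < Fintype.card Pt := by rw [e]; positivity
    have b := one_add_mul_le_pow (a := -(1 / (Fintype.card Pt : ℝ))) (by
      have : 1 / (Fintype.card Pt : ℝ) ≤ 1 := div_le_one_of_le₀ (by rw [e]; nlinarith) c0.le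
      linarith) r
    have d : (r : ℝ) * (1 / Fintype.card Pt) ≤ 1 / 2 := by
      rw [mul_one_div, div_le_iff₀ c0]
      linarith
    have f : (gs q t : ℝ) ^ r * q ^ r =
        (1 + -(1 / (Fintype.card Pt : ℝ))) ^ r * (Fintype.card Pt : ℝ) ^ r := by
      rw [← mul_pow, ← mul_pow]
      congr 1
      field_simp
      linarith
    rw [f]
    nlinarith [pow_pos c0 r]
  · rw [← mul_pow, ← pow_mul, mul_comm r, pow_mul]
    refine pow_le_pow_left₀ (by positivity) ?_ _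
    obtain ⟨s, rfl⟩ : ∃ s, t = s + 1 := ⟨t - 1, by have := G.ht; omega⟩
    rw [e, gs_succ, Nat.add_sub_cancel]
    push_cast
    nlinarith [Nat.cast_nonneg (α := ℝ) (gs q s)]

theorem sum_thr (G : GP q t Pt) (S : Finset Pt) (r : ℕ) :
    ∑ z : Fin r → Pt, thr G S z = S.card * (gs q t : ℝ) ^ r := by
  simp only [thr, card_selIn]
  rw [sum_comm, ← nsmul_eq_mul, ← sum_const]
  exact sum_congr rfl fun b _ => by rw [cnt_fun, G.deg]

/-- second moment bound -/
theorem cheb (G : GP q t Pt) (S : Finset Pt) {r : ℕ} (hr : r ≤ t) :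
    ((sel fun z : Fin r → Pt => 4 * (q : ℝ) ^ r * thr G S z < S.card).card : ℝ) * S.card ≤
      8 * q ^ r * (Fintype.card Pt : ℝ) ^ r := by
  obtain ⟨g1, g2, g3⟩ := gs_bounds G hr
  have q0 : (0 : ℝ) < q ^ r := pow_pos (by exact_mod_cast lt_of_lt_of_le two_pos G.two_le) r
  have c0 : (0 : ℝ) < (Fintype.card Pt : ℝ) ^ r :=
    pow_pos (lt_of_lt_of_le (pow_pos (by exact_mod_cast lt_of_lt_of_le two_pos G.two_le) t)
      G.le_card_pt) r
  have m1 := sum_thr G S r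
  have m2 : ∑ z : Fin r → Pt, thr G S z ^ 2 ≤
      S.card * (gs q t : ℝ) ^ r + S.card * (S.card * (gs q (t - 1) : ℝ) ^ r) := by
    simp only [thr, card_selIn, sq, sum_mul_sum]
    rw [sum_comm, ← mul_add, ← nsmul_eq_mul]
    refine sum_le_card_nsmul _ _ _ fun b hb => ?_
    rw [sum_comm]
    have : ∀ b' ∈ S, ∑ z : Fin r → Pt, ind (univ.image z ⊆ G.pl b) * ind (univ.image z ⊆ G.pl b') ≤
        (if b' = b then (gs q t : ℝ) ^ r else 0) + (gs q (t - 1) : ℝ) ^ r := fun b' _ => by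
      have e : ∑ z : Fin r → Pt, ind (univ.image z ⊆ G.pl b) * ind (univ.image z ⊆ G.pl b') =
          ((G.pl b ∩ G.pl b').card : ℝ) ^ r := by
        rw [← cnt_fun]
        refine sum_congr rfl fun z _ => ?_
        simp only [ind, subset_inter_iff]
        split_ifs <;> simp_all
      rw [e]
      split_ifs with k
      · rw [k, inter_self, G.deg]
        exact le_add_of_nonneg_right (by positivity)
      · rw [G.codeg (Ne.symm k), zero_add]
    refine (sum_le_sum this).trans (le_of_eq ?_)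
    rw [sum_add_distrib, sum_ite_eq', if_pos hb, sum_const, nsmul_eq_mul]
  have cc : (Fintype.card (Fin r → Pt) : ℝ) = (Fintype.card Pt : ℝ) ^ r := by simp
  generalize (Fintype.card Pt : ℝ) ^ r = c at *
  generalize (gs q t : ℝ) ^ r = d at *
  generalize (q : ℝ) ^ r = w at *
  rcases (Nat.cast_nonneg (α := ℝ) S.card).eq_or_lt with s0 | s0
  · rw [← s0, mul_zero]
    positivity
  have d0 : 0 < d := by nlinarith
  have v : ∑ z : Fin r → Pt, (c * thr G S z - S.card * d) ^ 2 ≤ c ^ 2 * (S.card * d) := by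
    have : ∑ z : Fin r → Pt, (c * thr G S z - S.card * d) ^ 2 = c ^ 2 * ∑ z : Fin r → Pt,
        thr G S z ^ 2 - 2 * c * (S.card * d) * ∑ z : Fin r → Pt, thr G S z +
          c * (S.card * d) ^ 2 := by
      have u : c * (S.card * d) ^ 2 = ∑ _z : Fin r → Pt, (S.card * d) ^ 2 := by
        rw [sum_const, card_univ, nsmul_eq_mul, cc]
      rw [mul_sum, mul_sum, ← sum_sub_distrib, u, ← sum_add_distrib]
      exact sum_congr rfl fun _ _ => by ring
    rw [this, m1]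
    nlinarith [mul_le_mul_of_nonneg_left m2 (sq_nonneg c),
      mul_le_mul_of_nonneg_left g3 (mul_nonneg c0.le (sq_nonneg (S.card : ℝ)))]
  have u : ((sel fun z : Fin r → Pt => 4 * w * thr G S z < S.card).card : ℝ) *
      (S.card * d / 2) ^ 2 ≤ ∑ z : Fin r → Pt, (c * thr G S z - S.card * d) ^ 2 := by
    rw [← nsmul_eq_mul]
    refine (card_nsmul_le_sum _ (fun z => (c * thr G S z - S.card * d) ^ 2) _ fun z hz => ?_).trans
      (sum_le_sum_of_subset_of_nonneg (subset_univ _) fun _ _ _ => sq_nonneg _)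
    have k := mem_sel.1 hz
    have t0 : 0 ≤ thr G S z := Nat.cast_nonneg _
    have k2 : c * thr G S z ≤ S.card * d / 2 := by
      nlinarith [mul_le_mul_of_nonneg_right g2 t0, mul_le_mul_of_nonneg_right k.le d0.le]
    rw [← neg_sq (c * thr G S z - S.card * d)]
    exact pow_le_pow_left₀ (by positivity) (by linarith) 2
  have p : 0 < S.card * d := by positivity
  have x : ((sel fun z : Fin r → Pt => 4 * w * thr G S z < S.card).card : ℝ) * (S.card * d) ≤
      4 * c ^ 2 := le_of_mul_le_mul_right (by linarith [u.trans v]) p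
  refine le_of_mul_le_mul_right ?_ d0
  nlinarith [mul_le_mul_of_nonneg_left g2 c0.le]

/-- few tuples of centres lie on no member of `S` -/
theorem cheb0 (G : GP q t Pt) (S : Finset Pt) {r s : ℕ} (hr : r ≤ t)
    (hS : (q : ℝ) ^ (s + r) ≤ S.card) (p : (Fin r → Pt) → Prop)
    (hp : ∀ z, p z → ∀ b ∈ S, ¬ univ.image z ⊆ G.pl b) :
    ((sel p).card : ℝ) ≤ 8 * (Fintype.card Pt : ℝ) ^ r / q ^ s := by
  have q0 : (0 : ℝ) < q := by exact_mod_cast lt_of_lt_of_le two_pos G.two_le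
  have a : ((sel p).card : ℝ) ≤
      (sel fun z : Fin r → Pt => 4 * (q : ℝ) ^ r * thr G S z < S.card).card :=
    Nat.cast_le.2 (card_le_card fun z hz => mem_sel.2 (by
      rw [thr, eq_empty_of_forall_notMem fun b hb => hp z (mem_sel.1 hz) b (mem_selIn.1 hb).1
        (mem_selIn.1 hb).2, card_empty, Nat.cast_zero, mul_zero]
      exact lt_of_lt_of_le (by positivity) hS))
  have b := (mul_le_mul a hS (by positivity) (Nat.cast_nonneg _)).trans (cheb G S hr)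
  rw [le_div_iff₀ (by positivity)]
  refine le_of_mul_le_mul_right ?_ (pow_pos q0 r)
  rw [pow_add] at b
  linarith

/-- few tuples of centres are dependent -/
theorem degen (G : GP q t Pt) {r : ℕ} (hr : r ≤ t) :
    ((sel fun z : Fin r → Pt => G.rk (univ.image z) ≠ r).card : ℝ) * q ≤
      2 * (Fintype.card Pt : ℝ) ^ r := by
  have q0 : (0 : ℝ) < q := by exact_mod_cast lt_of_lt_of_le two_pos G.two_le
  have rk : ∀ A : Finset Pt, G.rk A ≤ A.card := fun A => by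
    induction A using Finset.induction_on with
    | empty => rw [G.rk_empty]; rfl
    | insert a A ha ih => rw [card_insert_of_notMem ha]; linarith [G.rk_insert a A]
  obtain ⟨s, rfl⟩ := Nat.exists_eq_add_of_le' hr
  have a : ((sel fun z : Fin r → Pt => G.rk (univ.image z) ≠ r).card : ℝ) * q ^ (s + 1) ≤
      ∑ z : Fin r → Pt, thr G univ z := by
    rw [← nsmul_eq_mul]
    refine (card_nsmul_le_sum _ (fun z => thr G univ z) _ fun z hz => ?_).trans
      (sum_le_sum_of_subset_of_nonneg (subset_univ _) fun _ _ _ => Nat.cast_nonneg _)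
    have k1 := mem_sel.1 hz
    have k2 := (rk _).trans (card_image_le (s := univ) (f := z))
    rw [card_univ, Fintype.card_fin] at k2
    have k3 : thr G univ z = gs q (s + r + 1 - G.rk (univ.image z)) :=
      congrArg Nat.cast (G.card_perp _)
    rw [k3]
    exact_mod_cast (pow_le_gs q (s + 1)).trans ((gs_strictMono G.two_le).monotone (by omega))
  rw [sum_thr, card_univ] at a
  have b := (gs_bounds G hr).1
  have c := G.card_pt_le
  refine le_of_mul_le_mul_right ?_ (pow_pos q0 (s + r))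
  rw [pow_add] at c ⊢
  rw [pow_succ] at a
  nlinarith [mul_le_mul_of_nonneg_right a (pow_pos q0 r).le,
    mul_le_mul c b (by positivity) (by positivity)]

variable {G : GP q t Pt} {G' : GP q t' Pt'}

theorem MPrj.good {R : Finset Pt} {π : Pt → Pt'} {φ : Pt' → Pt} (h : MPrj G G' R π φ) {r : ℕ}
    (ht : t = t' + r) {x Om Γ : ℝ} (hx : 0 < x) (hOm : 0 ≤ Om) (hΓ : 0 ≤ Γ)
    {F' : Finset (Finset Pt')} (hF : G'.Cont x (10 * Om) Γ (fun _ => True) F') {P : Finset Pt}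
    (hP : G.Ext (x / 4) P Om) (h2 : ((G.low (x / 4) P).card : ℝ) ≤
      4 * (q : ℝ) ^ r * (selIn (G.low (x / 4) P) fun b => R ⊆ G.pl b).card)
    (ok : Pt → Prop) (hok : ∀ a, ok a → ∃ b, R ⊆ G.pl b ∧ a ∉ G.pl b)
    (h3 : 100 * ((selIn P fun a => ¬ ok a ∨ ∃ a' ∈ P, a ≠ a' ∧ ok a' ∧ π a = π a').card : ℝ) ≤
      P.card) :
    ∃ X ∈ F', (X.card : ℝ) ≤ 5 * Γ * Om * P.card ∧
      99 * (P.card : ℝ) ≤ 200 * (selIn P fun a => ok a ∧ π a ∈ X).card := by
  have q0 : (0 : ℝ) < q := by exact_mod_cast lt_of_lt_of_le two_pos G.two_le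
  have p0 : (0 : ℝ) < P.card := Nat.cast_pos.2 hP.1.card_pos
  obtain ⟨P0, hP0⟩ : ∃ P0, P0 = P \ selIn P fun a => ¬ ok a ∨ ∃ a' ∈ P, a ≠ a' ∧ ok a' ∧
      π a = π a' := ⟨_, rfl⟩
  have s0 : P0 ⊆ P := hP0 ▸ sdiff_subset
  have ne : ∀ a ∈ P0, ok a := fun a ha => by
    by_contra k
    have := Finset.mem_sdiff.1 (hP0 ▸ ha)
    exact this.2 (mem_selIn.2 ⟨this.1, Or.inl k⟩)
  have e1 : (P0.image π).card = P0.card := card_image_of_injOn fun a ha a' ha' e => by
    by_contra k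
    have := Finset.mem_sdiff.1 (hP0 ▸ mem_coe.1 ha)
    exact this.2 (mem_selIn.2 ⟨this.1, Or.inr ⟨a', s0 (mem_coe.1 ha'), k, ne a' ha', e⟩⟩)
  have e2 : 99 * (P.card : ℝ) ≤ 100 * (P0.image π).card := by
    have := card_sdiff_add_card_eq_card (selIn_subset P fun a => ¬ ok a ∨ ∃ a' ∈ P, a ≠ a' ∧
      ok a' ∧ π a = π a')
    rw [← hP0] at this
    have k := congrArg (Nat.cast : ℕ → ℝ) this
    rw [Nat.cast_add] at k
    rw [e1]
    linarith
  have e3 : ((P0.image π).card : ℝ) ≤ P.card :=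
    Nat.cast_le.2 (card_image_le.trans (card_le_card s0))
  have e4 : (selIn (G.low (x / 4) P) fun b => R ⊆ G.pl b) ⊆
      (G'.low (x / 2) (P0.image π)).image φ := by
    intro b hb
    obtain ⟨b', rfl⟩ := h.surj b (mem_selIn.1 hb).2
    refine mem_image_of_mem _ (G'.mem_low.2 ?_)
    have k1 : G'.pl b' ∩ P0.image π ⊆ (G.pl (φ b') ∩ P).image π := by
      intro u hu
      obtain ⟨a, ha, rfl⟩ := mem_image.1 (mem_inter.1 hu).2
      exact mem_image_of_mem _
        (mem_inter.2 ⟨(h.inc a (hok a (ne a ha)) b').1 (mem_inter.1 hu).1, s0 ha⟩)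
    have k2 : (G'.cnt (P0.image π) b' : ℝ) ≤ G.cnt P (φ b') :=
      Nat.cast_le.2 ((card_le_card k1).trans card_image_le)
    refine (k2.trans (G.mem_low.1 (mem_selIn.1 hb).1)).trans (div_le_div_of_nonneg_right ?_ q0.le)
    nlinarith
  have r0 := pow_pos q0 r
  have e5 : ((G.low (x / 4) P).card : ℝ) ≤ 4 * q ^ r * (G'.low (x / 2) (P0.image π)).card :=
    h2.trans (mul_le_mul_of_nonneg_left (Nat.cast_le.2 ((card_le_card e4).trans card_image_le))
      (by positivity))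
  have e6 : G'.Ext (x / 2) (P0.image π) (5 * Om) := by
    refine ⟨card_pos.1 (Nat.cast_pos.1 (show (0 : ℝ) < _ by linarith)), ?_⟩
    refine le_of_mul_le_mul_left ?_ r0
    have k1 := hP.2
    have l0 : (0 : ℝ) ≤ (G'.low (x / 2) (P0.image π)).card := Nat.cast_nonneg _
    have k2 := mul_le_mul_of_nonneg_right e5 (mul_nonneg p0.le hOm)
    have k3 := mul_le_mul_of_nonneg_left e2 (mul_nonneg (mul_nonneg r0.le l0) hOm)
    have k4 := mul_nonneg (mul_nonneg (mul_nonneg r0.le l0) hOm) p0.le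
    rw [show t + 1 = r + (t' + 1) by omega, pow_add] at k1
    nlinarith
  obtain ⟨X, hX, a1, a2⟩ := G'.corr_of_cont (x := x / 2) (Om := 5 * Om) (by positivity) hΓ
    (Dom := fun _ => True) (F := F') (by convert hF using 1 <;> ring) e6 trivial
  refine ⟨X, hX, a2.trans ?_, ?_⟩
  · nlinarith [mul_le_mul_of_nonneg_left e3 (mul_nonneg hΓ hOm)]
  · have k1 : P0.image π ∩ X ⊆ (selIn P fun a => ok a ∧ π a ∈ X).image π := by
      intro u hu
      obtain ⟨a, ha, rfl⟩ := mem_image.1 (mem_inter.1 hu).1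
      exact mem_image_of_mem _ (mem_selIn.2 ⟨s0 ha, ne a ha, (mem_inter.1 hu).2⟩)
    have k2 := a1.trans (Nat.mul_le_mul_left 2 ((card_le_card k1).trans card_image_le))
    have k3 : ((P0.image π).card : ℝ) ≤ 2 * (selIn P fun a => ok a ∧ π a ∈ X).card := by
      exact_mod_cast k2
    linarith

end Pool.Agent.Work.MP_e10cd8_co.Uni
end

-- merged part: Pool.Agent.Work.MP_e10cd8_co.Uni.LSmall
section
/-! A small extremal set lies largely in an intersection of sixteen cones over containers. -/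

namespace Pool.Agent.Work.MP_e10cd8_co.Uni
open Finset Pool.Agent.Work.MP_e10cd8_co.Four Pool.Agent.Work.MP_e10cd8_co.All

variable {q t s r : ℕ} {Pt Pt' : Type} [Fintype Pt] [DecidableEq Pt] [Fintype Pt'] [DecidableEq Pt']

/-- the centres are independent and `a` is outside their span -/
def okz (G : GP q t Pt) (z : Fin r → Pt) (a : Pt) : Prop :=
  G.rk (univ.image z) = r ∧ ∃ b, univ.image z ⊆ G.pl b ∧ a ∉ G.pl b

variable {G : GP q t Pt} {G' : GP q (s + 1) Pt'} {π : (Fin r → Pt) → Pt → Pt'}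
  {φ : (Fin r → Pt) → Pt' → Pt}

theorem col (hp : ∀ z, G.rk (univ.image z) = r → MPrj G G' (univ.image z) (π z) (φ z))
    (ht : t = s + 1 + r) (a a' : Pt) (h : a ≠ a') :
    ((selIn univ fun z => okz G z a ∧ okz G z a' ∧ π z a = π z a').card : ℝ) ≤
      8 * (Fintype.card Pt : ℝ) ^ r / q ^ s := by
  refine cheb0 G (G.pl a \ G.pl a') (by omega) ?_ _ fun z ⟨k1, k2, k3⟩ b hb k => ?_
  · have c := card_sdiff_add_card_inter (G.pl a) (G.pl a')
    rw [G.codeg h, G.deg, show t - 1 = s + r by omega,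
      congrArg (gs q) (show t = s + r + 1 by omega), GeoA_succ] at c
    exact_mod_cast (by omega : q ^ (s + r) ≤ _)
  · obtain ⟨b', rfl⟩ := (hp z k1.1).surj b k
    obtain ⟨u1, u2⟩ := Finset.mem_sdiff.1 hb
    exact u2 ((G.symm _ _).1 (((hp z k1.1).inc a' k2.2 b').1
      (k3 ▸ ((hp z k1.1).inc a k1.2 b').2 ((G.symm _ _).1 u1))))

theorem nok (G : GP q t Pt) (ht : t = s + 1 + r) (a : Pt) :
    ((sel fun z : Fin r → Pt => ¬ ∃ b, univ.image z ⊆ G.pl b ∧ a ∉ G.pl b).card : ℝ) ≤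
      8 * (Fintype.card Pt : ℝ) ^ r / q ^ s := by
  refine cheb0 G (G.pl a)ᶜ (by omega) ?_ _ fun z k b hb u =>
    k ⟨b, u, fun v => mem_compl.1 hb ((G.symm _ _).1 v)⟩
  have c := card_add_card_compl (G.pl a)
  rw [G.deg, G.card_pt, GeoA_succ] at c
  have d : q ^ (s + r) ≤ q ^ t := Nat.pow_le_pow_right (by linarith [G.two_le]) (by omega)
  exact_mod_cast (by omega : q ^ (s + r) ≤ _)

/-- most centres are good -/
theorem pick (hp : ∀ z, G.rk (univ.image z) = r → MPrj G G' (univ.image z) (π z) (φ z))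
    (ht : t = s + 1 + r) (hq : 1000 ≤ q) {x Om Γ : ℝ} (hx : 0 < x) (hOm : 1 ≤ Om) (hΓ : 0 ≤ Γ)
    {F' : Finset (Finset Pt')} (hF : G'.Cont x (10 * Om) Γ (fun _ => True) F') {P : Finset Pt}
    (hP : G.Ext (x / 4) P Om) (hs : 20000 * Om * (P.card : ℝ) ≤ (q : ℝ) ^ s) :
    ∃ X : (Fin r → Pt) → Finset Pt', (∀ z, X z ∈ insert ∅ F') ∧
      (∀ z, ((X z).card : ℝ) ≤ 5 * Γ * Om * P.card) ∧
      (P.card : ℝ) * (univ : Finset (Fin r → Pt)).card ≤
        3 * ∑ a ∈ P, ((selIn univ fun z => okz G z a ∧ π z a ∈ X z).card : ℝ) := by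
  have q1 : (1000 : ℝ) ≤ q := by exact_mod_cast hq
  have p1 : (1 : ℝ) ≤ P.card := by exact_mod_cast hP.1.card_pos
  have p0 : (0 : ℝ) < P.card := by linarith
  have s0 : (0 : ℝ) < q ^ s := by positivity
  have cc : ((univ : Finset (Fin r → Pt)).card : ℝ) = (Fintype.card Pt : ℝ) ^ r := by simp
  have c0 : (0 : ℝ) ≤ (Fintype.card Pt : ℝ) ^ r := by positivity
  obtain ⟨g, hg⟩ : ∃ g : (Fin r → Pt) → ℝ, ∀ z, g z = ∑ a ∈ P,
      (ind (¬ ∃ b, univ.image z ⊆ G.pl b ∧ a ∉ G.pl b) + ∑ a' ∈ P,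
        ind (a ≠ a' ∧ okz G z a ∧ okz G z a' ∧ π z a = π z a')) := ⟨_, fun _ => rfl⟩
  have g0 : ∀ z, 0 ≤ g z := fun z => by
    rw [hg]
    exact sum_nonneg fun _ _ => add_nonneg (ind_nonneg _) (sum_nonneg fun _ _ => ind_nonneg _)
  have g1 : ∑ z, g z ≤ P.card * (8 * (Fintype.card Pt : ℝ) ^ r / q ^ s +
      P.card * (8 * (Fintype.card Pt : ℝ) ^ r / q ^ s)) := by
    simp only [hg]
    rw [sum_comm, ← nsmul_eq_mul]
    refine sum_le_card_nsmul _ _ _ fun a _ => ?_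
    rw [sum_add_distrib, ← card_sel]
    refine add_le_add (nok G ht a) ?_
    rw [sum_comm, ← nsmul_eq_mul]
    refine sum_le_card_nsmul _ _ _ fun a' _ => ?_
    by_cases e : a = a'
    · rw [sum_eq_zero fun z _ => ind_neg fun k => k.1 e]
      positivity
    · refine le_trans (le_of_eq ?_) (col hp ht a a' e)
      rw [card_selIn]
      exact sum_congr rfl fun z _ => congrArg ind (propext ⟨fun k => k.2, fun k => ⟨e, k⟩⟩)
  have k0 : P.card * (8 * (Fintype.card Pt : ℝ) ^ r / q ^ s) ≤ (Fintype.card Pt : ℝ) ^ r / 2000 := by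
    rw [← mul_div_assoc, div_le_div_iff₀ s0 (by norm_num)]
    nlinarith [mul_le_mul_of_nonneg_left hs c0, mul_le_mul_of_nonneg_left hOm (mul_nonneg c0 p0.le)]
  have g2 : 10 * ((sel fun z => (P.card : ℝ) < 100 * g z).card : ℝ) ≤
      (Fintype.card Pt : ℝ) ^ r := by
    have k1 : ((sel fun z => (P.card : ℝ) < 100 * g z).card : ℝ) * P.card ≤ 100 * ∑ z, g z := by
      rw [card_sel, sum_mul, mul_sum]
      refine sum_le_sum fun z _ => ?_
      by_cases k : (P.card : ℝ) < 100 * g z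
      · rw [ind_pos k, one_mul]
        exact k.le
      · rw [ind_neg k, zero_mul]
        linarith [g0 z]
    have k2 : 8 * (Fintype.card Pt : ℝ) ^ r / q ^ s ≤
        P.card * (8 * (Fintype.card Pt : ℝ) ^ r / q ^ s) :=
      le_mul_of_one_le_left (by positivity) p1
    refine le_of_mul_le_mul_right ?_ p0
    nlinarith
  have g3 : 10 * ((sel fun z : Fin r → Pt => 4 * (q : ℝ) ^ r * thr G (G.low (x / 4) P) z <
      (G.low (x / 4) P).card).card : ℝ) ≤ (Fintype.card Pt : ℝ) ^ r := by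
    have k1 := cheb G (G.low (x / 4) P) (r := r) (by omega)
    have k2 := hP.2
    have k3 : (q : ℝ) ^ s * q ^ r ≤ q ^ (t + 1) := by
      rw [← pow_add]
      exact pow_le_pow_right₀ (by linarith) (by omega)
    have r0 : (0 : ℝ) < q ^ r := by positivity
    have l0 : (0 : ℝ) ≤ (G.low (x / 4) P).card := Nat.cast_nonneg _
    have k4 : 20000 * (q : ℝ) ^ r ≤ (G.low (x / 4) P).card := by
      refine le_of_mul_le_mul_right ?_ (show 0 < Om * P.card by positivity)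
      nlinarith [mul_le_mul_of_nonneg_right hs r0.le]
    refine le_of_mul_le_mul_right ?_ r0
    nlinarith [mul_le_mul_of_nonneg_left k4 (Nat.cast_nonneg (α := ℝ) (sel fun z : Fin r → Pt =>
      4 * (q : ℝ) ^ r * thr G (G.low (x / 4) P) z < (G.low (x / 4) P).card).card), mul_nonneg c0 r0.le]
  have g4 : 10 * ((sel fun z : Fin r → Pt => G.rk (univ.image z) ≠ r).card : ℝ) ≤
      (Fintype.card Pt : ℝ) ^ r := by
    have k1 := degen G (r := r) (by omega)
    nlinarith [Nat.cast_nonneg (α := ℝ) (sel fun z : Fin r → Pt => G.rk (univ.image z) ≠ r).card]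
  obtain ⟨B, hB⟩ : ∃ B, B = (sel fun z : Fin r → Pt => G.rk (univ.image z) ≠ r) ∪
      (sel fun z : Fin r → Pt => 4 * (q : ℝ) ^ r * thr G (G.low (x / 4) P) z <
        (G.low (x / 4) P).card) ∪ sel fun z => (P.card : ℝ) < 100 * g z := ⟨_, rfl⟩
  have b1 : 10 * (B.card : ℝ) ≤ 3 * (Fintype.card Pt : ℝ) ^ r := by
    have k1 := (Nat.cast_le (α := ℝ)).2 (hB ▸ (card_union_le _ _).trans
      (Nat.add_le_add_right (card_union_le _ _) _) : B.card ≤ _)
    push_cast at k1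
    linarith
  have b2 : ∀ z, ∃ X ∈ insert ∅ F', (X.card : ℝ) ≤ 5 * Γ * Om * P.card ∧ (z ∉ B →
      99 * (P.card : ℝ) ≤ 200 * (selIn P fun a => okz G z a ∧ π z a ∈ X).card) := by
    intro z
    by_cases hz : z ∈ B
    · exact ⟨∅, mem_insert_self _ _, by rw [card_empty, Nat.cast_zero]; positivity,
        fun k => absurd hz k⟩
    simp only [hB, mem_union, mem_sel, not_or, not_lt, not_not] at hz
    obtain ⟨X, hX, a1, a2⟩ := (hp z hz.1.1).good ht hx (by linarith) hΓ hF hP hz.1.2 (okz G z)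
      (fun a k => k.2) (le_trans (by
      rw [hg, card_selIn]
      refine mul_le_mul_of_nonneg_left (sum_le_sum fun a ha => ?_) (by norm_num)
      have n1 := ind_nonneg (¬ ∃ b, univ.image z ⊆ G.pl b ∧ a ∉ G.pl b)
      have n2 : 0 ≤ ∑ a' ∈ P, ind (a ≠ a' ∧ okz G z a ∧ okz G z a' ∧ π z a = π z a') :=
        sum_nonneg fun _ _ => ind_nonneg _
      by_cases o : okz G z a
      · by_cases k : ∃ a' ∈ P, a ≠ a' ∧ okz G z a' ∧ π z a = π z a'
        · obtain ⟨a', ha', k1, k2, k3⟩ := k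
          have := single_le_sum (f := fun a' => ind (a ≠ a' ∧ okz G z a ∧ okz G z a' ∧
            π z a = π z a')) (fun _ _ => ind_nonneg _) ha'
          rw [ind_pos ⟨k1, o, k2, k3⟩] at this
          exact (ind_le_one _).trans (by linarith)
        · rw [ind_neg fun u => u.elim (fun u => u o) k]
          linarith
      · rw [ind_pos (p := ¬ ∃ b, univ.image z ⊆ G.pl b ∧ a ∉ G.pl b) fun u => o ⟨hz.1.1, u⟩]
        exact (ind_le_one _).trans (by linarith)) hz.2)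
    exact ⟨X, mem_insert_of_mem hX, a1, fun _ => a2⟩
  choose X c1 c2 c3 using b2
  refine ⟨X, c1, c2, ?_⟩
  have d1 : ∑ a ∈ P, ((selIn univ fun z => okz G z a ∧ π z a ∈ X z).card : ℝ) =
      ∑ z, ((selIn P fun a => okz G z a ∧ π z a ∈ X z).card : ℝ) := by
    simp only [card_selIn]
    exact sum_comm
  have d2 : (Bᶜ.card : ℝ) * (99 * P.card / 200) ≤
      ∑ z, ((selIn P fun a => okz G z a ∧ π z a ∈ X z).card : ℝ) := by
    rw [← nsmul_eq_mul]
    refine (card_nsmul_le_sum _ (fun z => ((selIn P fun a => okz G z a ∧ π z a ∈ X z).card : ℝ)) _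
      fun z hz => ?_).trans
      (sum_le_sum_of_subset_of_nonneg (subset_univ _) fun _ _ _ => Nat.cast_nonneg _)
    linarith [c3 z (mem_compl.1 hz)]
  have d3 : (B.card : ℝ) + Bᶜ.card = (Fintype.card Pt : ℝ) ^ r := by
    rw [← cc]
    exact_mod_cast card_add_card_compl B
  rw [d1, cc]
  nlinarith

theorem pow16 {α : Type} [Fintype α] (d : α → ℝ) {c y s w : ℝ} (hw : 0 < w)
    (hyr : y ^ 8 * w ≤ 1) (d0 : ∀ a, 0 ≤ d a) (d1 : ∀ a, d a ≤ c) (hc : 0 ≤ c)
    (hα : (Fintype.card α : ℝ) ≤ 2 * w)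
    (h2 : ∑ a ∈ sel fun a => y * c ^ 2 ≤ d a ^ 2, d a ^ 2 ≤ 2 * s * c ^ 2) :
    ∑ a, d a ^ 16 ≤ (2 + 2 * s) * c ^ 16 := by
  classical
  rw [← sum_add_sum_compl (sel fun a => y * c ^ 2 ≤ d a ^ 2), add_comm, add_mul]
  refine add_le_add ?_ ?_
  · refine (sum_le_card_nsmul _ _ (c ^ 16 / w) fun a ha => ?_).trans ?_
    · have k1 := (lt_of_not_ge fun k => mem_compl.1 ha (mem_sel.2 k)).le
      have k2 := pow_le_pow_left₀ (sq_nonneg _) k1 8
      rw [le_div_iff₀ hw]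
      calc _ = (d a ^ 2) ^ 8 * w := by ring
        _ ≤ (y * c ^ 2) ^ 8 * w := mul_le_mul_of_nonneg_right k2 hw.le
        _ = y ^ 8 * w * c ^ 16 := by ring
        _ ≤ _ := mul_le_of_le_one_left (by positivity) hyr
    · rw [nsmul_eq_mul, ← mul_div_assoc, div_le_iff₀ hw, mul_right_comm]
      exact mul_le_mul_of_nonneg_right ((Nat.cast_le.2 (card_le_univ _)).trans hα) (by positivity)
  · calc _ ≤ ∑ a ∈ sel fun a => y * c ^ 2 ≤ d a ^ 2, d a ^ 2 * c ^ 14 :=
          sum_le_sum fun a _ => by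
            rw [show 16 = 2 + 14 by rfl, pow_add]
            exact mul_le_mul_of_nonneg_left (pow_le_pow_left₀ (d0 a) (d1 a) _) (sq_nonneg _)
      _ ≤ 2 * s * c ^ 2 * c ^ 14 := by
          rw [← sum_mul]
          exact mul_le_mul_of_nonneg_right h2 (by positivity)
      _ = _ := by ring

theorem tuple (hp : ∀ z, G.rk (univ.image z) = r → MPrj G G' (univ.image z) (π z) (φ z))
    (ht : t = s + 1 + r) (hts : 11 * t + 9 ≤ 16 * s) (hq : 1000 ≤ q) {x Om Γ : ℝ} (hx : 0 < x)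
    (hOm : 1 ≤ Om) (hΓ : 1 ≤ Γ) {F' : Finset (Finset Pt')}
    (hF : G'.Cont x (10 * Om) Γ (fun _ => True) F') (hW : (40000 * Γ * Om) ^ 16 ≤ q ^ (t + 1))
    {P : Finset Pt} (hP : G.Ext (x / 4) P Om) (hs : (P.card : ℝ) ^ 2 ≤ 4 * (q : ℝ) ^ (t + 1)) :
    ∃ f ∈ Fintype.piFinset fun _ : Fin 16 => univ ×ˢ insert ∅ F',
      (P.card : ℝ) ≤ 2 * 3 ^ 16 *
        (P ∩ sel fun a => ∀ i, okz G (f i).1 a ∧ π (f i).1 a ∈ (f i).2).card ∧
      ((sel fun a => ∀ i, okz G (f i).1 a ∧ π (f i).1 a ∈ (f i).2).card : ℝ) ≤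
        8 * 3 ^ 16 * (5 * Γ * Om) * P.card := by
  have p1 : (1 : ℝ) ≤ P.card := by exact_mod_cast hP.1.card_pos
  have q1 : (1000 : ℝ) ≤ q := by exact_mod_cast hq
  have q0 : (0 : ℝ) < q := by linarith
  have s0 := pow_pos q0 s
  have v0 : Om ≤ Γ * Om := le_mul_of_one_le_left (by linarith) hΓ
  have n1 : (20000 * (Γ * Om) * P.card) ^ 16 * ((q : ℝ) ^ t) ^ 2 ≤ ((q : ℝ) ^ s) ^ 16 := by
    have k := pow_le_pow_left₀ (by positivity) hs 8
    calc _ = (40000 * Γ * Om) ^ 16 * (((P.card : ℝ) ^ 2) ^ 8 / 4 ^ 8) * ((q : ℝ) ^ t) ^ 2 := by ring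
      _ ≤ q ^ (t + 1) * ((4 * (q : ℝ) ^ (t + 1)) ^ 8 / 4 ^ 8) * ((q : ℝ) ^ t) ^ 2 := by gcongr
      _ = q ^ (11 * t + 9) := by ring
      _ ≤ _ := by
          rw [← pow_mul]
          exact pow_le_pow_right₀ (by linarith) (by omega)
  have n2 : 20000 * Om * (P.card : ℝ) ≤ (q : ℝ) ^ s := by
    refine le_trans (by gcongr) ((pow_le_pow_iff_left₀ (by positivity) s0.le
      (by norm_num : 16 ≠ 0)).1 (le_trans (le_mul_of_one_le_right (by positivity) ?_) n1))
    exact one_le_pow₀ (one_le_pow₀ (by linarith))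
  obtain ⟨X, c1, c2, c3⟩ := pick hp ht hq hx hOm (by linarith) hF hP n2
  obtain ⟨a0, -⟩ := hP.1
  have hC : (univ : Finset (Fin r → Pt)).Nonempty := ⟨fun _ => a0, mem_univ _⟩
  have cc : ((univ : Finset (Fin r → Pt)).card : ℝ) = (Fintype.card Pt : ℝ) ^ r := by simp
  have w0 : 1 ≤ 5 * Γ * Om * P.card := by nlinarith
  obtain ⟨y, hy⟩ : ∃ y, y = 16 * (5 * Γ * Om * P.card) / (q : ℝ) ^ s := ⟨_, rfl⟩
  have y0 : 0 < y := by rw [hy]; positivity
  have y3 : y ^ 8 * q ^ t ≤ 1 := by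
    have k : y ≤ 20000 * (Γ * Om) * P.card / (q : ℝ) ^ s := by
      rw [hy]
      exact div_le_div_of_nonneg_right (by linarith) s0.le
    refine (pow_le_one_iff_of_nonneg (by positivity) two_ne_zero).1 ?_
    calc _ = y ^ 16 * ((q : ℝ) ^ t) ^ 2 := by ring
      _ ≤ (20000 * (Γ * Om) * P.card / (q : ℝ) ^ s) ^ 16 * ((q : ℝ) ^ t) ^ 2 := by gcongr
      _ ≤ 1 := by
          rw [div_pow, div_mul_eq_mul_div]
          exact div_le_one_of_le₀ n1 (by positivity)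
  have m := moment univ (sel fun a => y * ((univ : Finset (Fin r → Pt)).card : ℝ) ^ 2 ≤
      ((selIn univ fun z => okz G z a ∧ π z a ∈ X z).card : ℝ) ^ 2) (okz G) π X
    (fun z _ => c2 z) (by linarith) (by positivity) hC y0 (by
      rw [cc, hy]
      exact le_of_eq (by ring)) (col hp ht) _ (fun _ => rfl) fun a ha => by rwa [mem_sel] at ha
  have m2 := pow16 _ (pow_pos q0 t) y3 (fun _ => Nat.cast_nonneg _)
    (fun a => Nat.cast_le.2 (card_le_card (selIn_subset _ _))) (Nat.cast_nonneg _) G.card_pt_le m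
  obtain ⟨f, -, a1, a2⟩ := tuples univ hC (fun z a => okz G z a ∧ π z a ∈ X z) P 16
    (show 0 < 2 + 2 * (5 * Γ * Om * P.card) by linarith) _ (fun _ => rfl) c3 m2
  refine ⟨fun i => (f i, X (f i)), Fintype.mem_piFinset.2 fun i =>
    mem_product.2 ⟨mem_univ _, c1 _⟩, a1, a2.trans ?_⟩
  linarith

end Pool.Agent.Work.MP_e10cd8_co.Uni
end

-- merged part: Pool.Agent.Work.MP_e10cd8_co.Uni.LKL
section
/-! Containers in every dimension with constants polynomial in the dimension. -/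

namespace Pool.Agent.Work.MP_e10cd8_co.Uni
open Finset Pool.Agent.Work.MP_e10cd8_co.Four Pool.Agent.Work.MP_e10cd8_co.All

variable {q t s r : ℕ} {Pt Pt' : Type} [Fintype Pt] [DecidableEq Pt] [Fintype Pt'] [DecidableEq Pt']

theorem kl_small2 {G : GP q t Pt} {G' : GP q (s + 1) Pt'}
    (hp : ∀ R, G.rk R = r → ∃ π φ, MPrj G G' R π φ) (ht : t = s + 1 + r)
    (hts : 11 * t + 9 ≤ 16 * s) (hq : 1000 ≤ q) {x A Γ : ℝ} (hx : 0 < x) (hx1 : x ≤ 1 / 8)
    (hA : 0 ≤ A) (hΓ : 1 ≤ Γ) (hK : G'.KLp x A Γ) (Om : ℝ) (hOm : 1 ≤ Om) :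
    ∃ F : Finset (Finset Pt), (F.card : ℝ) ≤ Real.exp ((16 * (t * (t + 1) + 1 + 10 * A) + 1 +
        300 * (t + 1) * (16 * (40000 * Γ))) * q * Real.log q * lam q Om) ∧
      G.Cont (x / (4 * 3 ^ 16)) Om (8 * 3 ^ 16)
        (fun P => (P.card : ℝ) ^ 2 ≤ 4 * (q : ℝ) ^ (t + 1)) F := by
  obtain ⟨c'⟩ : Nonempty Pt' := Fintype.card_pos_iff.1 (by rw [G'.card_pt, gs_succ]; omega)
  obtain ⟨c⟩ : Nonempty Pt := Fintype.card_pos_iff.1 (by rw [G.card_pt, gs_succ]; omega)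
  have hp' : ∀ z : Fin r → Pt, ∃ π φ, G.rk (univ.image z) = r → MPrj G G' (univ.image z) π φ :=
    fun z => by
      by_cases k : G.rk (univ.image z) = r
      · obtain ⟨π, φ, h⟩ := hp _ k
        exact ⟨π, φ, fun _ => h⟩
      · exact ⟨fun _ => c', fun _ => c, fun h => absurd h k⟩
  choose π φ hp' using hp'
  obtain ⟨F', a1, a2⟩ := hK (10 * Om) (by linarith)
  have q1 : (1000 : ℝ) ≤ q := by exact_mod_cast hq
  have l1 := KStep_log hq
  obtain ⟨l2, l3, -⟩ := KStep_lam hq hOm (show (1 : ℝ) ≤ 10 by norm_num)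
  obtain ⟨-, -, l4⟩ := KStep_lam hq hOm (show 1 ≤ 40000 * Γ by linarith)
  have l5 : 0 ≤ q * Real.log q := by positivity
  obtain ⟨u, hu⟩ : ∃ u, u = q * Real.log q * lam q Om := ⟨_, rfl⟩
  have u1 : Real.log q ≤ u := by
    rw [hu]
    nlinarith [mul_le_mul_of_nonneg_left l2 l5]
  have u0 : 0 ≤ u := by linarith
  have v1 : 1 ≤ Γ * Om := one_le_mul_of_one_le_of_one_le hΓ hOm
  have v2 : 1 ≤ 40000 * Γ * Om := by linarith
  obtain ⟨F0, hF0⟩ : ∃ F0 : Finset (Finset Pt), F0 = insert univ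
      ((Fintype.piFinset fun _ : Fin 16 => univ ×ˢ insert ∅ F').image fun f =>
        sel fun a => ∀ i, okz G (f i).1 a ∧ π (f i).1 a ∈ (f i).2) := ⟨_, rfl⟩
  have b1 : (F0.card : ℝ) ≤ Real.exp (16 * (t * (t + 1) + 1 + 10 * A) * u + u) := by
    have k1 : (Fintype.card (Fin r → Pt) : ℝ) ≤ Real.exp (t * (t + 1) * u) := by
      have : Fintype.card (Fin r → Pt) ≤ q ^ (t * (t + 1)) := by
        rw [Fintype.card_fun, Fintype.card_fin, mul_comm, pow_mul]
        exact (Nat.pow_le_pow_left ((Nat.le_succ _).trans G.card_pt_succ_le) _).trans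
          (Nat.pow_le_pow_right (Nat.pow_pos (by omega)) (by omega))
      refine ((Nat.cast_le (α := ℝ)).2 this).trans ?_
      rw [Nat.cast_pow, ← Real.exp_log (show (0 : ℝ) < q by linarith), ← Real.exp_nat_mul,
        Real.exp_le_exp]
      push_cast
      exact mul_le_mul_of_nonneg_left u1 (by positivity)
    have k2 : ((insert ∅ F').card : ℝ) ≤ Real.exp (10 * A * u + u) := by
      have : ((insert ∅ F').card : ℝ) ≤ F'.card + 1 := by exact_mod_cast card_insert_le _ _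
      refine this.trans (le_trans ?_ (KStep_exp (a := 0) (by positivity) (by linarith)))
      rw [Real.exp_zero, add_comm]
      refine add_le_add le_rfl (a1.trans (Real.exp_le_exp.2 ?_))
      rw [hu]
      nlinarith [mul_le_mul_of_nonneg_left l3 (mul_nonneg hA l5)]
    have k3 : (F0.card : ℝ) ≤
        ((Fintype.card (Fin r → Pt) : ℝ) * (insert ∅ F').card) ^ 16 + 1 := by
      rw [hF0]
      have := (card_insert_le univ _).trans (Nat.add_le_add_right (card_image_le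
        (s := Fintype.piFinset fun _ : Fin 16 => univ ×ˢ insert ∅ F')
        (f := fun f => sel fun a => ∀ i, okz G (f i).1 a ∧ π (f i).1 a ∈ (f i).2)) 1)
      rw [Fintype.card_piFinset_const, card_product, card_univ] at this
      exact_mod_cast this
    have k4 := pow_le_pow_left₀ (by positivity)
      (mul_le_mul k1 k2 (Nat.cast_nonneg _) (Real.exp_pos _).le) 16
    rw [← Real.exp_add, ← Real.exp_nat_mul] at k4
    refine k3.trans (le_trans ?_ (KStep_exp (a := 0) (by positivity) (by linarith)))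
    rw [Real.exp_zero, add_comm]
    refine add_le_add le_rfl (k4.trans (le_of_eq ?_))
    push_cast
    ring_nf
  obtain ⟨F, c1, c2⟩ := G.cont_of_corr hq F0 b1 (W := (40000 * Γ * Om) ^ 16)
    (c := 2 * 3 ^ 16) (x := x / (4 * 3 ^ 16)) (one_le_pow₀ v2) (by positivity) (by linarith)
  refine ⟨F, c1.trans (Real.exp_le_exp.2 ?_), fun P hs hP => ?_⟩
  · have k1 : 1 + Real.log ((40000 * Γ * Om) ^ 16) ≤ 16 * (40000 * Γ * lam q Om) := by
      rw [Real.log_pow]
      push_cast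
      linarith
    have k2 := mul_le_mul_of_nonneg_left k1 (show 0 ≤ 300 * ((t : ℝ) + 1) * (q * Real.log q) by
      positivity)
    rw [hu]
    linarith
  have p1 : (1 : ℝ) ≤ P.card := by exact_mod_cast hP.1.card_pos
  rw [show (8 : ℝ) * 3 ^ 16 = 4 * (2 * 3 ^ 16) by ring]
  by_cases hc : (40000 * Γ * Om) ^ 16 ≤ q ^ (t + 1)
  · obtain ⟨f, hf, d1, d2⟩ := tuple hp' ht hts hq hx hOm hΓ a2 hc (G.Ext_mono
      (div_le_div_of_nonneg_left hx.le (by norm_num) (by norm_num)) le_rfl hP) hs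
    refine c2 P hP.1 _ (hF0 ▸ mem_insert_of_mem (mem_image_of_mem _ hf)) d1 (d2.trans ?_)
    refine (mul_le_mul_of_nonneg_left d1 (by positivity)).trans ?_
    rw [← mul_assoc]
    refine mul_le_mul_of_nonneg_right ?_ (Nat.cast_nonneg _)
    have k1 : Γ * Om ≤ (Γ * Om) ^ 16 := le_self_pow₀ v1 (by norm_num)
    rw [mul_assoc 40000, mul_pow]
    linarith
  · refine c2 P hP.1 univ (hF0 ▸ mem_insert_self _ _) ?_ ?_
    · rw [inter_univ]
      linarith
    · rw [inter_univ, card_univ]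
      refine G.card_pt_le.trans (le_trans ?_ (le_mul_of_one_le_right (by positivity) p1))
      refine le_trans ?_ (not_le.1 hc).le
      rw [pow_succ]
      nlinarith [pow_pos (show (0 : ℝ) < q by linarith) t]

theorem KLp_mono (G : GP q t Pt) (hq : 1000 ≤ q) {x x' A A' Γ Γ' : ℝ} (hx : x ≤ x') (hA : A' ≤ A)
    (hΓ : Γ' ≤ Γ) (h : G.KLp x' A' Γ') : G.KLp x A Γ := fun Om hOm => by
  obtain ⟨F, a1, a2⟩ := h Om hOm
  refine ⟨F, a1.trans (Real.exp_le_exp.2 ?_), G.Cont_mono hx le_rfl hΓ a2⟩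
  have l1 := KStep_log hq
  have l2 := (KStep_lam hq hOm le_rfl).1
  gcongr

theorem kl_poly : ∃ B : ℝ, 8 ≤ B ∧ ∀ (q : ℕ) (Pt : ℕ → Type) [∀ t, Fintype (Pt t)]
    [∀ t, DecidableEq (Pt t)] (G : ∀ t, GP q (t + 2) (Pt t)), 1000 ≤ q →
      (∀ (t : ℕ) (c : Pt (t + 1)), ∃ π φ, Prj (t := t + 2) (G (t + 1)) (G t) c π φ) →
      ∀ j : ℕ, (G j).KLp (1 / (B * ((j : ℝ) + 2) ^ 100)) (B ^ 2 * ((j : ℝ) + 2) ^ 100) B := by
  obtain ⟨x, A, Γ, h1, h2, h3, h4, h5⟩ := kl_tower 24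
  have x0 : 0 < 1 / x := by positivity
  refine ⟨1 / x + A + Γ + 10 ^ 13, by linarith, fun q Pt _ _ G hq hp j => ?_⟩
  have k5 := h5 q Pt G hq hp
  have b1 : 1 / x ≤ 1 / x + A + Γ + 10 ^ 13 := by linarith
  have b2 : A ≤ 1 / x + A + Γ + 10 ^ 13 := by linarith
  have b3 : Γ ≤ 1 / x + A + Γ + 10 ^ 13 := by linarith
  have b4 : (10 : ℝ) ^ 13 ≤ 1 / x + A + Γ + 10 ^ 13 := by linarith
  generalize 1 / x + A + Γ + 10 ^ 13 = B at *
  have base : ∀ i j, j + i = 25 → (G j).KLp x A Γ := fun i => by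
    induction i with
    | zero =>
      intro j hj
      obtain rfl : j = 24 + 1 := hj
      exact k5
    | succ i ih =>
      intro j hj
      obtain ⟨c⟩ : Nonempty (Pt (j + 1)) :=
        Fintype.card_pos_iff.1 (by rw [(G _).card_pt, gs_succ]; omega)
      obtain ⟨π, φ, h⟩ := hp _ c
      exact h.kl_down (ih (j + 1) (by omega))
  induction j using Nat.strong_induction_on with
  | _ j ih =>
  have j1 : (1 : ℝ) ≤ ((j : ℝ) + 2) ^ 100 := one_le_pow₀ (by linarith [Nat.cast_nonneg (α := ℝ) j])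
  have B0 : 0 < B := by linarith
  have f1 : 10 ^ 13 * B ≤ B ^ 2 := by rw [sq]; exact mul_le_mul_of_nonneg_right b4 B0.le
  by_cases hj : j ≤ 25
  · refine KLp_mono _ hq ?_ ?_ b3 (base (25 - j) j (by omega))
    · rw [one_div_le (by positivity) h1]
      exact b1.trans (le_mul_of_one_le_right B0.le j1)
    · exact le_trans (by linarith) (le_mul_of_one_le_right (sq_nonneg B) j1)
  obtain ⟨s, r, rfl, hr⟩ : ∃ s r, j = s + r ∧ r = (j + 2) / 4 :=
    ⟨j - (j + 2) / 4, (j + 2) / 4, by omega, rfl⟩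
  have s1 : (1 : ℝ) ≤ ((s : ℝ) + 2) ^ 100 := one_le_pow₀ (by linarith [Nat.cast_nonneg (α := ℝ) s])
  have e : 10 ^ 9 * ((s : ℝ) + 2) ^ 100 ≤ (((s + r : ℕ) : ℝ) + 2) ^ 100 := by
    have : 5 / 4 * ((s : ℝ) + 2) ≤ ((s + r : ℕ) : ℝ) + 2 := by
      have : 5 * (s + 2) ≤ 4 * (s + r + 2) := by omega
      have : (5 : ℝ) * (s + 2) ≤ 4 * (s + r + 2) := by exact_mod_cast this
      push_cast
      linarith
    refine le_trans ?_ (pow_le_pow_left₀ (by positivity) this _)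
    rw [mul_pow]
    exact mul_le_mul_of_nonneg_right (by norm_num) (by positivity)
  have e2 : (((s + r + 2 : ℕ) : ℝ) + 1) ^ 2 ≤ (((s + r : ℕ) : ℝ) + 2) ^ 100 := by
    have w0 := Nat.cast_nonneg (α := ℝ) (s + r)
    refine le_trans ?_ (pow_le_pow_right₀ (by linarith) (show 2 * 2 ≤ 100 by norm_num))
    rw [pow_mul, Nat.cast_add (s + r), Nat.cast_ofNat]
    exact pow_le_pow_left₀ (by positivity) (by linarith [sq_nonneg ((s + r : ℕ) : ℝ)]) 2
  have i0 := ih s (by omega)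
  clear ih
  generalize ((s : ℝ) + 2) ^ 100 = Y at *
  generalize (((s + r : ℕ) : ℝ) + 2) ^ 100 = Z at *
  have y0 : 0 < 1 / (B * Y) := by positivity
  have y1 : 1 / (B * Y) ≤ 1 / 8 := one_div_le_one_div_of_le (by norm_num)
    (le_trans (by linarith) (le_mul_of_one_le_right B0.le s1))
  have k0 := kl_small2 (s := s + 1) (exists_mprj Pt G hp s r) (by omega) (by omega) hq y0 y1
    (by positivity) (by linarith) i0
  rw [← mul_div_cancel₀ (1 / (B * Y) / (4 * 3 ^ 16)) two_ne_zero] at k0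
  have k := kl_of_small (G (s + r)) hq (by positivity) (by linarith) (by positivity) (by norm_num) k0
  refine KLp_mono _ hq ?_ ?_ (by linarith) k
  · rw [div_div, div_div]
    refine one_div_le_one_div_of_le (by positivity) ?_
    linarith [mul_le_mul_of_nonneg_left e B0.le, mul_pos B0 (zero_lt_one.trans_le s1)]
  · have t0 : (0 : ℝ) ≤ (s + r + 2 : ℕ) := Nat.cast_nonneg _
    generalize ((s + r + 2 : ℕ) : ℝ) = w at *
    have f2 := mul_le_mul_of_nonneg_left e (sq_nonneg B)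
    have f3 := mul_le_mul f1 e2 (by positivity) (sq_nonneg B)
    have f4 : w + 1 ≤ (w + 1) ^ 2 := le_self_pow₀ (by linarith) two_ne_zero
    have f5 := mul_le_mul_of_nonneg_left b4 (sq_nonneg (w + 1))
    have f6 := mul_le_mul_of_nonneg_right f4 B0.le
    have f7 : 0 ≤ B ^ 2 * Y := by positivity
    linarith

end Pool.Agent.Work.MP_e10cd8_co.Uni
end

-- merged part: Pool.Agent.Work.MP_e10cd8_co.Uni.LHost
section
/-! The one-round cover and the host digraph. Compare `All/ACover`. -/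

namespace Pool.Agent.Work.MP_e10cd8_co.Uni
open Finset Pool.Agent.Work.MP_e10cd8_co.Four Pool.Agent.Work.MP_e10cd8_co.All

variable {q t : ℕ} {Pt : Type} [Fintype Pt] [DecidableEq Pt] (G : GP q t Pt)

theorem class_cover {H k : ℕ} (h : NQ q t H k) (T0 : Finset (Pt × Pt)) (u v : ℕ) :
    ∃ C : Finset (Finset (Pt × Pt) × Finset (Pt × Pt)),
      wtC (ap q t H k) (aw H k) C ≤ 4 * q * Real.exp (-(9 * k / H)) ∧
      ∀ Z, G.indep Z → Z.card ≤ k → k ≤ 2 * t ^ 2 * Z.card → G.Cl1 T0 u (ad q H k) Z →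
        G.Cl1 (sw T0) v (ad q H k) (sw Z) → hits C (aw H k) Z := by
  by_cases huv : (1 ≤ u ∧ u ≤ t) ∧ 1 ≤ v ∧ v ≤ t
  swap
  · refine ⟨∅, ?_, fun Z _ _ _ c1 c2 => (huv ⟨⟨c1.one_le, c1.le_t⟩, c2.one_le, c2.le_t⟩).elim⟩
    rw [wtC, sum_empty]
    positivity
  obtain ⟨C1, C1', w1, -, g1⟩ := pop_cover G h T0 huv.1.1 huv.1.2
  obtain ⟨C2', C2, -, w2, g2⟩ := pop_cover G h (sw T0) huv.2.1 huv.2.2
  have p0 := ap_nonneg q t H k
  have q0 := h.q_ge
  have qp := h.ANum_q0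
  have H1 := h.H_ge'
  have H0 := h.ANum_H0
  have L0 : 0 ≤ Real.log q := le_trans (by norm_num) h.ANum_L3
  have e0 := Real.exp_pos (-(9 * (k : ℝ) / H))
  have a0 : 0 ≤ at0 q H := by unfold at0; positivity
  have q2 : (q : ℝ) ≤ (q : ℝ) ^ (2 * t) := le_self_pow₀ (by linarith) (by have := h.ht; omega)
  have fl1 : (G.flags.card : ℝ) + 1 ≤ (q : ℝ) ^ (2 * t) := by
    have := mul_le_mul_of_nonneg_left q0 (Nat.cast_nonneg (α := ℝ) G.flags.card)
    linarith [G.card_flags.2]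
  obtain ⟨C3, w3, g3⟩ : ∃ C3 : Finset (Finset (Pt × Pt) × Finset (Pt × Pt)),
      wtC (ap q t H k) (aw H k) C3 ≤ Real.exp (-(9 * k / H)) ∧ ∀ T ⊆ G.flags,
        (T.card : ℝ) ≤ at0 q H → (∅, G.BB (1 / 8) (G.PPf T0 u (am0 q t) T)
          (G.PPf (sw T0) v (am0 q t) (sw T))) ∈ C3 := by
    refine ⟨_, Qfam h (selIn G.flags.powerset fun T => T.card ≤ ⌊at0 q H⌋₊)
      (fun T => G.BB (1 / 8) (G.PPf T0 u (am0 q t) T) (G.PPf (sw T0) v (am0 q t) (sw T)))
      ((ACover_cnt _ qp (2 * t) _ fl1).trans (Real.exp_le_exp.2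
        (le_trans ?_ (Qdiv h (c := (H : ℝ) ^ 5) le_rfl))))
      fun T _ => (G.card_BB_le (by norm_num) _ _).trans (mul_le_mul_of_nonneg_right
        (le_trans (by linarith) (le_self_pow₀ h.ANum_H1 (by norm_num))) (by positivity)),
      fun T k1 k2 => mem_image.2 ⟨T, mem_selIn.2 ⟨mem_powerset.2 k1, Nat.le_floor k2⟩, rfl⟩⟩
    calc _ = 2 * t * Real.log q * ⌊at0 q H⌋₊ := by push_cast; ring
      _ ≤ H * at0 q H := mul_le_mul h.hL (Nat.floor_le a0) (by positivity) H0.le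
      _ = _ := by unfold at0; ring
  refine ⟨C1 ∪ C2 ∪ C3, ((wtC_union_le p0 _ _ _).trans (add_le_add
    ((wtC_union_le p0 _ _ _).trans (add_le_add w1 w2)) w3)).trans ?_, fun Z hZ z1 z2 c1 c2 => ?_⟩
  · have := mul_le_mul_of_nonneg_right q0 e0.le
    linarith
  by_cases n1 : G.NoPop T0 u (aw H k) (3 * H * q) Z
  swap
  · exact hits_mono (subset_union_left.trans subset_union_left) Subset.rfl (g1 Z n1).1
  by_cases n2 : G.NoPop (sw T0) v (aw H k) (3 * H * q) (sw Z)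
  swap
  · have := (g2 _ n2).2
    rw [sw_sw] at this
    exact hits_mono (subset_union_right.trans subset_union_left) Subset.rfl this
  obtain ⟨T, hT⟩ := smp G h (x := 1 / 8) (one_div_le_one_div_of_le (by norm_num) (by linarith))
    hZ.1 z1 c1 c2 n1 n2 Z Subset.rfl
  refine ⟨_, mem_union_right _ (g3 T (hT.sub.trans hZ.1) hT.card), empty_subset _, ?_⟩
  have z0 := G.valid_BB Subset.rfl hT
  beta_reduce at z0
  simp only [sdiff_empty]
  refine (Nat.cast_le (α := ℝ)).1 (h.aw_le.trans (le_trans ?_ z0))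
  have z3 : (k : ℝ) ≤ 2 * t ^ 2 * Z.card := by exact_mod_cast z2
  have z4 : 24 * (t : ℝ) ^ 2 ≤ H := by
    have t0 : (0 : ℝ) ≤ t := Nat.cast_nonneg _
    have : ((t : ℝ) + 1) ^ 2 ≤ ((t : ℝ) + 1) ^ 4 := pow_le_pow_right₀ (by linarith) (by norm_num)
    nlinarith [h.H_ge]
  have z5 : 12 * (k : ℝ) / H ≤ Z.card := by
    rw [div_le_iff₀ H0]
    linarith [mul_le_mul_of_nonneg_left z4 (Nat.cast_nonneg (α := ℝ) Z.card)]
  have z6 : 12 * (k : ℝ) / H = 2 * k / H + 10 * k / H := by ring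
  linarith

theorem cover_all {H k : ℕ} (h : NQ q t H k) :
    ∃ C : Finset (Finset (Pt × Pt) × Finset (Pt × Pt)),
      wtC (ap q t H k) (aw H k) C * G.flags.card ≤ 1 ∧
      ∀ I, G.indep I → I.card = k → hits C (aw H k) I := by
  choose f wf hf using class_cover G h
  have p0 := ap_nonneg q t H k
  have H1 := h.H_ge'
  have q0 := h.q_ge
  have qp : (0 : ℝ) < q := by linarith
  have ht := Qt h
  have t0 : (0 : ℝ) ≤ t := Nat.cast_nonneg _
  have hq := h.hHq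
  have H6 : (H : ℝ) ≤ (H : ℝ) ^ 6 := le_self_pow₀ (by linarith) (by norm_num)
  have H5 : (H : ℝ) ≤ (H : ℝ) ^ 5 := le_self_pow₀ (by linarith) (by norm_num)
  have fl := G.card_flags.2
  have f0 : (0 : ℝ) ≤ G.flags.card := Nat.cast_nonneg _
  have q2 : (q : ℝ) ≤ (q : ℝ) ^ (2 * t) := le_self_pow₀ (by linarith) (by have := h.ht; omega)
  have fl1 : (G.flags.card : ℝ) + 1 ≤ (q : ℝ) ^ (2 * t) := by
    have := mul_le_mul_of_nonneg_left q0 f0
    linarith
  have hI : ((selIn G.flags.powerset fun T => T.card ≤ 8 * (t + 1) * (H ^ 3 * q)).card : ℝ) ≤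
      Real.exp (k / H) := by
    refine (ACover_cnt _ qp (2 * t) _ fl1).trans (Real.exp_le_exp.2 (le_trans (le_of_eq ?_)
      (Qdiv h (c := 2 * t * (8 * (t + 1)) * (H : ℝ) ^ 3) ?_)))
    · push_cast
      ring
    · have a1 : 2 * (t : ℝ) * (8 * (t + 1)) ≤ H := by nlinarith
      calc 2 * (t : ℝ) * (8 * (t + 1)) * (H : ℝ) ^ 3 ≤ H * (H : ℝ) ^ 3 := by gcongr
        _ = (H : ℝ) ^ 4 := by ring
        _ ≤ _ := pow_le_pow_right₀ (by linarith) (by norm_num)
  have hE : ((t : ℝ) + 1) ^ 2 * (4 * q) * G.flags.card ≤ Real.exp (k / H) := by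
    have a1 : (q : ℝ) ^ (2 * t + 1) ≤ Real.exp (k / H) := by
      rw [← Real.exp_log (pow_pos qp (2 * t + 1)), Real.log_pow]
      refine Real.exp_le_exp.2 (le_trans ?_ (Qdiv h (c := 2 * t + 1) (by nlinarith)))
      have L0 : 0 ≤ Real.log q := le_trans (by norm_num) h.ANum_L3
      push_cast
      refine mul_le_mul_of_nonneg_right ?_ L0
      exact le_mul_of_one_le_right (by linarith) (by linarith)
    calc ((t : ℝ) + 1) ^ 2 * (4 * q) * G.flags.card
        = 4 * ((t : ℝ) + 1) ^ 2 * (G.flags.card * q) := by ring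
      _ ≤ 4 * ((t : ℝ) + 1) ^ 2 * (4 * (q : ℝ) ^ (2 * t)) := by gcongr
      _ = (q : ℝ) ^ (2 * t) * (16 * ((t : ℝ) + 1) ^ 2) := by ring
      _ ≤ (q : ℝ) ^ (2 * t) * q := mul_le_mul_of_nonneg_left (by linarith) (by positivity)
      _ ≤ _ := by rw [← pow_succ]; exact a1
  refine ⟨((selIn G.flags.powerset fun T => T.card ≤ 8 * (t + 1) * (H ^ 3 * q)) ×ˢ
    range (t + 1) ×ˢ range (t + 1)).biUnion fun y => f y.1 y.2.1 y.2.2, ?_, fun I hI' hk => ?_⟩
  · have a1 := (wtC_biUnion_le p0 (aw H k) ((selIn G.flags.powerset fun T =>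
      T.card ≤ 8 * (t + 1) * (H ^ 3 * q)) ×ˢ range (t + 1) ×ˢ range (t + 1))
      fun y => f y.1 y.2.1 y.2.2).trans (sum_le_card_nsmul _ _ _ fun y _ => wf y.1 y.2.1 y.2.2)
    rw [nsmul_eq_mul, card_product, card_product, card_range] at a1
    push_cast at a1
    have e0 := Real.exp_pos (-(9 * (k : ℝ) / H))
    have k0 : (0 : ℝ) ≤ k / H := by positivity
    refine (mul_le_mul_of_nonneg_right a1 f0).trans ?_
    calc _ = ((selIn G.flags.powerset fun T => T.card ≤ 8 * (t + 1) * (H ^ 3 * q)).card : ℝ) *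
          (((t : ℝ) + 1) ^ 2 * (4 * q) * G.flags.card) * Real.exp (-(9 * k / H)) := by ring
      _ ≤ Real.exp (k / H) * Real.exp (k / H) * Real.exp (-(9 * k / H)) := by gcongr
      _ ≤ 1 := by
        rw [← Real.exp_add, ← Real.exp_add, Real.exp_le_one_iff, mul_div_assoc]
        linarith
  have d1 : 1 ≤ ad q H k := Nat.le_add_left _ _
  obtain ⟨T, t1, t2, u, v, Z, z1, z2, c1, c2⟩ := G.span_class hI' d1
  rw [hk] at t2 z2
  have d2 : k ≤ H ^ 3 * q * ad q H k := by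
    have := h.ad_ge
    rw [div_le_iff₀' (by positivity)] at this
    exact_mod_cast this
  have t3 : T.card ≤ 8 * (t + 1) * (H ^ 3 * q) := by
    refine Nat.le_of_mul_le_mul_right (t2.trans ?_) d1
    rw [mul_assoc (8 * (t + 1))]
    exact Nat.mul_le_mul_left _ d2
  refine hits_mono (subset_biUnion_of_mem (fun y : Finset (Pt × Pt) × ℕ × ℕ => f y.1 y.2.1 y.2.2)
    (x := (T, u, v)) ?_) z1 (hf T u v Z (G.indep_mono hI' z1) (hk ▸ card_le_card z1) z2 c1 c2)
  exact mem_product.2 ⟨mem_selIn.2 ⟨mem_powerset.2 (t1.trans hI'.1), t3⟩, mem_product.2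
    ⟨mem_range.2 (Nat.lt_succ_of_le c1.le_t), mem_range.2 (Nat.lt_succ_of_le c2.le_t)⟩⟩

theorem host {H k : ℕ} (h : NQ q t H k) :
    ∃ X ⊆ G.flags, (k : ℝ) * (q : ℝ) ^ t / (q * (H : ℝ) ^ 10) - 1 ≤ X.card ∧
      ∀ I ⊆ X, G.indep I → I.card ≠ k := by
  obtain ⟨C, h1, h2⟩ := cover_all G h
  have p0 := ap_nonneg q t H k
  have H1 := h.H_ge'
  have Hp : (0 : ℝ) < H := by linarith
  have q0 := h.q_ge
  have qp : (0 : ℝ) < q := by linarith
  have h3 : (k : ℝ) * (q : ℝ) ^ t / (q * (H : ℝ) ^ 10) ≤ ap q t H k * G.flags.card := by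
    refine le_of_mul_le_mul_right ?_ qp
    rw [mul_assoc]
    refine le_trans (le_of_eq ?_) (mul_le_mul_of_nonneg_left G.card_flags.1 p0)
    rw [ap, two_mul, pow_add]
    field_simp
  have h4 : 1 < (k : ℝ) * (q : ℝ) ^ t / (q * (H : ℝ) ^ 10) := by
    rw [one_lt_div (by positivity)]
    have a1 : (q : ℝ) ≤ k := Nat.cast_le.2 h.q_le_k
    have a2 : (q : ℝ) ^ 2 ≤ (q : ℝ) ^ t := pow_le_pow_right₀ (by linarith) h.ht
    have a3 := h.hHq
    have a4 : (H : ℝ) ^ 5 ≤ (H : ℝ) ^ 6 := pow_le_pow_right₀ (by linarith) (by norm_num)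
    have a5 : (H : ℝ) ^ 5 < q := by linarith [pow_pos Hp 6]
    have a6 : ((H : ℝ) ^ 5) ^ 2 < (q : ℝ) ^ 2 := pow_lt_pow_left₀ a5 (by positivity) (by norm_num)
    rw [← pow_mul] at a6
    calc (q : ℝ) * (H : ℝ) ^ 10 < q * (q : ℝ) ^ t := mul_lt_mul_of_pos_left (a6.trans_le a2) qp
      _ ≤ _ := by gcongr
  obtain ⟨X, x1, x2, x3⟩ := sample G.flags p0 h.ap_le_one (aw H k) C h1 (h4.trans_le h3)
  exact ⟨X, x1, by linarith, fun I hI hi e => x3 I hI (h2 I hi e)⟩

end Pool.Agent.Work.MP_e10cd8_co.Uni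
end

-- merged part: Pool.Agent.Work.MP_e10cd8_co.Uni.LTop
section
/-! The lower bound, uniform in the order of the tournament, and the two-sided bound. -/

namespace Pool.Agent.Work.MP_e10cd8_co.Uni
open Finset Pool.Agent.Work.MP_e10cd8_co.Four Pool.Agent.Work.MP_e10cd8_co.All Real

theorem prime_pick (K : ℝ) (hK : 1000 ≤ K) (n : ℕ) (L1 : 1 ≤ log n) (hE : (4 * K * log n) ^ 5 ≤ n) :
    ∃ q : ℕ, q.Prime ∧ K ^ 2 ≤ q ∧ 4 / 5 * log n ≤ log q ∧ log q ≤ log n ∧ K * q * log q ≤ n ∧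
      (n : ℝ) ≤ 5 * K * q * log n ∧ (n : ℝ) ≤ 5 * K * q * log q ∧ K ^ 2 ≤ n := by
  have n0 : (0 : ℝ) < n := lt_of_lt_of_le (by positivity) hE
  have n5 : (n : ℝ) = exp (log n / 5) ^ 5 := by
    rw [← exp_nat_mul, Nat.cast_ofNat, mul_div_cancel₀ _ (by norm_num), exp_log n0]
  have lE : log (exp (log n / 5) ^ 4) = 4 / 5 * log n := by
    rw [log_pow, log_exp]
    push_cast
    ring
  have lq : ∀ q : ℝ, 0 < q → q ≤ n → log q ≤ log n := fun q k k' => log_le_log k k'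
  have hE' : 4 * K * log n ≤ exp (log n / 5) :=
    (pow_le_pow_iff_left₀ (by positivity) (exp_pos _).le (by norm_num)).1 (hE.trans n5.le)
  generalize log n = L at *
  have E1 : 1 ≤ exp (L / 5) := one_le_exp (by positivity)
  generalize exp (L / 5) = E at *
  have KL : K ≤ K * L := le_mul_of_one_le_right (by linarith) L1
  have d0 : 0 < 4 * K * L := by positivity
  obtain ⟨y, hy⟩ : ∃ y : ℝ, y = n / (4 * K * L) := ⟨_, rfl⟩
  have y0 : (n : ℝ) = 4 * K * L * y := by rw [hy, mul_div_cancel₀ _ d0.ne']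
  have y1 : E ^ 4 ≤ y := by
    rw [hy, le_div_iff₀ d0, n5, pow_succ E 4]
    gcongr
  have y2 : K ^ 2 ≤ y := ((pow_le_pow_left₀ (by linarith) (by linarith) 2).trans
    (pow_le_pow_right₀ E1 (by norm_num))).trans y1
  have y3 : 0 < y := lt_of_lt_of_le (by positivity) y2
  have y4 : 1 ≤ y := (one_le_pow₀ E1).trans y1
  obtain ⟨q, hq, q1, q2⟩ := Nat.exists_prime_lt_and_le_two_mul ⌈y⌉₊ (Nat.ceil_pos.2 y3).ne'
  have q3 : y ≤ q := (Nat.le_ceil y).trans (by exact_mod_cast q1.le)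
  have q4 : (q : ℝ) ≤ 4 * y := by
    have : (q : ℝ) ≤ 2 * ⌈y⌉₊ := by exact_mod_cast q2
    linarith [Nat.ceil_lt_add_one y3.le]
  have q5 : 4 * y ≤ n := by
    rw [y0]
    exact mul_le_mul_of_nonneg_right (by linarith) y3.le
  have q7 : log q ≤ L := lq _ (by linarith) (by linarith)
  have q9 : 0 ≤ log q := log_nonneg (by linarith)
  have q8 : 4 / 5 * L ≤ log q := lE ▸ log_le_log (by positivity) (y1.trans q3)
  have q6 : (n : ℝ) ≤ 5 * K * q * log q :=
    calc (n : ℝ) = 5 * K * y * (4 / 5 * L) := by rw [y0]; ring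
      _ ≤ _ := by gcongr
  refine ⟨q, hq, by linarith, q8, q7, ?_, q6.trans (by gcongr), q6, by linarith⟩
  calc K * q * log q ≤ K * (4 * y) * L := by gcongr
    _ = n := by rw [y0]; ring

theorem D_ex {a L : ℝ} (ha : 1 ≤ a) (hL : (8 * a) ^ 4 ≤ L) :
    ∃ D : ℕ, (D : ℝ) ^ 2 ≤ L ∧ a * log L ≤ D := by
  have L0 : 0 < L := lt_of_lt_of_le (by positivity) hL
  obtain ⟨w, w0, rfl⟩ : ∃ w : ℝ, 0 < w ∧ L = w ^ 4 := ⟨√√L, by positivity, by
    rw [show 4 = 2 * 2 from rfl, pow_mul, sq_sqrt (sqrt_nonneg _), sq_sqrt L0.le]⟩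
  have w1 : 8 * a ≤ w := (pow_le_pow_iff_left₀ (by positivity) w0.le (by norm_num)).1 hL
  refine ⟨⌊w ^ 2⌋₊, ?_, ?_⟩
  · rw [show 4 = 2 * 2 from rfl, pow_mul]
    exact pow_le_pow_left₀ (Nat.cast_nonneg _) (Nat.floor_le (by positivity)) 2
  · have f := Nat.lt_floor_add_one (w ^ 2)
    have g := log_le_sub_one_of_pos w0
    rw [log_pow]
    push_cast
    nlinarith [mul_le_mul_of_nonneg_left g (by linarith : 0 ≤ a)]

theorem fin_le (j n q H E : ℕ) {N : ℝ} (h5 : 5 ≤ H) (hH : H ≤ (j + 3) ^ E) (hq : 1 ≤ q)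
    (hL : 0 < log n) (h1 : (n : ℝ) ≤ 5 * (H : ℝ) ^ 6 * q * log n) (h2 : ((H : ℝ) ^ 6) ^ 2 ≤ n)
    (hN : N ≤ (n : ℝ) ^ (j + 2) / (((j + 3 : ℕ) : ℝ) ^ (45 * E * (j + 3)) * log n ^ (j + 1))) :
    N ≤ n * (q : ℝ) ^ (j + 2) / (q * (H : ℝ) ^ 10) - 1 := by
  have H5 : (5 : ℝ) ≤ H := by exact_mod_cast h5
  refine hN.trans (le_trans ?_ (AAsym_fin j ((H : ℝ) ^ 6) ((H : ℝ) ^ 10) n q (log n) (by positivity)
    (by positivity) (by exact_mod_cast hq) hL h1 (le_trans ?_ h2)))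
  · rw [one_div_mul_eq_div, div_div]
    refine div_le_div_of_nonneg_left (by positivity) (by positivity)
      (mul_le_mul_of_nonneg_right ?_ (by positivity))
    calc 2 * (H : ℝ) ^ 10 * (5 * (H : ℝ) ^ 6) ^ (j + 1)
        ≤ H * (H : ℝ) ^ 10 * (H * (H : ℝ) ^ 6) ^ (j + 1) := by gcongr; linarith
      _ = (H : ℝ) ^ (7 * j + 18) := by ring
      _ ≤ (H : ℝ) ^ (45 * (j + 3)) := pow_le_pow_right₀ (by linarith) (by omega)
      _ ≤ (((j + 3 : ℕ) : ℝ) ^ E) ^ (45 * (j + 3)) :=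
          pow_le_pow_left₀ (by positivity) (by exact_mod_cast hH) _
      _ = _ := by rw [← pow_mul]; congr 1; ring
  · calc 2 * (H : ℝ) ^ 10 ≤ H ^ 2 * (H : ℝ) ^ 10 := by gcongr; nlinarith
      _ = _ := by ring

theorem pick1 {H : ℝ} (H4 : 10 ^ 6 ≤ H) {n : ℕ} (h1 : 2 * (8 * (1000 * H ^ 3)) ^ 4 ≤ log n) :
    (4 * H ^ 6 * log n) ^ 5 ≤ n ∧ 1 ≤ log n := by
  have H6 : (1 : ℝ) ≤ H ^ 6 := one_le_pow₀ (by linarith)
  have g0 : 10 ^ 6 * (H ^ 6) ^ 2 ≤ log n := by
    refine le_trans ?_ h1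
    have : 0 ≤ H ^ 12 := by positivity
    linarith
  generalize H ^ 6 = K at *
  have l1 : 1 ≤ log n := by nlinarith
  have n0 : (0 : ℝ) < n := (Nat.cast_nonneg n).lt_of_ne fun e => by
    rw [← e, log_zero] at l1
    linarith
  have e := pow_div_factorial_le_exp (log n) (by linarith) 9
  rw [exp_log n0] at e
  refine ⟨le_trans ?_ e, l1⟩
  have g1 := pow_le_pow_left₀ (by positivity) g0 4
  have g2 : K ^ 5 ≤ K ^ 8 := pow_le_pow_right₀ H6 (by norm_num)
  have g3 : 0 ≤ K ^ 8 := by positivity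
  have f : ((Nat.factorial 9 : ℕ) : ℝ) = 362880 := by norm_num [Nat.factorial]
  have g4 : 4 ^ 5 * K ^ 5 ≤ log n ^ 4 / 362880 := by linarith
  rw [f]
  calc _ = 4 ^ 5 * K ^ 5 * log n ^ 5 := by ring
    _ ≤ log n ^ 4 / 362880 * log n ^ 5 := by gcongr
    _ = _ := by ring

/-- small tournaments: the two-round cover -/
theorem caseI {B Y : ℝ} {n j H : ℕ} (B8 : 8 ≤ B) (j1 : 1 ≤ Y) (b1 : B ^ 2 * Y ≤ H)
    (hB : ∀ (q : ℕ) (Pt : ℕ → Type) [∀ t, Fintype (Pt t)]
      [∀ t, DecidableEq (Pt t)] (G : ∀ t, GP q (t + 2) (Pt t)), 1000 ≤ q →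
      (∀ (t : ℕ) (c : Pt (t + 1)), ∃ u v, Prj (t := t + 2) (G (t + 1)) (G t) c u v) →
      (G j).KLp (1 / (B * Y)) (B ^ 2 * Y) B) (H2 : 10 ^ 6 * (j + 2 + 1) ^ 4 ≤ H)
    (h1 : 2 * (8 * (1000 * (H : ℝ) ^ 3)) ^ 4 ≤ log n) :
    ∃ (q : ℕ) (Pt : Type) (_ : Fintype Pt) (_ : DecidableEq Pt) (G : GP q (j + 2) Pt),
      (n : ℝ) ≤ 5 * (H : ℝ) ^ 6 * q * log n ∧ ((H : ℝ) ^ 6) ^ 2 ≤ n ∧ ∃ X ⊆ G.flags,
        (n : ℝ) * (q : ℝ) ^ (j + 2) / (q * (H : ℝ) ^ 10) - 1 ≤ X.card ∧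
          ∀ I ⊆ X, G.indep I → I.card ≠ n := by
  have H3 : 10 ^ 6 ≤ H := le_trans (Nat.le_mul_of_pos_right _ (by positivity)) H2
  have H4 : (10 : ℝ) ^ 6 ≤ H := by exact_mod_cast H3
  have H6 : (H : ℝ) ≤ (H : ℝ) ^ 6 := le_self_pow₀ (by linarith) (by norm_num)
  obtain ⟨q, a1, a2, a3, a4, a5, a6, a7, a8⟩ :=
    prime_pick ((H : ℝ) ^ 6) (by linarith) n (pick1 H4 h1).2 (pick1 H4 h1).1
  have q1 : (1000 : ℝ) ≤ q :=
    le_trans (le_trans (by linarith) (le_self_pow₀ (by linarith) two_ne_zero)) a2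
  have q2 : 1000 ≤ q := by exact_mod_cast q1
  have H5 : (1 : ℝ) ≤ (H : ℝ) ^ 3 := one_le_pow₀ (by linarith)
  have g0 : (8 * (1000 * (H : ℝ) ^ 3)) ^ 4 ≤ log q := by
    linarith [log_nonneg (show (1 : ℝ) ≤ q by linarith)]
  obtain ⟨D, d1, d2⟩ := D_ex (by linarith) g0
  have g1 : 120 ≤ log q :=
    le_trans (le_trans (by linarith) (le_self_pow₀ (by linarith) (by norm_num))) g0
  have g2 : log q ^ 4 ≤ q := by
    have e := pow_div_factorial_le_exp (log q) (by linarith) 5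
    have f : ((Nat.factorial 5 : ℕ) : ℝ) = 120 := by norm_num [Nat.factorial]
    rw [exp_log (by linarith), f] at e
    linarith [mul_le_mul_of_nonneg_right g1 (by positivity : 0 ≤ log q ^ 4)]
  obtain ⟨Pt, i1, i2, G, hG⟩ := exists_tower q a1
  have b2 : B ≤ B * Y := le_mul_of_one_le_right (by linarith) j1
  have b3 : B * Y ≤ B ^ 2 * Y :=
    mul_le_mul_of_nonneg_right (le_self_pow₀ (by linarith) two_ne_zero) (by linarith)
  exact ⟨q, Pt j, i1 j, i2 j, G j, a6, a8, (G j).host ⟨by omega, H2, q2, g2, d1, d2, a5, a7⟩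
    (one_div_le_one_div_of_le (by linarith) (by linarith))
    (one_div_le_one_div_of_le (by norm_num) (by linarith)) (by positivity) b1 (by linarith)
    (by linarith) (hB q Pt G q2 hG)⟩

/-- large tournaments: the one-round cover -/
theorem caseII {n j K : ℕ} (K1 : 10 ^ 6 * (j + 2 + 1) ^ 4 ≤ K) (L1 : 1 ≤ log n)
    (K2 : 4 * ((j : ℝ) + 3) * log n ≤ K) (h2 : (K : ℝ) ^ 45 ≤ n) :
    ∃ (q : ℕ) (Pt : Type) (_ : Fintype Pt) (_ : DecidableEq Pt) (G : GP q (j + 2) Pt),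
      (n : ℝ) ≤ 5 * (K : ℝ) ^ 6 * q * log n ∧ ((K : ℝ) ^ 6) ^ 2 ≤ n ∧ ∃ X ⊆ G.flags,
        (n : ℝ) * (q : ℝ) ^ (j + 2) / (q * (K : ℝ) ^ 10) - 1 ≤ X.card ∧
          ∀ I ⊆ X, G.indep I → I.card ≠ n := by
  have K3 : 10 ^ 6 ≤ K := le_trans (Nat.le_mul_of_pos_right _ (by positivity)) K1
  have K4 : (10 : ℝ) ^ 6 ≤ K := by exact_mod_cast K3
  have K6 : (K : ℝ) ≤ (K : ℝ) ^ 6 := le_self_pow₀ (by linarith) (by norm_num)
  have j0 : 0 ≤ j * log n := by positivity
  obtain ⟨q, a1, a2, a3, a4, a5, a6, a7, a8⟩ := prime_pick ((K : ℝ) ^ 6) (by linarith) n L1 (by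
    refine le_trans ?_ ((pow_le_pow_right₀ (by linarith) (show 7 * 5 ≤ 45 by norm_num)).trans h2)
    rw [pow_mul]
    refine pow_le_pow_left₀ (by positivity) ?_ _
    have : 4 * log n ≤ K := by linarith
    linarith [mul_le_mul_of_nonneg_left this (by positivity : 0 ≤ (K : ℝ) ^ 6)])
  have q0 : 10 ^ 6 * (K : ℝ) ^ 6 ≤ q := le_trans (by
    rw [sq]
    exact mul_le_mul_of_nonneg_right (by linarith) (by positivity)) a2
  have q2 : 1000 ≤ q := by exact_mod_cast (by linarith : (1000 : ℝ) ≤ q)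
  obtain ⟨Pt, i1, i2, G, -⟩ := exists_tower q a1
  refine ⟨q, Pt j, i1 j, i2 j, G j, a6, a8, host (G j) ⟨by omega, K1, q2, ?_, q0, a5, a7⟩⟩
  push_cast
  linarith [mul_le_mul_of_nonneg_left a4 (by positivity : (0 : ℝ) ≤ 2 * (j + 2))]

theorem lower_succ : ∃ A : ℕ, ∀ n j N : ℕ, 3 ≤ n →
    (N : ℝ) ≤ (n : ℝ) ^ (j + 2) / (((j + 3 : ℕ) : ℝ) ^ (A * (j + 3)) * log n ^ (j + 1)) →
      ∃ G : Digraph (Fin N), (∀ v, ¬ G.Adj v v) ∧
        (¬ ∃ S : Finset (Fin N), S.card = n ∧ ∀ u ∈ S, ∀ v ∈ S, ¬ G.Adj u v) ∧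
        ¬ ∃ f : Fin (j + 3) → Fin N, Function.Injective f ∧
          ∀ i i', i < i' → G.Adj (f i) (f i') := by
  obtain ⟨B, B8, hB⟩ := kl_poly
  obtain ⟨c, hc⟩ := exists_nat_ge (B ^ 2 + 10 ^ 6)
  obtain ⟨d, hd⟩ : ∃ d, d = c + 100 := ⟨_, rfl⟩
  obtain ⟨e, he⟩ : ∃ e, e = 12 * d + 34 := ⟨_, rfl⟩
  obtain ⟨E, hE⟩ : ∃ E, E = e + 20 := ⟨_, rfl⟩
  refine ⟨45 * E, fun n j N hn hN => ?_⟩
  have n3 : (3 : ℝ) ≤ n := by exact_mod_cast hn
  have L1 : 1 < log n := by
    rw [lt_log_iff_exp_lt (by linarith)]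
    linarith [exp_one_lt_d9]
  have m3 : 3 ≤ j + 3 := by omega
  have pw : ∀ a e : ℕ, a ≤ 3 ^ e → a ≤ (j + 3) ^ e := fun a e h =>
    h.trans (Nat.pow_le_pow_left m3 e)
  have c6 : 10 ^ 6 ≤ c := by exact_mod_cast (by linarith [sq_nonneg B] : (10 : ℝ) ^ 6 ≤ c)
  have fin : ∀ H : ℕ, 10 ^ 6 * (j + 2 + 1) ^ 4 ≤ H → H ≤ (j + 3) ^ E →
      (∃ (q : ℕ) (Pt : Type) (_ : Fintype Pt) (_ : DecidableEq Pt) (G : GP q (j + 2) Pt),
      (n : ℝ) ≤ 5 * (H : ℝ) ^ 6 * q * log n ∧ ((H : ℝ) ^ 6) ^ 2 ≤ n ∧ ∃ X ⊆ G.flags,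
        (n : ℝ) * (q : ℝ) ^ (j + 2) / (q * (H : ℝ) ^ 10) - 1 ≤ X.card ∧
          ∀ I ⊆ X, G.indep I → I.card ≠ n) → ∃ G : Digraph (Fin N), (∀ v, ¬ G.Adj v v) ∧
        (¬ ∃ S : Finset (Fin N), S.card = n ∧ ∀ u ∈ S, ∀ v ∈ S, ¬ G.Adj u v) ∧
        ¬ ∃ f : Fin (j + 3) → Fin N, Function.Injective f ∧
          ∀ i i', i < i' → G.Adj (f i) (f i') := by
    rintro H k1 k2 ⟨q, Pt, i1, i2, G, a6, a8, X, x1, x2, x3⟩
    have z := (fin_le j n q H E (le_trans (by norm_num)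
      (le_trans (Nat.le_mul_of_pos_right _ (by positivity)) k1)) k2 (by linarith [G.two_le])
      (by linarith) a6 a8 hN).trans x2
    exact G.digraph x1 x3 (Nat.cast_le.1 z)
  obtain ⟨H, hH⟩ : ∃ H, H = c * (j + 3) ^ 100 := ⟨_, rfl⟩
  have H1 : H ≤ (j + 3) ^ d := by
    rw [hH, hd, pow_add (j + 3) c 100]
    exact Nat.mul_le_mul_right _ (pw _ _ (Nat.lt_pow_self (by norm_num)).le)
  have H2 : 10 ^ 6 * (j + 2 + 1) ^ 4 ≤ H := (Nat.mul_le_mul c6
    (Nat.pow_le_pow_right (n := j + 3) (i := 4) (j := 100) (by omega) (by norm_num))).trans hH.ge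
  by_cases h1 : 2 * (8 * (1000 * (H : ℝ) ^ 3)) ^ 4 ≤ log n
  · have j2 : (1 : ℝ) ≤ (j : ℝ) + 2 := by linarith [Nat.cast_nonneg (α := ℝ) j]
    have j3 : (j : ℝ) + 2 ≤ (j + 3 : ℕ) := by push_cast; linarith
    have j4 : B ^ 2 ≤ c := by linarith
    refine fin H H2 (H1.trans (Nat.pow_le_pow_right (by omega) (by omega)))
      (caseI (Y := ((j : ℝ) + 2) ^ 100) B8 (one_le_pow₀ j2) ?_
      (fun q Pt _ _ G k1 k2 => hB q Pt G k1 k2 j) H2 h1)
    rw [hH, Nat.cast_mul, Nat.cast_pow]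
    exact mul_le_mul j4 (pow_le_pow_left₀ (zero_le_one.trans j2) j3 100)
      (pow_nonneg (zero_le_one.trans j2) 100) (Nat.cast_nonneg c)
  clear hH hB
  have g1 : log n ≤ ((j + 3) ^ e : ℕ) := by
    refine (not_le.1 h1).le.trans ?_
    have : 2 * (8 * (1000 * H ^ 3)) ^ 4 ≤ (j + 3) ^ e := by
      rw [he, pow_add (j + 3) (12 * d), mul_comm 12, pow_mul (j + 3) d, mul_comm (_ ^ 12)]
      refine le_trans (le_of_eq (by ring)) (Nat.mul_le_mul (pw (2 * 8000 ^ 4) 34 (by norm_num))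
        (Nat.pow_le_pow_left H1 12))
    exact_mod_cast this
  have m0 : (3 : ℝ) ≤ (j + 3 : ℕ) := by exact_mod_cast m3
  by_cases h2 : ((j + 3 : ℕ) : ℝ) ^ (45 * E) ≤ n
  · have K1 : 10 ^ 6 * (j + 2 + 1) ^ 4 ≤ (j + 3) ^ E :=
      (Nat.mul_le_mul_right _ (pw _ 13 (by norm_num))).trans
        ((pow_add _ _ _).ge.trans (Nat.pow_le_pow_right (by omega) (by omega)))
    rw [mul_comm 45, pow_mul, ← Nat.cast_pow] at h2
    refine fin _ K1 le_rfl (caseII K1 L1.le ?_ h2)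
    refine (mul_le_mul_of_nonneg_left g1 (by positivity)).trans ?_
    have : 4 * (j + 3) * (j + 3) ^ e ≤ (j + 3) ^ E :=
      (Nat.mul_le_mul_right _ (Nat.mul_le_mul_right _ (pw 4 2 (by norm_num)))).trans (by
        rw [← pow_succ, ← pow_add]
        exact Nat.pow_le_pow_right (by omega) (by omega))
    exact_mod_cast this
  have z : (N : ℝ) < 1 := by
    refine hN.trans_lt ((div_lt_one (by positivity)).2 ?_)
    rw [pow_mul ((j + 3 : ℕ) : ℝ) (45 * E)]
    exact lt_of_le_of_lt ((pow_le_pow_left₀ (by positivity) (not_le.1 h2).le _).trans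
      (pow_le_pow_right₀ (one_le_pow₀ (by linarith)) (by omega)))
      (lt_mul_of_one_lt_right (by positivity) (one_lt_pow₀ L1 (by omega)))
  obtain rfl : N = 0 := Nat.lt_one_iff.1 (by exact_mod_cast z)
  refine ⟨⟨fun _ _ => False⟩, fun _ h => h, ?_, fun ⟨f, _⟩ => (f 0).elim0⟩
  rintro ⟨S, h, -⟩
  have := card_le_univ S
  rw [h, Fintype.card_fin] at this
  omega

theorem uniform {δ : ℝ} (hδ : 0 < δ) : ∃ (A : ℕ) (C : ℝ) (n₀ : ℕ), ∀ n m : ℕ, n₀ ≤ n → 2 ≤ m →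
    (m : ℝ) ≤ (n : ℝ) ^ (1 / 2 - δ) → ∃ k : ℕ,
    IsLeast {N : ℕ | ∀ G : Digraph (Fin N), (∀ v, ¬ G.Adj v v) →
      (∃ S : Finset (Fin N), S.card = n ∧ ∀ u ∈ S, ∀ v ∈ S, ¬ G.Adj u v) ∨
        ∃ f : Fin m → Fin N, Function.Injective f ∧ ∀ i j, i < j → G.Adj (f i) (f j)} k ∧
    (n : ℝ) ^ (m - 1) / ((m : ℝ) ^ (A * m) * log n ^ (m - 2)) ≤ k ∧
      (k : ℝ) ≤ C ^ m * (n : ℝ) ^ (m - 1) / (m.factorial * log n ^ (m - 2)) := by
  obtain ⟨A, h⟩ := lower_succ
  obtain ⟨C, C1, n₀, h'⟩ := upperU hδ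
  refine ⟨A, 2 * C, max n₀ 3, fun n m hn hm hmn => ?_⟩
  obtain ⟨j, rfl⟩ : ∃ j, m = j + 2 := ⟨m - 2, by omega⟩
  rw [show j + 2 - 1 = j + 1 from rfl, show j + 2 - 2 = j from rfl]
  have h0 : n₀ ≤ n := le_of_max_le_left hn
  have h3 : 3 ≤ n := le_of_max_le_right hn
  have n3 : (3 : ℝ) ≤ n := by exact_mod_cast h3
  have l0 : 0 < log n := log_pos (by linarith)
  set S := {N : ℕ | ∀ G : Digraph (Fin N), (∀ v, ¬ G.Adj v v) →
      (∃ S : Finset (Fin N), S.card = n ∧ ∀ u ∈ S, ∀ v ∈ S, ¬ G.Adj u v) ∨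
        ∃ f : Fin (j + 2) → Fin N, Function.Injective f ∧
          ∀ i i', i < i' → G.Adj (f i) (f i')} with hS
  have m1 : ⌊C ^ (j + 2) * (n : ℝ) ^ (j + 1) / ((j + 2).factorial * log n ^ j)⌋₊ + 1 ∈ S :=
    h' n j _ h0 hmn (by exact_mod_cast Nat.lt_floor_add_one _)
  have m2 : sInf S ∈ S := Nat.sInf_mem ⟨_, m1⟩
  have m3 : n ≤ sInf S := by
    rcases m2 ⟨fun _ _ => False⟩ fun _ h => h with ⟨T, t, -⟩ | ⟨f, -, t⟩
    · simpa [t] using card_le_univ T
    · exact (t 0 1 (by simp)).elim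
  have m4 : (n : ℝ) ≤ (sInf S : ℕ) := by exact_mod_cast m3
  refine ⟨sInf S, ⟨m2, fun N hN => Nat.sInf_le hN⟩, ?_, ?_⟩
  · rcases j with _ | j
    · refine le_trans ?_ m4
      rw [pow_zero, mul_one, zero_add, pow_one]
      exact div_le_self (by linarith) (one_le_pow₀ (by norm_num))
    · by_contra k
      obtain ⟨G, g1, g2, g3⟩ := h n j _ h3 (not_le.1 k).le
      exact (m2 G g1).elim g2 g3
  · have a1 := (Nat.cast_le (α := ℝ)).2 (Nat.sInf_le m1)
    have a2 := Nat.floor_le (show 0 ≤ C ^ (j + 2) * (n : ℝ) ^ (j + 1) /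
      ((j + 2).factorial * log n ^ j) by positivity)
    have a3 : (2 : ℝ) ≤ 2 ^ (j + 2) := le_self_pow₀ (by norm_num) (by omega)
    push_cast at a1
    rw [mul_pow, mul_assoc, mul_div_assoc]
    refine le_trans ?_ (mul_le_mul_of_nonneg_right a3 (by positivity))
    linarith

end Pool.Agent.Work.MP_e10cd8_co.Uni
end

-- merged part: Pool.Agent.Work.MP_e10cd8_co.Up.Main
section
/-! The upper bound for `m ≤ n ^ (2 / 3 - δ)` (paper 11). -/

namespace Pool.Agent.Work.MP_e10cd8_co.Up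
open Finset Pool.Agent.Work.MP_e10cd8_co.Four Pool.Agent.Work.MP_e10cd8_co.Upper
  Pool.Agent.Work.MP_e10cd8_co.Uni Real

theorem main_c1 {t L M a h : ℝ} (t0 : 0 < t) (t1 : t ≤ 1 / 16) (L4 : 0 < L)
    (L3 : 25600 ≤ t ^ 2 * L) (M1 : 1 ≤ M) (hm : 16 ≤ t ^ 2 * M) (a2 : a ≤ t * M + 1)
    (h1 : (1 + 2 * t) * M ≤ h) :
    a * (M * L + M + 1) + h * ((1 - t) * M * L + M) ≤ h * ((1 - t ^ 2) * M * L) := by
  have M0 : 0 ≤ M := by linarith
  have tl : 0 ≤ t * L := by positivity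
  have ml : 0 ≤ M * L := by positivity
  have mm : 0 ≤ M * M := by positivity
  have m2 : M ≤ M * M := by linarith [mul_le_mul_of_nonneg_right M1 M0]
  have v1 : 0 ≤ t ^ 2 * (M * (M * L)) := by positivity
  have u1 : 0 ≤ M * ((t - t ^ 2) * L - 1) :=
    mul_nonneg M0 (by linarith [mul_le_mul_of_nonneg_right t1 tl])
  have u2 : a * (M * L + M + 1) ≤ (t * M + 1) * (M * L + M + 1) :=
    mul_le_mul_of_nonneg_right a2 (by positivity)
  linarith [mul_le_mul_of_nonneg_right h1 u1, mul_le_mul_of_nonneg_right hm ml,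
    mul_le_mul_of_nonneg_right L3 mm, mul_le_mul_of_nonneg_right t1 v1,
    mul_le_mul_of_nonneg_right t1 M0, mul_le_mul_of_nonneg_right t1 mm]

theorem main_c2 {t L M h : ℝ} (t0 : 0 < t) (t1 : t ≤ 1 / 16) (L4 : 0 < L)
    (L3 : 25600 ≤ t ^ 2 * L) (M1 : 1 ≤ M) (m1 : 96 ≤ t * M) (h2 : h ≤ (1 + 2 * t) * M + 1) :
    3 + ((t * M + 1) * L + M) ≤ (h + 1) * -((1 - 4 * t) * L) + (1 - t ^ 2) * M * L := by
  have tl : 0 ≤ t * L := by positivity
  have u3 : h * ((1 - 4 * t) * L) ≤ ((1 + 2 * t) * M + 1) * ((1 - 4 * t) * L) :=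
    mul_le_mul_of_nonneg_right h2 (mul_nonneg (by linarith) L4.le)
  linarith [mul_le_mul_of_nonneg_right m1 L4.le,
    mul_le_mul_of_nonneg_right L3 (zero_le_one.trans M1)]

theorem main_c3 {t L M l r : ℝ} (L4 : 0 < L) (M0 : 0 ≤ M) (hm : 16 ≤ t ^ 2 * M) (L2 : l ≤ 3 * L)
    (r0 : 0 ≤ r) (r1 : 12 * r ≤ t ^ 2 * l) :
    (1 - t ^ 2) * M * L + t ^ 2 * M * L / 2 ≤ (M - 1) * L - (M - 1) * r - l := by
  have v2 : 4 * r ≤ t ^ 2 * L := by linarith [mul_le_mul_of_nonneg_left L2 (sq_nonneg t)]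
  linarith [mul_le_mul_of_nonneg_right hm L4.le, mul_le_mul_of_nonneg_right v2 M0]

theorem main_c4 {t L l : ℝ} (t0 : 0 < t) (t1 : t ≤ 1 / 16) (l0 : 0 ≤ l)
    (L1 : (1 / 3 + 8 * t) * l ≤ L) :
    2 * (2 * -((1 - 4 * t) * L) + l) ≤ l - L + 2 * -(t * l) := by
  have tl : 0 ≤ t * l := by positivity
  linarith [mul_le_mul_of_nonneg_left L1 (by linarith : 0 ≤ 3 - 16 * t),
    mul_le_mul_of_nonneg_right t1 tl]

theorem main_c5 {t L M l E z : ℝ} (t0 : 0 < t) (M0 : 0 ≤ M) (L2 : l ≤ 3 * L)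
    (hl3 : 10 ^ 12 ≤ t ^ 4 * l) (l0 : 0 ≤ l) (z0 : 0 ≤ z) (z1 : z * (t * l) ≤ 1)
    (E1 : E ^ 2 ≤ M * z ^ 2) (E2 : 1 ≤ M * z ^ 2) :
    100 * (1 + 13824 * E) ^ 2 * l ^ 2 ≤ t ^ 2 * M * L / 4 := by
  have t3 : 0 < t ^ 2 := by positivity
  have a : (1 + 13824 * E) ^ 2 ≤ 400000000 * (M * z ^ 2) := by
    linarith [sq_nonneg (1 - 13824 * E)]
  have b : (z * (t * l)) ^ 2 ≤ 1 := pow_le_one₀ (by positivity) z1
  have c : 160000000000 ≤ t ^ 4 * L := by
    linarith [mul_le_mul_of_nonneg_left L2 (by positivity : 0 ≤ t ^ 4)]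
  refine le_of_mul_le_mul_left ?_ t3
  linarith [mul_le_mul_of_nonneg_right a (by positivity : 0 ≤ t ^ 2 * l ^ 2),
    mul_le_mul_of_nonneg_left b M0, mul_le_mul_of_nonneg_left c M0]

theorem main_c6 {t L M n : ℝ} (t0 : 0 < t) (t1 : t ≤ 1 / 16) (n0 : 0 < n) (M0 : 0 < M)
    (L0 : L = log n - log M) (L1 : (1 / 3 + 8 * t) * log n ≤ L) (l0 : 0 ≤ log n)
    (hm1 : (1 / 2 - 4 * t) * log n ≤ log M) (hl3 : 10 ^ 12 ≤ t ^ 4 * log n) :
    100 * (1 + 1536 * (3 * exp (-((1 - 4 * t) * L))) ^ 2 * n) ^ 2 * log n ^ 2 ≤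
      t ^ 2 * M * L / 4 := by
  have tl : 0 ≤ t * log n := by positivity
  have e : 1536 * (3 * exp (-((1 - 4 * t) * L))) ^ 2 * n =
      13824 * exp (2 * -((1 - 4 * t) * L) + log n) := by
    rw [exp_add, exp_log n0, two_mul (-((1 - 4 * t) * L)), exp_add]
    ring
  have f : M * exp (-(t * log n)) ^ 2 = exp (log n - L + 2 * -(t * log n)) := by
    rw [exp_add, L0, sub_sub_cancel, exp_log M0, two_mul (-(t * log n)), exp_add, sq]
  rw [e]
  refine main_c5 (z := exp (-(t * log n))) t0 M0.le (by linarith) hl3 l0 (exp_pos _).le ?_ ?_ ?_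
  · rw [exp_neg, inv_mul_le_iff₀ (exp_pos _)]
    linarith [add_one_le_exp (t * log n)]
  · rw [f, sq, ← exp_add, exp_le_exp]
    linarith [main_c4 t0 t1 l0 L1]
  · rw [f]
    exact one_le_exp (by linarith [mul_le_mul_of_nonneg_right t1 l0])

variable {V : Type} [DecidableEq V]

theorem big2 (A : V → V → Prop) (hA : ∀ v, ¬ A v v) {n : ℕ}
    (hn : ∀ S, Ind A S → (S.card : ℝ) ≤ n) {t C : ℝ} (t0 : 0 < t) (t1 : t ≤ 1 / 16)
    (hC : 172032 ≤ t ^ 2 * C) (hl : C ≤ log n) (hl2 : 12 * log (log n) ≤ t ^ 2 * log n)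
    (hl3 : 10 ^ 12 ≤ t ^ 4 * log n) {m : ℕ} (hm1 : (1 / 2 - 4 * t) * log n ≤ log (m + 1))
    (hm2 : log (m + 1) ≤ (2 / 3 - 8 * t) * log n)
    (ih : ∀ j ≤ m, ∀ W, ¬ HasT A j W → (W.card : ℝ) ≤ GB C n j) (U : Finset V)
    (hU : ¬ HasT A (m + 1) U) : (U.card : ℝ) ≤ GB C n (m + 1) := by
  set M : ℝ := m + 1 with hM
  have M1 : 1 ≤ M := by rw [hM]; linarith [Nat.cast_nonneg (α := ℝ) m]
  have M0 : 0 ≤ M := by linarith
  have t2 : t ^ 2 ≤ t / 16 := by linarith [mul_le_mul_of_nonneg_right t1 t0.le]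
  have t3 : 0 < t ^ 2 := by positivity
  have C0 : 0 < C := (mul_pos_iff_of_pos_left t3).1 (by linarith)
  have C1 : 172032 ≤ C := by
    linarith [mul_le_mul_of_nonneg_right (by linarith : t ^ 2 ≤ 1) C0.le]
  have l1 : 172032 ≤ t ^ 2 * log n := hC.trans (mul_le_mul_of_nonneg_left hl t3.le)
  have l2 : 172032 ≤ log n := C1.trans hl
  have l0 : 0 < log n := by linarith
  have n0 : (0 : ℝ) < n := by
    rcases (Nat.cast_nonneg (α := ℝ) n).eq_or_lt with e | e
    · rw [← e, log_zero] at l0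
      exact absurd l0 (lt_irrefl _)
    · exact e
  set L := log (n / M) with hL
  have M3 : 0 < M := one_pos.trans_le M1
  have L0 : L = log n - log M := log_div n0.ne' M3.ne'
  have lM : 0 ≤ log M := log_nonneg M1
  have tl0 : 0 ≤ t * log n := by positivity
  have L1 : (1 / 3 + 8 * t) * log n ≤ L := by linarith only [L0, hm2]
  have L2 : log n ≤ 3 * L := by linarith only [L1, tl0]
  have L3 : 25600 ≤ t ^ 2 * L := by linarith only [l1, mul_le_mul_of_nonneg_left L2 t3.le]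
  have L4 : 0 < L := by linarith only [L2, l0]
  have L5 : L ≤ log n := by linarith only [L0, lM]
  have t4 : 0 ≤ 1 - t ^ 2 := by linarith only [t1, t2]
  have M2 : log n / 4 ≤ M := by
    linarith only [hm1, log_le_sub_one_of_pos M3, mul_le_mul_of_nonneg_right t1 l0.le]
  have hm : 1600 ≤ t ^ 2 * M := by linarith only [l1, mul_le_mul_of_nonneg_left M2 t3.le]
  have m1 : 96 ≤ t * M := by linarith only [hm, mul_le_mul_of_nonneg_right t2 M0]
  have m2 : t * M ≤ M / 16 := by linarith only [mul_le_mul_of_nonneg_right t1 M0]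
  obtain ⟨a, ha⟩ : ∃ a, ⌈t * M⌉₊ = a + 1 :=
    Nat.exists_eq_succ_of_ne_zero (Nat.ceil_pos.2 (mul_pos t0 M3)).ne'
  have a1 : t * M ≤ (a + 1 : ℕ) := ha ▸ Nat.le_ceil _
  have a2 : ((a + 1 : ℕ) : ℝ) ≤ t * M + 1 := ha ▸ (Nat.ceil_lt_add_one (mul_pos t0 M3).le).le
  have a3 : a + 1 ≤ m := by
    have : ((a + 1 : ℕ) : ℝ) ≤ m := by linarith only [a2, m1, m2, hM]
    exact_mod_cast this
  have b1 : ((m - a : ℕ) : ℝ) ≤ (1 - t) * M := by
    rw [Nat.cast_sub (by omega)]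
    push_cast at a1
    linarith only [a1, hM]
  set h := ⌈(1 + 2 * t) * M⌉₊ with hh
  have h1 : (1 + 2 * t) * M ≤ h := Nat.le_ceil _
  have h2 : (h : ℝ) ≤ (1 + 2 * t) * M + 1 := (Nat.ceil_lt_add_one (by positivity)).le
  have ml : 0 ≤ M * L := by positivity
  have tl : 0 ≤ t * L := by positivity
  have tL : t * L ≤ L / 16 := by linarith only [mul_le_mul_of_nonneg_right t1 L4.le]
  have gb : ∀ j : ℕ, GB C n j ≤ exp (j * L + M) :=
    GB_le C0.le hl (by linarith only [l2]) n0 M3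
  have u0 : exp ((1 - t ^ 2) * M * L + t ^ 2 * M * L / 2) ≤ GB C n m := by
    refine le_trans ?_ (le_GB (by linarith only [C1]) (by linarith only [l2]) n0 hM.symm)
    rw [exp_le_exp, show (m : ℝ) = M - 1 by rw [hM]; ring]
    exact main_c3 L4 M0 (by linarith only [hm]) L2 (log_nonneg (by linarith only [l2])) hl2
  have x0 : 0 ≤ (1 - t ^ 2) * M * L := mul_nonneg (mul_nonneg t4 M0) L4.le
  have F1 : 1 ≤ GB C n m := (one_le_exp (add_nonneg x0 (by positivity))).trans u0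
  have q1 : 6 * M * log n ≤ C * n := by
    have e : (n : ℝ) = M * exp L := by
      rw [hL, exp_log (by positivity)]
      field_simp
    have f : log n / 3 ≤ exp L := by linarith only [L2, add_one_le_exp L]
    have g : 18 * (M * (log n / 3)) ≤ C * (M * exp L) :=
      mul_le_mul (by linarith only [C1]) (mul_le_mul_of_nonneg_left f M0) (by positivity) C0.le
    rw [← e] at g
    linarith only [g]
  have e1 : 6 * M * log n / (C * n) * GB C n (m + 1) = 6 * GB C n m := by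
    unfold GB
    rw [Nat.factorial_succ, pow_succ, hM]
    push_cast
    field_simp
  have e2 : 6 * M * log n / (C * n) * n = 6 * M * log n / C := by field_simp
  have q0 : 0 ≤ 6 * M * log n / (C * n) := by positivity
  have q2 : 6 * M * log n / (C * n) ≤ 1 := (div_le_one (by positivity)).2 q1
  have G0 : 0 ≤ GB C n (m + 1) := by unfold GB; positivity
  have G1 : GB C n (m + 1) ≤ exp (M * L + M) := by
    have := gb (m + 1)
    rwa [Nat.cast_succ] at this
  have G2 : GB C n m ≤ GB C n (m + 1) := by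
    linarith only [e1, G0, mul_le_mul_of_nonneg_right q2 G0]
  have c6 := main_c6 t0 t1 n0 M3 L0 L1 l0.le hm1 hl3
  clear_value h L M
  clear hh hL ha
  by_contra k
  obtain ⟨U', s1, s2⟩ := exists_subset_card_eq (s := U) (n := ⌊GB C n (m + 1)⌋₊ + 1)
    ((Nat.floor_lt G0).2 (not_le.1 k))
  have N1 : GB C n (m + 1) ≤ U'.card := by
    rw [s2, Nat.cast_succ]
    exact (Nat.lt_floor_add_one _).le
  have N2 : (U'.card : ℝ) ≤ exp (M * L + M + 1) := by
    rw [s2, Nat.cast_succ, exp_add _ 1]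
    have y : 1 ≤ exp (M * L + M) := one_le_exp (by positivity)
    have z : 2 ≤ exp 1 := by linarith only [add_one_le_exp 1]
    linarith only [y, G1, Nat.floor_le G0, mul_le_mul_of_nonneg_left z (zero_le_one.trans y)]
  refine vstep A hA hn (m := m) (a := a) (b := m - a) (h := h)
    (B1 := exp ((t * M + 1) * L + M)) (B2 := exp ((1 - t) * M * L + M)) (F := GB C n m)
    (D := exp (-((1 - 4 * t) * L))) (X := exp ((1 - t ^ 2) * M * L))
    (q := 6 * M * log n / (C * n)) (by omega) (fun W hW => (ih _ a3 W hW).trans ((gb _).trans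
      (exp_le_exp.2 (by linarith only [mul_le_mul_of_nonneg_right a2 L4.le]))))
    (fun W hW => (ih _ (by omega) W hW).trans ((gb _).trans
      (exp_le_exp.2 (by linarith only [mul_le_mul_of_nonneg_right b1 L4.le])))) (ih m le_rfl)
    U' (fun z => hU (hasT_sub s1 z)) (by linarith only [l2]) ?_ ?_ ?_ q2 F1
    (by linarith only [e1, mul_le_mul_of_nonneg_left N1 q0]) ?_ ?_ ?_ ?_
  · have z : 1 ≤ exp (-((1 - 4 * t) * L) + log n) := one_le_exp (by linarith only [L5, tl])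
    rw [exp_add, exp_log n0] at z
    linarith only [z]
  · rw [exp_neg, ← div_eq_mul_inv, div_le_one (exp_pos _)]
    linarith only [tL, L2, l2, add_one_le_exp ((1 - 4 * t) * L)]
  · rw [e2, le_div_iff₀ C0]
    linarith only [hl, l0, mul_le_mul_of_nonneg_right M1 l0.le]
  · rw [← exp_add]
    refine one_le_exp ?_
    linarith only [tl, mul_le_mul_of_nonneg_left M1 (mul_nonneg t4 L4.le),
      mul_le_mul_of_nonneg_right t2 L4.le]
  · refine (mul_le_mul_of_nonneg_right (pow_le_pow_left₀ (Nat.cast_nonneg _) N2 _)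
      (by positivity)).trans ?_
    rw [← exp_nat_mul, ← exp_nat_mul, ← exp_nat_mul, ← exp_add, exp_le_exp]
    exact main_c1 t0 t1 L4 L3 M1 (by linarith only [hm]) a2 h1
  · rw [← exp_nat_mul, ← exp_add, Nat.cast_succ]
    have u1 : 1 ≤ exp ((t * M + 1) * L + M) := one_le_exp (by positivity)
    have u2 : 4 ≤ exp 3 := by linarith only [add_one_le_exp 3]
    have u4 := exp_le_exp.2 (main_c2 t0 t1 L4 L3 M1 m1 h2)
    rw [exp_add 3] at u4
    linarith only [u1, u4, mul_le_mul_of_nonneg_right u2 (zero_le_one.trans u1)]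
  · refine le_trans ?_ (u0.trans (G2.trans N1))
    rw [← exp_add, exp_le_exp]
    have z : 6 * M * log n / C ≤ t ^ 2 * M * L / 256 := by
      rw [div_le_iff₀ C0]
      linarith only [ml, mul_le_mul_of_nonneg_right hC ml, mul_le_mul_of_nonneg_right L2 M0]
    linarith only [z, e2, c6]

theorem all_m2 (A : V → V → Prop) (hA : ∀ v, ¬ A v v) {n : ℕ}
    (hn : ∀ S, Ind A S → (S.card : ℝ) ≤ n) {t C : ℝ} (t0 : 0 < t) (t1 : t ≤ 1 / 16)
    (hC : 172032 ≤ t ^ 2 * C) (hl : C ≤ log n) (hl2 : 12 * log (log n) ≤ t ^ 2 * log n)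
    (hl3 : 10 ^ 12 ≤ t ^ 4 * log n) (h : 32 ^ 8 ≤ n) (m : ℕ) :
    log m ≤ (2 / 3 - 8 * t) * log n → ∀ U, ¬ HasT A m U → (U.card : ℝ) ≤ GB C n m := by
  have t3 : 0 < t ^ 2 := by positivity
  have l0 : 0 ≤ log n := log_natCast_nonneg n
  have l1 : 0 ≤ t ^ 2 * log n := by positivity
  induction m using Nat.strong_induction_on with
  | _ m ih =>
  intro hm U hU
  by_cases k : log m ≤ (1 / 2 - 4 * t) * log n
  · exact all_m A hA hn t0 (by linarith) hC hl (by linarith) h m k U hU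
  rcases m with _ | m
  · exact absurd ⟨Fin.elim0, fun i => i.elim0, fun i => i.elim0⟩ hU
  refine big2 A hA hn t0 t1 hC hl hl2 hl3 (by exact_mod_cast (not_le.1 k).le)
    (by exact_mod_cast hm) (fun j hj => ih j (by omega) ?_) U hU
  rcases j with _ | j
  · rw [Nat.cast_zero, log_zero]
    exact mul_nonneg (by linarith) l0
  · exact (log_le_log (by positivity) (Nat.cast_le.2 (by omega))).trans hm

/-- the upper bound, uniform for `m ≤ n ^ (2 / 3 - δ)` -/
theorem upperV {δ : ℝ} (hδ : 0 < δ) : ∃ C : ℝ, 1 ≤ C ∧ ∃ n₀ : ℕ, ∀ n j N : ℕ, n₀ ≤ n →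
    ((j + 2 : ℕ) : ℝ) ≤ (n : ℝ) ^ (2 / 3 - δ) →
    C ^ (j + 2) * (n : ℝ) ^ (j + 1) / ((j + 2).factorial * log n ^ j) < N →
      ∀ G : Digraph (Fin N), (∀ v, ¬ G.Adj v v) →
      (∃ S : Finset (Fin N), S.card = n ∧ ∀ u ∈ S, ∀ v ∈ S, ¬ G.Adj u v) ∨
      ∃ f : Fin (j + 2) → Fin N, Function.Injective f ∧ ∀ i j, i < j → G.Adj (f i) (f j) := by
  obtain ⟨t, t0, t1, t2⟩ : ∃ t : ℝ, 0 < t ∧ t ≤ 1 / 16 ∧ 8 * t ≤ δ :=
    ⟨min (1 / 16) (δ / 8), by positivity, min_le_left _ _,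
      by linarith [min_le_right (1 / 16) (δ / 8)]⟩
  have t3 : 0 < t ^ 2 := by positivity
  have T := tendsto_log_atTop.comp (tendsto_natCast_atTop_atTop (R := ℝ))
  obtain ⟨n₀, h⟩ := Filter.eventually_atTop.1 (((T.eventually_ge_atTop (172032 / t ^ 2)).and
    (T.eventually_ge_atTop (10 ^ 12 / t ^ 2 / t ^ 2))).and (Filter.eventually_ge_atTop (32 ^ 8)))
  refine ⟨172032 / t ^ 2, (one_le_div t3).2 (by nlinarith), n₀, fun n j N hn hj hN G hG => ?_⟩
  obtain ⟨⟨h1, h2⟩, h3⟩ := h n hn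
  simp only [Function.comp] at h1 h2
  have n0 : (0 : ℝ) < n := by exact_mod_cast (by omega : 0 < n)
  have l0 : 0 < log n := lt_of_lt_of_le (by positivity) h1
  rw [div_le_iff₀ t3] at h2
  by_contra k
  rw [not_or] at k
  have a := all_m2 G.Adj hG (n := n) (fun S hS => ?_) t0 t1 (C := 172032 / t ^ 2)
    (by rw [mul_div_cancel₀ _ t3.ne']) h1 ?_ ?_ h3 (j + 2) ?_ univ
    fun ⟨f, _, hf⟩ => k.2 ⟨f, ?_, hf⟩
  · rw [card_univ, Fintype.card_fin] at a
    refine absurd (a.trans (le_of_eq ?_)) (not_le.2 hN)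
    unfold GB
    rw [mul_div_assoc, mul_pow, div_pow (n : ℝ)]
    field_simp
    ring
  · by_contra c
    obtain ⟨S', s1, s2⟩ := exists_subset_card_eq (s := S) (n := n)
      (by exact_mod_cast (not_le.1 c).le)
    exact k.1 ⟨S', s2, fun u hu v hv => hS u (s1 hu) v (s1 hv)⟩
  · have e : log (log n) = log (t ^ 2 * log n / 24) + log (24 / t ^ 2) := by
      rw [← log_mul (by positivity) (by positivity)]
      congr 1
      field_simp
    have u1 := log_le_sub_one_of_pos (show 0 < t ^ 2 * log n / 24 by positivity)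
    have u2 := log_le_sub_one_of_pos (show 0 < 24 / t ^ 2 by positivity)
    have u3 : 10 ^ 12 / t ^ 2 = 10 ^ 12 * (1 / t ^ 2) := by ring
    have u4 : 24 / t ^ 2 = 24 * (1 / t ^ 2) := by ring
    have u5 : 0 < 1 / t ^ 2 := by positivity
    linarith
  · rw [div_le_iff₀ t3] at h2
    linarith
  · have := log_le_log (by positivity) hj
    rw [log_rpow n0] at this
    exact this.trans (mul_le_mul_of_nonneg_right (by linarith) l0.le)
  · intro a b e
    by_contra c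
    rcases lt_or_gt_of_ne c with t | t
    · exact hG _ (e ▸ hf a b t)
    · exact hG _ (e ▸ hf b a t)

end Pool.Agent.Work.MP_e10cd8_co.Up
end

-- merged part: Pool.Agent.Work.MP_e10cd8_co.Far.Main
section
/-! The upper bound for all `m ≤ n / 2`. -/

namespace Pool.Agent.Work.MP_e10cd8_co.Far
open Finset Pool.Agent.Work.MP_e10cd8_co.Four Pool.Agent.Work.MP_e10cd8_co.Upper
  Pool.Agent.Work.MP_e10cd8_co.Uni Pool.Agent.Work.MP_e10cd8_co.Up Real

/-- the bound -/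
noncomputable def GF (C n : ℝ) (j : ℕ) : ℝ :=
  (C * n / log (n / j)) ^ j / j.factorial * (log (n / j) ^ 2 / n)

theorem main_anti {n M : ℝ} {j : ℕ} (hn : 0 < n) (hj : 0 < j) (hM : (j : ℝ) ≤ M) :
    log (n / M) ≤ log (n / j) ∧ log (n / j) ≤ log n := by
  have j1 : (1 : ℝ) ≤ j := by exact_mod_cast hj
  exact ⟨log_le_log (div_pos hn (by linarith)) (div_le_div_of_nonneg_left hn.le (by linarith) hM),
    log_le_log (div_pos hn (by linarith)) (div_le_self hn.le j1)⟩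

theorem GF_le {C n M : ℝ} (hC0 : 6 ≤ C) (hC : C ≤ log (n / M)) (hn : 0 < n) (hM : 0 < M)
    {j : ℕ} (hj : (j : ℝ) ≤ M) : GF C n j ≤ exp (j * log (n / M) + M) := by
  rcases j.eq_zero_or_pos with rfl | j0
  · simp [GF, (exp_pos M).le]
  obtain ⟨a1, a2⟩ := main_anti hn j0 hj
  have l0 : 0 < log (n / j) := by linarith
  have a : log (n / j) ^ 2 / n ≤ 1 := by
    have := Real.pow_div_factorial_le_exp (log n) (by linarith) 3
    rw [exp_log hn] at this
    rw [div_le_one hn]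
    norm_num [Nat.factorial] at this
    have k := pow_le_pow_left₀ l0.le a2 2
    nlinarith
  have b : C * n / log (n / j) ≤ n / M * M := by
    rw [div_mul_cancel₀ _ hM.ne', div_le_iff₀ l0]
    nlinarith
  have c := Real.pow_div_factorial_le_exp M hM.le j
  have C0 : 0 ≤ C := by linarith
  rw [exp_add, exp_nat_mul, exp_log (by positivity)]
  calc GF C n j ≤ (n / M * M) ^ j / j.factorial * 1 := by unfold GF; gcongr
    _ = (n / M) ^ j * (M ^ j / j.factorial) := by rw [mul_pow]; ring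
    _ ≤ _ := by gcongr

theorem le_GF {C n M : ℝ} (hC : 1 ≤ C) (h1 : 1 ≤ log (n / M)) (hn : 0 < n) {j : ℕ} (j0 : 0 < j)
    (hM : (j : ℝ) + 1 = M) :
    exp (j * log (n / M) - j * log (2 * log (n / M)) - log n) ≤ GF C n j := by
  have j1 : (1 : ℝ) ≤ j := by exact_mod_cast j0
  have M0 : 0 < M := by linarith
  obtain ⟨a1, -⟩ := main_anti hn j0 (by linarith : (j : ℝ) ≤ M)
  have a2 : log (n / j) ≤ 2 * log (n / M) := by
    have e : n / j ≤ n / M * 2 := by
      rw [div_mul_eq_mul_div, div_le_div_iff₀ (by linarith) M0]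
      nlinarith
    have f := log_le_log (by positivity) e
    rw [log_mul (by positivity) two_ne_zero] at f
    linarith [log_le_sub_one_of_pos (two_pos (α := ℝ))]
  have a : (j.factorial : ℝ) ≤ M ^ j := by
    have : (j.factorial : ℝ) ≤ j ^ j := by exact_mod_cast Nat.factorial_le_pow j
    exact this.trans (pow_le_pow_left₀ (by positivity) (by linarith) _)
  have l0 : 0 < log (n / j) := by linarith
  rw [exp_sub, exp_sub, exp_nat_mul, exp_nat_mul, exp_log (by positivity), exp_log hn,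
    exp_log (by linarith)]
  calc (n / M) ^ j / (2 * log (n / M)) ^ j / n =
        (1 * n / (2 * log (n / M))) ^ j / M ^ j * (1 ^ 2 / n) := by
        rw [div_pow, div_pow, one_mul]; ring
    _ ≤ _ := by unfold GF; gcongr; linarith

theorem GF_eq {C n : ℝ} (hn : 0 < n) (j : ℕ) (l0 : log (n / (j + 2 : ℕ)) ≠ 0) : GF C n (j + 2) =
    C ^ (j + 2) * n ^ (j + 1) / ((j + 2).factorial * log (n / (j + 2 : ℕ)) ^ j) := by
  unfold GF
  rw [mul_div_assoc, mul_pow, div_pow n]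
  field_simp
  ring

theorem GF_step {C n : ℝ} (C0 : 0 < C) (hn : 0 < n) (j : ℕ) (l0 : 0 < log (n / (j + 3 : ℕ))) :
    6 * GF C n (j + 2) ≤ 6 * (j + 3 : ℕ) * log (n / (j + 3 : ℕ)) / (C * n) * GF C n (j + 3) := by
  obtain ⟨a1, -⟩ := main_anti (M := (j + 3 : ℕ)) (j := j + 2) hn (by omega) (by push_cast; linarith)
  have e := GF_eq (C := C) hn (j + 1) l0.ne'
  rw [GF_eq hn j (l0.trans_le a1).ne', show j + 3 = j + 1 + 2 from rfl, e]
  rw [show j + 1 + 2 = j + 3 from rfl]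
  generalize log (n / (j + 3 : ℕ)) = L at *
  calc _ ≤ 6 * (C ^ (j + 2) * n ^ (j + 1) / ((j + 2).factorial * L ^ j)) := by gcongr
    _ = _ := by
      rw [Nat.factorial_succ (j + 2)]
      push_cast
      field_simp
      ring

theorem GB_le_GF {C n : ℝ} (C0 : 0 ≤ C) (hn : 0 < n) {j : ℕ} (j0 : 0 < j) (l0 : 0 < log (n / j)) :
    GB C n j ≤ GF C n j := by
  obtain ⟨-, a2⟩ := main_anti hn j0 le_rfl
  rcases j with _ | _ | j
  · omega
  · simp [GB, GF]
  have e : GB C n (j + 2) = C ^ (j + 2) * n ^ (j + 1) / ((j + 2).factorial * log n ^ j) := by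
    have := (l0.trans_le a2).ne'
    unfold GB
    rw [mul_div_assoc, mul_pow, div_pow n]
    field_simp
    ring
  rw [show j + 1 + 1 = j + 2 from rfl] at *
  rw [e, GF_eq hn j l0.ne']
  gcongr

variable {V : Type} [DecidableEq V]

theorem vstep3 (A : V → V → Prop) (hA : ∀ v, ¬ A v v) {n : ℕ}
    (hn : ∀ S, Ind A S → (S.card : ℝ) ≤ n) {m a b h k : ℕ} {B1 B2 F D X q L : ℝ}
    (hm : a + 1 + b = m + 1) (h1 : ∀ W, ¬ HasT A (a + 1) W → (W.card : ℝ) ≤ B1)
    (h2 : ∀ W, ¬ HasT A b W → (W.card : ℝ) ≤ B2) (h3 : ∀ W, ¬ HasT A m W → (W.card : ℝ) ≤ F)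
    (U : Finset V) (hU : ¬ HasT A (m + 1) U) (D0 : 0 < D) (hF : 1 ≤ F) (hqF : 6 * F ≤ q * U.card)
    (c0 : 1 ≤ D * X) (c1 : (U.card : ℝ) ^ (a + 1) * B2 ^ h ≤ X ^ h)
    (c2 : 2 * (B1 + 1) ≤ D ^ (h + 1) * X) (hL : 1000 ≤ L) (d0 : 4 * (3 * D) ≤ exp (-L))
    (d1 : exp (-L) ≤ 4 * k * q) (d4 : 40 * k * q ≤ 1) (d2 : 1024 * (k : ℝ) ^ 2 ≤ exp (L / 40))
    (d3 : exp (8 * L / 5) ≤ n * q) (c3 : X * exp (2 * 10 ^ 16 * (n * q)) ≤ U.card) : False := by
  have X0 : 0 < X := (mul_pos_iff_of_pos_left D0).1 (lt_of_lt_of_le one_pos c0)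
  have hU' : ¬ HasT (fun x y : U => A x y) (m + 1) univ := fun ⟨f, _, f2⟩ =>
    hU ⟨fun i => f i, fun i => (f i).2, f2⟩
  rw [← Fintype.card_coe] at hqF c1 c3
  have hS := wsp (fun x y : U => A x y) D0 (step_sub U h1) (step_sub U h2) (hm ▸ hU') c0 c1 c2
  have hd : ∑ x : U, ∑ y : U, adj (fun x y : U => A x y) x y ≤
      q * (Fintype.card U : ℝ) ^ 2 / 2 := by
    refine (sum_le_card_nsmul _ _ _ fun x _ => step_deg (step_sub U h3) hU' x).trans ?_
    rw [nsmul_eq_mul, card_univ]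
    nlinarith [mul_le_mul_of_nonneg_left hqF (Nat.cast_nonneg (α := ℝ) (Fintype.card U)),
      mul_le_mul_of_nonneg_left hF (Nat.cast_nonneg (α := ℝ) (Fintype.card U))]
  obtain ⟨S, s1, s2⟩ := ind_far (gr_adj _) (by positivity) X0 hd hS hL d0 d1 d4 d2 d3 c3
  have c := hn (S.map (Function.Embedding.subtype _)) fun u hu v hv k => by
    obtain ⟨x, hx, rfl⟩ := mem_map.1 hu
    obtain ⟨y, hy, rfl⟩ := mem_map.1 hv
    have e := s2 x hx y hy (ind_pos (Or.inr (Or.inl k)))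
    subst e
    exact hA _ k
  rw [card_map, s1] at c
  push_cast at c
  linarith

theorem main_k {C L q : ℝ} (hC : 10 ^ 22 ≤ C) (hL : C ≤ L) (hq : q = 6 * L / C * exp (-L)) :
    ∃ k : ℕ, exp (-(99 / 100 * L - 3)) ≤ 4 * k * q ∧ 40 * k * q ≤ 1 ∧
      1024 * (k : ℝ) ^ 2 ≤ exp ((99 / 100 * L - 3) / 40) := by
  have C0 : 0 < C := by linarith
  have L0 : 0 < L := by linarith
  have q0 : 0 < q := by rw [hq]; positivity
  have e3 : exp 3 ≤ 24 := by
    have a := exp_one_lt_d9.le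
    have b : exp 3 = exp 1 ^ 3 := by rw [← exp_nat_mul]; norm_num
    rw [b]
    exact (pow_le_pow_left₀ (exp_pos _).le a 3).trans (by norm_num)
  have q1 : 6 * exp (-L) ≤ q := by
    rw [hq]
    refine mul_le_mul_of_nonneg_right ?_ (exp_pos _).le
    rw [le_div_iff₀ C0]
    linarith
  have q2 : q ≤ 1 / 80 := by
    have a : L * exp (-L) ≤ 1 := by
      rw [exp_neg, ← div_eq_mul_inv, div_le_one (exp_pos _)]
      linarith [add_one_le_exp L]
    rw [hq, div_mul_eq_mul_div, div_le_iff₀ C0]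
    linarith
  have y0 : 0 ≤ exp (-(99 / 100 * L - 3)) / (4 * q) := by positivity
  have y1 : exp (-(99 / 100 * L - 3)) / (4 * q) ≤ exp (L / 100) := by
    rw [div_le_iff₀ (by positivity), show -(99 / 100 * L - 3) = L / 100 + (3 + -L) by ring, exp_add,
      exp_add]
    refine mul_le_mul_of_nonneg_left ?_ (exp_pos _).le
    linarith [mul_le_mul_of_nonneg_right e3 (exp_pos (-L)).le]
  have y2 : exp (-(99 / 100 * L - 3)) ≤ 1 / 20 := by
    rw [exp_neg, ← one_div]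
    exact one_div_le_one_div_of_le (by norm_num) (by linarith [add_one_le_exp (99 / 100 * L - 3)])
  have k1 := Nat.le_ceil (exp (-(99 / 100 * L - 3)) / (4 * q))
  have k2 := (Nat.ceil_lt_add_one y0).le
  refine ⟨⌈exp (-(99 / 100 * L - 3)) / (4 * q)⌉₊, ?_, ?_, ?_⟩
  · rw [div_le_iff₀ (by positivity)] at k1
    linarith
  · have a := mul_le_mul_of_nonneg_right k2 q0.le
    have b : exp (-(99 / 100 * L - 3)) / (4 * q) * q = exp (-(99 / 100 * L - 3)) / 4 := by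
      field_simp
    rw [add_mul, b] at a
    linarith
  · have a : 1 ≤ exp (L / 100) := one_le_exp (by positivity)
    have b := pow_le_pow_left₀ (Nat.cast_nonneg _) (k2.trans (by linarith :
      exp (-(99 / 100 * L - 3)) / (4 * q) + 1 ≤ 2 * exp (L / 100))) 2
    have c : 4096 ≤ exp ((99 / 100 * L - 3) / 40 - L / 50) := by
      linarith [add_one_le_exp ((99 / 100 * L - 3) / 40 - L / 50)]
    have d : exp ((99 / 100 * L - 3) / 40) =
        exp ((99 / 100 * L - 3) / 40 - L / 50) * exp (L / 100) ^ 2 := by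
      rw [← exp_nat_mul, ← exp_add]
      congr 1
      push_cast
      ring
    rw [d]
    nlinarith [mul_le_mul_of_nonneg_right c (sq_nonneg (exp (L / 100)))]

theorem main_log {L : ℝ} (hL : 10 ^ 22 ≤ L) : 1920000 * log (2 * L) ≤ L := by
  have e : log (2 * L) = log (L / 10 ^ 7) + log (2 * 10 ^ 7) := by
    rw [← log_mul (by positivity) (by positivity)]
    congr 1
    ring
  have u1 := log_le_sub_one_of_pos (show 0 < L / 10 ^ 7 by positivity)
  have u2 := log_le_sub_one_of_pos (show (0 : ℝ) < 2 * 10 ^ 7 by positivity)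
  rw [e]
  generalize log (L / 10 ^ 7) = x at *
  generalize log (2 * 10 ^ 7) = y at *
  norm_num at u1 u2 hL
  linarith

theorem big3 (A : V → V → Prop) (hA : ∀ v, ¬ A v v) {n : ℕ}
    (hn : ∀ S, Ind A S → (S.card : ℝ) ≤ n) {C : ℝ} (hC : 4 * 10 ^ 22 ≤ C) (n0 : (0 : ℝ) < n) {m : ℕ}
    (hl : C ≤ log (n / (m + 1))) (hm1 : 16 / 25 * log n ≤ log (m + 1))
    (ih : ∀ j ≤ m, ∀ W, ¬ HasT A j W → (W.card : ℝ) ≤ GF C n j) (U : Finset V)
    (hU : ¬ HasT A (m + 1) U) : (U.card : ℝ) ≤ GF C n (m + 1) := by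
  set M : ℝ := m + 1 with hM
  obtain ⟨t, ht⟩ : ∃ t : ℝ, t = 1 / 400 := ⟨_, rfl⟩
  have t0 : 0 < t := by rw [ht]; norm_num
  have t1 : t ≤ 1 / 16 := by rw [ht]; norm_num
  have t5 : t ^ 2 = 1 / 160000 := by rw [ht]; norm_num
  have M1 : 1 ≤ M := by rw [hM]; linarith [Nat.cast_nonneg (α := ℝ) m]
  have M0 : 0 ≤ M := by linarith
  have t2 : t ^ 2 ≤ t / 16 := by linarith [mul_le_mul_of_nonneg_right t1 t0.le]
  have t3 : 0 < t ^ 2 := by positivity
  have C0 : 0 < C := by linarith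
  set L := log (n / M) with hL
  have M3 : 0 < M := one_pos.trans_le M1
  have L0 : L = log n - log M := log_div n0.ne' M3.ne'
  have lM : 0 ≤ log M := log_nonneg M1
  have L3 : 25600 ≤ t ^ 2 * L := by rw [t5]; linarith only [hC, hl]
  have L4 : 0 < L := by linarith only [hl, C0]
  have L5 : L ≤ log n := by linarith only [L0, lM]
  have t4 : 0 ≤ 1 - t ^ 2 := by linarith only [t1, t2]
  have M2 : log n / 2 ≤ M := by linarith only [hm1, log_le_sub_one_of_pos M3, L4, L5]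
  have hm : 1600 ≤ t ^ 2 * M := by rw [t5]; linarith only [M2, L5, hC, hl]
  have m1 : 96 ≤ t * M := by linarith only [hm, mul_le_mul_of_nonneg_right t2 M0]
  have m2 : t * M ≤ M / 16 := by linarith only [mul_le_mul_of_nonneg_right t1 M0]
  obtain ⟨a, ha⟩ : ∃ a, ⌈t * M⌉₊ = a + 1 :=
    Nat.exists_eq_succ_of_ne_zero (Nat.ceil_pos.2 (mul_pos t0 M3)).ne'
  have a1 : t * M ≤ (a + 1 : ℕ) := ha ▸ Nat.le_ceil _
  have a2 : ((a + 1 : ℕ) : ℝ) ≤ t * M + 1 := ha ▸ (Nat.ceil_lt_add_one (mul_pos t0 M3).le).le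
  have a3 : a + 2 ≤ m := by
    have : ((a + 2 : ℕ) : ℝ) ≤ m := by
      push_cast at a2 ⊢
      linarith only [a2, m1, m2, hM]
    exact_mod_cast this
  have b1 : ((m - a : ℕ) : ℝ) ≤ (1 - t) * M := by
    rw [Nat.cast_sub (by omega)]
    push_cast at a1
    linarith only [a1, hM]
  set h := ⌈(1 + 2 * t) * M⌉₊ with hh
  have h1 : (1 + 2 * t) * M ≤ h := Nat.le_ceil _
  have h2 : (h : ℝ) ≤ (1 + 2 * t) * M + 1 := (Nat.ceil_lt_add_one (by positivity)).le
  have ml : 0 ≤ M * L := by positivity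
  have tl : 0 ≤ t * L := by positivity
  have gb : ∀ j ≤ m + 1, GF C n j ≤ exp (j * L + M) := fun j hj =>
    GF_le (by linarith only [hC]) hl n0 M3 (by rw [hM]; exact_mod_cast hj)
  have u0 : exp ((1 - t ^ 2) * M * L + t ^ 2 * M * L / 2) ≤ GF C n m := by
    refine le_trans ?_ (le_GF (by linarith only [hC]) (by linarith only [hC, hl]) n0 (by omega)
      hM.symm)
    rw [exp_le_exp, show (m : ℝ) = M - 1 by rw [hM]; ring, ← hL]
    have r0 : 0 ≤ log (2 * L) := log_nonneg (by linarith only [hC, hl])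
    have r1 := mul_le_mul_of_nonneg_left (main_log (L := L) (by linarith only [hC, hl])) M0
    have r2 := mul_le_mul_of_nonneg_right hm L4.le
    have r3 := mul_le_mul_of_nonneg_right L3 M0
    rw [t5] at r2 r3 ⊢
    linarith only [r0, r1, r2, r3, M2, ml, M0]
  have x0 : 0 ≤ (1 - t ^ 2) * M * L := mul_nonneg (mul_nonneg t4 M0) L4.le
  have F1 : 1 ≤ GF C n m := (one_le_exp (add_nonneg x0 (by positivity))).trans u0
  have eq : 6 * M * L / (C * n) = 6 * L / C * exp (-L) := by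
    rw [exp_neg, hL, exp_log (by positivity)]
    field_simp
  obtain ⟨k, k1, k2, k3⟩ := main_k (by linarith only [hC]) hl eq
  have e1 : 6 * GF C n m ≤ 6 * M * L / (C * n) * GF C n (m + 1) := by
    obtain ⟨j, rfl⟩ : ∃ j, m = j + 2 := ⟨m - 2, by omega⟩
    have e : ((j + 3 : ℕ) : ℝ) = M := by rw [hM]; push_cast; ring
    have := GF_step C0 n0 j (by rw [e]; exact L4)
    rwa [e] at this
  have e2 : n * (6 * M * L / (C * n)) = 6 * M * L / C := by field_simp
  have q0 : 0 ≤ 6 * M * L / (C * n) := by positivity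
  have q2 : 6 * M * L / (C * n) ≤ 1 := by
    have a : L * exp (-L) ≤ 1 := by
      rw [exp_neg, ← div_eq_mul_inv, div_le_one (exp_pos _)]
      linarith only [add_one_le_exp L]
    rw [eq, div_mul_eq_mul_div, div_le_one C0]
    linarith only [a, hC]
  have G0 : 0 ≤ GF C n (m + 1) := by
    have : 0 ≤ log (n / (m + 1 : ℕ)) := by rw [Nat.cast_succ]; exact L4.le
    unfold GF
    positivity
  have G1 : GF C n (m + 1) ≤ exp (M * L + M) := by
    have := gb (m + 1) le_rfl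
    rwa [Nat.cast_succ] at this
  have G2 : GF C n m ≤ GF C n (m + 1) := by
    linarith only [e1, G0, mul_le_mul_of_nonneg_right q2 G0]
  have d3 : exp (8 * (99 / 100 * L - 3) / 5) ≤ n * (6 * M * L / (C * n)) := by
    have a : exp (8 * (99 / 100 * L - 3) / 5) ≤ exp (log M) :=
      exp_le_exp.2 (by linarith only [L0, hm1, L4, L5])
    rw [exp_log M3] at a
    rw [e2, le_div_iff₀ C0]
    linarith only [mul_le_mul a hl C0.le M0, ml]
  clear_value h L M
  clear hh hL ha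
  by_contra k
  obtain ⟨U', s1, s2⟩ := exists_subset_card_eq (s := U) (n := ⌊GF C n (m + 1)⌋₊ + 1)
    ((Nat.floor_lt G0).2 (not_le.1 k))
  have N1 : GF C n (m + 1) ≤ U'.card := by
    rw [s2, Nat.cast_succ]
    exact (Nat.lt_floor_add_one _).le
  have N2 : (U'.card : ℝ) ≤ exp (M * L + M + 1) := by
    rw [s2, Nat.cast_succ, exp_add _ 1]
    have y : 1 ≤ exp (M * L + M) := one_le_exp (by positivity)
    have z : 2 ≤ exp 1 := by linarith only [add_one_le_exp 1]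
    linarith only [y, G1, Nat.floor_le G0, mul_le_mul_of_nonneg_left z (zero_le_one.trans y)]
  refine vstep3 A hA hn (m := m) (a := a) (b := m - a) (h := h)
    (B1 := exp ((t * M + 1) * L + M)) (B2 := exp ((1 - t) * M * L + M)) (F := GF C n m)
    (D := exp (-((1 - 4 * t) * L))) (X := exp ((1 - t ^ 2) * M * L))
    (q := 6 * M * L / (C * n)) (by omega) (fun W hW => (ih _ (by omega) W hW).trans
      ((gb _ (by omega)).trans
      (exp_le_exp.2 (by linarith only [mul_le_mul_of_nonneg_right a2 L4.le]))))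
    (fun W hW => (ih _ (by omega) W hW).trans ((gb _ (by omega)).trans
      (exp_le_exp.2 (by linarith only [mul_le_mul_of_nonneg_right b1 L4.le])))) (ih m le_rfl)
    U' (fun z => hU (hasT_sub s1 z)) (exp_pos _) F1
    (by linarith only [e1, mul_le_mul_of_nonneg_left N1 q0]) ?_ ?_ ?_
    (by linarith only [hC, hl]) ?_ k1 k2 k3 d3 ?_
  · rw [← exp_add]
    refine one_le_exp ?_
    linarith only [tl, mul_le_mul_of_nonneg_left M1 (mul_nonneg t4 L4.le),
      mul_le_mul_of_nonneg_right t2 L4.le]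
  · refine (mul_le_mul_of_nonneg_right (pow_le_pow_left₀ (Nat.cast_nonneg _) N2 _)
      (by positivity)).trans ?_
    rw [← exp_nat_mul, ← exp_nat_mul, ← exp_nat_mul, ← exp_add, exp_le_exp]
    exact main_c1 t0 t1 L4 L3 M1 (by linarith only [hm]) a2 h1
  · rw [← exp_nat_mul, ← exp_add, Nat.cast_succ]
    have u1 : 1 ≤ exp ((t * M + 1) * L + M) := one_le_exp (by positivity)
    have u2 : 4 ≤ exp 3 := by linarith only [add_one_le_exp 3]
    have u4 := exp_le_exp.2 (main_c2 t0 t1 L4 L3 M1 m1 h2)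
    rw [exp_add 3] at u4
    linarith only [u1, u4, mul_le_mul_of_nonneg_right u2 (zero_le_one.trans u1)]
  · have u2 : 12 ≤ exp 3 := by
      have a := quadratic_le_exp_of_nonneg (show (0 : ℝ) ≤ 3 / 2 by norm_num)
      have b : exp 3 = exp (3 / 2) ^ 2 := by rw [← exp_nat_mul]; norm_num
      rw [b]
      exact le_trans (by norm_num) (pow_le_pow_left₀ (by norm_num) a 2)
    rw [show -(99 / 100 * L - 3) = 3 + -((1 - 4 * t) * L) by rw [ht]; ring, exp_add]
    linarith only [mul_le_mul_of_nonneg_right u2 (exp_pos (-((1 - 4 * t) * L))).le]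
  · refine le_trans ?_ (u0.trans (G2.trans N1))
    rw [← exp_add, exp_le_exp, e2]
    have z : 6 * M * L / C ≤ t ^ 2 * M * L / (4 * 10 ^ 16) := by
      rw [div_le_iff₀ C0, t5]
      linarith only [ml, mul_le_mul_of_nonneg_right hC ml]
    linarith only [z]

theorem all_m3 (A : V → V → Prop) (hA : ∀ v, ¬ A v v) {n : ℕ}
    (hn : ∀ S, Ind A S → (S.card : ℝ) ≤ n) {C : ℝ} (hC : 4 * 10 ^ 22 ≤ C) (n0 : (0 : ℝ) < n)
    (m : ℕ) : C ≤ log (n / m) → ∀ U, ¬ HasT A m U → (U.card : ℝ) ≤ GF C n m := by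
  induction m using Nat.strong_induction_on with
  | _ m ih =>
  intro hm U hU
  rcases m with _ | m
  · exact absurd ⟨Fin.elim0, fun i => i.elim0, fun i => i.elim0⟩ hU
  obtain ⟨-, a2⟩ := main_anti n0 m.succ_pos le_rfl
  have l1 : C ≤ log n := hm.trans a2
  by_cases k : log (m + 1 : ℕ) ≤ 16 / 25 * log n
  · refine (all_m2 A hA hn (t := 1 / 400) (by norm_num) (by norm_num) (by linarith) l1 ?_
      (by linarith) ?_ _ (by linarith) U hU).trans
      (GB_le_GF (by linarith) n0 m.succ_pos (by linarith))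
    · have a := main_log (L := log n) (by linarith)
      have b := log_le_log (by linarith) (show log n ≤ 2 * log n by linarith)
      linarith
    · have a : (32 ^ 8 : ℝ) ≤ n := by linarith [log_le_sub_one_of_pos n0]
      exact_mod_cast a
  refine big3 A hA hn hC n0 (by exact_mod_cast hm) (by exact_mod_cast (not_le.1 k).le)
    (fun j hj W hW => ?_) U hU
  rcases j.eq_zero_or_pos with rfl | j0
  · exact absurd ⟨Fin.elim0, fun i => i.elim0, fun i => i.elim0⟩ hW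
  exact ih j (by omega) (hm.trans (main_anti n0 j0 (Nat.cast_le.2 (by omega))).1) W hW

/-- the plain neighbourhood induction -/
theorem main_es (A : V → V → Prop) (hA : ∀ v, ¬ A v v) {α β : ℝ} (hα : 1 ≤ α) (hβ : 1 ≤ β)
    (h : 1 / α + 2 / β ≤ 1) (N : ℕ) : ∀ (a b : ℕ) (U : Finset V), a + b = N →
      (∀ S ⊆ U, Ind A S → S.card ≤ a) → ¬ HasT A (b + 1) U → (U.card : ℝ) + 1 ≤ α ^ a * β ^ b := by
  induction N using Nat.strong_induction_on with
  | _ N ih =>
  intro a b U hN h1 h2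
  have p1 : 1 ≤ α ^ a * β ^ b := one_le_mul_of_one_le_of_one_le (one_le_pow₀ hα) (one_le_pow₀ hβ)
  rcases U.eq_empty_or_nonempty with rfl | ⟨v, hv⟩
  · simpa using p1
  rcases a with _ | a
  · have := h1 {v} (singleton_subset_iff.2 hv) fun x hx y hy => by
      rw [mem_singleton.1 hx, mem_singleton.1 hy]; exact hA v
    simp at this
  rcases b with _ | b
  · exact absurd ⟨fun _ => v, fun _ => hv, fun i j h => absurd h (by omega)⟩ h2
  have o1 := ih _ (by omega) (a + 1) b (selIn U fun y => A v y) rfl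
    (fun S s => h1 S (s.trans (selIn_subset _ _))) fun t =>
      h2 (hasT_cons hv (fun w hw => mem_selIn.1 hw) t)
  have o2 := ih _ (by omega) (a + 1) b (selIn U fun y => A y v) rfl
    (fun S s => h1 S (s.trans (selIn_subset _ _))) fun t =>
      h2 (hasT_snoc hv (fun w hw => mem_selIn.1 hw) t)
  have o3 := ih _ (by omega) a (b + 1) (selIn U fun y => y ≠ v ∧ ¬ A v y ∧ ¬ A y v) rfl
    (fun S s i => by
      have k : v ∉ S := fun k => (mem_selIn.1 (s k)).2.1 rfl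
      have := h1 (insert v S) (insert_subset hv (s.trans (selIn_subset _ _))) fun x hx y hy => by
        rcases mem_insert.1 hx with rfl | hx' <;> rcases mem_insert.1 hy with rfl | hy'
        · exact hA _
        · exact (mem_selIn.1 (s hy')).2.2.1
        · exact (mem_selIn.1 (s hx')).2.2.2
        · exact i x hx' y hy'
      rw [card_insert_of_notMem k] at this
      omega) fun t => h2 (hasT_sub (selIn_subset _ _) t)
  have c : U ⊆ insert v (((selIn U fun y => A v y) ∪ selIn U fun y => A y v) ∪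
      selIn U fun y => y ≠ v ∧ ¬ A v y ∧ ¬ A y v) := fun y hy => by
    simp only [mem_insert, mem_union, mem_selIn]
    tauto
  have c1 := (card_le_card c).trans ((card_insert_le _ _).trans (Nat.add_le_add_right
    ((card_union_le _ _).trans (Nat.add_le_add_right (card_union_le _ _) _)) 1))
  have c2 := (Nat.cast_le (α := ℝ)).2 c1
  push_cast at c2
  have e : α ^ (a + 1) * β ^ (b + 1) * (1 / α + 2 / β) =
      α ^ a * β ^ (b + 1) + 2 * (α ^ (a + 1) * β ^ b) := by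
    field_simp
    ring
  linarith [mul_le_mul_of_nonneg_left h (zero_le_one.trans p1)]

theorem main_top (A : V → V → Prop) (hA : ∀ v, ¬ A v v) {n j : ℕ}
    (hn : ∀ S, Ind A S → (S.card : ℝ) ≤ n) {C : ℝ} (hC : 1 ≤ C) (h2 : 2 * (j + 2) ≤ n)
    (hl : log (n / (j + 2 : ℕ)) ≤ C) (U : Finset V) (hU : ¬ HasT A (j + 2) U) : (U.card : ℝ) ≤
      (9 * C * exp C) ^ (j + 2) * n ^ (j + 1) /
        ((j + 2).factorial * log (n / (j + 2 : ℕ)) ^ j) := by
  have f1 : ((j + 2).factorial : ℝ) ≤ ((j + 2 : ℕ) : ℝ) * ((j + 2 : ℕ) : ℝ) ^ (j + 1) := by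
    rw [← pow_succ']
    exact_mod_cast Nat.factorial_le_pow (j + 2)
  have f2 : ((j + 2 : ℕ) : ℝ) ≤ exp C ^ (j + 2) := by
    rw [← exp_nat_mul]
    have := mul_le_mul_of_nonneg_left hC (Nat.cast_nonneg (α := ℝ) (j + 2))
    linarith [add_one_le_exp (((j + 2 : ℕ) : ℝ) * C)]
  have m0 : (2 : ℝ) ≤ (j + 2 : ℕ) := by exact_mod_cast Nat.le_add_left 2 j
  have n1 : 2 * ((j + 2 : ℕ) : ℝ) ≤ n := by exact_mod_cast h2
  have e1 : exp ((j + 2 : ℕ) : ℝ) ≤ 3 ^ (j + 2) := by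
    rw [← exp_one_pow]
    exact pow_le_pow_left₀ (exp_pos _).le (by linarith [exp_one_lt_d9]) _
  have f0 : (0 : ℝ) < (j + 2).factorial := Nat.cast_pos.2 (Nat.factorial_pos _)
  generalize ((j + 2 : ℕ) : ℝ) = m at *
  have n0 : (0 : ℝ) < n := by linarith
  have m1 : 0 < m := by linarith
  have l1 : 0 < log (n / m) := log_pos ((one_lt_div m1).2 (by linarith))
  have a := main_es A hA (α := 1 + m / n) (β := 3 * n / m) (by linarith [div_pos m1 n0])
    ((one_le_div m1).2 (by linarith)) (by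
      rw [div_add_div _ _ (by positivity) (by positivity), div_le_one (by positivity)]
      field_simp
      nlinarith) _ n (j + 1) U rfl (fun S _ i => by exact_mod_cast hn S i) hU
  have b : (1 + m / n) ^ n ≤ exp m := by
    refine (pow_le_pow_left₀ (by positivity) (by linarith [add_one_le_exp (m / n)] :
      1 + m / n ≤ exp (m / n)) n).trans_eq ?_
    rw [← exp_nat_mul, mul_div_cancel₀ _ n0.ne']
  have c : log (n / m) ^ j ≤ C ^ (j + 2) :=
    (pow_le_pow_left₀ l1.le hl j).trans (pow_le_pow_right₀ hC (by omega))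
  have d : (3 : ℝ) ^ (j + 1) ≤ 3 ^ (j + 2) := pow_le_pow_right₀ (by norm_num) (by omega)
  rw [le_div_iff₀ (by positivity)]
  calc (U.card : ℝ) * ((j + 2).factorial * log (n / m) ^ j)
      ≤ 3 ^ (j + 2) * (3 * n / m) ^ (j + 1) * (m * m ^ (j + 1) * C ^ (j + 2)) := by
        refine mul_le_mul ?_ (by gcongr) (by positivity) (by positivity)
        linarith [mul_le_mul_of_nonneg_right (b.trans e1)
          (show 0 ≤ (3 * n / m) ^ (j + 1) by positivity)]
    _ = 3 ^ (j + 2) * 3 ^ (j + 1) * C ^ (j + 2) * m * n ^ (j + 1) := by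
        rw [div_pow, mul_pow]
        field_simp
    _ ≤ 3 ^ (j + 2) * 3 ^ (j + 2) * C ^ (j + 2) * exp C ^ (j + 2) * n ^ (j + 1) := by gcongr
    _ = _ := by rw [← mul_pow, ← mul_pow, ← mul_pow]; norm_num

/-- the upper bound for all `2 ≤ m ≤ n / 2` -/
theorem upperF : ∃ C : ℝ, 1 ≤ C ∧ ∀ n j N : ℕ, 2 * (j + 2) ≤ n →
    C ^ (j + 2) * (n : ℝ) ^ (j + 1) / ((j + 2).factorial * log (n / (j + 2 : ℕ)) ^ j) < N →
      ∀ G : Digraph (Fin N), (∀ v, ¬ G.Adj v v) →
      (∃ S : Finset (Fin N), S.card = n ∧ ∀ u ∈ S, ∀ v ∈ S, ¬ G.Adj u v) ∨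
      ∃ f : Fin (j + 2) → Fin N, Function.Injective f ∧ ∀ i j, i < j → G.Adj (f i) (f j) := by
  obtain ⟨C, hC⟩ : ∃ C : ℝ, 4 * 10 ^ 22 ≤ C := ⟨_, le_rfl⟩
  have e1 : 1 ≤ exp C := one_le_exp (by linarith)
  have C1 : C ≤ 9 * C * exp C := by nlinarith
  refine ⟨9 * C * exp C, by linarith, fun n j N h2 hN G hG => ?_⟩
  have m0 : (2 : ℝ) ≤ (j + 2 : ℕ) := by exact_mod_cast Nat.le_add_left 2 j
  have n1 : 2 * ((j + 2 : ℕ) : ℝ) ≤ n := by exact_mod_cast h2
  have n0 : (0 : ℝ) < n := by linarith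
  have l1 : 0 < log (n / (j + 2 : ℕ)) := log_pos ((one_lt_div (by linarith)).2 (by linarith))
  by_contra k
  rw [not_or] at k
  have hn : ∀ S, Ind G.Adj S → (S.card : ℝ) ≤ n := fun S hS => by
    by_contra c
    obtain ⟨S', s1, s2⟩ := exists_subset_card_eq (s := S) (n := n)
      (by exact_mod_cast (not_le.1 c).le)
    exact k.1 ⟨S', s2, fun u hu v hv => hS u (s1 hu) v (s1 hv)⟩
  have hU : ¬ HasT G.Adj (j + 2) univ := fun ⟨f, _, hf⟩ => k.2 ⟨f, fun a b e => by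
    by_contra c
    rcases lt_or_gt_of_ne c with t | t
    · exact hG _ (e ▸ hf a b t)
    · exact hG _ (e ▸ hf b a t), hf⟩
  refine absurd ?_ (not_le.2 hN)
  rcases le_total C (log (n / (j + 2 : ℕ))) with hl | hl
  · have a := all_m3 G.Adj hG hn hC n0 (j + 2) hl univ hU
    rw [card_univ, Fintype.card_fin, GF_eq n0 j l1.ne'] at a
    refine a.trans ?_
    have C0 : 0 ≤ C := by linarith
    gcongr
  · have a := main_top G.Adj hG hn (by linarith) h2 hl univ hU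
    rwa [card_univ, Fintype.card_fin] at a

end Pool.Agent.Work.MP_e10cd8_co.Far
end
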